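import Mathlib.Computability.TuringMachine.Computable
import Mathlib.Algebra.Polynomial.Eval.Defs

/-!
# Complexity classes over Mathlib's multi-stack Turing machines

All complexity notions below are defined literally through Mathlib's
`Turing.TM2ComputableInPolyTime`.  Instances of decision problems are encoded as strings of
booleans.
-/

namespace Pool.Agent.Helper81.CC

open Turing Computability

/-- `f` is computable in polynomial time by a multi-stack Turing machine with respect to the
encodings `ea` and `eb` of inputs and outputs by strings of booleans. -/
def PolyTimeComputable {α β : Type} (ea : α → List Bool) (eb : β → List Bool) (f : α → β) :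
    Prop :=
  Nonempty (TM2ComputableInPolyTime ea eb f)

/-- The standard pairing of strings: each letter of `x` is preceded by `true`, then comes `false`,
then `y`. -/
def pairEnc (x y : List Bool) : List Bool := (x.flatMap fun b => [true, b]) ++ false :: y

/-- A decision problem: a type of instances, an injective encoding of the instances by strings of
booleans, and the set of yes-instances. -/
structure Problem where
  /-- the instances -/
  Inst : Type
  /-- the encoding of instances by strings -/
  enc : Inst → List Bool
  /-- the encoding is injective -/
  enc_inj : Function.Injective enc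
  /-- the yes-instances -/
  Yes : Inst → Prop

/-- The complementary problem. -/
def Problem.compl (A : Problem) : Problem where
  Inst := A.Inst
  enc := A.enc
  enc_inj := A.enc_inj
  Yes x := ¬ A.Yes x

/-- Polynomial-time decidable problems. -/
def Problem.InP (A : Problem) : Prop :=
  ∃ f : A.Inst → Bool, PolyTimeComputable A.enc encodeBool f ∧ ∀ x, A.Yes x ↔ f x = true

/-- Problems in NP: there is a polynomial-time verifier `V` and a polynomial `p` such that `x` is
a yes-instance iff some certificate `y` of length at most `p(|x|)` is accepted by `V`. -/
def Problem.InNP (A : Problem) : Prop :=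
  ∃ (V : A.Inst × List Bool → Bool) (p : Polynomial ℕ),
    PolyTimeComputable (fun z : A.Inst × List Bool => pairEnc (A.enc z.1) z.2) encodeBool V ∧
    ∀ x, A.Yes x ↔ ∃ y : List Bool, y.length ≤ p.eval (A.enc x).length ∧ V (x, y) = true

/-- Problems in coNP. -/
def Problem.InCoNP (A : Problem) : Prop := A.compl.InNP

/-- Polynomial-time many-one reducibility. -/
def Problem.Reduces (A B : Problem) : Prop :=
  ∃ f : A.Inst → B.Inst, PolyTimeComputable A.enc B.enc f ∧ ∀ x, A.Yes x ↔ B.Yes (f x)

/-- NP-hardness under polynomial-time many-one reductions. -/
def Problem.NPHard (B : Problem) : Prop := ∀ A : Problem, A.InNP → A.Reduces B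

/-- coNP-hardness under polynomial-time many-one reductions. -/
def Problem.CoNPHard (B : Problem) : Prop := ∀ A : Problem, A.InCoNP → A.Reduces B

/-- NP-completeness. -/
def Problem.NPComplete (B : Problem) : Prop := B.InNP ∧ B.NPHard

/-- coNP-completeness. -/
def Problem.CoNPComplete (B : Problem) : Prop := B.InCoNP ∧ B.CoNPHard

end Pool.Agent.Helper81.CC
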