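import Mathlib.Tactic
import Pool.Agent.Helper81.CxDefs

/-!
Coding of structured data by binary trees and strings.
-/

namespace Pool.Agent.Helper81.CC

/-- Binary trees; all structured instances are first coded as binary trees. -/
inductive Data : Type
  | nil : Data
  | cons : Data → Data → Data
  deriving DecidableEq

/-- The (prefix-free) code of a binary tree: `nil ↦ false`, `cons a b ↦ true (code a) (code b)`. -/
def Data.enc : Data → List Bool
  | .nil => [false]
  | .cons a b => true :: (a.enc ++ b.enc)

theorem Data.enc_append_inj : ∀ (a b : Data) (s t : List Bool), a.enc ++ s = b.enc ++ t →
    a = b ∧ s = t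
  | .nil, .nil, s, t, h => ⟨rfl, by simpa [Data.enc] using h⟩
  | .nil, .cons _ _, s, t, h => by simp [Data.enc] at h
  | .cons _ _, .nil, s, t, h => by simp [Data.enc] at h
  | .cons a a', .cons b b', s, t, h => by
    simp only [Data.enc, List.cons_append, List.cons.injEq, true_and, List.append_assoc] at h
    obtain ⟨rfl, h1⟩ := Data.enc_append_inj a b _ _ h
    obtain ⟨rfl, h2⟩ := Data.enc_append_inj a' b' _ _ h1
    exact ⟨rfl, h2⟩

theorem Data.enc_injective : Function.Injective Data.enc := fun a b h =>
  (Data.enc_append_inj a b [] [] (by simpa using h)).1

/-- Types whose elements are coded as binary trees. -/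
class ToData (α : Type) where
  /-- the coding by trees -/
  toData : α → Data
  /-- the coding is injective -/
  inj : Function.Injective toData

export ToData (toData)

/-- The encoding by strings of a type whose elements are coded by trees. -/
def encOf (α : Type) [ToData α] (a : α) : List Bool := (toData a).enc

theorem encOf_injective (α : Type) [ToData α] : Function.Injective (encOf α) :=
  Data.enc_injective.comp ToData.inj

instance : ToData Data where
  toData := id
  inj := Function.injective_id

instance : ToData Unit where
  toData _ := .nil
  inj _ _ _ := rfl

instance : ToData Bool where
  toData b := if b then .cons .nil .nil else .nil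
  inj a b h := by cases a <;> cases b <;> simp_all

/-- Unary coding of natural numbers. -/
def natData : ℕ → Data
  | 0 => .nil
  | n + 1 => .cons .nil (natData n)

instance : ToData ℕ where
  toData := natData
  inj := by
    intro a
    induction a with
    | zero => intro b h; cases b with
      | zero => rfl
      | succ b => simp [natData] at h
    | succ a ih => intro b h; cases b with
      | zero => simp [natData] at h
      | succ b => simp only [natData, Data.cons.injEq, true_and] at h; rw [ih h]

/-- Coding of lists. -/
def listData {α : Type} (f : α → Data) : List α → Data
  | [] => .nil
  | a :: l => .cons (f a) (listData f l)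

instance {α : Type} [ToData α] : ToData (List α) where
  toData := listData toData
  inj := by
    intro a
    induction a with
    | nil => intro b h; cases b with
      | nil => rfl
      | cons b l => simp [listData] at h
    | cons a l ih => intro b h; cases b with
      | nil => simp [listData] at h
      | cons b l' =>
        simp only [listData, Data.cons.injEq] at h
        rw [ToData.inj h.1, ih h.2]

instance {α β : Type} [ToData α] [ToData β] : ToData (α × β) where
  toData p := .cons (toData p.1) (toData p.2)
  inj := by
    rintro ⟨a, b⟩ ⟨c, d⟩ h
    simp only [Data.cons.injEq] at h
    rw [ToData.inj h.1, ToData.inj h.2]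

instance {α : Type} [ToData α] : ToData (Option α) where
  toData
    | none => .nil
    | some a => .cons .nil (toData a)
  inj := by
    rintro (_ | a) (_ | b) h
    · rfl
    · simp at h
    · simp at h
    · simp only [Data.cons.injEq, true_and] at h
      rw [ToData.inj h]

instance {α β : Type} [ToData α] [ToData β] : ToData (α ⊕ β) where
  toData
    | .inl a => .cons .nil (toData a)
    | .inr b => .cons (.cons .nil .nil) (toData b)
  inj := by
    rintro (a | a) (b | b) h
    · simp only [Data.cons.injEq, true_and] at h
      rw [ToData.inj h]
    · simp at h
    · simp at h
    · simp only [Data.cons.injEq, true_and] at h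
      rw [ToData.inj h]

instance {n : ℕ} : ToData (Fin n) where
  toData i := toData (i : ℕ)
  inj := ToData.inj.comp Fin.val_injective

instance {α : Type} [ToData α] {p : α → Prop} : ToData (Subtype p) where
  toData a := toData a.1
  inj := ToData.inj.comp Subtype.val_injective

/-- The decision problem with instances of a type coded by trees. -/
def Problem.of (α : Type) [ToData α] (Y : α → Prop) : Problem where
  Inst := α
  enc := encOf α
  enc_inj := encOf_injective α
  Yes := Y

end Pool.Agent.Helper81.CC
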