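import Mathlib.Logic.Encodable.Basic
import Pool.Agent.Helper81.CxData

/-!
# Complexity classes over Mathlib's multi-stack Turing machines: languages and SAT

The definitions of the complexity classes are in `CxDefs`, the coding of structured data is in
`CxData`.
-/

namespace Pool.Agent.Helper81.CC

open Turing Computability

/-- A language over the alphabet `{false, true}` as a decision problem. -/
def Problem.ofLanguage (L : Set (List Bool)) : Problem where
  Inst := List Bool
  enc := id
  enc_inj := Function.injective_id
  Yes x := x ∈ L

/-! ### Propositional formulas in conjunctive normal form -/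

/-- A literal: the variable number `v` with sign `b` (`true` = positive) is `(b, v)`. -/
abbrev Lit := Bool × ℕ

/-- A formula in conjunctive normal form: a list of clauses, a clause being a list of literals. -/
abbrev CNF := List (List Lit)

/-- `a` satisfies `φ`. -/
def CNF.Sat (a : ℕ → Bool) (φ : CNF) : Prop := ∀ c ∈ φ, ∃ l ∈ c, a l.2 = l.1

/-- Satisfiability. -/
def CNF.Satisfiable (φ : CNF) : Prop := ∃ a : ℕ → Bool, CNF.Sat a φ

/-- The problem SAT. -/
def SAT : Problem := Problem.of CNF CNF.Satisfiable

end Pool.Agent.Helper81.CC
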