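import Pool.Agent.Helper81.CompB

/-!
# Structured certificates for membership in NP
-/

namespace Pool.Agent.Helper81.CC

variable {α β γ δ σ : Type} [ToData α] [ToData β] [ToData γ] [ToData δ] [ToData σ]

/-! ### Parsing -/

/-- One step of the parser (which reads the code from right to left). -/
def parseStep (s : List Data) (b : Bool) : List Data :=
  if b = true then (s.head?.bind fun x => s.tail.head?.map fun y => Data.cons x y :: s.tail.tail).getD s
  else Data.nil :: s

/-- Parsing of codes of trees. -/
def parse (l : List Bool) : Data := (l.reverse.foldl parseStep []).headD Data.nil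

theorem parse_aux (d : Data) : ∀ s : List Data, d.enc.reverse.foldl parseStep s = d :: s := by
  induction d with
  | nil => intro s; rfl
  | cons a b iha ihb =>
    intro s
    simp only [Data.enc, List.reverse_cons, List.reverse_append, List.foldl_append, ihb, iha]
    rfl

theorem parse_enc (d : Data) : parse d.enc = d := by
  rw [parse, parse_aux]
  rfl

theorem polyTime_parse : PolyTime parse := by
  have hstep : PolyTime (fun z : List Bool × List Data × Bool => parseStep z.2.1 z.2.2) := by
    unfold parseStep
    fun_prop
  have h := PolyTime.foldl_add (α := List Bool) (l := fun l => l.reverse)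
    (s0 := fun _ => ([] : List Data)) (step := fun _ s b => parseStep s b) (by fun_prop)
    (by fun_prop) hstep (C := fun _ => 2) (PBd.const 2) (by
      intro a s b _
      cases b with
      | false =>
        simp only [parseStep, Bool.false_eq_true, if_false, sz_cons]
        have : sz Data.nil = 1 := rfl
        omega
      | true =>
        rcases s with _ | ⟨x, _ | ⟨y, t⟩⟩
        · simp [parseStep]
        · simp [parseStep]
        · have : sz (Data.cons x y) = sz x + sz y + 1 := by
            simp [sz_def, toData_data, Data.enc]
          simp [parseStep, this]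
          omega)
  exact PolyTime.headD (l := fun l : List Bool => l.reverse.foldl parseStep []) h (by fun_prop)

@[fun_prop]
theorem PolyTime.parse {f : α → List Bool} (hf : PolyTime f) :
    PolyTime (fun a => CC.parse (f a)) := PolyTime.comp polyTime_parse hf

/-- Right spine of a tree. -/
def Data.spine : Data → List Data
  | .nil => []
  | .cons a b => a :: b.spine

theorem toData_spine : ∀ d : Data, toData d.spine = d
  | .nil => rfl
  | .cons a b => by
    rw [Data.spine, toData_cons, toData_spine b]
    rfl

theorem polyTime_spine : PolyTime Data.spine := PolyTime.of_eq fun d => toData_spine d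

@[fun_prop]
theorem PolyTime.spine {f : α → Data} (hf : PolyTime f) :
    PolyTime (fun a => (f a).spine) := PolyTime.comp polyTime_spine hf

/-- Types coded by trees with a polynomial-time decoding. -/
class OfData (α : Type) [ToData α] where
  /-- the decoding -/
  ofData : Data → α
  ofData_toData : ∀ a, ofData (toData a) = a
  poly : PolyTime ofData

export OfData (ofData)

@[fun_prop]
theorem PolyTime.ofData [OfData β] {f : α → Data} (hf : PolyTime f) :
    PolyTime (fun a => (OfData.ofData (f a) : β)) := PolyTime.comp OfData.poly hf

instance : OfData Data := ⟨id, fun _ => rfl, PolyTime.id'⟩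

instance : OfData Unit := ⟨fun _ => (), fun _ => rfl, PolyTime.const ()⟩

instance : OfData Bool := ⟨Data.isCons, fun b => by cases b <;> rfl, PolyTime.isCons_aux⟩

instance : OfData ℕ := ⟨fun d => d.spine.length, fun n => by
  induction n with
  | zero => rfl
  | succ n ih => rw [toData_succ, Data.spine, List.length_cons, ih], by fun_prop⟩

instance [OfData α] : OfData (List α) := ⟨fun d => d.spine.map OfData.ofData, fun l => by
  induction l with
  | nil => rfl
  | cons a l ih => rw [toData_cons, Data.spine, List.map_cons, ih, OfData.ofData_toData], by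
  fun_prop⟩

instance [OfData α] [OfData β] : OfData (α × β) :=
  ⟨fun d => (OfData.ofData d.left, OfData.ofData d.right), fun p => by
    rw [show p = (p.1, p.2) from rfl, toData_pair]
    simp only [Data.left, Data.right, OfData.ofData_toData], by fun_prop⟩

instance [OfData α] : OfData (Option α) :=
  ⟨fun d => if d.isCons = true then some (OfData.ofData d.right) else none, fun o => by
    cases o with
    | none => rfl
    | some a =>
      rw [toData_some]
      simp only [Data.isCons, Data.right, OfData.ofData_toData, if_true], by fun_prop⟩

/-- Membership in NP by structured certificates. -/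
theorem Problem.inNP_of_cert [OfData γ] {Y : α → Prop} {V : α × γ → Bool} (hV : PolyTime V)
    {B : α → ℕ} (hB : PBd B) (h1 : ∀ a, Y a → ∃ c : γ, sz c ≤ B a ∧ V (a, c) = true)
    (h2 : ∀ a c, V (a, c) = true → Y a) : (Problem.of α Y).InNP := by
  obtain ⟨P, hP⟩ := hB
  have hV' : PolyTime (fun z : α × List Bool => V (z.1, (OfData.ofData (parse z.2) : γ))) :=
    PolyTime.comp hV (by fun_prop)
  refine Problem.inNP_of hV' P fun a => ⟨fun ha => ?_, ?_⟩
  · obtain ⟨c, hc, hVc⟩ := h1 a ha
    refine ⟨(toData c).enc, (hc.trans (hP a)), ?_⟩
    simp only [parse_enc, OfData.ofData_toData]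
    exact hVc
  · rintro ⟨y, _, hy⟩
    exact h2 a _ hy

/-! ### More list functions -/

@[fun_prop]
theorem PolyTime.nat_pair {f g : α → ℕ} (hf : PolyTime f) (hg : PolyTime g) :
    PolyTime (fun a => Nat.pair (f a) (g a)) := by
  have : PolyTime (fun a => if f a < g a then g a * g a + f a else f a * f a + f a + g a) := by
    fun_prop
  exact PolyTime.congr this fun a => rfl

omit [ToData β] in
theorem isChain_iff_zip {R : β → β → Prop} : ∀ l : List β,
    l.IsChain R ↔ ∀ p ∈ l.zip l.tail, R p.1 p.2
  | [] => by simp
  | [a] => by simp
  | a :: b :: l => by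
    rw [List.isChain_cons_cons, isChain_iff_zip (b :: l)]
    simp

@[fun_prop]
theorem PolyTime.decide_isChain {R : α → β → β → Prop} [∀ a b c, Decidable (R a b c)]
    {l : α → List β} [∀ a, Decidable ((l a).IsChain (R a))]
    (hR : PolyTime (fun z : α × β × β => decide (R z.1 z.2.1 z.2.2))) (hl : PolyTime l) :
    PolyTime (fun a => decide ((l a).IsChain (R a))) := by
  have h : PolyTime (fun a => decide (∀ p ∈ (l a).zip (l a).tail, R a p.1 p.2)) :=
    PolyTime.decide_ball (p := fun a (p : β × β) => R a p.1 p.2) (by fun_prop) hR
  exact PolyTime.congr h fun a => by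
    rw [decide_eq_decide, isChain_iff_zip]

@[fun_prop]
theorem PolyTime.decide_nodup {l : α → List β} [∀ a, Decidable (l a).Nodup]
    (hl : PolyTime l) : PolyTime (fun a => decide (l a).Nodup) := by
  classical
  have hl' : PolyTime (fun z : α × (β × ℕ) => l z.1) := PolyTime.comp hl (by fun_prop)
  have h : PolyTime (fun a => decide (∀ p ∈ (l a).zipIdx, p.1 ∉ (l a).drop (p.2 + 1))) :=
    PolyTime.decide_ball (p := fun a (p : β × ℕ) => p.1 ∉ (l a).drop (p.2 + 1)) (by fun_prop)
      (PolyTime.decide_not (PolyTime.decide_mem (by fun_prop) (PolyTime.drop (by fun_prop) hl')))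
  refine PolyTime.congr h fun a => ?_
  rw [decide_eq_decide]
  have key : ∀ (l l₀ : List β) (k : ℕ), l = l₀.drop k →
      ((∀ p ∈ l.zipIdx k, p.1 ∉ l₀.drop (p.2 + 1)) ↔ l.Nodup) := by
    intro l
    induction l with
    | nil => intro l₀ k _; simp
    | cons b l ih =>
      intro l₀ k hk
      have h1 : l = l₀.drop (k + 1) := by rw [← List.tail_drop, ← hk]; rfl
      rw [List.zipIdx_cons, List.nodup_cons, ← ih l₀ (k + 1) h1]
      simp [← h1]
  exact key (l a) (l a) 0 (by simp)

@[fun_prop]
theorem PolyTime.takeWhile {l : α → List β} {p : α → β → Bool} (hl : PolyTime l)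
    (hp : PolyTime (fun z : α × β => p z.1 z.2)) :
    PolyTime (fun a => (l a).takeWhile (p a)) := by
  have hp' : PolyTime (fun z : α × (Bool × List β) × β => p z.1 z.2.2) :=
    PolyTime.comp (g := fun z : α × β => p z.1 z.2) (f := fun z : α × (Bool × List β) × β =>
      (z.1, z.2.2)) hp (by fun_prop)
  have h := PolyTime.foldl_add (s0 := fun _ : α => (true, ([] : List β)))
    (step := fun a s b => if s.1 = true ∧ p a b = true then (true, b :: s.2) else (false, s.2))
    hl (by fun_prop)
    (PolyTime.itep (PolyTime.decide_and (PolyTime.decide_bool_eq_true (by fun_prop))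
      (PolyTime.decide_bool_eq_true hp')) (by fun_prop) (by fun_prop))
    (C := fun a => sz (l a) + 4) (hl.bd.add (PBd.const 4)) (by
      intro a s b hb
      have := sz_le_of_mem hb
      obtain ⟨c, s⟩ := s
      have hc := sz_pos c
      split_ifs
      · simp; omega
      · simp; omega)
  refine PolyTime.congr (PolyTime.reverse (PolyTime.snd h)) fun a => ?_
  have key2 : ∀ (l : List β) (s : List β), l.foldl (fun (s : Bool × List β) b =>
      if s.1 = true ∧ p a b = true then (true, b :: s.2) else (false, s.2)) (false, s) =
      (false, s) := by
    intro l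
    induction l with
    | nil => intro s; rfl
    | cons b l ih => intro s; simp [ih]
  have key : ∀ (l : List β) (s : List β), (l.foldl (fun (s : Bool × List β) b =>
      if s.1 = true ∧ p a b = true then (true, b :: s.2) else (false, s.2)) (true, s)).2 =
      (l.takeWhile (p a)).reverse ++ s := by
    intro l
    induction l with
    | nil => intro s; rfl
    | cons b l ih =>
      intro s
      by_cases hb : p a b = true
      · simp [hb, ih]
      · rw [List.foldl_cons, if_neg (by simp [hb]), key2]
        simp [hb]
  rw [key]
  simp

@[fun_prop]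
theorem PolyTime.idxOf [BEq β] [LawfulBEq β] {f : α → β} {l : α → List β} (hf : PolyTime f)
    (hl : PolyTime l) : PolyTime (fun a => (l a).idxOf (f a)) := by
  have hf' : PolyTime (fun z : α × β => f z.1) := PolyTime.comp hf (by fun_prop)
  have h : PolyTime (fun a => ((l a).takeWhile (fun b => !(b == f a))).length) :=
    PolyTime.length (PolyTime.takeWhile (p := fun a b => !(b == f a)) hl
      (PolyTime.not (PolyTime.beq (by fun_prop) hf')))
  refine PolyTime.congr h fun a => ?_
  induction l a with
  | nil => simp
  | cons b l ih =>
    by_cases hb : b = f a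
    · simp [hb]
    · have h2 : (b == f a) = false := by simpa using hb
      rw [List.takeWhile_cons, List.idxOf_cons, h2]
      simp [ih]

end Pool.Agent.Helper81.CC
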