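import Pool.Agent.Helper81.CompF

/-!
# Polynomial-time functions: lists and unary numbers
-/

namespace Pool.Agent.Helper81.CC

variable {α β γ δ σ : Type} [ToData α] [ToData β] [ToData γ] [ToData δ] [ToData σ]

@[fun_prop]
theorem PolyTime.reverse {l : α → List β} (hl : PolyTime l) :
    PolyTime (fun a => (l a).reverse) := by
  have := PolyTime.foldl_add (s0 := fun _ : α => ([] : List β)) (step := fun _ s b => b :: s) hl
    (by fun_prop) (by fun_prop) (C := fun a => sz (l a) + 1) (hl.bd.add (PBd.const 1)) (by
      intro a s b hb
      have := sz_le_of_mem hb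
      simp
      omega)
  exact PolyTime.congr this fun a => by simp

@[fun_prop]
theorem PolyTime.append {l m : α → List β} (hl : PolyTime l) (hm : PolyTime m) :
    PolyTime (fun a => l a ++ m a) := by
  have := PolyTime.foldl_add (s0 := m) (step := fun _ s b => b :: s) hl.reverse
    hm (by fun_prop) (C := fun a => sz (l a) + 1) (hl.bd.add (PBd.const 1)) (by
      intro a s b hb
      have := sz_le_of_mem (List.mem_reverse.1 hb)
      simp
      omega)
  exact PolyTime.congr this fun a => by simp

theorem sz_reverse (l : List α) : sz l.reverse = sz l := by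
  have key : ∀ l m : List α, sz (l ++ m) = sz l + sz m - 1 := by
    intro l
    induction l with
    | nil => intro m; simp
    | cons a l ih =>
      intro m
      have := sz_pos l
      simp only [List.cons_append, sz_cons, ih]
      omega
  induction l with
  | nil => simp
  | cons a l ih =>
    have := sz_pos l
    simp only [List.reverse_cons, key, ih, sz_cons, sz_nil]
    omega

theorem sz_append (l m : List α) : sz (l ++ m) + 1 = sz l + sz m := by
  induction l with
  | nil => simp; omega
  | cons a l ih =>
    simp only [List.cons_append, sz_cons]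
    omega

@[fun_prop]
theorem PolyTime.length {l : α → List β} (hl : PolyTime l) :
    PolyTime (fun a => (l a).length) := by
  have := PolyTime.foldl_add (s0 := fun _ : α => 0) (step := fun _ s _ => s + 1) hl
    (by fun_prop) (by fun_prop) (C := fun _ => 2) (PBd.const 2) (by
      intro a s b hb
      simp
      omega)
  exact PolyTime.congr this fun a => by
    have : ∀ (l : List β) (n : ℕ), l.foldl (fun s _ => s + 1) n = n + l.length := by
      intro l
      induction l with
      | nil => intro n; rfl
      | cons b l ih => intro n; simp only [List.foldl_cons, ih, List.length_cons]; omega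
    rw [this]; simp

@[fun_prop]
theorem PolyTime.list_map {l : α → List β} {f : α → β → γ} (hl : PolyTime l)
    (hf : PolyTime (fun z : α × β => f z.1 z.2)) : PolyTime (fun a => (l a).map (f a)) := by
  obtain ⟨P, hP⟩ := hf.bd
  have := PolyTime.foldl_add (s0 := fun _ : α => ([] : List γ))
    (step := fun a s b => f a b :: s) hl (by fun_prop)
    (PolyTime.list_cons (PolyTime.comp (g := fun z : α × β => f z.1 z.2)
      (f := fun z : α × List γ × β => (z.1, z.2.2)) hf (by fun_prop)) (by fun_prop))
    (C := fun a => P.eval (sz a + sz (l a) + 1) + 1)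
    (((PBd.sz.add (hl.bd.add (PBd.const 1))).eval P).add (PBd.const 1)) (by
      intro a s b hb
      have h1 := sz_le_of_mem hb
      have h2 := hP (a, b)
      have h3 : P.eval (sz (a, b)) ≤ P.eval (sz a + sz (l a) + 1) := by
        apply poly_mono
        simp
        omega
      simp only [sz_cons]
      simp only at h2
      omega)
  refine PolyTime.congr this.reverse fun a => ?_
  have : ∀ (l : List β) (s : List γ), l.foldl (fun s b => f a b :: s) s =
      (l.map (f a)).reverse ++ s := by
    intro l
    induction l with
    | nil => intro s; rfl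
    | cons b l ih => intro s; simp [ih]
  rw [this]; simp

@[fun_prop]
theorem PolyTime.filterMap {l : α → List β} {f : α → β → Option γ} (hl : PolyTime l)
    (hf : PolyTime (fun z : α × β => f z.1 z.2)) :
    PolyTime (fun a => (l a).filterMap (f a)) := by
  obtain ⟨P, hP⟩ := hf.bd
  have hstep : PolyTime (fun z : α × List γ × β =>
      (f z.1 z.2.2).elim z.2.1 (fun c => c :: z.2.1)) := by
    refine PolyTime.option_elim (PolyTime.comp (g := fun z : α × β => f z.1 z.2)
      (f := fun z : α × List γ × β => (z.1, z.2.2)) hf (by fun_prop)) (by fun_prop)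
      (by fun_prop)
  have := PolyTime.foldl_add (s0 := fun _ : α => ([] : List γ))
    (step := fun a s b => (f a b).elim s (fun c => c :: s)) hl (by fun_prop)
    hstep
    (C := fun a => P.eval (sz a + sz (l a) + 1) + 1)
    (((PBd.sz.add (hl.bd.add (PBd.const 1))).eval P).add (PBd.const 1)) (by
      intro a s b hb
      have h1 := sz_le_of_mem hb
      have h2 := hP (a, b)
      have h3 : P.eval (sz (a, b)) ≤ P.eval (sz a + sz (l a) + 1) := by
        apply poly_mono
        simp
        omega
      simp only at h2
      cases h : f a b with
      | none => simp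
      | some c =>
        rw [h] at h2
        simp only [Option.elim, sz_cons]
        simp only [sz_some] at h2
        omega)
  refine PolyTime.congr this.reverse fun a => ?_
  have : ∀ (l : List β) (s : List γ), l.foldl (fun s b => (f a b).elim s (fun c => c :: s)) s =
      (l.filterMap (f a)).reverse ++ s := by
    intro l
    induction l with
    | nil => intro s; rfl
    | cons b l ih =>
      intro s
      rw [List.foldl_cons, ih]
      cases h : f a b <;> simp [h]
  rw [this]; simp

@[fun_prop]
theorem PolyTime.filter {l : α → List β} {f : α → β → Bool} (hl : PolyTime l)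
    (hf : PolyTime (fun z : α × β => f z.1 z.2)) :
    PolyTime (fun a => (l a).filter (f a)) := by
  have h : PolyTime (fun z : α × β => if f z.1 z.2 = true then Option.some z.2 else none) :=
    PolyTime.ite hf (by fun_prop) (by fun_prop)
  refine PolyTime.congr (PolyTime.filterMap (f := fun a b =>
    if f a b = true then Option.some b else none) hl h) fun a => ?_
  rw [← List.filterMap_eq_filter]
  rfl

/-- A fold with a bounded additive increment, for lists of lists. -/
@[fun_prop]
theorem PolyTime.flatMap {l : α → List β} {f : α → β → List γ} (hl : PolyTime l)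
    (hf : PolyTime (fun z : α × β => f z.1 z.2)) : PolyTime (fun a => (l a).flatMap (f a)) := by
  obtain ⟨P, hP⟩ := hf.bd
  have := PolyTime.foldl_add (s0 := fun _ : α => ([] : List γ))
    (step := fun a s b => (f a b).reverse ++ s) hl (by fun_prop)
    (PolyTime.append (PolyTime.reverse (PolyTime.comp (g := fun z : α × β => f z.1 z.2)
      (f := fun z : α × List γ × β => (z.1, z.2.2)) hf (by fun_prop))) (by fun_prop))
    (C := fun a => P.eval (sz a + sz (l a) + 1) + 1)
    (((PBd.sz.add (hl.bd.add (PBd.const 1))).eval P).add (PBd.const 1)) (by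
      intro a s b hb
      have h1 := sz_le_of_mem hb
      have h2 := hP (a, b)
      have h3 : P.eval (sz (a, b)) ≤ P.eval (sz a + sz (l a) + 1) := by
        apply poly_mono
        simp
        omega
      have h4 := sz_append (f a b).reverse s
      rw [sz_reverse] at h4
      simp only at h2
      omega)
  refine PolyTime.congr this.reverse fun a => ?_
  have : ∀ (l : List β) (s : List γ), l.foldl (fun s b => (f a b).reverse ++ s) s =
      (l.flatMap (f a)).reverse ++ s := by
    intro l
    induction l with
    | nil => intro s; rfl
    | cons b l ih => intro s; simp [ih]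
  rw [this]; simp

@[fun_prop]
theorem PolyTime.flatten {l : α → List (List β)} (hl : PolyTime l) :
    PolyTime (fun a => (l a).flatten) :=
  PolyTime.congr (PolyTime.flatMap (f := fun _ m => m) hl (by fun_prop)) fun a => by
    induction l a <;> simp_all

@[fun_prop]
theorem PolyTime.all {l : α → List β} {f : α → β → Bool} (hl : PolyTime l)
    (hf : PolyTime (fun z : α × β => f z.1 z.2)) : PolyTime (fun a => (l a).all (f a)) := by
  have h := PolyTime.isEmpty (PolyTime.filter (f := fun a b => !(f a b)) hl hf.not)
  refine PolyTime.congr h fun a => ?_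
  induction l a with
  | nil => rfl
  | cons b l ih =>
    by_cases hb : f a b = true
    · simp only [List.filter_cons, hb, List.all_cons] at ih ⊢
      simpa using ih
    · simp [List.filter_cons, hb]

@[fun_prop]
theorem PolyTime.any {l : α → List β} {f : α → β → Bool} (hl : PolyTime l)
    (hf : PolyTime (fun z : α × β => f z.1 z.2)) : PolyTime (fun a => (l a).any (f a)) := by
  have h := (PolyTime.all (f := fun a b => !(f a b)) hl hf.not).not
  refine PolyTime.congr h fun a => ?_
  induction l a with
  | nil => rfl
  | cons b l ih =>
    by_cases hb : f a b = true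
    · simp [hb]
    · simp only [List.all_cons, List.any_cons] at ih ⊢
      simp only [Bool.not_eq_true] at hb
      simpa [hb] using ih

@[fun_prop]
theorem PolyTime.decide_ball {l : α → List β} {p : α → β → Prop} [∀ a b, Decidable (p a b)]
    [∀ a, Decidable (∀ b ∈ l a, p a b)]
    (hl : PolyTime l) (hf : PolyTime (fun z : α × β => decide (p z.1 z.2))) :
    PolyTime (fun a => decide (∀ b ∈ l a, p a b)) := by
  refine PolyTime.congr (PolyTime.all (f := fun a b => decide (p a b)) hl hf) fun a => ?_
  rw [Bool.eq_iff_iff]
  simp

@[fun_prop]
theorem PolyTime.decide_bex {l : α → List β} {p : α → β → Prop} [∀ a b, Decidable (p a b)]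
    [∀ a, Decidable (∃ b ∈ l a, p a b)]
    (hl : PolyTime l) (hf : PolyTime (fun z : α × β => decide (p z.1 z.2))) :
    PolyTime (fun a => decide (∃ b ∈ l a, p a b)) := by
  refine PolyTime.congr (PolyTime.any (f := fun a b => decide (p a b)) hl hf) fun a => ?_
  rw [Bool.eq_iff_iff]
  simp

@[fun_prop]
theorem PolyTime.decide_mem {f : α → β} {l : α → List β} [∀ a, Decidable (f a ∈ l a)]
    (hf : PolyTime f) (hl : PolyTime l) : PolyTime (fun a => decide (f a ∈ l a)) := by
  classical
  have h : PolyTime (fun z : α × β => decide (f z.1 = z.2)) := by fun_prop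
  refine PolyTime.congr (PolyTime.any (f := fun a b => decide (f a = b)) hl h) fun a => ?_
  rw [Bool.eq_iff_iff]
  simp

@[fun_prop]
theorem PolyTime.elem [BEq β] [LawfulBEq β] {f : α → β} {l : α → List β} (hf : PolyTime f)
    (hl : PolyTime l) : PolyTime (fun a => (l a).elem (f a)) := by
  classical
  exact PolyTime.congr (PolyTime.decide_mem hf hl) fun a => by
    rw [Bool.eq_iff_iff]
    simp

@[fun_prop]
theorem PolyTime.contains [BEq β] [LawfulBEq β] {f : α → β} {l : α → List β} (hf : PolyTime f)
    (hl : PolyTime l) : PolyTime (fun a => (l a).contains (f a)) := by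
  classical
  exact PolyTime.congr (PolyTime.decide_mem hf hl) fun a => by
    rw [Bool.eq_iff_iff]
    simp

/-! ### Unary numbers -/

theorem PolyTime.units_aux : PolyTime (fun n : ℕ => List.replicate n ()) :=
  PolyTime.of_eq fun n => by
    induction n with
    | zero => rfl
    | succ n ih => rw [List.replicate_succ, toData_cons, toData_succ, ih]; rfl

/-- Iteration with a size bound. -/
theorem PolyTime.iterate_bd {n : α → ℕ} {s0 : α → σ} {step : α → σ → σ}
    (hn : PolyTime n) (hs : PolyTime s0)
    (hstep : PolyTime (fun z : α × σ => step z.1 z.2)) {B : α → ℕ} (hB : PBd B)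
    (h : ∀ a k, k ≤ n a → sz ((step a)^[k] (s0 a)) ≤ B a) :
    PolyTime (fun a => (step a)^[n a] (s0 a)) := by
  have e : ∀ a k (s : σ), (List.replicate k ()).foldl (fun s _ => step a s) s =
      (step a)^[k] s := by
    intro a k
    induction k with
    | zero => intro s; rfl
    | succ k ih => intro s; rw [List.replicate_succ, List.foldl_cons, ih]; rfl
  have h1 := PolyTime.foldl_bd (l := fun a => List.replicate (n a) ()) (s0 := s0)
    (step := fun a s _ => step a s) (PolyTime.comp PolyTime.units_aux hn) hs
    (PolyTime.comp (g := fun z : α × σ => step z.1 z.2)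
      (f := fun z : α × σ × Unit => (z.1, z.2.1)) hstep (by fun_prop)) hB (by
      intro a l' hl'
      have h2 : l' = List.replicate l'.length () := by
        apply List.ext_getElem <;> simp
      rw [h2, e]
      exact h a _ (by simpa using hl'.length_le))
  exact PolyTime.congr h1 fun a => e a _ _

/-- Primitive recursion with a size bound. -/
theorem PolyTime.nat_rec_bd {n : α → ℕ} {s0 : α → σ} {step : α → ℕ → σ → σ}
    (hn : PolyTime n) (hs : PolyTime s0)
    (hstep : PolyTime (fun z : α × ℕ × σ => step z.1 z.2.1 z.2.2)) {B : α → ℕ} (hB : PBd B)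
    (h : ∀ a k, k ≤ n a → sz (Nat.rec (motive := fun _ => σ) (s0 a) (step a) k) ≤ B a) :
    PolyTime (fun a => Nat.rec (motive := fun _ => σ) (s0 a) (step a) (n a)) := by
  have e : ∀ a k, (fun p : ℕ × σ => (p.1 + 1, step a p.1 p.2))^[k] (0, s0 a) =
      (k, Nat.rec (motive := fun _ => σ) (s0 a) (step a) k) := by
    intro a k
    induction k with
    | zero => rfl
    | succ k ih => rw [Function.iterate_succ', Function.comp_apply, ih]
  have h1 := PolyTime.iterate_bd (s0 := fun a => (0, s0 a))
    (step := fun a (p : ℕ × σ) => (p.1 + 1, step a p.1 p.2)) hn (by fun_prop)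
    (PolyTime.pair (by fun_prop) (PolyTime.comp (g := fun z : α × ℕ × σ => step z.1 z.2.1 z.2.2)
      (f := fun z : α × ℕ × σ => (z.1, z.2.1, z.2.2)) hstep (by fun_prop)))
    (B := fun a => sz (n a) + B a + 1) ((hn.bd.add hB).add (PBd.const 1)) (by
      intro a k hk
      rw [e]
      have := h a k hk
      simp
      omega)
  exact PolyTime.congr (PolyTime.snd h1) fun a => by rw [e]

@[fun_prop]
theorem PolyTime.range {n : α → ℕ} (hn : PolyTime n) : PolyTime (fun a => List.range (n a)) := by
  have e : ∀ k, Nat.rec (motive := fun _ => List ℕ) [] (fun k s => k :: s) k =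
      (List.range k).reverse := by
    intro k
    induction k with
    | zero => rfl
    | succ k ih => simp [List.range_succ, ih]
  have bd : ∀ k m, k ≤ m → sz (List.range k) ≤ 1 + m * (2 * m + 2) := by
    intro k
    induction k with
    | zero => intro m _; simp
    | succ k ih =>
      intro m hk
      have h1 := sz_append (List.range k) [k]
      rw [List.range_succ]
      simp only [sz_cons, sz_nil, sz_nat] at h1
      have h2 : sz (List.range k) ≤ 1 + k * (2 * m + 2) := by
        have : ∀ j, j ≤ k → sz (List.range j) ≤ 1 + j * (2 * m + 2) := by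
          intro j
          induction j with
          | zero => intro _; simp
          | succ j ihj =>
            intro hj
            have h3 := ihj (by omega)
            have h4 := sz_append (List.range j) [j]
            rw [List.range_succ]
            simp only [sz_cons, sz_nil, sz_nat] at h4
            have h5 : (j + 1) * (2 * m + 2) = j * (2 * m + 2) + (2 * m + 2) := by ring
            omega
        exact this k le_rfl
      have h3 : (k + 1) * (2 * m + 2) ≤ m * (2 * m + 2) := Nat.mul_le_mul_right _ hk
      have h4 : (k + 1) * (2 * m + 2) = k * (2 * m + 2) + (2 * m + 2) := by ring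
      omega
  have h1 := PolyTime.nat_rec_bd (s0 := fun _ : α => ([] : List ℕ))
    (step := fun _ k s => k :: s) hn (by fun_prop) (by fun_prop)
    (B := fun a => 1 + n a * (2 * n a + 2))
    ((PBd.const 1).add ((PBd.nat hn).mul (((PBd.const 2).mul (PBd.nat hn)).add (PBd.const 2)))) (by
      intro a k hk
      rw [e, sz_reverse]
      exact bd k _ hk)
  exact PolyTime.congr h1.reverse fun a => by rw [e]; simp

@[fun_prop]
theorem PolyTime.add {f g : α → ℕ} (hf : PolyTime f) (hg : PolyTime g) :
    PolyTime (fun a => f a + g a) := by
  have h := PolyTime.iterate_bd (s0 := f) (step := fun _ s => s + 1) hg hf (by fun_prop)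
    (B := fun a => 2 * (f a + g a) + 1)
    (((PBd.const 2).mul ((PBd.nat hf).add (PBd.nat hg))).add (PBd.const 1)) (by
      intro a k hk
      rw [Nat.succ_iterate, sz_nat]
      omega)
  exact PolyTime.congr h fun a => by rw [Nat.succ_iterate]

theorem iter_add (c k n : ℕ) : (fun s => s + c)^[k] n = n + k * c := by
  induction k with
  | zero => simp
  | succ k ih => rw [Function.iterate_succ', Function.comp_apply, ih]; ring

theorem iter_pred (k n : ℕ) : (fun s => s - 1)^[k] n = n - k := by
  induction k with
  | zero => simp
  | succ k ih => rw [Function.iterate_succ', Function.comp_apply, ih]; omega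

@[fun_prop]
theorem PolyTime.mul {f g : α → ℕ} (hf : PolyTime f) (hg : PolyTime g) :
    PolyTime (fun a => f a * g a) := by
  have h := PolyTime.iterate_bd (s0 := fun _ => 0) (step := fun a s => s + g a) hf (by fun_prop)
    (by fun_prop)
    (B := fun a => 2 * (f a * g a) + 1)
    (((PBd.const 2).mul ((PBd.nat hf).mul (PBd.nat hg))).add (PBd.const 1)) (by
      intro a k hk
      have : k * g a ≤ f a * g a := Nat.mul_le_mul_right _ hk
      rw [iter_add, sz_nat]
      omega)
  exact PolyTime.congr h fun a => by rw [iter_add]; simp

@[fun_prop]
theorem PolyTime.pow {f : α → ℕ} (hf : PolyTime f) (k : ℕ) :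
    PolyTime (fun a => f a ^ k) := by
  induction k with
  | zero => exact PolyTime.congr (PolyTime.const 1) fun a => by simp
  | succ k ih => exact PolyTime.congr (ih.mul hf) fun a => by rw [pow_succ]

@[fun_prop]
theorem PolyTime.sub {f g : α → ℕ} (hf : PolyTime f) (hg : PolyTime g) :
    PolyTime (fun a => f a - g a) := by
  have h := PolyTime.iterate_bd (s0 := f) (step := fun _ s => s - 1) hg hf (by fun_prop)
    (B := fun a => 2 * f a + 1) (((PBd.const 2).mul (PBd.nat hf)).add (PBd.const 1)) (by
      intro a k hk
      rw [iter_pred, sz_nat]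
      omega)
  exact PolyTime.congr h fun a => by rw [iter_pred]

@[fun_prop]
theorem PolyTime.decide_le {f g : α → ℕ} (hf : PolyTime f) (hg : PolyTime g) :
    PolyTime (fun a => decide (f a ≤ g a)) :=
  PolyTime.congr (PolyTime.decide_eq (hf.sub hg) (PolyTime.const 0)) fun a => by
    rw [decide_eq_decide]; omega

@[fun_prop]
theorem PolyTime.decide_lt {f g : α → ℕ} (hf : PolyTime f) (hg : PolyTime g) :
    PolyTime (fun a => decide (f a < g a)) :=
  PolyTime.congr (PolyTime.decide_le hf.succ hg) fun a => rfl

@[fun_prop]
theorem PolyTime.ble {f g : α → ℕ} (hf : PolyTime f) (hg : PolyTime g) :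
    PolyTime (fun a => Nat.ble (f a) (g a)) :=
  PolyTime.congr (PolyTime.decide_le hf hg) fun a => by
    rw [Bool.eq_iff_iff]; simp

@[fun_prop]
theorem PolyTime.nat_max {f g : α → ℕ} (hf : PolyTime f) (hg : PolyTime g) :
    PolyTime (fun a => max (f a) (g a)) :=
  PolyTime.congr (PolyTime.itep (PolyTime.decide_le hf hg) hg hf) fun a => by
    split_ifs <;> omega

@[fun_prop]
theorem PolyTime.nat_min {f g : α → ℕ} (hf : PolyTime f) (hg : PolyTime g) :
    PolyTime (fun a => min (f a) (g a)) :=
  PolyTime.congr (PolyTime.itep (PolyTime.decide_le hf hg) hf hg) fun a => by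
    split_ifs <;> omega

@[fun_prop]
theorem PolyTime.div {f g : α → ℕ} (hf : PolyTime f) (hg : PolyTime g) :
    PolyTime (fun a => f a / g a) := by
  have h : PolyTime (fun a => if g a = 0 then 0 else
      ((List.range (f a)).filter (fun k => decide ((k + 1) * g a ≤ f a))).length) := by
    refine PolyTime.itep (by fun_prop) (by fun_prop) (PolyTime.length (PolyTime.filter
      (f := fun a k => decide ((k + 1) * g a ≤ f a)) (by fun_prop) ?_))
    have hf' : PolyTime (fun z : α × ℕ => f z.1) := PolyTime.comp hf (by fun_prop)
    have hg' : PolyTime (fun z : α × ℕ => g z.1) := PolyTime.comp hg (by fun_prop)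
    exact PolyTime.decide_le (PolyTime.mul (by fun_prop) hg') hf'
  refine PolyTime.congr h fun a => ?_
  split_ifs with h0
  · simp [h0]
  · have hpos : 0 < g a := by omega
    have e : ∀ m, (List.range m).filter (fun k => decide ((k + 1) * g a ≤ f a)) =
        List.range (min m (f a / g a)) := by
      intro m
      induction m with
      | zero => simp
      | succ m ih =>
        rw [List.range_succ, List.filter_append, ih]
        by_cases hm : (m + 1) * g a ≤ f a
        · have h1 : m + 1 ≤ f a / g a := (Nat.le_div_iff_mul_le hpos).2 hm
          have h2 : min (m + 1) (f a / g a) = m + 1 := by omega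
          have h3 : min m (f a / g a) = m := by omega
          rw [h2, h3, List.range_succ]
          simp [hm]
        · have h1 : ¬ m + 1 ≤ f a / g a := fun h => hm ((Nat.le_div_iff_mul_le hpos).1 h)
          have h2 : min (m + 1) (f a / g a) = f a / g a := by omega
          have h3 : min m (f a / g a) = f a / g a := by omega
          rw [h2, h3]
          simp [hm]
    rw [e]
    have := Nat.div_le_self (f a) (g a)
    simp [this]

@[fun_prop]
theorem PolyTime.mod {f g : α → ℕ} (hf : PolyTime f) (hg : PolyTime g) :
    PolyTime (fun a => f a % g a) :=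
  PolyTime.congr (hf.sub (hg.mul (hf.div hg))) fun a => by
    have := Nat.div_add_mod (f a) (g a)
    omega

@[fun_prop]
theorem PolyTime.replicate {n : α → ℕ} {f : α → β} (hn : PolyTime n) (hf : PolyTime f) :
    PolyTime (fun a => List.replicate (n a) (f a)) := by
  have h := PolyTime.list_map (l := fun a => List.range (n a)) (f := fun a _ => f a) (by fun_prop)
    (PolyTime.comp hf (by fun_prop))
  exact PolyTime.congr h fun a => by simp

@[fun_prop]
theorem PolyTime.drop {n : α → ℕ} {l : α → List β} (hn : PolyTime n) (hl : PolyTime l) :
    PolyTime (fun a => (l a).drop (n a)) := by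
  have e : ∀ (l : List β) (k : ℕ), List.tail^[k] l = l.drop k := by
    intro l k
    induction k with
    | zero => simp
    | succ k ih => rw [Function.iterate_succ', Function.comp_apply, ih, List.tail_drop]
  have bd : ∀ (l : List β) (k : ℕ), sz (l.drop k) ≤ sz l := by
    intro l k
    have h1 := sz_append (l.take k) (l.drop k)
    rw [List.take_append_drop] at h1
    have := sz_pos (l.take k)
    omega
  have h := PolyTime.iterate_bd (s0 := l) (step := fun _ s => s.tail) hn hl (by fun_prop)
    hl.bd (by
      intro a k hk
      rw [e]
      exact bd _ _)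
  exact PolyTime.congr h fun a => e _ _

@[fun_prop]
theorem PolyTime.take {n : α → ℕ} {l : α → List β} (hn : PolyTime n) (hl : PolyTime l) :
    PolyTime (fun a => (l a).take (n a)) :=
  PolyTime.congr (PolyTime.reverse (PolyTime.drop ((hl.length).sub hn) hl.reverse)) fun a => by
    rw [List.drop_reverse, List.reverse_reverse]
    by_cases h : n a ≤ (l a).length
    · congr 1; omega
    · have h1 : (l a).length - ((l a).length - n a) = (l a).length := by omega
      rw [h1, List.take_length, List.take_of_length_le (by omega)]

@[fun_prop]
theorem PolyTime.getElem? {n : α → ℕ} {l : α → List β} (hl : PolyTime l) (hn : PolyTime n) :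
    PolyTime (fun a => (l a)[n a]?) :=
  PolyTime.congr (PolyTime.head? (PolyTime.drop hn hl)) fun a => by
    rw [List.head?_drop]

@[fun_prop]
theorem PolyTime.getD {n : α → ℕ} {l : α → List β} {d : α → β} (hl : PolyTime l)
    (hn : PolyTime n) (hd : PolyTime d) : PolyTime (fun a => (l a).getD (n a) (d a)) :=
  PolyTime.congr (PolyTime.option_getD (PolyTime.getElem? hl hn) hd) fun a => by
    rw [List.getD_eq_getElem?_getD]

@[fun_prop]
theorem PolyTime.find? {l : α → List β} {f : α → β → Bool} (hl : PolyTime l)
    (hf : PolyTime (fun z : α × β => f z.1 z.2)) : PolyTime (fun a => (l a).find? (f a)) :=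
  PolyTime.congr (PolyTime.head? (PolyTime.filter hl hf)) fun a => by
    rw [List.head?_filter]

@[fun_prop]
theorem PolyTime.headD {l : α → List β} {d : α → β} (hl : PolyTime l) (hd : PolyTime d) :
    PolyTime (fun a => (l a).headD (d a)) :=
  PolyTime.congr (PolyTime.option_getD (PolyTime.head? hl) hd) fun a => by
    rw [List.headD_eq_head?_getD]

@[fun_prop]
theorem PolyTime.getLast? {l : α → List β} (hl : PolyTime l) :
    PolyTime (fun a => (l a).getLast?) :=
  PolyTime.congr (PolyTime.head? (PolyTime.reverse hl)) fun a => by simp

@[fun_prop]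
theorem PolyTime.dropLast {l : α → List β} (hl : PolyTime l) :
    PolyTime (fun a => (l a).dropLast) :=
  PolyTime.congr (PolyTime.reverse (PolyTime.tail (PolyTime.reverse hl))) fun a => by
    simp

@[fun_prop]
theorem PolyTime.zipIdx {l : α → List β} (hl : PolyTime l) :
    PolyTime (fun a => (l a).zipIdx) := by
  have h : PolyTime (fun a => (List.range (l a).length).filterMap
      (fun i => (l a)[i]?.map (fun b => (b, i)))) := by
    have hl' : PolyTime (fun z : α × ℕ => l z.1) := PolyTime.comp hl (by fun_prop)
    exact PolyTime.filterMap (f := fun a i => (l a)[i]?.map (fun b => (b, i))) (by fun_prop)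
      (PolyTime.option_map (g := fun (z : α × ℕ) (b : β) => (b, z.2))
        (PolyTime.getElem? hl' (by fun_prop)) (by fun_prop))
  refine PolyTime.congr h fun a => ?_
  have key : ∀ (l : List β) (k : ℕ), (List.range l.length).filterMap
      (fun i => l[i]?.map (fun b => (b, i + k))) = l.zipIdx k := by
    intro l
    induction l with
    | nil => intro k; simp
    | cons b l ih =>
      intro k
      rw [List.length_cons, List.range_succ_eq_map, List.filterMap_cons, List.filterMap_map,
        List.zipIdx_cons, ← ih (k + 1)]
      simp only [List.getElem?_cons_zero, Option.map_some, Nat.zero_add]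
      congr 1
      apply List.filterMap_congr
      intro i _
      simp only [Function.comp_apply, List.getElem?_cons_succ]
      congr 1
      funext b
      congr 1
      omega
  exact key (l a) 0

@[fun_prop]
theorem PolyTime.zip {l : α → List β} {m : α → List γ} (hl : PolyTime l) (hm : PolyTime m) :
    PolyTime (fun a => (l a).zip (m a)) := by
  have h : PolyTime (fun a => ((l a).zipIdx).filterMap
      (fun x : β × ℕ => (m a)[x.2]?.map (fun c => (x.1, c)))) := by
    have hm' : PolyTime (fun z : α × (β × ℕ) => m z.1) := PolyTime.comp hm (by fun_prop)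
    exact PolyTime.filterMap (f := fun a (x : β × ℕ) => (m a)[x.2]?.map (fun c => (x.1, c)))
      (by fun_prop) (PolyTime.option_map (g := fun (z : α × (β × ℕ)) (c : γ) => (z.2.1, c))
        (PolyTime.getElem? hm' (by fun_prop)) (by fun_prop))
  refine PolyTime.congr h fun a => ?_
  have key : ∀ (l : List β) (m m' : List γ) (k : ℕ), m' = m.drop k → (l.zipIdx k).filterMap
      (fun x => m[x.2]?.map (fun c => (x.1, c))) = l.zip m' := by
    intro l
    induction l with
    | nil => intro m m' k _; simp
    | cons b l ih =>
      intro m m' k hk
      rw [List.zipIdx_cons, List.filterMap_cons]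
      rcases m' with _ | ⟨c, m'⟩
      · have h1 : m[k]? = none := by
          rw [← List.head?_drop, ← hk]; rfl
        simp only [h1, Option.map_none, List.zip_nil_right]
        rw [ih m [] (k + 1) (by
          rw [← List.tail_drop, ← hk]; rfl)]
        simp
      · have h1 : m[k]? = Option.some c := by
          rw [← List.head?_drop, ← hk]; rfl
        simp only [h1, Option.map_some, List.zip_cons_cons]
        rw [ih m m' (k + 1) (by
          rw [← List.tail_drop, ← hk]; rfl)]
  exact key (l a) (m a) (m a) 0 (by simp)

@[fun_prop]
theorem PolyTime.zipWith {l : α → List β} {m : α → List γ} {f : α → β → γ → δ}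
    (hf : PolyTime (fun z : α × β × γ => f z.1 z.2.1 z.2.2))
    (hl : PolyTime l) (hm : PolyTime m) :
    PolyTime (fun a => List.zipWith (f a) (l a) (m a)) :=
  PolyTime.congr (PolyTime.list_map (f := fun a (x : β × γ) => f a x.1 x.2) (PolyTime.zip hl hm)
    hf) fun a => by
    rw [List.zip, List.map_zipWith]

@[fun_prop]
theorem PolyTime.product {l : α → List β} {m : α → List γ} (hl : PolyTime l) (hm : PolyTime m) :
    PolyTime (fun a => (l a) ×ˢ (m a)) := by
  have hm' : PolyTime (fun z : α × β => m z.1) := PolyTime.comp hm (by fun_prop)
  have h : PolyTime (fun a => (l a).flatMap (fun b => (m a).map (fun c => (b, c)))) :=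
    PolyTime.flatMap (f := fun a b => (m a).map (fun c => (b, c))) hl
      (PolyTime.list_map (f := fun z c => (z.2, c)) hm' (by fun_prop))
  exact h

theorem le_sum_of_mem' : ∀ (l : List ℕ) (x : ℕ), x ∈ l → x ≤ l.sum
  | [], _, h => by simp at h
  | y :: l, x, h => by
    rcases List.mem_cons.1 h with rfl | h
    · simp
    · have := le_sum_of_mem' l x h
      simp; omega

@[fun_prop]
theorem PolyTime.sum {l : α → List ℕ} (hl : PolyTime l) : PolyTime (fun a => (l a).sum) := by
  have h := PolyTime.foldl_add (s0 := fun _ : α => 0) (step := fun _ s b => s + b) hl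
    (by fun_prop) (by fun_prop) (C := fun a => sz (l a)) hl.bd (by
      intro a s b hb
      have := sz_le_of_mem hb
      simp only [sz_nat] at this ⊢
      omega)
  refine PolyTime.congr h fun a => ?_
  rw [List.sum_eq_foldl]

@[fun_prop]
theorem PolyTime.count [BEq β] [LawfulBEq β] {f : α → β} {l : α → List β} (hf : PolyTime f)
    (hl : PolyTime l) : PolyTime (fun a => (l a).count (f a)) := by
  have hf' : PolyTime (fun z : α × β => f z.1) := PolyTime.comp hf (by fun_prop)
  have h : PolyTime (fun z : α × β => z.2 == f z.1) := by fun_prop
  exact PolyTime.congr (PolyTime.length (PolyTime.filter (f := fun a b => b == f a) hl h))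
    fun a => by rw [List.count_eq_length_filter]

@[fun_prop]
theorem PolyTime.countP {p : α → β → Bool} {l : α → List β}
    (hp : PolyTime (fun z : α × β => p z.1 z.2))
    (hl : PolyTime l) : PolyTime (fun a => (l a).countP (p a)) :=
  PolyTime.congr (PolyTime.length (PolyTime.filter (f := p) hl hp))
    fun a => by rw [List.countP_eq_length_filter]

end Pool.Agent.Helper81.CC
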