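import Pool.Agent.Helper81.BUQ
import Mathlib.Logic.Godel.GodelBetaFunction
import Mathlib.Computability.Halting
import Mathlib.Algebra.MvPolynomial.Rename

/-!
The DPRM theorem: graphs of partial recursive functions are Diophantine.
-/

namespace Pool.Agent.Helper81

open Dioph Function

/-- `DP f`: the relation `b v ∈ f (a v)` is Diophantine for all Diophantine `a`, `b`. -/
def DP (f : ℕ →. ℕ) : Prop :=
  ∀ {α : Type} {a b : (α → ℕ) → ℕ}, DiophFn a → DiophFn b → Dioph {v : α → ℕ | b v ∈ f (a v)}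

theorem lift_fn {α : Type} {a : (α → ℕ) → ℕ} (h : DiophFn a) :
    DiophFn fun w : Option α → ℕ => a (w ∘ some) := Dioph.reindex_diophFn some h

theorem pair_dioph {α : Type} {f g : (α → ℕ) → ℕ} (df : DiophFn f) (dg : DiophFn g) :
    DiophFn fun v => Nat.pair (f v) (g v) := by
  have hf := lift_fn df
  have hg := lift_fn dg
  have hz : DiophFn fun w : Option α → ℕ => w none := Dioph.proj_dioph none
  have h : Dioph {w : Option α → ℕ |
      (f (w ∘ some) < g (w ∘ some) ∧ g (w ∘ some) * g (w ∘ some) + f (w ∘ some) = w none) ∨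
      (g (w ∘ some) ≤ f (w ∘ some) ∧
        f (w ∘ some) * f (w ∘ some) + f (w ∘ some) + g (w ∘ some) = w none)} :=
    ((Dioph.lt_dioph hf hg).inter (Dioph.eq_dioph (Dioph.add_dioph (Dioph.mul_dioph hg hg) hf)
      hz)).union ((Dioph.le_dioph hg hf).inter (Dioph.eq_dioph (Dioph.add_dioph (Dioph.add_dioph
      (Dioph.mul_dioph hf hf) hf) hg) hz))
  refine Dioph.ext h fun w => ?_
  show _ ↔ Nat.pair (f (w ∘ some)) (g (w ∘ some)) = w none
  simp only [Set.mem_ofPred_eq, Nat.pair]
  split_ifs with hlt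
  · constructor
    · rintro (h | h)
      · exact h.2
      · omega
    · intro h; exact Or.inl ⟨hlt, h⟩
  · constructor
    · rintro (h | h)
      · omega
      · exact h.2
    · intro h; exact Or.inr ⟨not_lt.1 hlt, h⟩

theorem unpair1_dioph {α : Type} {f : (α → ℕ) → ℕ} (df : DiophFn f) :
    DiophFn fun v => (f v).unpair.1 := by
  have h : Dioph {w : Option α → ℕ | ∃ y, Nat.pair (w none) y = f (w ∘ some)} :=
    ex_dioph' (P := fun w y => Nat.pair (w none) y = f (w ∘ some))
      (Dioph.eq_dioph (pair_dioph (Dioph.proj_dioph (some none)) (Dioph.proj_dioph none))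
        (lift_fn (lift_fn df)))
  refine Dioph.ext h fun w => ?_
  show (∃ y, Nat.pair (w none) y = f (w ∘ some)) ↔ (f (w ∘ some)).unpair.1 = w none
  constructor
  · rintro ⟨y, hy⟩; rw [← hy]; simp
  · intro h; exact ⟨(f (w ∘ some)).unpair.2, by rw [← h]; simp⟩

theorem unpair2_dioph {α : Type} {f : (α → ℕ) → ℕ} (df : DiophFn f) :
    DiophFn fun v => (f v).unpair.2 := by
  have h : Dioph {w : Option α → ℕ | ∃ y, Nat.pair y (w none) = f (w ∘ some)} :=
    ex_dioph' (P := fun w y => Nat.pair y (w none) = f (w ∘ some))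
      (Dioph.eq_dioph (pair_dioph (Dioph.proj_dioph none) (Dioph.proj_dioph (some none)))
        (lift_fn (lift_fn df)))
  refine Dioph.ext h fun w => ?_
  show (∃ y, Nat.pair y (w none) = f (w ∘ some)) ↔ (f (w ∘ some)).unpair.2 = w none
  constructor
  · rintro ⟨y, hy⟩; rw [← hy]; simp
  · intro h; exact ⟨(f (w ∘ some)).unpair.1, by rw [← h]; simp⟩

theorem beta_dioph {α : Type} {f g : (α → ℕ) → ℕ} (df : DiophFn f) (dg : DiophFn g) :
    DiophFn fun v => Nat.beta (f v) (g v) := by
  unfold Nat.beta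
  exact Dioph.mod_dioph (unpair1_dioph df) (Dioph.add_dioph (Dioph.mul_dioph
    (Dioph.add_dioph dg (Dioph.const_dioph 1)) (unpair2_dioph df)) (Dioph.const_dioph 1))

theorem prec_iff (f g : ℕ →. ℕ) (a n b : ℕ) :
    b ∈ (n.rec (f a) fun y IH => do let i ← IH; g (Nat.pair a (Nat.pair y i)) : Part ℕ) ↔
      ∃ s, Nat.beta s 0 ∈ f a ∧
        (∀ i < n, Nat.beta s (i + 1) ∈ g (Nat.pair a (Nat.pair i (Nat.beta s i)))) ∧
        Nat.beta s n = b := by
  constructor
  · intro h
    have : ∃ s : ℕ → ℕ, s 0 ∈ f a ∧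
        (∀ i < n, s (i + 1) ∈ g (Nat.pair a (Nat.pair i (s i)))) ∧ s n = b := by
      induction n generalizing b with
      | zero => exact ⟨fun _ => b, h, fun i hi => absurd hi (Nat.not_lt_zero _), rfl⟩
      | succ n ih =>
        obtain ⟨i, hi, hb⟩ := Part.mem_bind_iff.1 h
        obtain ⟨s, h0, hs, hn⟩ := ih i hi
        refine ⟨fun k => if k ≤ n then s k else b, by simpa using h0, fun k hk => ?_, by simp⟩
        rcases Nat.lt_succ_iff_lt_or_eq.1 hk with hk | rfl
        · simp only [show k + 1 ≤ n by omega, show k ≤ n by omega, if_true]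
          exact hs k hk
        · simp only [show ¬ (k + 1 ≤ k) by omega, le_refl, if_true, if_false]
          rw [hn]; exact hb
    obtain ⟨s, h0, hs, hn⟩ := this
    let l : List ℕ := (List.range (n + 1)).map s
    have hl : ∀ i ≤ n, Nat.beta (Nat.unbeta l) i = s i := by
      intro i hi
      have hlen : i < l.length := by simp [l]; omega
      have := Nat.beta_unbeta_coe l ⟨i, hlen⟩
      simp only [l] at this ⊢
      rw [this]; simp
    refine ⟨Nat.unbeta l, ?_, fun i hi => ?_, ?_⟩
    · rw [hl 0 (Nat.zero_le _)]; exact h0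
    · rw [hl _ (by omega), hl _ (by omega)]; exact hs i hi
    · rw [hl _ le_rfl]; exact hn
  · rintro ⟨s, h0, hs, rfl⟩
    induction n with
    | zero => exact h0
    | succ n ih =>
      refine Part.mem_bind_iff.2 ⟨Nat.beta s n, ih fun i hi => hs i (by omega), hs n (by omega)⟩

theorem dioph_of_partrec {f : ℕ →. ℕ} (hf : Nat.Partrec f) : DP f := by
  induction hf with
  | zero =>
    intro α a b ha hb
    refine Dioph.ext (Dioph.eq_dioph hb (Dioph.const_dioph 0)) fun v => ?_
    show b v = 0 ↔ b v ∈ (pure 0 : ℕ →. ℕ) (a v)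
    exact (Part.mem_some_iff).symm
  | succ =>
    intro α a b ha hb
    refine Dioph.ext (Dioph.eq_dioph hb (Dioph.add_dioph ha (Dioph.const_dioph 1))) fun v => ?_
    show b v = a v + 1 ↔ b v ∈ Part.some (Nat.succ (a v))
    exact (Part.mem_some_iff).symm
  | left =>
    intro α a b ha hb
    refine Dioph.ext (Dioph.eq_dioph hb (unpair1_dioph ha)) fun v => ?_
    show b v = (a v).unpair.1 ↔ b v ∈ Part.some ((a v).unpair.1)
    exact (Part.mem_some_iff).symm
  | right =>
    intro α a b ha hb
    refine Dioph.ext (Dioph.eq_dioph hb (unpair2_dioph ha)) fun v => ?_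
    show b v = (a v).unpair.2 ↔ b v ∈ Part.some ((a v).unpair.2)
    exact (Part.mem_some_iff).symm
  | @pair f g _ _ pf pg =>
    intro α a b ha hb
    have h : Dioph {v : α → ℕ | ∃ x y, (x ∈ f (a v) ∧ y ∈ g (a v)) ∧ Nat.pair x y = b v} := by
      apply ex_dioph' (P := fun v x => ∃ y, (x ∈ f (a v) ∧ y ∈ g (a v)) ∧ Nat.pair x y = b v)
      apply ex_dioph' (P := fun (w : Option α → ℕ) y =>
        (w none ∈ f (a (w ∘ some)) ∧ y ∈ g (a (w ∘ some))) ∧ Nat.pair (w none) y = b (w ∘ some))
      exact ((pf (lift_fn (lift_fn ha)) (Dioph.proj_dioph (some none))).inter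
        (pg (lift_fn (lift_fn ha)) (Dioph.proj_dioph none))).inter
        (Dioph.eq_dioph (pair_dioph (Dioph.proj_dioph (some none)) (Dioph.proj_dioph none))
          (lift_fn (lift_fn hb)))
    refine Dioph.ext h fun v => ?_
    show (∃ x y, (x ∈ f (a v) ∧ y ∈ g (a v)) ∧ Nat.pair x y = b v) ↔
      b v ∈ (Nat.pair <$> f (a v) <*> g (a v))
    simp only [Seq.seq, Part.map_eq_map, Part.bind_map, Part.mem_bind_iff, Part.mem_map_iff]
    constructor
    · rintro ⟨x, y, ⟨hx, hy⟩, h⟩; exact ⟨x, hx, y, hy, h⟩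
    · rintro ⟨x, hx, y, hy, h⟩; exact ⟨x, y, ⟨hx, hy⟩, h⟩
  | @comp f g _ _ pf pg =>
    intro α a b ha hb
    have h : Dioph {v : α → ℕ | ∃ x, x ∈ g (a v) ∧ b v ∈ f x} := by
      apply ex_dioph' (P := fun v x => x ∈ g (a v) ∧ b v ∈ f x)
      exact (pg (lift_fn ha) (Dioph.proj_dioph none)).inter
        (pf (Dioph.proj_dioph none) (lift_fn hb))
    refine Dioph.ext h fun v => ?_
    show (∃ x, x ∈ g (a v) ∧ b v ∈ f x) ↔ b v ∈ (g (a v) >>= f)
    exact (Part.mem_bind_iff).symm
  | @prec f g _ _ pf pg =>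
    intro α a b ha hb
    have h : Dioph {v : α → ℕ | ∃ s, (Nat.beta s 0 ∈ f (a v).unpair.1 ∧
        (∀ i < (a v).unpair.2, Nat.beta s (i + 1) ∈
          g (Nat.pair (a v).unpair.1 (Nat.pair i (Nat.beta s i))))) ∧
        Nat.beta s (a v).unpair.2 = b v} := by
      apply ex_dioph' (P := fun v s => (Nat.beta s 0 ∈ f (a v).unpair.1 ∧
        (∀ i < (a v).unpair.2, Nat.beta s (i + 1) ∈
          g (Nat.pair (a v).unpair.1 (Nat.pair i (Nat.beta s i))))) ∧
        Nat.beta s (a v).unpair.2 = b v)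
      have hs : DiophFn fun w : Option α → ℕ => w none := Dioph.proj_dioph none
      have ha' := lift_fn ha
      have hs' : DiophFn fun w : Option (Option α) → ℕ => w (some none) :=
        Dioph.proj_dioph (some none)
      have hi' : DiophFn fun w : Option (Option α) → ℕ => w none := Dioph.proj_dioph none
      have ha'' := lift_fn ha'
      refine ((pf (unpair1_dioph ha') (beta_dioph hs (Dioph.const_dioph 0))).inter
        (ball_dioph (unpair2_dioph ha') (P := fun (w : Option α → ℕ) i =>
          Nat.beta (w none) (i + 1) ∈ g (Nat.pair (a (w ∘ some)).unpair.1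
            (Nat.pair i (Nat.beta (w none) i)))) ?_)).inter
        (Dioph.eq_dioph (beta_dioph hs (unpair2_dioph ha')) (lift_fn hb))
      exact pg (pair_dioph (unpair1_dioph ha'') (pair_dioph hi' (beta_dioph hs' hi')))
        (beta_dioph hs' (Dioph.add_dioph hi' (Dioph.const_dioph 1)))
    refine Dioph.ext h fun v => ?_
    have := prec_iff f g (a v).unpair.1 (a v).unpair.2 (b v)
    refine Iff.trans ?_ this.symm
    simp only [Set.mem_ofPred_eq, and_assoc]
  | @rfind f _ pf =>
    intro α a b ha hb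
    have h : Dioph {v : α → ℕ | 0 ∈ f (Nat.pair (a v) (b v)) ∧
        ∀ m < b v, ∃ z, z ∈ f (Nat.pair (a v) m) ∧ z ≠ 0} := by
      refine (pf (pair_dioph ha hb) (Dioph.const_dioph 0)).inter
        (ball_dioph hb (P := fun v m => ∃ z, z ∈ f (Nat.pair (a v) m) ∧ z ≠ 0) ?_)
      apply ex_dioph' (P := fun (w : Option α → ℕ) z =>
        z ∈ f (Nat.pair (a (w ∘ some)) (w none)) ∧ z ≠ 0)
      exact (pf (pair_dioph (lift_fn (lift_fn ha)) (Dioph.proj_dioph (some none)))
        (Dioph.proj_dioph none)).inter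
        (Dioph.ne_dioph (Dioph.proj_dioph none) (Dioph.const_dioph 0))
    refine Dioph.ext h fun v => ?_
    show (0 ∈ f (Nat.pair (a v) (b v)) ∧ ∀ m < b v, ∃ z, z ∈ f (Nat.pair (a v) m) ∧ z ≠ 0) ↔
      b v ∈ Nat.rfind fun n => (fun m => decide (m = 0)) <$> f (Nat.pair (a v) n)
    refine Iff.trans ?_ Nat.mem_rfind.symm
    simp only [Part.map_eq_map, Part.mem_map_iff, decide_eq_true_eq, decide_eq_false_iff_not]
    constructor
    · rintro ⟨h0, h1⟩
      exact ⟨⟨0, h0, rfl⟩, fun {m} hm => h1 m hm⟩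
    · rintro ⟨⟨z, hz, rfl⟩, h1⟩
      exact ⟨hz, fun m hm => h1 hm⟩

/-- **DPRM theorem**: every recursively enumerable set of naturals is Diophantine. -/
theorem dprm {P : ℕ → Prop} (hP : REPred P) :
    ∃ (β : Type) (_ : Fintype β) (p : Poly (Option β)),
      ∀ n, P n ↔ ∃ t : β → ℕ, p (Option.elim' n t) = 0 := by
  have h1 : Nat.Partrec fun n => Part.bind (Encodable.decode (α := ℕ) n : Part ℕ)
      fun a => (Part.assert (P a) fun _ => Part.some ()).map Encodable.encode := hP
  have h2 := dioph_of_partrec h1 (α := Unit) (Dioph.proj_dioph ()) (Dioph.const_dioph 0)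
  obtain ⟨β, hβ, p, hp⟩ := dioph_fintype h2
  refine ⟨β, hβ, p.map (Sum.elim (fun _ => none) some), fun n => ?_⟩
  have h3 := hp fun _ => n
  have h4 : (fun _ => n) ∈ {v : Unit → ℕ | (Function.const (Unit → ℕ) 0 : (Unit → ℕ) → ℕ) v ∈
      Part.bind (Encodable.decode (α := ℕ) (v ()) : Part ℕ)
      fun a => (Part.assert (P a) fun _ => Part.some ()).map Encodable.encode} ↔ P n := by
    simp only [Function.const, Encodable.decode_nat, Set.mem_ofPred_eq, Part.coe_some,
      Part.bind_some, Part.mem_map_iff, Part.mem_assert_iff]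
    constructor
    · rintro ⟨_, ⟨h, _⟩, _⟩; exact h
    · intro h; exact ⟨(), ⟨h, Part.mem_some _⟩, rfl⟩
  rw [← h4, h3]
  apply exists_congr; intro t
  rw [Poly.map_apply]
  have : (Option.elim' n t ∘ Sum.elim (fun _ : Unit => none) some) =
      Sum.elim (fun _ => n) t := by
    funext i; rcases i with i | i <;> rfl
  rw [this]

/-- A polynomial function (in Mathlib's `Poly` sense) comes from an `MvPolynomial`. -/
theorem poly_to_mv {γ : Type} (p : Poly γ) :
    ∃ q : MvPolynomial γ ℤ, ∀ v : γ → ℕ, p v = MvPolynomial.eval (fun i => (v i : ℤ)) q := by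
  induction p using Poly.induction with
  | H1 i => exact ⟨MvPolynomial.X i, fun v => by simp⟩
  | H2 n => exact ⟨MvPolynomial.C n, fun v => by simp⟩
  | H3 f g hf hg =>
    obtain ⟨a, ha⟩ := hf
    obtain ⟨b, hb⟩ := hg
    exact ⟨a - b, fun v => by rw [Poly.sub_apply, ha, hb, map_sub]⟩
  | H4 f g hf hg =>
    obtain ⟨a, ha⟩ := hf
    obtain ⟨b, hb⟩ := hg
    exact ⟨a * b, fun v => by rw [Poly.mul_apply, ha, hb, map_mul]⟩

/-- **DPRM theorem**, `MvPolynomial` form: for every recursively enumerable set `P` of naturals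
there is an integer polynomial `p` in a parameter (variable `none`) and finitely many unknowns
such that `n ∈ P` iff `p(n, t) = 0` is solvable in natural numbers. -/
theorem dprm_mv {P : ℕ → Prop} (hP : REPred P) :
    ∃ (k : ℕ) (p : MvPolynomial (Option (Fin k)) ℤ),
      ∀ n, P n ↔ ∃ t : Fin k → ℕ,
        MvPolynomial.eval (fun i => Option.elim i (n : ℤ) fun j => (t j : ℤ)) p = 0 := by
  obtain ⟨β, hβ, p, hp⟩ := dprm hP
  obtain ⟨q, hq⟩ := poly_to_mv p
  let e := Fintype.equivFin β
  refine ⟨Fintype.card β, MvPolynomial.rename (Option.map e) q, fun n => ?_⟩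
  rw [hp]
  constructor
  · rintro ⟨t, ht⟩
    refine ⟨fun j => t (e.symm j), ?_⟩
    rw [MvPolynomial.eval_rename, ← ht, hq]
    congr 2
    funext i
    cases i <;> simp
  · rintro ⟨t, ht⟩
    refine ⟨fun j => t (e j), ?_⟩
    rw [MvPolynomial.eval_rename] at ht
    rw [← ht, hq]
    congr 2
    funext i
    cases i <;> simp

/-- The halting set `{n | the n-th partial recursive function halts on 0}` is r.e. -/
theorem halting_rePred :
    REPred fun n : ℕ => (Nat.Partrec.Code.eval (Encodable.decode (α := Nat.Partrec.Code) n |>.getD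
      Nat.Partrec.Code.zero) 0).Dom := by
  have h := ComputablePred.halting_problem_re 0
  have hc : Computable fun n : ℕ => (Encodable.decode (α := Nat.Partrec.Code) n).getD
      Nat.Partrec.Code.zero :=
    Computable.option_getD Computable.decode (Computable.const _)
  exact h.comp hc

/-- There is a fixed integer polynomial `p` such that solvability in `ℕ` of `p(n, ·) = 0`
is not a computable property of `n`. -/
theorem exists_undecidable_dioph :
    ∃ (k : ℕ) (p : MvPolynomial (Option (Fin k)) ℤ),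
      ¬ ComputablePred fun n : ℕ => ∃ t : Fin k → ℕ,
        MvPolynomial.eval (fun i => Option.elim i (n : ℤ) fun j => (t j : ℤ)) p = 0 := by
  obtain ⟨k, p, hp⟩ := dprm_mv halting_rePred
  refine ⟨k, p, fun h => ?_⟩
  have h' : ComputablePred fun n : ℕ => (Nat.Partrec.Code.eval
      (Encodable.decode (α := Nat.Partrec.Code) n |>.getD Nat.Partrec.Code.zero) 0).Dom :=
    h.of_eq fun n => (hp n).symm
  apply ComputablePred.halting_problem 0
  have h2 := ComputablePred.computable_iff.1 h'
  obtain ⟨f, hf, hf'⟩ := h2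
  refine ComputablePred.computable_iff.2 ⟨fun c => f (Encodable.encode c),
    hf.comp Computable.encode, ?_⟩
  funext c
  have := congrFun hf' (Encodable.encode c)
  simpa using this

end Pool.Agent.Helper81
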