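import Pool.Agent.Helper81.CompS

/-!
# Polynomial-time functions between types coded by trees: the basic calculus
-/

namespace Pool.Agent.Helper81.CC

open Turing Pool.Agent.Helper78.PT

/-- The size of an element: the length of its code. -/
def sz {α : Type} [ToData α] (a : α) : ℕ := (encOf α a).length

/-- `f` is computable in polynomial time (by a stack program, with respect to the tree codings).
See `PolyTime.computable` for the relation to Turing machines. -/
@[fun_prop]
structure PolyTime {α β : Type} [ToData α] [ToData β] (f : α → β) : Prop where of_scomp ::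
  /-- the underlying statement about strings -/
  scomp : SComp (encOf α) (encOf β) f

variable {α β γ δ σ : Type} [ToData α] [ToData β] [ToData γ] [ToData δ] [ToData σ]

theorem toData_pair (a : α) (b : β) : toData (a, b) = .cons (toData a) (toData b) := rfl
theorem toData_nil : toData ([] : List α) = .nil := rfl
theorem toData_cons (a : α) (l : List α) : toData (a :: l) = .cons (toData a) (toData l) := rfl
theorem toData_zero : toData (0 : ℕ) = .nil := rfl
theorem toData_succ (n : ℕ) : toData (n + 1) = .cons .nil (toData n) := rfl
theorem toData_true : toData true = .cons .nil .nil := rfl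
theorem toData_false : toData false = .nil := rfl
theorem toData_none : toData (none : Option α) = .nil := rfl
theorem toData_some (a : α) : toData (some a) = .cons .nil (toData a) := rfl
theorem toData_inl (a : α) : toData (Sum.inl a : α ⊕ β) = .cons .nil (toData a) := rfl
theorem toData_inr (b : β) :
    toData (Sum.inr b : α ⊕ β) = .cons (.cons .nil .nil) (toData b) := rfl
theorem toData_data (d : Data) : toData d = d := rfl
theorem toData_sub {p : α → Prop} (a : Subtype p) : toData a = toData a.1 := rfl

theorem sz_def (a : α) : sz a = (toData a).enc.length := rfl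

@[simp] theorem sz_pair (a : α) (b : β) : sz (a, b) = sz a + sz b + 1 := by
  simp [sz_def, toData_pair, Data.enc]
@[simp] theorem sz_nil : sz ([] : List α) = 1 := rfl
@[simp] theorem sz_cons (a : α) (l : List α) : sz (a :: l) = sz a + sz l + 1 := by
  simp [sz_def, toData_cons, Data.enc]
@[simp] theorem sz_nat (n : ℕ) : sz n = 2 * n + 1 := by
  induction n with
  | zero => rfl
  | succ n ih =>
    rw [sz_def] at ih ⊢
    simp only [toData_succ, Data.enc, List.length_cons, List.length_append, List.length_nil]
    omega
@[simp] theorem sz_true : sz true = 3 := rfl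
@[simp] theorem sz_false : sz false = 1 := rfl
@[simp] theorem sz_unit (u : Unit) : sz u = 1 := rfl
@[simp] theorem sz_none : sz (none : Option α) = 1 := rfl
@[simp] theorem sz_some (a : α) : sz (some a) = sz a + 2 := by
  simp [sz_def, toData_some, Data.enc]
theorem sz_pos (a : α) : 1 ≤ sz a := by
  rw [sz_def]
  cases toData a <;> simp [Data.enc]
theorem sz_bool (b : Bool) : sz b ≤ 3 := by cases b <;> simp
@[simp] theorem sz_sub {p : α → Prop} (a : Subtype p) : sz a = sz a.1 := rfl

theorem PolyTime.congr {f g : α → β} (h : PolyTime f) (hfg : ∀ a, f a = g a) : PolyTime g :=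
  ⟨SComp.congr h.scomp hfg⟩

/-- Change of types. -/
theorem PolyTime.castD {α' β' : Type} [ToData α'] [ToData β'] {f : α → β} {f' : α' → β'}
    (h : PolyTime f)
    (k : ∀ a' : α', ∃ a, toData a = toData a' ∧ toData (f a) = toData (f' a')) : PolyTime f' := by
  refine ⟨SComp.cast h.scomp fun a' => ?_⟩
  obtain ⟨a, h1, h2⟩ := k a'
  exact ⟨a, congrArg Data.enc h1, congrArg Data.enc h2⟩

@[fun_prop]
theorem PolyTime.id' : PolyTime (fun a : α => a) := ⟨SComp.id'⟩

/-- A function which does not change the code. -/
theorem PolyTime.of_eq {f : α → β} (h : ∀ a, toData (f a) = toData a) : PolyTime f :=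
  ⟨SComp.cast (SComp.id' (ea := encOf α)) fun a' => ⟨a', rfl, by
    show encOf α a' = encOf β (f a')
    rw [encOf, encOf, h]⟩⟩

@[fun_prop]
theorem PolyTime.const (b : β) : PolyTime (fun _ : α => b) := ⟨SComp.const b⟩

@[fun_prop]
theorem PolyTime.comp {g : β → γ} {f : α → β} (hg : PolyTime g) (hf : PolyTime f) :
    PolyTime (fun a => g (f a)) := ⟨SComp.comp hg.scomp hf.scomp⟩

theorem pairE_encOf : pairE (encOf α) (encOf β) = encOf (α × β) := by
  funext p
  rfl

@[fun_prop]
theorem PolyTime.pair {f : α → β} {g : α → γ} (hf : PolyTime f) (hg : PolyTime g) :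
    PolyTime (fun a => (f a, g a)) := by
  have := SComp.pair hf.scomp hg.scomp
  rw [pairE_encOf] at this
  exact ⟨this⟩

theorem PolyTime.fst_aux : PolyTime (fun p : α × β => p.1) := by
  have := scomp_fst (da := (toData : α → Data)) (eb := encOf β)
  exact ⟨this⟩

theorem PolyTime.snd_aux : PolyTime (fun p : α × β => p.2) := by
  have := scomp_snd (da := (toData : α → Data)) (eb := encOf β)
  exact ⟨this⟩

@[fun_prop]
theorem PolyTime.fst {f : α → β × γ} (h : PolyTime f) : PolyTime (fun a => (f a).1) :=
  PolyTime.comp PolyTime.fst_aux h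

@[fun_prop]
theorem PolyTime.snd {f : α → β × γ} (h : PolyTime f) : PolyTime (fun a => (f a).2) :=
  PolyTime.comp PolyTime.snd_aux h

theorem PolyTime.val_aux {p : α → Prop} : PolyTime (fun a : Subtype p => a.1) :=
  PolyTime.of_eq fun _ => rfl

@[fun_prop]
theorem PolyTime.val {p : β → Prop} {f : α → Subtype p} (h : PolyTime f) :
    PolyTime (fun a => (f a).1) := PolyTime.comp PolyTime.val_aux h

/-- Restriction to a subtype. -/
theorem PolyTime.restrict {f : α → β} (h : PolyTime f) (p : α → Prop) :
    PolyTime (fun a : Subtype p => f a.1) := PolyTime.comp h PolyTime.val_aux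

theorem PolyTime.mk {p : β → Prop} {f : α → β} (h : PolyTime f) (hp : ∀ a, p (f a)) :
    PolyTime (fun a => (⟨f a, hp a⟩ : Subtype p)) :=
  PolyTime.castD h fun a => ⟨a, rfl, rfl⟩

/-! ### Case distinction -/

theorem PolyTime.dite {c : α → Bool} {f : {a // c a = true} → β} {g : {a // c a = false} → β}
    (hc : PolyTime c) (hf : PolyTime f) (hg : PolyTime g) :
    PolyTime (fun a => if h : c a = true then f ⟨a, h⟩ else g ⟨a, by simpa using h⟩) :=
  ⟨SComp.dite' hc.scomp hf.scomp hg.scomp⟩

@[fun_prop]
theorem PolyTime.ite {c : α → Bool} {f g : α → β} (hc : PolyTime c) (hf : PolyTime f)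
    (hg : PolyTime g) : PolyTime (fun a => if c a = true then f a else g a) :=
  PolyTime.congr (PolyTime.dite hc (hf.restrict _) (hg.restrict _)) fun a => by
    by_cases h : c a = true <;> simp [h]

@[fun_prop]
theorem PolyTime.itep {c : α → Prop} [DecidablePred c] {f g : α → β}
    (hc : PolyTime (fun a => decide (c a))) (hf : PolyTime f)
    (hg : PolyTime g) : PolyTime (fun a => if c a then f a else g a) :=
  PolyTime.congr (PolyTime.ite hc hf hg) fun a => by
    by_cases h : c a <;> simp [h]

@[fun_prop]
theorem PolyTime.cond {c : α → Bool} {f g : α → β} (hc : PolyTime c) (hf : PolyTime f)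
    (hg : PolyTime g) : PolyTime (fun a => _root_.cond (c a) (f a) (g a)) :=
  PolyTime.congr (PolyTime.ite hc hf hg) fun a => by
    cases h : c a <;> simp

@[fun_prop]
theorem PolyTime.and {c d : α → Bool} (hc : PolyTime c) (hd : PolyTime d) :
    PolyTime (fun a => c a && d a) :=
  PolyTime.congr (PolyTime.ite hc hd (PolyTime.const false)) fun a => by
    cases h : c a <;> simp

@[fun_prop]
theorem PolyTime.or {c d : α → Bool} (hc : PolyTime c) (hd : PolyTime d) :
    PolyTime (fun a => c a || d a) :=
  PolyTime.congr (PolyTime.ite hc (PolyTime.const true) hd) fun a => by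
    cases h : c a <;> simp

@[fun_prop]
theorem PolyTime.not {c : α → Bool} (hc : PolyTime c) : PolyTime (fun a => !c a) :=
  PolyTime.congr (PolyTime.ite hc (PolyTime.const false) (PolyTime.const true)) fun a => by
    cases h : c a <;> simp

@[fun_prop]
theorem PolyTime.decide_and {p q : α → Prop} [∀ a, Decidable (p a)] [∀ a, Decidable (q a)]
    [∀ a, Decidable (p a ∧ q a)]
    (hp : PolyTime (fun a => decide (p a))) (hq : PolyTime (fun a => decide (q a))) :
    PolyTime (fun a => decide (p a ∧ q a)) :=
  PolyTime.congr (hp.and hq) fun a => by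
    by_cases h1 : p a <;> by_cases h2 : q a <;> simp [h1, h2]

@[fun_prop]
theorem PolyTime.decide_or {p q : α → Prop} [∀ a, Decidable (p a)] [∀ a, Decidable (q a)]
    [∀ a, Decidable (p a ∨ q a)]
    (hp : PolyTime (fun a => decide (p a))) (hq : PolyTime (fun a => decide (q a))) :
    PolyTime (fun a => decide (p a ∨ q a)) :=
  PolyTime.congr (hp.or hq) fun a => by
    by_cases h1 : p a <;> by_cases h2 : q a <;> simp [h1, h2]

@[fun_prop]
theorem PolyTime.decide_imp {p q : α → Prop} [∀ a, Decidable (p a)] [∀ a, Decidable (q a)]
    [∀ a, Decidable (p a → q a)]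
    (hp : PolyTime (fun a => decide (p a))) (hq : PolyTime (fun a => decide (q a))) :
    PolyTime (fun a => decide (p a → q a)) :=
  PolyTime.congr (hp.not.or hq) fun a => by
    by_cases h1 : p a <;> by_cases h2 : q a <;> simp [h1, h2]

@[fun_prop]
theorem PolyTime.decide_iff {p q : α → Prop} [∀ a, Decidable (p a)] [∀ a, Decidable (q a)]
    [∀ a, Decidable (p a ↔ q a)]
    (hp : PolyTime (fun a => decide (p a))) (hq : PolyTime (fun a => decide (q a))) :
    PolyTime (fun a => decide (p a ↔ q a)) :=
  PolyTime.congr ((hp.and hq).or (hp.not.and hq.not)) fun a => by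
    by_cases h1 : p a <;> by_cases h2 : q a <;> simp [h1, h2]

@[fun_prop]
theorem PolyTime.decide_not {p : α → Prop} [∀ a, Decidable (p a)] [∀ a, Decidable (¬ p a)]
    (hp : PolyTime (fun a => decide (p a))) :
    PolyTime (fun a => decide (¬ p a)) :=
  PolyTime.congr hp.not fun a => by
    by_cases h1 : p a <;> simp [h1]

@[fun_prop]
theorem PolyTime.decide_const {p : Prop} [Decidable p] :
    PolyTime (fun _ : α => decide p) := PolyTime.const _

@[fun_prop]
theorem PolyTime.decide_bool_eq_true {c : α → Bool} [∀ a, Decidable (c a = true)]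
    (hc : PolyTime c) : PolyTime (fun a => decide (c a = true)) :=
  PolyTime.congr hc fun a => by simp

@[fun_prop]
theorem PolyTime.xor {c d : α → Bool} (hc : PolyTime c) (hd : PolyTime d) :
    PolyTime (fun a => Bool.xor (c a) (d a)) :=
  PolyTime.congr (PolyTime.ite hc hd.not hd) fun a => by
    cases h : c a <;> simp

/-! ### Trees -/

/-- Left subtree. -/
def Data.left : Data → Data
  | .nil => .nil
  | .cons a _ => a

/-- Right subtree. -/
def Data.right : Data → Data
  | .nil => .nil
  | .cons _ b => b

/-- Test for a nonempty tree. -/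
def Data.isCons : Data → Bool
  | .nil => false
  | .cons _ _ => true

theorem PolyTime.isCons_aux : PolyTime Data.isCons := by
  refine ⟨.ifTop 0 .skip .skip (.seq (clr 0) (pushL 0 [true, false, false])),
    2 * Polynomial.X + 7, fun d => ?_⟩
  cases d with
  | nil =>
    refine (run_ifFalse (L := [[false]]) (k := 0) (pe := .skip)
      (pt := .seq (clr 0) (pushL 0 [true, false, false])) [] (by simp)
      (run_skip _)).mono ?_
    simp
  | cons a b =>
    have h1 := run_clr (L := [(Data.cons a b).enc]) 0 (by simp)
    have h2 := run_pushL 0 [true, false, false] [[]] (by simp)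
    simp at h1 h2
    have := run_ifTrue (L := [(Data.cons a b).enc]) (k := 0) (pe := .skip) (pf := .skip)
      (a.enc ++ b.enc) (by simp [Data.enc]) (h1.seq h2)
    refine Run.mono this ?_
    simp only [encOf, toData_data, Polynomial.eval_add, Polynomial.eval_mul, Polynomial.eval_X,
      Polynomial.eval_ofNat]
    omega

theorem PolyTime.left_aux : PolyTime Data.left := by
  have h1 : PolyTime (fun d : {d // Data.isCons d = true} => Data.left d.1) := by
    refine PolyTime.castD (PolyTime.fst_aux (α := Data) (β := Data)) ?_
    rintro ⟨d, hd⟩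
    cases d with
    | nil => simp [Data.isCons] at hd
    | cons a b => exact ⟨(a, b), rfl, rfl⟩
  refine PolyTime.congr (PolyTime.dite PolyTime.isCons_aux h1 (PolyTime.const Data.nil)) ?_
  intro d
  cases d <;> simp [Data.isCons, Data.left]

theorem PolyTime.right_aux : PolyTime Data.right := by
  have h1 : PolyTime (fun d : {d // Data.isCons d = true} => Data.right d.1) := by
    refine PolyTime.castD (PolyTime.snd_aux (α := Data) (β := Data)) ?_
    rintro ⟨d, hd⟩
    cases d with
    | nil => simp [Data.isCons] at hd
    | cons a b => exact ⟨(a, b), rfl, rfl⟩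
  refine PolyTime.congr (PolyTime.dite PolyTime.isCons_aux h1 (PolyTime.const Data.nil)) ?_
  intro d
  cases d <;> simp [Data.isCons, Data.right]

@[fun_prop]
theorem PolyTime.isCons {f : α → Data} (h : PolyTime f) : PolyTime (fun a => (f a).isCons) :=
  PolyTime.comp PolyTime.isCons_aux h

@[fun_prop]
theorem PolyTime.left {f : α → Data} (h : PolyTime f) : PolyTime (fun a => (f a).left) :=
  PolyTime.comp PolyTime.left_aux h

@[fun_prop]
theorem PolyTime.right {f : α → Data} (h : PolyTime f) : PolyTime (fun a => (f a).right) :=
  PolyTime.comp PolyTime.right_aux h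

@[fun_prop]
theorem PolyTime.dcons {f g : α → Data} (hf : PolyTime f) (hg : PolyTime g) :
    PolyTime (fun a => Data.cons (f a) (g a)) :=
  PolyTime.comp (g := fun p : Data × Data => Data.cons p.1 p.2) (PolyTime.of_eq fun _ => rfl)
    (PolyTime.pair hf hg)

theorem PolyTime.toData_aux : PolyTime (fun a : α => toData a) := PolyTime.of_eq fun _ => rfl

@[fun_prop]
theorem PolyTime.toData' {f : α → β} (h : PolyTime f) : PolyTime (fun a => toData (f a)) :=
  PolyTime.comp PolyTime.toData_aux h

/-- A function between types computed by a function on trees. -/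
theorem PolyTime.of_data {f : α → β} {F : Data → Data} (hF : PolyTime F)
    (h : ∀ a, toData (f a) = F (toData a)) : PolyTime f :=
  PolyTime.castD hF fun a => ⟨toData a, rfl, (h a).symm⟩

/-- A function with values in `Data` which are codes of the values of `f`. -/
theorem PolyTime.of_toData {f : α → β} (h : PolyTime (fun a => toData (f a))) : PolyTime f :=
  PolyTime.castD h fun a => ⟨a, rfl, rfl⟩

end Pool.Agent.Helper81.CC
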