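import Pool.Agent.Helper81.DioTools
import Mathlib.Data.Nat.ChineseRemainder

/-!
The bounded universal quantifier theorem for Diophantine sets.
-/

namespace Pool.Agent.Helper81

open Dioph Finset Function

/-- Every polynomial depends on finitely many variables. -/
theorem poly_exists_finset {γ : Type} (p : Poly γ) :
    ∃ s : Set γ, s.Finite ∧ ∀ x y : γ → ℕ, (∀ i ∈ s, x i = y i) → p x = p y := by
  induction p using Poly.induction with
  | H1 i => exact ⟨{i}, Set.finite_singleton i, fun x y h => by simp [h i rfl]⟩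
  | H2 n => exact ⟨∅, Set.finite_empty, fun x y _ => rfl⟩
  | H3 f g hf hg =>
    obtain ⟨s, hs, hs'⟩ := hf
    obtain ⟨t, ht, ht'⟩ := hg
    refine ⟨s ∪ t, hs.union ht, fun x y h => ?_⟩
    rw [Poly.sub_apply, Poly.sub_apply, hs' x y fun i hi => h i (Or.inl hi),
      ht' x y fun i hi => h i (Or.inr hi)]
  | H4 f g hf hg =>
    obtain ⟨s, hs, hs'⟩ := hf
    obtain ⟨t, ht, ht'⟩ := hg
    refine ⟨s ∪ t, hs.union ht, fun x y h => ?_⟩
    rw [Poly.mul_apply, Poly.mul_apply, hs' x y fun i hi => h i (Or.inl hi),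
      ht' x y fun i hi => h i (Or.inr hi)]

/-- Every polynomial is dominated by a monotone polynomial. -/
theorem poly_exists_bound {γ : Type} (p : Poly γ) :
    ∃ g : Poly γ, ∀ x y : γ → ℕ, (∀ i, x i ≤ y i) → |p x| ≤ g y := by
  induction p using Poly.induction with
  | H1 i => exact ⟨Poly.proj i, fun x y h => by simpa using h i⟩
  | H2 n => exact ⟨Poly.const |n|, fun x y _ => by simp⟩
  | H3 f g hf hg =>
    obtain ⟨a, ha⟩ := hf
    obtain ⟨b, hb⟩ := hg
    refine ⟨a + b, fun x y h => ?_⟩
    rw [Poly.sub_apply, Poly.add_apply]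
    exact (abs_sub _ _).trans (add_le_add (ha x y h) (hb x y h))
  | H4 f g hf hg =>
    obtain ⟨a, ha⟩ := hf
    obtain ⟨b, hb⟩ := hg
    refine ⟨a * b, fun x y h => ?_⟩
    rw [Poly.mul_apply, Poly.mul_apply, abs_mul]
    exact mul_le_mul (ha x y h) (hb x y h) (abs_nonneg _) ((abs_nonneg _).trans (ha x y h))

/-- Polynomials respect congruences. -/
theorem poly_modEq {γ : Type} (p : Poly γ) (M : ℤ) (x y : γ → ℕ)
    (h : ∀ i, (x i : ℤ) ≡ y i [ZMOD M]) : p x ≡ p y [ZMOD M] := by
  induction p using Poly.induction with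
  | H1 i => simpa using h i
  | H2 n => rfl
  | H3 f g hf hg => rw [Poly.sub_apply, Poly.sub_apply]; exact hf.sub hg
  | H4 f g hf hg => rw [Poly.mul_apply, Poly.mul_apply]; exact hf.mul hg

/-- A Diophantine set has a representation with finitely many unknowns. -/
theorem dioph_fintype {α : Type} {S : Set (α → ℕ)} (d : Dioph S) :
    ∃ (β : Type) (_ : Fintype β) (p : Poly (α ⊕ β)),
      ∀ v, v ∈ S ↔ ∃ t : β → ℕ, p (Sum.elim v t) = 0 := by
  classical
  obtain ⟨β, p, hp⟩ := d
  obtain ⟨s, hs, hs'⟩ := poly_exists_finset p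
  have hfin : Finite {b : β // Sum.inr b ∈ s} := by
    have : Set.Finite {b : β | (Sum.inr b : α ⊕ β) ∈ s} :=
      hs.preimage (Sum.inr_injective.injOn)
    exact this.to_subtype
  have := Fintype.ofFinite {b : β // Sum.inr b ∈ s}
  refine ⟨Option {b : β // Sum.inr b ∈ s}, inferInstance,
    p.map (Sum.elim Sum.inl fun b => if h : Sum.inr b ∈ s then Sum.inr (some ⟨b, h⟩)
      else Sum.inr none), fun v => (hp v).trans ⟨?_, ?_⟩⟩
  · rintro ⟨t, ht⟩
    refine ⟨fun o => Option.elim o 0 fun b => t b.1, ?_⟩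
    rw [Poly.map_apply, ← ht]
    apply hs'
    rintro (i | i) hi
    · rfl
    · simp [hi]
  · rintro ⟨t, ht⟩
    refine ⟨fun b => if h : Sum.inr b ∈ s then t (some ⟨b, h⟩) else t none, ?_⟩
    rw [Poly.map_apply] at ht
    rw [← ht]
    congr 1
    funext i
    rcases i with i | i
    · rfl
    · by_cases h : Sum.inr i ∈ s <;> simp [h]

theorem forall_dioph {α β : Type} [Fintype β] {S : β → Set (α → ℕ)} (h : ∀ i, Dioph (S i)) :
    Dioph {v | ∀ i, v ∈ S i} := by
  refine Dioph.ext (DiophList.forall ((Finset.univ : Finset β).toList.map S) ?_) ?_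
  · rw [List.forall_iff_forall_mem]
    intro T hT
    obtain ⟨i, _, rfl⟩ := List.mem_map.1 hT
    exact h i
  · intro v
    simp only [Set.mem_ofPred_eq, List.forall_iff_forall_mem, List.mem_map, Finset.mem_toList,
      Finset.mem_univ, true_and, forall_exists_index, forall_apply_eq_imp_iff]

/-! ### number theory -/

theorem coprime_of_dvd_one_add {m k T : ℕ} (h : m ∣ 1 + (k + 1) * T) : Nat.Coprime m T := by
  rw [Nat.coprime_iff_gcd_eq_one]
  have h1 : Nat.gcd m T ∣ 1 + (k + 1) * T := (Nat.gcd_dvd_left m T).trans h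
  have h2 : Nat.gcd m T ∣ (k + 1) * T := (Nat.gcd_dvd_right m T).mul_left _
  exact Nat.dvd_one.1 ((Nat.dvd_add_iff_left h2).2 h1)

theorem index_modEq {m k c T : ℕ} (h : m ∣ 1 + (k + 1) * T) (h' : m ∣ 1 + (c + 1) * T) :
    (c : ℤ) ≡ k [ZMOD m] := by
  have hc := coprime_of_dvd_one_add h
  have h1 : (m : ℤ) ∣ ((k : ℤ) - c) * T := by
    have a : (m : ℤ) ∣ 1 + (k + 1) * T := by exact_mod_cast h
    have b : (m : ℤ) ∣ 1 + (c + 1) * T := by exact_mod_cast h'
    have h3 := dvd_sub a b
    have e : ((k : ℤ) - c) * T = (1 + (k + 1) * T) - (1 + (c + 1) * T) := by ring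
    rw [e]; exact h3
  have h2 : IsCoprime (m : ℤ) (T : ℤ) := Nat.isCoprime_iff_coprime.2 hc
  exact (Int.modEq_iff_dvd).2 (h2.dvd_of_dvd_mul_right h1)

theorem mod_le_of_dvd_descFactorial {P a u : ℕ} (hP : P.Prime) (h : P ∣ a.descFactorial (u + 1)) :
    a % P ≤ u := by
  rcases le_or_gt a u with ha | ha
  · exact (Nat.mod_le _ _).trans ha
  · rw [Nat.descFactorial_eq_prod_range] at h
    obtain ⟨j, hj, hj'⟩ := (hP.prime.dvd_finsetProd_iff _).1 h
    have hj2 : j ≤ u := Nat.lt_succ_iff.1 (Finset.mem_range.1 hj)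
    have : a ≡ j [MOD P] := ((Nat.modEq_iff_dvd' (by omega)).2 hj').symm
    rw [this]
    exact (Nat.mod_le _ _).trans hj2

theorem dvd_descFactorial_of_modEq {m a y u : ℕ} (h : a ≡ y [MOD m]) (hy : y ≤ u) :
    m ∣ a.descFactorial (u + 1) := by
  rcases lt_or_ge a (u + 1) with ha | ha
  · rw [Nat.descFactorial_of_lt ha]; exact dvd_zero _
  · have h1 : m ∣ a - y := (Nat.modEq_iff_dvd' (by omega)).1 h.symm
    refine h1.trans ?_
    rw [Nat.descFactorial_eq_prod_range]
    exact Finset.dvd_prod_of_mem (fun i => a - i) (Finset.mem_range.2 (by omega : y < u + 1))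

theorem coprime_pair {Q k l n : ℕ} (hk : k < n) (hl : l < n) (hn : n ≤ Q) (hkl : k ≠ l) :
    Nat.Coprime (1 + (k + 1) * Q.factorial) (1 + (l + 1) * Q.factorial) := by
  rw [Nat.coprime_iff_gcd_eq_one]
  by_contra hne
  obtain ⟨P, hP, hPd⟩ := Nat.exists_prime_and_dvd hne
  have h1 : P ∣ 1 + (k + 1) * Q.factorial := hPd.trans (Nat.gcd_dvd_left _ _)
  have h2 : P ∣ 1 + (l + 1) * Q.factorial := hPd.trans (Nat.gcd_dvd_right _ _)
  have h3 := index_modEq h1 h2
  have hPQ : Q < P := by
    by_contra hle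
    have : P ∣ Q.factorial := Nat.dvd_factorial hP.pos (not_lt.1 hle)
    have := (coprime_of_dvd_one_add h1)
    rw [Nat.coprime_iff_gcd_eq_one, Nat.gcd_eq_left ‹P ∣ Q.factorial›] at this
    exact hP.one_lt.ne' this
  have h4 : l % P = k % P := by
    have := h3
    rw [Int.natCast_modEq_iff] at this
    exact this
  rw [Nat.mod_eq_of_lt (by omega), Nat.mod_eq_of_lt (by omega)] at h4
  exact hkl h4.symm

theorem prodSucc_dvd {Q n z : ℕ} (hn : n ≤ Q)
    (h : ∀ k < n, 1 + (k + 1) * Q.factorial ∣ z) : prodSucc Q.factorial n ∣ z := by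
  have : ∀ m ≤ n, prodSucc Q.factorial m ∣ z := by
    intro m
    induction m with
    | zero => intro _; simp [prodSucc]
    | succ m ih =>
      intro hm
      unfold prodSucc
      rw [Finset.prod_range_succ]
      apply Nat.Coprime.mul_dvd_of_dvd_of_dvd _ (ih (by omega)) (h m (by omega))
      apply Nat.Coprime.prod_left
      intro k hk
      have := Finset.mem_range.1 hk
      exact coprime_pair (n := n) (by omega) (by omega) hn (by omega)
  exact this n le_rfl

theorem exists_crt {Q n : ℕ} (hn : n ≤ Q) (t : ℕ → ℕ) :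
    ∃ a, ∀ k < n, a ≡ t k [MOD 1 + (k + 1) * Q.factorial] := by
  have hco : Set.Pairwise (↑(Finset.range n) : Set ℕ)
      (Nat.Coprime on fun k => 1 + (k + 1) * Q.factorial) := by
    intro k hk l hl hkl
    exact coprime_pair (n := n) (by simpa using hk) (by simpa using hl) hn hkl
  obtain ⟨a, ha⟩ := Nat.chineseRemainderOfFinset t (fun k => 1 + (k + 1) * Q.factorial)
    (Finset.range n) (fun i _ => by positivity) hco
  exact ⟨a, fun k hk => ha k (Finset.mem_range.2 hk)⟩

theorem exists_index {Q n : ℕ} (hn0 : 0 < n) :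
    ∃ c, 1 + (c + 1) * Q.factorial = prodSucc Q.factorial n := by
  obtain ⟨m, rfl⟩ : ∃ m, n = m + 1 := ⟨n - 1, by omega⟩
  clear hn0
  induction m with
  | zero => exact ⟨0, by simp [prodSucc]⟩
  | succ m ih =>
    obtain ⟨c, hc⟩ := ih
    refine ⟨(c + 1) + (m + 2) + (c + 1) * (m + 2) * Q.factorial - 1, ?_⟩
    have : prodSucc Q.factorial (m + 1 + 1) =
        prodSucc Q.factorial (m + 1) * (1 + (m + 1 + 1) * Q.factorial) := by
      unfold prodSucc; rw [Finset.prod_range_succ]
    rw [this, ← hc, Nat.sub_add_cancel (by omega)]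
    ring

theorem bounded_forall_iff {α β : Type} [Fintype β] (p g : Poly (Option α ⊕ β))
    (hg : ∀ x y : Option α ⊕ β → ℕ, (∀ i, x i ≤ y i) → |p x| ≤ g y) (v : α → ℕ) (n : ℕ) :
    (∀ k < n, ∃ t : β → ℕ, p (Sum.elim (Option.elim' k v) t) = 0) ↔
      n = 0 ∨ ∃ u c : ℕ, ∃ a : β → ℕ,
        1 + (c + 1) * ((g (Sum.elim (Option.elim' n v) fun _ => u)).natAbs + n + u + 1).factorial
          = prodSucc
            ((g (Sum.elim (Option.elim' n v) fun _ => u)).natAbs + n + u + 1).factorial n ∧
        (∀ i, prodSucc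
            ((g (Sum.elim (Option.elim' n v) fun _ => u)).natAbs + n + u + 1).factorial n ∣
              (a i).descFactorial (u + 1)) ∧
        prodSucc
            ((g (Sum.elim (Option.elim' n v) fun _ => u)).natAbs + n + u + 1).factorial n ∣
              (p (Sum.elim (Option.elim' c v) a)).natAbs := by
  constructor
  · intro h
    rcases Nat.eq_zero_or_pos n with rfl | hn0
    · exact Or.inl rfl
    right
    have h' : ∀ k : ℕ, ∃ t : β → ℕ, k < n → p (Sum.elim (Option.elim' k v) t) = 0 := by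
      intro k
      by_cases hk : k < n
      · obtain ⟨t, ht⟩ := h k hk
        exact ⟨t, fun _ => ht⟩
      · exact ⟨fun _ => 0, fun h => absurd h hk⟩
    choose t ht using h'
    obtain ⟨u, hu⟩ : ∃ u, ∀ k < n, ∀ i, t k i ≤ u := by
      refine ⟨∑ k ∈ Finset.range n, ∑ i, t k i, fun k hk i => ?_⟩
      calc t k i ≤ ∑ i, t k i := Finset.single_le_sum (f := fun i => t k i)
            (fun _ _ => Nat.zero_le _) (Finset.mem_univ i)
        _ ≤ _ := Finset.single_le_sum (f := fun k => ∑ i, t k i)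
            (fun _ _ => Nat.zero_le _) (Finset.mem_range.2 hk)
    set Q := (g (Sum.elim (Option.elim' n v) fun _ => u)).natAbs + n + u + 1 with hQ
    have hnQ : n ≤ Q := by omega
    obtain ⟨c, hc⟩ := exists_index (Q := Q) hn0
    have hcrt : ∀ i : β, ∃ a, ∀ k < n, a ≡ t k i [MOD 1 + (k + 1) * Q.factorial] :=
      fun i => exists_crt hnQ fun k => t k i
    choose a ha using hcrt
    refine ⟨u, c, a, hc, fun i => ?_, ?_⟩
    · exact prodSucc_dvd hnQ fun k hk => dvd_descFactorial_of_modEq (ha i k hk) (hu k hk i)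
    · apply prodSucc_dvd hnQ
      intro k hk
      have hdvd : 1 + (k + 1) * Q.factorial ∣ 1 + (c + 1) * Q.factorial := by
        rw [hc]; unfold prodSucc
        exact Finset.dvd_prod_of_mem (fun k => 1 + (k + 1) * Q.factorial) (Finset.mem_range.2 hk)
      have hck := index_modEq (dvd_refl _) hdvd
      have hp := poly_modEq p ((1 + (k + 1) * Q.factorial : ℕ) : ℤ)
        (Sum.elim (Option.elim' c v) a) (Sum.elim (Option.elim' k v) (t k)) (by
          rintro ((_ | i) | i)
          · exact hck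
          · exact Int.ModEq.refl _
          · exact (Int.natCast_modEq_iff).2 (ha i k hk))
      rw [ht k hk] at hp
      exact Int.natCast_dvd.1 ((Int.modEq_zero_iff_dvd).1 hp)
  · rintro (rfl | ⟨u, c, a, hc, hai, hp⟩) k hk
    · exact absurd hk (Nat.not_lt_zero _)
    set Q := (g (Sum.elim (Option.elim' n v) fun _ => u)).natAbs + n + u + 1 with hQ
    have hne : 1 + (k + 1) * Q.factorial ≠ 1 := by
      have := Nat.factorial_pos Q
      have : 0 < (k + 1) * Q.factorial := by positivity
      omega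
    obtain ⟨P, hP, hPd⟩ := Nat.exists_prime_and_dvd hne
    have hPprod : P ∣ prodSucc Q.factorial n := by
      refine hPd.trans ?_
      unfold prodSucc
      exact Finset.dvd_prod_of_mem (fun k => 1 + (k + 1) * Q.factorial) (Finset.mem_range.2 hk)
    have hPQ : Q < P := by
      by_contra hle
      have h1 : P ∣ Q.factorial := Nat.dvd_factorial hP.pos (not_lt.1 hle)
      have h2 := coprime_of_dvd_one_add hPd
      rw [Nat.coprime_iff_gcd_eq_one, Nat.gcd_eq_left h1] at h2
      exact hP.one_lt.ne' h2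
    have hck : (c : ℤ) ≡ k [ZMOD P] := index_modEq hPd (by rw [hc]; exact hPprod)
    refine ⟨fun i => a i % P, ?_⟩
    have hmod := poly_modEq p (P : ℤ)
        (Sum.elim (Option.elim' c v) a) (Sum.elim (Option.elim' k v) fun i => a i % P) (by
          rintro ((_ | i) | i)
          · exact hck
          · exact Int.ModEq.refl _
          · exact (Int.natCast_modEq_iff).2 (Nat.mod_modEq _ _).symm)
    have hPp : (P : ℤ) ∣ p (Sum.elim (Option.elim' c v) a) :=
      Int.natCast_dvd.2 (hPprod.trans hp)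
    have hPp' : (P : ℤ) ∣ p (Sum.elim (Option.elim' k v) fun i => a i % P) :=
      (Int.modEq_zero_iff_dvd).1 (hmod.symm.trans ((Int.modEq_zero_iff_dvd).2 hPp))
    have hb := hg (Sum.elim (Option.elim' k v) fun i => a i % P)
      (Sum.elim (Option.elim' n v) fun _ => u) (by
          rintro ((_ | i) | i)
          · exact hk.le
          · exact le_rfl
          · exact mod_le_of_dvd_descFactorial hP (hPprod.trans (hai i)))
    apply Int.eq_zero_of_abs_lt_dvd hPp'
    refine hb.trans_lt ?_
    refine (Int.le_natAbs).trans_lt ?_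
    have : (g (Sum.elim (Option.elim' n v) fun _ => u)).natAbs < P := by omega
    exact_mod_cast this

/-! ### The theorem -/

theorem ball_dioph_aux {α : Type} {S : Set (Option α → ℕ)} (d : Dioph S) :
    Dioph {w : Option α → ℕ | ∀ k < w none, Option.elim' k (w ∘ some) ∈ S} := by
  obtain ⟨β, hβ, p, hp⟩ := dioph_fintype d
  obtain ⟨g, hg⟩ := poly_exists_bound p
  -- context: `inl none = c`, `inl (some none) = u`, `inl (some (some none)) = n`
  let ctx := Option (Option (Option α)) ⊕ β
  let n' : (ctx → ℕ) → ℕ := fun w => w (Sum.inl (some (some none)))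
  let u' : (ctx → ℕ) → ℕ := fun w => w (Sum.inl (some none))
  let c' : (ctx → ℕ) → ℕ := fun w => w (Sum.inl none)
  have dn : DiophFn n' := Dioph.proj_dioph _
  have du : DiophFn u' := Dioph.proj_dioph _
  have dc : DiophFn c' := Dioph.proj_dioph _
  let G : Poly ctx := g.map (Sum.elim (fun o => Sum.inl (some (some o)))
    (fun _ => Sum.inl (some none)))
  let R : Poly ctx := p.map (Sum.elim (fun o => Option.elim o (Sum.inl none)
    (fun x => Sum.inl (some (some (some x))))) Sum.inr)
  let Q : (ctx → ℕ) → ℕ := fun w => (G w).natAbs + n' w + u' w + 1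
  have dQ : DiophFn Q := Dioph.add_dioph (Dioph.add_dioph (Dioph.add_dioph
    (Dioph.abs_poly_dioph G) dn) du) (Dioph.const_dioph 1)
  have dT : DiophFn fun w => (Q w).factorial := factorial_dioph dQ
  have dM : DiophFn fun w => prodSucc (Q w).factorial (n' w) :=
    prodSucc_dioph dT dn fun w => Nat.factorial_pos _
  have d1 : Dioph {w : ctx → ℕ |
      1 + (c' w + 1) * (Q w).factorial = prodSucc (Q w).factorial (n' w)} :=
    Dioph.eq_dioph (Dioph.add_dioph (Dioph.const_dioph 1)
      (Dioph.mul_dioph (Dioph.add_dioph dc (Dioph.const_dioph 1)) dT)) dM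
  have d2 : Dioph {w : ctx → ℕ | ∀ i : β, w ∈ {w : ctx → ℕ |
      prodSucc (Q w).factorial (n' w) ∣ (w (Sum.inr i)).descFactorial (u' w + 1)}} :=
    forall_dioph fun i => Dioph.dvd_dioph dM (descFactorial_dioph (Dioph.proj_dioph _)
      (Dioph.add_dioph du (Dioph.const_dioph 1)))
  have d3 : Dioph {w : ctx → ℕ |
      prodSucc (Q w).factorial (n' w) ∣ (R w).natAbs} :=
    Dioph.dvd_dioph dM (Dioph.abs_poly_dioph R)
  have dall := Dioph.ex1_dioph (Dioph.ex1_dioph (Dioph.ex_dioph ((d1.inter d2).inter d3)))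
  have dzero : Dioph {w : Option α → ℕ | w none = 0} :=
    Dioph.eq_dioph (Dioph.proj_dioph none) (Dioph.const_dioph 0)
  refine Dioph.ext (dzero.union dall) fun w => ?_
  have key := bounded_forall_iff p g hg (w ∘ some) (w none)
  have hw : Option.elim' (w none) (w ∘ some) = w := by
    funext o; cases o <;> rfl
  rw [hw] at key
  have hS : w ∈ {w : Option α → ℕ | ∀ k < w none, Option.elim' k (w ∘ some) ∈ S} ↔
      ∀ k < w none, ∃ t : β → ℕ, p (Sum.elim (Option.elim' k (w ∘ some)) t) = 0 := by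
    simp only [Set.mem_ofPred_eq, hp]
  rw [hS, key]
  apply or_congr Iff.rfl
  apply exists_congr; intro u
  apply exists_congr; intro c
  apply exists_congr; intro a
  have e1 : (Sum.elim (Option.elim' c (Option.elim' u w)) a) ∘
      (Sum.elim (fun o : Option α => (Sum.inl (some (some o)) : ctx))
        (fun _ : β => Sum.inl (some none))) = Sum.elim w fun _ => u := by
    funext i; rcases i with (_ | i) | i <;> rfl
  have e2 : (Sum.elim (Option.elim' c (Option.elim' u w)) a) ∘
      (Sum.elim (fun o : Option α => Option.elim o (Sum.inl none : ctx)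
        (fun x => Sum.inl (some (some (some x))))) Sum.inr) =
        Sum.elim (Option.elim' c (w ∘ some)) a := by
    funext i; rcases i with (_ | i) | i <;> rfl
  have e3 : Q (Sum.elim (Option.elim' c (Option.elim' u w)) a) =
      (g (Sum.elim w fun _ => u)).natAbs + w none + u + 1 := by
    show (G _).natAbs + _ + _ + 1 = _
    rw [Poly.map_apply, e1]; rfl
  have e4 : R (Sum.elim (Option.elim' c (Option.elim' u w)) a) =
      p (Sum.elim (Option.elim' c (w ∘ some)) a) := by
    rw [Poly.map_apply, e2]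
  show ((_ ∧ _) ∧ _) ↔ _
  rw [and_assoc]
  apply and_congr
  · show 1 + (c + 1) * (Q (Sum.elim (Option.elim' c (Option.elim' u w)) a)).factorial =
      prodSucc (Q (Sum.elim (Option.elim' c (Option.elim' u w)) a)).factorial (w none) ↔ _
    rw [e3]
  apply and_congr
  · show (∀ i, prodSucc (Q (Sum.elim (Option.elim' c (Option.elim' u w)) a)).factorial (w none) ∣
      (a i).descFactorial (u + 1)) ↔ _
    rw [e3]
  · show prodSucc (Q (Sum.elim (Option.elim' c (Option.elim' u w)) a)).factorial (w none) ∣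
      (R (Sum.elim (Option.elim' c (Option.elim' u w)) a)).natAbs ↔ _
    rw [e3, e4]

/-- **Bounded universal quantifier theorem** (Davis–Putnam–Robinson). -/
theorem ball_dioph {α : Type} {f : (α → ℕ) → ℕ} (df : DiophFn f) {P : (α → ℕ) → ℕ → Prop}
    (d : Dioph {w : Option α → ℕ | P (w ∘ some) (w none)}) :
    Dioph {v : α → ℕ | ∀ k < f v, P v k} := by
  refine Dioph.ext (Dioph.diophFn_comp1 (ball_dioph_aux d) df) fun v => ?_
  rfl

theorem ex_dioph' {α : Type} {P : (α → ℕ) → ℕ → Prop}
    (d : Dioph {w : Option α → ℕ | P (w ∘ some) (w none)}) :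
    Dioph {v : α → ℕ | ∃ x, P v x} :=
  Dioph.ext (Dioph.ex1_dioph d) fun _ => Iff.rfl

end Pool.Agent.Helper81
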