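import Pool.Agent.Helper81.CompC

/-!
# SAT reduces to 3-colourability
-/

namespace Pool.Agent.Helper81.CC

/-- Instances of 3-colourability: finite lists of edges, an edge being a pair of different
natural numbers. -/
abbrev Col3Inst := {E : List (ℕ × ℕ) // ∀ e ∈ E, e.1 ≠ e.2}

/-- 3-colourability. -/
def Col3Yes (E : Col3Inst) : Prop := ∃ c : ℕ → Fin 3, ∀ e ∈ E.1, c e.1 ≠ c e.2

/-- The problem of 3-colourability. -/
def COL3 : Problem := Problem.of Col3Inst Col3Yes

namespace Col3

/-- Labels of the vertices. -/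
def lab (t i j : ℕ) : ℕ := Nat.pair t (Nat.pair i j)

theorem lab_inj {t i j t' i' j' : ℕ} : lab t i j = lab t' i' j' ↔ t = t' ∧ i = i' ∧ j = j' := by
  simp [lab, Nat.pair_eq_pair]

/-- Edges for the literal `x` in position `j` of clause `i`. -/
def litEdges (i : ℕ) (x : Lit × ℕ) : List (ℕ × ℕ) :=
  [(lab 1 x.1.2 0, lab 1 x.1.2 1), (lab 1 x.1.2 0, lab 0 0 2), (lab 1 x.1.2 1, lab 0 0 2),
   (lab 3 i x.2, lab 4 i x.2), (lab 3 i x.2, lab 2 i (x.2 + 1)), (lab 4 i x.2, lab 2 i (x.2 + 1)),
   (lab 3 i x.2, lab 2 i x.2), (lab 4 i x.2, lab 1 x.1.2 (if x.1.1 = true then 1 else 0)),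
   (lab 2 i (x.2 + 1), lab 0 0 2)]

/-- Edges for the clause number `i`. -/
def clauseEdges (x : List Lit × ℕ) : List (ℕ × ℕ) :=
  (lab 2 x.2 0, lab 0 0 2) :: (lab 2 x.2 0, lab 0 0 0) :: (lab 2 x.2 x.1.length, lab 0 0 1) ::
    x.1.zipIdx.flatMap (litEdges x.2)

/-- The edges of the graph of a formula. -/
def edges (φ : CNF) : List (ℕ × ℕ) :=
  (lab 0 0 0, lab 0 0 1) :: (lab 0 0 1, lab 0 0 2) :: (lab 0 0 0, lab 0 0 2) ::
    φ.zipIdx.flatMap clauseEdges

theorem polyTime_edges : PolyTime edges := by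
  unfold edges clauseEdges litEdges lab
  fun_prop

theorem edges_ne (φ : CNF) : ∀ e ∈ edges φ, e.1 ≠ e.2 := by
  intro e he
  simp only [edges, clauseEdges, litEdges, List.mem_cons, List.mem_flatMap, List.not_mem_nil,
    or_false] at he
  rcases he with rfl | rfl | rfl | ⟨c, _, rfl | rfl | rfl | ⟨x, _, h⟩⟩
  · simp [lab_inj]
  · simp [lab_inj]
  · simp [lab_inj]
  · simp [lab_inj]
  · simp [lab_inj]
  · simp [lab_inj]
  · rcases h with rfl | rfl | rfl | rfl | rfl | rfl | rfl | rfl | rfl <;> simp [lab_inj]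

/-- Is one of the first `j` literals of the clause satisfied? -/
def sat (a : ℕ → Bool) (c : List Lit) (j : ℕ) : Bool := (c.take j).any fun l => a l.2 == l.1

/-- The colouring given by an assignment. -/
def col (φ : CNF) (a : ℕ → Bool) (t i j : ℕ) : Fin 3 :=
  if t = 0 then (if j = 0 then 0 else if j = 1 then 1 else 2)
  else if t = 1 then (if a i = (decide (j = 1)) then 0 else 1)
  else if t = 2 then (if sat a (φ.getD i []) j = true then 0 else 1)
  else if t = 3 then
    (if sat a (φ.getD i []) j = true then 1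
      else if sat a (φ.getD i []) (j + 1) = true then 2 else 0)
  else
    (if sat a (φ.getD i []) j = true then 2
      else if sat a (φ.getD i []) (j + 1) = true then 1 else 2)

theorem fin3 (x y z w : Fin 3) (h1 : x ≠ y) (h2 : y ≠ z) (h3 : x ≠ z) (h4 : w ≠ x)
    (h5 : w ≠ z) : w = y := by
  have := x.isLt
  have := y.isLt
  have := z.isLt
  have := w.isLt
  simp only [ne_eq, Fin.ext_iff] at *
  omega

theorem fin3' (T F B x y o : Fin 3) (h1 : T ≠ F) (h2 : F ≠ B) (h3 : T ≠ B) (h4 : x ≠ y)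
    (h5 : x ≠ o) (h6 : y ≠ o) (h7 : x ≠ F) (h8 : y ≠ F) : o = F := by
  have := T.isLt
  have := F.isLt
  have := B.isLt
  have := x.isLt
  have := y.isLt
  have := o.isLt
  simp only [ne_eq, Fin.ext_iff] at *
  omega

theorem sat_succ (a : ℕ → Bool) (cl : List Lit) (j : ℕ) (l : Lit) (h : cl[j]? = some l) :
    sat a cl (j + 1) = (sat a cl j || (a l.2 == l.1)) := by
  rw [sat, List.take_add_one, h]
  simp [sat]

theorem colorable_of_sat {φ : CNF} (h : φ.Satisfiable) :
    ∃ c : ℕ → Fin 3, ∀ e ∈ edges φ, c e.1 ≠ c e.2 := by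
  obtain ⟨a, ha⟩ := h
  let c : ℕ → Fin 3 := fun n => col φ a n.unpair.1 n.unpair.2.unpair.1 n.unpair.2.unpair.2
  have hc : ∀ t i j, c (lab t i j) = col φ a t i j := by
    intro t i j
    simp [c, lab]
  refine ⟨c, ?_⟩
  intro e he
  simp only [edges, clauseEdges, litEdges, List.mem_cons, List.mem_flatMap, List.not_mem_nil,
    or_false] at he
  rcases he with rfl | rfl | rfl | ⟨⟨cl, i⟩, hcl, he⟩
  · simp [hc, col]
  · simp [hc, col]
  · simp [hc, col]
  · have hi : φ[i]? = some cl := by
      have := List.mem_zipIdx_iff_getElem?.1 hcl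
      simpa using this
    have hi' : φ.getD i [] = cl := by simp [List.getD_eq_getElem?_getD, hi]
    rcases he with rfl | rfl | rfl | ⟨⟨l, j⟩, hl, he⟩
    · simp only [hc, col, hi']
      simp [sat]
    · simp only [hc, col, hi']
      simp [sat]
    · have hmem : cl ∈ φ := List.mem_of_getElem? hi
      obtain ⟨l, hl, hla⟩ := ha cl hmem
      have : sat a cl cl.length = true := by
        simp only [sat, List.take_length, List.any_eq_true]
        exact ⟨l, hl, by simp [hla]⟩
      simp only [hc, col, hi', this]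
      simp
    · have hj : cl[j]? = some l := by
        have := List.mem_zipIdx_iff_getElem?.1 hl
        simpa using this
      have hs := sat_succ a cl j l hj
      obtain ⟨b, v⟩ := l
      simp only at hs
      rcases he with rfl | rfl | rfl | rfl | rfl | rfl | rfl | rfl | rfl <;>
        simp only [hc, col, hi'] <;>
        cases h1 : sat a cl j <;> cases h2 : sat a cl (j + 1) <;> cases h3 : a v <;>
          cases b <;> simp_all

theorem sat_of_colorable {φ : CNF} (c : ℕ → Fin 3) (hc : ∀ e ∈ edges φ, c e.1 ≠ c e.2) :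
    φ.Satisfiable := by
  have hTF : c (lab 0 0 0) ≠ c (lab 0 0 1) := hc (lab 0 0 0, lab 0 0 1) (by simp [edges])
  have hFB : c (lab 0 0 1) ≠ c (lab 0 0 2) := hc (lab 0 0 1, lab 0 0 2) (by simp [edges])
  have hTB : c (lab 0 0 0) ≠ c (lab 0 0 2) := hc (lab 0 0 0, lab 0 0 2) (by simp [edges])
  refine ⟨fun v => decide (c (lab 1 v 1) = c (lab 0 0 0)), fun cl hcl => ?_⟩
  by_contra hno
  push Not at hno
  obtain ⟨i, hi⟩ := List.mem_iff_getElem?.1 hcl
  have hmem : (cl, i) ∈ φ.zipIdx := List.mem_zipIdx_iff_getElem?.2 (by simpa using hi)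
  have hce : ∀ e ∈ clauseEdges (cl, i), c e.1 ≠ c e.2 := fun e he => hc e (by
    simp only [edges, List.mem_cons, List.mem_flatMap]
    exact Or.inr (Or.inr (Or.inr ⟨_, hmem, he⟩)))
  have h0B : c (lab 2 i 0) ≠ c (lab 0 0 2) := hce (lab 2 i 0, lab 0 0 2) (by simp [clauseEdges])
  have h0T : c (lab 2 i 0) ≠ c (lab 0 0 0) := hce (lab 2 i 0, lab 0 0 0) (by simp [clauseEdges])
  have hend : c (lab 2 i cl.length) ≠ c (lab 0 0 1) :=
    hce (lab 2 i cl.length, lab 0 0 1) (by simp [clauseEdges])
  have key : ∀ j, j ≤ cl.length → c (lab 2 i j) = c (lab 0 0 1) := by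
    intro j
    induction j with
    | zero => intro _; exact fin3 _ _ _ _ hTF hFB hTB h0T h0B
    | succ j ih =>
      intro hj
      have ih' := ih (by omega)
      obtain ⟨l, hl⟩ : ∃ l, cl[j]? = some l := ⟨cl[j], List.getElem?_eq_getElem (by omega)⟩
      have hmem2 : (l, j) ∈ cl.zipIdx := List.mem_zipIdx_iff_getElem?.2 (by simpa using hl)
      have hle : ∀ e ∈ litEdges i (l, j), c e.1 ≠ c e.2 := fun e he => hce e (by
        simp only [clauseEdges, List.mem_cons, List.mem_flatMap]
        exact Or.inr (Or.inr (Or.inr ⟨_, hmem2, he⟩)))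
      have hl' := hno l (List.mem_of_getElem? hl)
      have e1 := hle (lab 1 l.2 0, lab 1 l.2 1) (by simp [litEdges])
      have e2 := hle (lab 1 l.2 0, lab 0 0 2) (by simp [litEdges])
      have e3 := hle (lab 1 l.2 1, lab 0 0 2) (by simp [litEdges])
      have e4 := hle (lab 3 i j, lab 4 i j) (by simp [litEdges])
      have e5 := hle (lab 3 i j, lab 2 i (j + 1)) (by simp [litEdges])
      have e6 := hle (lab 4 i j, lab 2 i (j + 1)) (by simp [litEdges])
      have e7 := hle (lab 3 i j, lab 2 i j) (by simp [litEdges])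
      have e8 := hle (lab 4 i j, lab 1 l.2 (if l.1 = true then 1 else 0)) (by simp [litEdges])
      have e9 := hle (lab 2 i (j + 1), lab 0 0 2) (by simp [litEdges])
      simp only at e1 e2 e3 e4 e5 e6 e7 e8 e9
      obtain ⟨b, v⟩ := l
      simp only at *
      have hlit : c (lab 1 v (if b = true then 1 else 0)) = c (lab 0 0 1) := by
        cases b with
        | true =>
          simp only [if_true] at *
          have : c (lab 1 v 1) ≠ c (lab 0 0 0) := by simpa using hl'
          exact fin3 _ _ _ _ hTF hFB hTB this e3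
        | false =>
          simp only [Bool.false_eq_true, if_false] at *
          have h1 : c (lab 1 v 1) = c (lab 0 0 0) := by simpa using hl'
          rw [h1] at e1
          exact fin3 _ _ _ _ hTF hFB hTB e1 e2
      rw [hlit] at e8
      rw [ih'] at e7
      exact fin3' _ _ _ _ _ _ hTF hFB hTB e4 e5 e6 e7 e8
  exact hend (key _ le_rfl)

end Col3

theorem sat_reducesS_col3 : SAT.ReducesS COL3 := by
  refine ⟨fun φ => ⟨Col3.edges φ, Col3.edges_ne φ⟩,
    (PolyTime.mk Col3.polyTime_edges Col3.edges_ne).scomp, fun φ => ?_⟩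
  exact ⟨fun h => Col3.colorable_of_sat h, fun ⟨c, hc⟩ => Col3.sat_of_colorable c hc⟩

end Pool.Agent.Helper81.CC
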