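import Pool.Agent.Helper81.CompL

/-!
# From stack programs to Turing machines; NP, hardness
-/

namespace Pool.Agent.Helper81.CC

open Turing Computability Pool.Agent.Helper78.PT

theorem dite_of_pos {c : Prop} {inst : Decidable c} {a b : List Bool} (h : c) :
    @dite (List Bool) c inst (fun _ => a) (fun _ => b) = a := by simp [h]

theorem dite_of_neg {c : Prop} {inst : Decidable c} {a b : List Bool} (h : ¬ c) :
    @dite (List Bool) c inst (fun _ => a) (fun _ => b) = b := by simp [h]

theorem computable_of_exec {α β : Type} {ea : α → List Bool} {eb : β → List Bool} (p : Prog)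
    (P : Polynomial ℕ) (f : α → β)
    (h : ∀ a, ∃ t, t ≤ P.eval (ea a).length ∧ Exec p (ini (ea a)) t (fin (eb (f a)))) :
    PolyTimeComputable ea eb f := by
  obtain ⟨N, hN2, hNb⟩ : ∃ N : ℕ, 2 ≤ N ∧ p.bound ≤ N := ⟨max 2 p.bound, by simp, by simp⟩
  haveI : NeZero N := ⟨by omega⟩
  refine ⟨⟨⟨machine p N, Equiv.refl _, Equiv.refl _⟩, P + 1, ?_⟩⟩
  intro a
  apply Classical.choice
  obtain ⟨t, ht, he⟩ := h a
  generalize ea a = x at *
  generalize eb (f a) = y at *
  obtain ⟨v', hs⟩ := exec_tm (N := N) (Λ := Option (Lab p)) (machine p N).m he hNb some none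
    (fun l => rfl) none
  have hi : initList (machine p N) (List.map (Equiv.refl Bool).invFun x) =
      (⟨some (some (entry p)), none, res N (ini x)⟩ : TM2.Cfg (fun _ : Fin N => Bool)
        (Option (Lab p)) (Option Bool)) := by
    unfold initList
    have h1 : (fun k : Fin N => res N (ini x) k) = fun k : Fin N =>
        @dite (List Bool) (k = ix N 0) ((machine p N).kDecidableEq k (ix N 0))
          (fun _ => List.map (Equiv.refl Bool).invFun x) fun _ => [] := by
      funext k
      by_cases hk : k = ix N 0
      · refine Eq.trans ?_ (dite_of_pos hk).symm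
        subst hk
        simp [res, ini, ix_val (N := N) (k := 0) (by omega)]
      · refine Eq.trans ?_ (dite_of_neg hk).symm
        have : (k : ℕ) ≠ 0 := by
          intro h0
          apply hk
          apply Fin.ext
          rw [h0, ix_val (by omega)]
        simp [res, ini, this]
    show TM2.Cfg.mk _ _ _ = TM2.Cfg.mk _ _ _
    congr 1
    exact h1.symm
  have hf : haltList (machine p N) (List.map (Equiv.refl Bool).invFun y) =
      (⟨none, none, res N (fin y)⟩ : TM2.Cfg (fun _ : Fin N => Bool)
        (Option (Lab p)) (Option Bool)) := by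
    unfold haltList
    have h1 : (fun k : Fin N => res N (fin y) k) = fun k : Fin N =>
        @dite (List Bool) (k = ix N 1) ((machine p N).kDecidableEq k (ix N 1))
          (fun _ => List.map (Equiv.refl Bool).invFun y) fun _ => [] := by
      funext k
      by_cases hk : k = ix N 1
      · refine Eq.trans ?_ (dite_of_pos hk).symm
        subst hk
        simp [res, fin, ix_val (N := N) (k := 1) (by omega)]
      · refine Eq.trans ?_ (dite_of_neg hk).symm
        have : (k : ℕ) ≠ 1 := by
          intro h0
          apply hk
          apply Fin.ext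
          rw [h0, ix_val (by omega)]
        simp [res, fin, this]
    show TM2.Cfg.mk _ _ _ = TM2.Cfg.mk _ _ _
    congr 1
    exact h1.symm
  have hlast : stepsTo (TM2.step (machine p N).m) 1
      (⟨some none, v', res N (fin y)⟩ : TM2.Cfg (fun _ : Fin N => Bool)
        (Option (Lab p)) (Option Bool)) ⟨none, none, res N (fin y)⟩ := stepsTo.one rfl
  have hall := hs.trans hlast
  refine ⟨⟨⟨t + 1, ?_⟩, ?_⟩⟩
  · show (flip bind (TM2.step (machine p N).m))^[t + 1]
      (some (initList (machine p N) (List.map (Equiv.refl Bool).invFun x))) =
      some (haltList (machine p N) (List.map (Equiv.refl Bool).invFun y))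
    rw [hi, hf]
    exact hall
  · rw [Polynomial.eval_add, Polynomial.eval_one]
    show t + 1 ≤ _
    omega

theorem ini_eq (x : List Bool) : ini x = st [x] := by
  funext k
  rcases k with _ | k <;> simp [ini, st]

theorem fin_eq (x : List Bool) : fin x = st [[], x] := by
  funext k
  rcases k with _ | _ | k <;> simp [fin, st]

theorem SComp.computable {α β : Type} {ea : α → List Bool} {eb : β → List Bool} {f : α → β}
    (h : SComp ea eb f) : PolyTimeComputable ea eb f := by
  obtain ⟨S, hS⟩ := h.size
  obtain ⟨p, P, h⟩ := h
  refine computable_of_exec (.seq p (.seq (mv 0 2) (mv 2 1)))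
    (P + ((2 * S + 1) + (2 * S + 1))) f fun a => ?_
  rw [ini_eq, fin_eq]
  have h0 := h a
  have h1 := run_mv (L := [eb (f a), [], []]) 0 2 (by simp) (by simp) (by simp)
  have h2 := run_mv (L := [[], [], (eb (f a)).reverse]) 2 1 (by simp) (by simp) (by simp)
  simp at h1 h2
  rw [st_pad [eb (f a)] 2] at h0
  have h3 := h0.seq (h1.seq h2)
  have e : st [[], eb (f a), []] = st [[], eb (f a)] := st_append_nil [[], eb (f a)]
  rw [e] at h3
  obtain ⟨t, ht, he⟩ := h3
  refine ⟨t, ht.trans ?_, he⟩
  have := hS a
  simp only [Polynomial.eval_add, Polynomial.eval_mul, Polynomial.eval_one,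
    Polynomial.eval_ofNat]
  omega

/-- The main bridge to Turing machines. -/
theorem PolyTime.computable {α β : Type} [ToData α] [ToData β] {f : α → β} (h : PolyTime f) :
    PolyTimeComputable (encOf α) (encOf β) f := SComp.computable h.scomp

/-! ### Raw strings -/

/-- Push the code of the list of bits on stack `i` (given in reversed order). -/
def encLoop (i : ℕ) : Prog :=
  .loop i (pushL 0 [true, false]) (pushL 0 [true, true, false, false])

theorem enc_listBool_cons (b : Bool) (l : List Bool) :
    encOf (List Bool) (b :: l) =
      (if b then [true, true, false, false] else [true, false]) ++ encOf (List Bool) l := by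
  cases b <;> rfl

theorem run_encLoop (i : ℕ) (hi : 0 < i) :
    ∀ (l y : List Bool) (L : List (List Bool)), i < L.length → L.getD i [] = l →
    L.getD 0 [] = encOf (List Bool) y →
    Run (encLoop i) (st L) (6 * l.length + 1)
      (st ((L.set i []).set 0 (encOf (List Bool) (l.reverse ++ y))))
  | [], y, L, hL, h1, h2 => by
    have h3 : (L.set i []).set 0 (encOf (List Bool) ([].reverse ++ y)) = L := by
      apply List.ext_getElem?
      intro m
      by_cases h0 : 0 = m
      · subst h0
        have : 0 < L.length := by omega
        rw [List.getElem?_set_self (by simpa using this)]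
        rw [List.getD_eq_getElem _ _ this] at h2
        rw [List.getElem?_eq_getElem this, h2]
        simp
      · rw [List.getElem?_set_ne h0]
        by_cases h3 : i = m
        · subst h3
          rw [List.getD_eq_getElem _ _ hL] at h1
          rw [List.getElem?_set_self hL, List.getElem?_eq_getElem hL, h1]
        · rw [List.getElem?_set_ne h3]
    rw [h3]
    exact (run_loopNil h1).mono (by simp)
  | b :: l, y, L, hL, h1, h2 => by
    have ih := run_encLoop i hi l (b :: y) ((L.set i l).set 0 (encOf (List Bool) (b :: y)))
      (by simpa using hL)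
      (by
        rw [List.getD_eq_getElem?_getD, List.getElem?_set_ne (show 0 ≠ i by omega),
          List.getElem?_set_self hL]
        rfl)
      (by
        have : 0 < L.length := by omega
        simp [List.getD_eq_getElem?_getD, this])
    have e1 : ((((L.set i l).set 0 (encOf (List Bool) (b :: y))).set i []).set 0
        (encOf (List Bool) (l.reverse ++ (b :: y)))) =
        (L.set i []).set 0 (encOf (List Bool) ((b :: l).reverse ++ y)) := by
      rw [List.set_comm _ _ (show (0 : ℕ) ≠ i by omega), List.set_set, List.set_set]
      simp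
    rw [e1] at ih
    have e2 : (L.set i l).getD 0 [] = encOf (List Bool) y := by
      rw [← h2]
      simp [List.getD_eq_getElem?_getD, List.getElem?_set_ne (show i ≠ 0 by omega)]
    cases b with
    | false =>
      have hp := run_pushL 0 [true, false] (L.set i l) (by simp; omega)
      rw [e2] at hp
      exact (run_loopFalse l hL h1 hp ih).mono (by simp; omega)
    | true =>
      have hp := run_pushL 0 [true, true, false, false] (L.set i l) (by simp; omega)
      rw [e2] at hp
      exact (run_loopTrue l hL h1 hp ih).mono (by simp; omega)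

theorem encOf_listBool_nil : encOf (List Bool) [] = [false] := rfl

/-- A raw string can be converted into the code of a list of bits. -/
theorem scomp_ofString : SComp (fun x : List Bool => x) (encOf (List Bool)) (fun x => x) := by
  refine SComp.mk' 2 (.seq (mv 0 2) (.seq (.push 0 false) (encLoop 2)))
    ((2 * Polynomial.X + 1) + (1 + (6 * Polynomial.X + 1))) (fun x => ?_)
  have h1 := run_mv (L := [x, [], []]) 0 2 (by simp) (by simp) (by simp)
  have h2 := run_push (L := [[], [], x.reverse]) 0 false (by simp)
  have h3 := run_encLoop 2 (by omega) x.reverse [] [[false], [], x.reverse] (by simp) (by simp)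
    (by simp [encOf_listBool_nil])
  simp at h1 h2 h3
  have := h1.seq (h2.seq h3)
  simp only [List.replicate]
  refine this.mono ?_
  simp

/-- Raw strings under an arbitrary encoding. -/
theorem scomp_enc {α : Type} (ea : α → List Bool) :
    SComp ea (encOf (List Bool)) (fun a => ea a) :=
  SComp.cast scomp_ofString fun a => ⟨ea a, rfl, rfl⟩

theorem run_unpair (y z : List Bool) : ∀ (x : List Bool) (w : List Bool),
    Run (.loop 0 (mv 0 3)
      (.ifTop 0 .skip (.seq (.pop 0) (.push 2 false)) (.seq (.pop 0) (.push 2 true))))
      (st [(x.flatMap fun b => [true, b]) ++ false :: y, [], w, z])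
      (4 * x.length + (2 * y.length + 3))
      (st [[], [], x.reverse ++ w, y.reverse ++ z])
  | [], w => by
    have h1 := run_mv (L := [y, [], w, z]) 0 3 (by simp) (by simp) (by simp)
    simp at h1
    have := run_loopFalse (L := [false :: y, [], w, z]) (k := 0) (pf := mv 0 3)
      (pt := .ifTop 0 .skip (.seq (.pop 0) (.push 2 false)) (.seq (.pop 0) (.push 2 true)))
      y (by simp) (by simp) h1 (run_loopNil (by simp))
    refine Run.mono (by simpa using this) ?_
    omega
  | false :: x, w => by
    have ih := run_unpair y z x (false :: w)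
    have h1 := run_pop (L := [false :: ((x.flatMap fun b => [true, b]) ++ false :: y), [], w, z]) 0
      (by simp)
    have h2 := run_push (L := [(x.flatMap fun b => [true, b]) ++ false :: y, [], w, z]) 2 false
      (by simp)
    simp at h1 h2
    have h3 := run_ifFalse (L := [false :: ((x.flatMap fun b => [true, b]) ++ false :: y), [], w,
      z]) (k := 0) (pe := .skip) (pt := .seq (.pop 0) (.push 2 true)) _ (by simp; rfl) (h1.seq h2)
    have := run_loopTrue (L := [true :: false :: ((x.flatMap fun b => [true, b]) ++ false :: y),
      [], w, z]) (k := 0) (pf := mv 0 3)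
      (pt := .ifTop 0 .skip (.seq (.pop 0) (.push 2 false)) (.seq (.pop 0) (.push 2 true)))
      _ (by simp) (by simp; rfl) (by simpa using h3) ih
    refine Run.mono (by simpa using this) ?_
    simp
    omega
  | true :: x, w => by
    have ih := run_unpair y z x (true :: w)
    have h1 := run_pop (L := [true :: ((x.flatMap fun b => [true, b]) ++ false :: y), [], w, z]) 0
      (by simp)
    have h2 := run_push (L := [(x.flatMap fun b => [true, b]) ++ false :: y, [], w, z]) 2 true
      (by simp)
    simp at h1 h2
    have h3 := run_ifTrue (L := [true :: ((x.flatMap fun b => [true, b]) ++ false :: y), [], w,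
      z]) (k := 0) (pe := .skip) (pf := .seq (.pop 0) (.push 2 false)) _ (by simp; rfl)
      (h1.seq h2)
    have := run_loopTrue (L := [true :: true :: ((x.flatMap fun b => [true, b]) ++ false :: y),
      [], w, z]) (k := 0) (pf := mv 0 3)
      (pt := .ifTop 0 .skip (.seq (.pop 0) (.push 2 false)) (.seq (.pop 0) (.push 2 true)))
      _ (by simp) (by simp; rfl) (by simpa using h3) ih
    refine Run.mono (by simpa using this) ?_
    simp
    omega

theorem length_pairEnc (x y : List Bool) :
    (pairEnc x y).length = 2 * x.length + 1 + y.length := by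
  have : ∀ x : List Bool, (x.flatMap fun b => [true, b]).length = 2 * x.length := by
    intro x
    induction x with
    | nil => rfl
    | cons b x ih => simp only [List.flatMap_cons, List.length_append, ih, List.length_cons,
        List.length_nil]; omega
  simp only [pairEnc, List.length_append, this, List.length_cons]
  omega

/-- Decoding the pairing used for verifiers. -/
theorem scomp_unpair {α : Type} (ea : α → List Bool) :
    SComp (fun z : α × List Bool => pairEnc (ea z.1) z.2) (pairE ea (encOf (List Bool)))
      (fun z => z) := by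
  refine SComp.mk' 3 (.seq (.loop 0 (mv 0 3)
      (.ifTop 0 .skip (.seq (.pop 0) (.push 2 false)) (.seq (.pop 0) (.push 2 true))))
    (.seq (.push 0 false) (.seq (encLoop 3) (.seq (mv 2 0) (.push 0 true)))))
    (10 * Polynomial.X + 10) (fun z => ?_)
  obtain ⟨a, y⟩ := z
  have h1 := run_unpair y [] (ea a) []
  have h2 := run_push (L := [[], [], (ea a).reverse, y.reverse]) 0 false (by simp)
  have h3 := run_encLoop 3 (by omega) y.reverse [] [[false], [], (ea a).reverse, y.reverse]
    (by simp) (by simp) (by simp [encOf_listBool_nil])
  have h4 := run_mv (L := [encOf (List Bool) y, [], (ea a).reverse, []]) 2 0 (by simp) (by simp)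
    (by simp)
  have h5 := run_push (L := [ea a ++ encOf (List Bool) y, [], [], []]) 0 true (by simp)
  simp at h1 h2 h3 h4 h5
  have := h1.seq (h2.seq (h3.seq (h4.seq h5)))
  simp only [List.replicate, pairE]
  refine Run.mono this ?_
  simp only [length_pairEnc, Polynomial.eval_add, Polynomial.eval_mul, Polynomial.eval_X,
    Polynomial.eval_ofNat]
  omega

/-- The output of a decision procedure. -/
theorem scomp_bool : SComp (encOf Bool) encodeBool (fun b => b) := by
  refine ⟨.ifTop 0 .skip .skip (.seq (.pop 0) (.seq (.pop 0) (.seq (.pop 0) (.push 0 true)))),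
    5, fun b => ?_⟩
  cases b with
  | false =>
    have := run_ifFalse (L := [[false]]) (k := 0) (pe := .skip) (pf := .skip)
      (pt := .seq (.pop 0) (.seq (.pop 0) (.seq (.pop 0) (.push 0 true)))) [] (by simp)
      (run_skip _)
    exact Run.mono this (by simp)
  | true =>
    have h1 := run_pop (L := [[true, false, false]]) 0 (by simp)
    have h2 := run_pop (L := [[false, false]]) 0 (by simp)
    have h3 := run_pop (L := [[false]]) 0 (by simp)
    have h4 := run_push (L := [[]]) 0 true (by simp)
    simp at h1 h2 h3 h4
    have := run_ifTrue (L := [[true, false, false]]) (k := 0) (pe := .skip) (pf := .skip)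
      (pt := .seq (.pop 0) (.seq (.pop 0) (.seq (.pop 0) (.push 0 true)))) _ (by simp; rfl)
      (h1.seq (h2.seq (h3.seq h4)))
    exact Run.mono this (by simp)

/-! ### P, NP, reductions -/

theorem Problem.inP_of {α : Type} [ToData α] {Y : α → Prop} {f : α → Bool} (hf : PolyTime f)
    (h : ∀ a, Y a ↔ f a = true) : (Problem.of α Y).InP :=
  ⟨f, (SComp.comp scomp_bool hf.scomp).computable, h⟩

theorem Problem.inNP_of {α : Type} [ToData α] {Y : α → Prop} {V : α × List Bool → Bool}
    (hV : PolyTime V) (p : Polynomial ℕ)
    (h : ∀ a, Y a ↔ ∃ y : List Bool, y.length ≤ p.eval (sz a) ∧ V (a, y) = true) :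
    (Problem.of α Y).InNP := by
  refine ⟨V, p, ?_, h⟩
  have h1 : SComp (fun z : α × List Bool => pairEnc (encOf α z.1) z.2) (encOf (α × List Bool))
      (fun z => z) := by
    have := scomp_unpair (encOf α)
    rwa [pairE_encOf] at this
  exact (SComp.comp scomp_bool (SComp.comp hV.scomp h1)).computable

/-- Reductions by stack programs. -/
def Problem.ReducesS (A B : Problem) : Prop :=
  ∃ f : A.Inst → B.Inst, SComp A.enc B.enc f ∧ ∀ x, A.Yes x ↔ B.Yes (f x)

/-- NP-hardness under reductions by stack programs. -/
def Problem.HardS (B : Problem) : Prop := ∀ A : Problem, A.InNP → A.ReducesS B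

theorem Problem.ReducesS.reduces {A B : Problem} (h : A.ReducesS B) : A.Reduces B := by
  obtain ⟨f, hf, h⟩ := h
  exact ⟨f, hf.computable, h⟩

theorem Problem.ReducesS.trans {A B C : Problem} (h₁ : A.ReducesS B) (h₂ : B.ReducesS C) :
    A.ReducesS C := by
  obtain ⟨f, hf, h⟩ := h₁
  obtain ⟨g, hg, h'⟩ := h₂
  exact ⟨fun a => g (f a), hg.comp hf, fun x => (h x).trans (h' (f x))⟩

theorem Problem.HardS.npHard {B : Problem} (h : B.HardS) : B.NPHard := fun A hA =>
  (h A hA).reduces

theorem Problem.HardS.trans {A B : Problem} (h : A.HardS) (h' : A.ReducesS B) : B.HardS :=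
  fun C hC => (h C hC).trans h'

/-- Hardness by a polynomial-time function between types coded by trees. -/
theorem Problem.HardS.of {α β : Type} [ToData α] [ToData β] {Y : α → Prop} {Z : β → Prop}
    (h : (Problem.of α Y).HardS) {f : α → β} (hf : PolyTime f) (hY : ∀ a, Y a ↔ Z (f a)) :
    (Problem.of β Z).HardS :=
  h.trans ⟨f, hf.scomp, hY⟩

theorem Problem.HardS.compl_coNPHard {B : Problem} (h : B.HardS) : B.compl.CoNPHard := by
  intro A hA
  obtain ⟨f, hf, h1⟩ := (h _ hA).reduces
  exact ⟨f, hf, fun x => by
    have h2 := h1 x
    simp only [Problem.compl] at h2 ⊢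
    exact not_iff_not.1 (by simpa using h2)⟩

end Pool.Agent.Helper81.CC
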