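import Pool.Agent.Helper81.CompT

/-!
# Polynomial-time functions: equality tests, destructors, folds
-/

namespace Pool.Agent.Helper81.CC

open Turing Pool.Agent.Helper78.PT

/-! ### Equality of trees -/

/-- The comparison loop: compares the stacks `2` and `3`, differences are recorded on the
stack `1`. -/
def cmpLoop : Prog :=
  .loop 2 (.ifTop 3 (.push 1 true) (.pop 3) (.push 1 true))
    (.ifTop 3 (.push 1 true) (.push 1 true) (.pop 3))

theorem run_cmpLoop : ∀ (x c y : List Bool), ∃ c' y' : List Bool,
    Run cmpLoop (st [[], c, x, y]) (3 * x.length + 1) (st [[], c', [], y']) ∧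
    c'.length ≤ c.length + x.length ∧ y'.length ≤ y.length ∧
    ((c' = [] ∧ y' = []) ↔ (c = [] ∧ x = y))
  | [], c, y => ⟨c, y, (run_loopNil (by simp)).mono (by simp), by simp, le_rfl, by
      constructor
      · rintro ⟨h1, h2⟩; exact ⟨h1, h2.symm⟩
      · rintro ⟨h1, h2⟩; exact ⟨h1, h2.symm⟩⟩
  | false :: x, c, [] => by
    obtain ⟨c', y', h1, h2, h3, h4⟩ := run_cmpLoop x (true :: c) []
    refine ⟨c', y', ?_, by simp at h2 ⊢; omega, h3, ?_⟩
    · have hp := run_push (L := [[], c, x, []]) 1 true (by simp)
      simp at hp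
      have := run_loopFalse (L := [[], c, false :: x, []]) (k := 2)
        (pf := .ifTop 3 (.push 1 true) (.pop 3) (.push 1 true))
        (pt := .ifTop 3 (.push 1 true) (.push 1 true) (.pop 3)) x (by simp) (by simp)
        (run_ifNil (L := [[], c, x, []]) (k := 3) (by simp) hp) h1
      exact this.mono (by simp; omega)
    · rw [h4]; simp
  | true :: x, c, [] => by
    obtain ⟨c', y', h1, h2, h3, h4⟩ := run_cmpLoop x (true :: c) []
    refine ⟨c', y', ?_, by simp at h2 ⊢; omega, h3, ?_⟩
    · have hp := run_push (L := [[], c, x, []]) 1 true (by simp)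
      simp at hp
      have := run_loopTrue (L := [[], c, true :: x, []]) (k := 2)
        (pf := .ifTop 3 (.push 1 true) (.pop 3) (.push 1 true))
        (pt := .ifTop 3 (.push 1 true) (.push 1 true) (.pop 3)) x (by simp) (by simp)
        (run_ifNil (L := [[], c, x, []]) (k := 3) (by simp) hp) h1
      exact this.mono (by simp; omega)
    · rw [h4]; simp
  | false :: x, c, false :: y => by
    obtain ⟨c', y', h1, h2, h3, h4⟩ := run_cmpLoop x c y
    refine ⟨c', y', ?_, by simp at h2 ⊢; omega, by simp; omega, ?_⟩
    · have hp := run_pop (L := [[], c, x, false :: y]) 3 (by simp)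
      simp at hp
      have := run_loopFalse (L := [[], c, false :: x, false :: y]) (k := 2)
        (pf := .ifTop 3 (.push 1 true) (.pop 3) (.push 1 true))
        (pt := .ifTop 3 (.push 1 true) (.push 1 true) (.pop 3)) x (by simp) (by simp)
        (run_ifFalse (L := [[], c, x, false :: y]) (k := 3) y (by simp) hp) h1
      exact this.mono (by simp; omega)
    · rw [h4]; simp
  | true :: x, c, true :: y => by
    obtain ⟨c', y', h1, h2, h3, h4⟩ := run_cmpLoop x c y
    refine ⟨c', y', ?_, by simp at h2 ⊢; omega, by simp; omega, ?_⟩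
    · have hp := run_pop (L := [[], c, x, true :: y]) 3 (by simp)
      simp at hp
      have := run_loopTrue (L := [[], c, true :: x, true :: y]) (k := 2)
        (pf := .ifTop 3 (.push 1 true) (.pop 3) (.push 1 true))
        (pt := .ifTop 3 (.push 1 true) (.push 1 true) (.pop 3)) x (by simp) (by simp)
        (run_ifTrue (L := [[], c, x, true :: y]) (k := 3) y (by simp) hp) h1
      exact this.mono (by simp; omega)
    · rw [h4]; simp
  | false :: x, c, true :: y => by
    obtain ⟨c', y', h1, h2, h3, h4⟩ := run_cmpLoop x (true :: c) (true :: y)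
    refine ⟨c', y', ?_, by simp at h2 ⊢; omega, h3, ?_⟩
    · have hp := run_push (L := [[], c, x, true :: y]) 1 true (by simp)
      simp at hp
      have := run_loopFalse (L := [[], c, false :: x, true :: y]) (k := 2)
        (pf := .ifTop 3 (.push 1 true) (.pop 3) (.push 1 true))
        (pt := .ifTop 3 (.push 1 true) (.push 1 true) (.pop 3)) x (by simp) (by simp)
        (run_ifTrue (L := [[], c, x, true :: y]) (k := 3) y (by simp) hp) h1
      exact this.mono (by simp; omega)
    · rw [h4]; simp
  | true :: x, c, false :: y => by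
    obtain ⟨c', y', h1, h2, h3, h4⟩ := run_cmpLoop x (true :: c) (false :: y)
    refine ⟨c', y', ?_, by simp at h2 ⊢; omega, h3, ?_⟩
    · have hp := run_push (L := [[], c, x, false :: y]) 1 true (by simp)
      simp at hp
      have := run_loopTrue (L := [[], c, true :: x, false :: y]) (k := 2)
        (pf := .ifTop 3 (.push 1 true) (.pop 3) (.push 1 true))
        (pt := .ifTop 3 (.push 1 true) (.push 1 true) (.pop 3)) x (by simp) (by simp)
        (run_ifFalse (L := [[], c, x, false :: y]) (k := 3) y (by simp) hp) h1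
      exact this.mono (by simp; omega)
    · rw [h4]; simp

theorem PolyTime.eq_aux : PolyTime (fun p : Data × Data => decide (p.1 = p.2)) := by
  refine ⟨SComp.mk' 3 (.seq (.pop 0) (.seq scan (.seq (mv 0 3) (.seq cmpLoop
    (.seq (.ifTop 3 .skip (.push 1 true) (.push 1 true)) (.seq (clr 3)
    (.ifTop 1 (pushL 0 [true, false, false]) (.seq (clr 1) (pushL 0 [false]))
      (.seq (clr 1) (pushL 0 [false])))))))))
    (1 + ((6 * Polynomial.X + 2) + ((2 * Polynomial.X + 1) + ((3 * Polynomial.X + 1) +
      (2 + ((2 * Polynomial.X + 1) + (2 * Polynomial.X + 12)))))))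
    (fun z => ?_)⟩
  obtain ⟨d, e⟩ := z
  have h1 := run_pop (L := [encOf (Data × Data) (d, e), [], [], []]) 0 (by simp)
  have h2 := run_scan d e.enc [] [[]]
  have h3 := run_mv (L := [e.enc, [], d.enc.reverse, []]) 0 3 (by simp) (by simp) (by simp)
  obtain ⟨c', y', h4, h5, h6, h7⟩ := run_cmpLoop d.enc.reverse [] e.enc.reverse
  have h8 : ∃ c'' : List Bool, Run (.ifTop 3 .skip (.push 1 true) (.push 1 true))
      (st [[], c', [], y']) 2 (st [[], c'', [], y']) ∧ c''.length ≤ c'.length + 1 ∧
      (c'' = [] ↔ (c' = [] ∧ y' = [])) := by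
    rcases y' with _ | ⟨_ | _, y'⟩
    · exact ⟨c', run_ifNil (L := [[], c', [], []]) (k := 3) (by simp) (run_skip _), by simp,
        by simp⟩
    · have hp := run_push (L := [[], c', [], false :: y']) 1 true (by simp)
      simp at hp
      exact ⟨true :: c', run_ifFalse (L := [[], c', [], false :: y']) (k := 3) y' (by simp) hp,
        by simp, by simp⟩
    · have hp := run_push (L := [[], c', [], true :: y']) 1 true (by simp)
      simp at hp
      exact ⟨true :: c', run_ifTrue (L := [[], c', [], true :: y']) (k := 3) y' (by simp) hp,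
        by simp, by simp⟩
  obtain ⟨c'', h8, h9, h10⟩ := h8
  have h11 := run_clr (L := [[], c'', [], y']) 3 (by simp)
  have h12 : Run (.ifTop 1 (pushL 0 [true, false, false]) (.seq (clr 1) (pushL 0 [false]))
      (.seq (clr 1) (pushL 0 [false]))) (st [[], c'', [], []]) (2 * c''.length + 8)
      (st [encOf Bool (decide (d = e)), [], [], []]) := by
    by_cases hde : d = e
    · have hc : c'' = [] := h10.2 (h7.2 ⟨rfl, by rw [hde]⟩)
      subst hc
      have hp := run_pushL 0 [true, false, false] [[], [], [], []] (by simp)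
      simp at hp
      have := run_ifNil (L := [[], [], [], []]) (k := 1) (pf := .seq (clr 1) (pushL 0 [false]))
        (pt := .seq (clr 1) (pushL 0 [false])) (by simp) hp
      simp only [hde, decide_true]
      exact this.mono (by simp)
    · have hc : c'' ≠ [] := by
        intro hc
        apply hde
        have := (h7.1 (h10.1 hc)).2
        exact Data.enc_injective (List.reverse_injective this)
      simp only [hde, decide_false]
      have hp := run_pushL 0 [false] [[], [], [], []] (by simp)
      have hq := run_clr (L := [[], c'', [], []]) 1 (by simp)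
      simp at hp hq
      rcases c'' with _ | ⟨_ | _, c''⟩
      · exact absurd rfl hc
      · exact (run_ifFalse (L := [[], false :: c'', [], []]) (k := 1) c'' (by simp)
          (hq.seq hp)).mono (by simp)
      · exact (run_ifTrue (L := [[], true :: c'', [], []]) (k := 1) c'' (by simp)
          (hq.seq hp)).mono (by simp)
  have e1 : encOf (Data × Data) (d, e) = true :: (d.enc ++ e.enc) := rfl
  simp [e1] at h1 h2 h3 h11
  have := h1.seq (h2.seq (h3.seq (h4.seq (h8.seq (h11.seq h12)))))
  simp only [List.replicate, e1]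
  refine this.mono ?_
  simp only [Polynomial.eval_add, Polynomial.eval_mul, Polynomial.eval_X, Polynomial.eval_one,
    Polynomial.eval_ofNat, List.length_cons, List.length_append, List.length_reverse] at *
  simp at h5
  omega

variable {α β γ δ σ : Type} [ToData α] [ToData β] [ToData γ] [ToData δ] [ToData σ]

@[fun_prop]
theorem PolyTime.decide_eq {f g : α → β} [∀ a, Decidable (f a = g a)] (hf : PolyTime f)
    (hg : PolyTime g) : PolyTime (fun a => decide (f a = g a)) := by
  have := PolyTime.comp PolyTime.eq_aux (PolyTime.pair hf.toData' hg.toData')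
  refine PolyTime.congr this fun a => ?_
  simp only [decide_eq_decide]
  exact ToData.inj.eq_iff

@[fun_prop]
theorem PolyTime.beq [BEq β] [LawfulBEq β] {f g : α → β} (hf : PolyTime f) (hg : PolyTime g) :
    PolyTime (fun a => f a == g a) := by
  classical
  exact PolyTime.congr (PolyTime.decide_eq hf hg) fun a => by
    by_cases h : f a = g a <;> simp [h]

@[fun_prop]
theorem PolyTime.bne [BEq β] [LawfulBEq β] {f g : α → β} (hf : PolyTime f) (hg : PolyTime g) :
    PolyTime (fun a => f a != g a) :=
  PolyTime.congr (PolyTime.not (PolyTime.beq hf hg)) fun a => rfl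

@[fun_prop]
theorem PolyTime.decide_ne {f g : α → β} [∀ a, Decidable (f a ≠ g a)] (hf : PolyTime f)
    (hg : PolyTime g) : PolyTime (fun a => decide (f a ≠ g a)) := by
  classical
  exact PolyTime.congr (PolyTime.not (PolyTime.decide_eq hf hg)) fun a => by
    by_cases h : f a = g a <;> simp [h]

/-! ### Constructors and destructors -/

@[fun_prop]
theorem PolyTime.list_cons {f : α → β} {g : α → List β} (hf : PolyTime f) (hg : PolyTime g) :
    PolyTime (fun a => f a :: g a) :=
  PolyTime.comp (g := fun p : β × List β => p.1 :: p.2) (PolyTime.of_eq fun _ => rfl)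
    (PolyTime.pair hf hg)

theorem PolyTime.succ_aux : PolyTime (fun n : ℕ => n + 1) :=
  PolyTime.castD (f := fun n : ℕ => ((), n)) (by fun_prop) fun n => ⟨n, rfl, rfl⟩

@[fun_prop]
theorem PolyTime.succ {f : α → ℕ} (hf : PolyTime f) : PolyTime (fun a => f a + 1) :=
  PolyTime.comp PolyTime.succ_aux hf

@[fun_prop]
theorem PolyTime.nat_succ {f : α → ℕ} (hf : PolyTime f) : PolyTime (fun a => Nat.succ (f a)) :=
  hf.succ

@[fun_prop]
theorem PolyTime.some {f : α → β} (hf : PolyTime f) : PolyTime (fun a => Option.some (f a)) :=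
  PolyTime.comp (g := Option.some)
    (PolyTime.castD (f := fun b : β => ((), b)) (by fun_prop) fun n => ⟨n, rfl, rfl⟩) hf

@[fun_prop]
theorem PolyTime.inl {f : α → β} (hf : PolyTime f) :
    PolyTime (fun a => (Sum.inl (f a) : β ⊕ γ)) :=
  PolyTime.comp (g := Sum.inl)
    (PolyTime.castD (f := fun b : β => ((), b)) (by fun_prop) fun n => ⟨n, rfl, rfl⟩) hf

@[fun_prop]
theorem PolyTime.inr {f : α → β} (hf : PolyTime f) :
    PolyTime (fun a => (Sum.inr (f a) : γ ⊕ β)) :=
  PolyTime.comp (g := Sum.inr)
    (PolyTime.castD (f := fun b : β => (true, b)) (by fun_prop) fun n => ⟨n, rfl, rfl⟩) hf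

theorem PolyTime.pred_aux : PolyTime (fun n : ℕ => n - 1) :=
  PolyTime.of_data PolyTime.right_aux fun n => by cases n <;> rfl

@[fun_prop]
theorem PolyTime.pred {f : α → ℕ} (hf : PolyTime f) : PolyTime (fun a => f a - 1) :=
  PolyTime.comp PolyTime.pred_aux hf

@[fun_prop]
theorem PolyTime.nat_pred {f : α → ℕ} (hf : PolyTime f) : PolyTime (fun a => Nat.pred (f a)) :=
  hf.pred

theorem PolyTime.tail_aux : PolyTime (fun l : List α => l.tail) :=
  PolyTime.of_data PolyTime.right_aux fun l => by cases l <;> rfl

@[fun_prop]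
theorem PolyTime.tail {f : α → List β} (hf : PolyTime f) : PolyTime (fun a => (f a).tail) :=
  PolyTime.comp PolyTime.tail_aux hf

theorem PolyTime.head?_aux : PolyTime (fun l : List α => l.head?) :=
  PolyTime.of_data (F := fun d => if d.isCons = true then .cons .nil d.left else .nil)
    (by fun_prop) fun l => by cases l <;> rfl

@[fun_prop]
theorem PolyTime.head? {f : α → List β} (hf : PolyTime f) : PolyTime (fun a => (f a).head?) :=
  PolyTime.comp PolyTime.head?_aux hf

theorem PolyTime.isEmpty_aux : PolyTime (fun l : List α => l.isEmpty) :=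
  PolyTime.castD (f := fun d : Data => !d.isCons) (by fun_prop)
    fun l => ⟨toData l, rfl, by cases l <;> rfl⟩

@[fun_prop]
theorem PolyTime.isEmpty {f : α → List β} (hf : PolyTime f) :
    PolyTime (fun a => (f a).isEmpty) :=
  PolyTime.comp PolyTime.isEmpty_aux hf

theorem PolyTime.isSome_aux : PolyTime (fun o : Option α => o.isSome) :=
  PolyTime.castD (f := fun d : Data => d.isCons) (by fun_prop)
    fun l => ⟨toData l, rfl, by cases l <;> rfl⟩

@[fun_prop]
theorem PolyTime.isSome {f : α → Option β} (hf : PolyTime f) :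
    PolyTime (fun a => (f a).isSome) :=
  PolyTime.comp PolyTime.isSome_aux hf

@[fun_prop]
theorem PolyTime.isNone {f : α → Option β} (hf : PolyTime f) :
    PolyTime (fun a => (f a).isNone) :=
  PolyTime.congr hf.isSome.not fun a => by cases f a <;> rfl

theorem right_some : ∀ (x : Option β) (hx : x.isSome = true),
    (toData x).right = toData (x.get hx)
  | none, hx => by simp at hx
  | Option.some b, _ => rfl

theorem right_inl : ∀ (x : β ⊕ γ) (hx : x.isLeft = true),
    (toData x).right = toData (x.getLeft hx)
  | .inl b, _ => rfl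
  | .inr b, hx => by simp at hx

theorem right_inr : ∀ (x : β ⊕ γ) (hx : x.isRight = true),
    (toData x).right = toData (x.getRight hx)
  | .inl b, hx => by simp at hx
  | .inr b, _ => rfl

/-- Case distinction on an `Option`. -/
theorem PolyTime.option_cases {o : α → Option β} {f : α → γ} {g : α → β → γ} (ho : PolyTime o)
    (hf : PolyTime f) (hg : PolyTime (fun z : α × β => g z.1 z.2)) {k : α → γ}
    (hk0 : ∀ a, o a = none → k a = f a) (hk1 : ∀ a b, o a = Option.some b → k a = g a b) :
    PolyTime k := by
  have h1 : PolyTime (fun a : {a // (o a).isSome = true} => (a.1, (o a.1).get a.2)) := by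
    have : PolyTime (fun a : α => (a, (toData (o a)).right)) := by fun_prop
    refine PolyTime.castD this ?_
    rintro ⟨a, ha⟩
    refine ⟨a, rfl, ?_⟩
    simp only [toData_pair, toData_data, right_some _ ha]
  have h2 : PolyTime (fun a : {a // (o a).isSome = true} => k a.1) := by
    refine PolyTime.congr (PolyTime.comp hg h1) ?_
    rintro ⟨a, ha⟩
    obtain ⟨b, hb⟩ := Option.isSome_iff_exists.1 ha
    simp [hk1 a b hb, hb]
  have h3 : PolyTime (fun a : {a // (o a).isSome = false} => k a.1) := by
    refine PolyTime.congr (hf.restrict _) ?_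
    rintro ⟨a, ha⟩
    simp only
    rw [hk0 a (by simpa using ha)]
  refine PolyTime.congr (PolyTime.dite ho.isSome h2 h3) fun a => ?_
  by_cases h : (o a).isSome = true <;> simp [h]

@[fun_prop]
theorem PolyTime.option_elim {o : α → Option β} {f : α → γ} {g : α → β → γ} (ho : PolyTime o)
    (hf : PolyTime f) (hg : PolyTime (fun z : α × β => g z.1 z.2)) :
    PolyTime (fun a => (o a).elim (f a) (g a)) :=
  PolyTime.option_cases ho hf hg (fun a h => by simp [h]) (fun a b h => by simp [h])

@[fun_prop]
theorem PolyTime.option_getD {o : α → Option β} {f : α → β} (ho : PolyTime o)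
    (hf : PolyTime f) : PolyTime (fun a => (o a).getD (f a)) :=
  PolyTime.option_cases (g := fun _ b => b) ho hf (by fun_prop) (fun a h => by simp [h])
    (fun a b h => by simp [h])

@[fun_prop]
theorem PolyTime.option_map {o : α → Option β} {g : α → β → γ} (ho : PolyTime o)
    (hg : PolyTime (fun z : α × β => g z.1 z.2)) :
    PolyTime (fun a => (o a).map (g a)) :=
  PolyTime.option_cases (f := fun _ => none) (g := fun a b => Option.some (g a b)) ho
    (by fun_prop) (by fun_prop) (fun a h => by simp [h]) (fun a b h => by simp [h])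

@[fun_prop]
theorem PolyTime.option_bind {o : α → Option β} {g : α → β → Option γ} (ho : PolyTime o)
    (hg : PolyTime (fun z : α × β => g z.1 z.2)) :
    PolyTime (fun a => (o a).bind (g a)) :=
  PolyTime.option_cases (f := fun _ => none) (g := fun a b => g a b) ho
    (by fun_prop) (by fun_prop) (fun a h => by simp [h]) (fun a b h => by simp [h])

/-- Case distinction on a list. -/
theorem PolyTime.list_cases {l : α → List β} {f : α → γ} {g : α → β → List β → γ}
    (hl : PolyTime l) (hf : PolyTime f)
    (hg : PolyTime (fun z : α × β × List β => g z.1 z.2.1 z.2.2)) {k : α → γ}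
    (hk0 : ∀ a, l a = [] → k a = f a) (hk1 : ∀ a b t, l a = b :: t → k a = g a b t) :
    PolyTime k := by
  refine PolyTime.option_cases (o := fun a => (l a).head?) (f := f)
    (g := fun a b => g a b (l a).tail) (by fun_prop) hf ?_ ?_ ?_
  · exact PolyTime.comp (g := fun z : α × β × List β => g z.1 z.2.1 z.2.2)
      (f := fun z : α × β => (z.1, z.2, (l z.1).tail)) hg (by fun_prop)
  · intro a h
    exact hk0 a (by simpa using h)
  · intro a b h
    refine hk1 a b _ ?_
    cases hla : l a with
    | nil => simp [hla] at h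
    | cons c t => simp [hla] at h; simp [h]

/-- Case distinction on a natural number. -/
theorem PolyTime.nat_cases {n : α → ℕ} {f : α → γ} {g : α → ℕ → γ}
    (hn : PolyTime n) (hf : PolyTime f)
    (hg : PolyTime (fun z : α × ℕ => g z.1 z.2)) {k : α → γ}
    (hk0 : ∀ a, n a = 0 → k a = f a) (hk1 : ∀ a m, n a = m + 1 → k a = g a m) :
    PolyTime k := by
  have h2 : PolyTime (fun a => g a (n a - 1)) :=
    PolyTime.comp (g := fun z : α × ℕ => g z.1 z.2) (f := fun a => (a, n a - 1)) hg (by fun_prop)
  have h1 : PolyTime (fun a => if n a = 0 then f a else g a (n a - 1)) := by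
    refine PolyTime.itep ?_ hf h2
    exact PolyTime.decide_eq hn (PolyTime.const 0)
  refine PolyTime.congr h1 fun a => ?_
  by_cases h : n a = 0
  · simp [h, hk0 a h]
  · rw [if_neg h, hk1 a (n a - 1) (by omega)]

/-- Case distinction on a sum. -/
theorem PolyTime.sum_cases {o : α → β ⊕ δ} {f : α → β → γ} {g : α → δ → γ}
    (ho : PolyTime o) (hf : PolyTime (fun z : α × β => f z.1 z.2))
    (hg : PolyTime (fun z : α × δ => g z.1 z.2)) {k : α → γ}
    (hk0 : ∀ a b, o a = Sum.inl b → k a = f a b) (hk1 : ∀ a b, o a = Sum.inr b → k a = g a b) :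
    PolyTime k := by
  have ht : PolyTime (fun a => (o a).isLeft) :=
    PolyTime.castD (f := fun a => !(toData (o a)).left.isCons) (by fun_prop) fun a =>
      ⟨a, rfl, by cases o a <;> rfl⟩
  have h1 : PolyTime (fun a : {a // (o a).isLeft = true} => (a.1, (o a.1).getLeft a.2)) := by
    have : PolyTime (fun a : α => (a, (toData (o a)).right)) := by fun_prop
    refine PolyTime.castD this ?_
    rintro ⟨a, ha⟩
    refine ⟨a, rfl, ?_⟩
    simp only [toData_pair, toData_data, right_inl _ ha]
  have h2 : PolyTime (fun a : {a // (o a).isLeft = false} =>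
      (a.1, (o a.1).getRight (by simpa using a.2))) := by
    have : PolyTime (fun a : α => (a, (toData (o a)).right)) := by fun_prop
    refine PolyTime.castD this ?_
    rintro ⟨a, ha⟩
    refine ⟨a, rfl, ?_⟩
    have ha' : (o a).isRight = true := by simpa using ha
    simp only [toData_pair, toData_data, right_inr _ ha']
  have h3 : PolyTime (fun a : {a // (o a).isLeft = true} => k a.1) := by
    refine PolyTime.congr (PolyTime.comp hf h1) ?_
    rintro ⟨a, ha⟩
    obtain ⟨b, hb⟩ := Sum.isLeft_iff.1 ha
    simp [hk0 a b hb, hb]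
  have h4 : PolyTime (fun a : {a // (o a).isLeft = false} => k a.1) := by
    refine PolyTime.congr (PolyTime.comp hg h2) ?_
    rintro ⟨a, ha⟩
    obtain ⟨b, hb⟩ := Sum.isRight_iff.1 (show (o a).isRight = true by simpa using ha)
    simp [hk1 a b hb, hb]
  refine PolyTime.congr (PolyTime.dite ht h3 h4) fun a => ?_
  by_cases h : (o a).isLeft = true <;> simp [h]

/-! ### Polynomially bounded functions -/

/-- Numerical functions bounded by a polynomial in the size. -/
def PBd (g : α → ℕ) : Prop := ∃ P : Polynomial ℕ, ∀ a, g a ≤ P.eval (sz a)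

theorem PBd.mono {f g : α → ℕ} (hg : PBd g) (h : ∀ a, f a ≤ g a) : PBd f := by
  obtain ⟨P, hP⟩ := hg
  exact ⟨P, fun a => (h a).trans (hP a)⟩

theorem PBd.sz : PBd (fun a : α => sz a) := ⟨Polynomial.X, fun a => by simp⟩

theorem PBd.const (n : ℕ) : PBd (fun _ : α => n) := ⟨(n : Polynomial ℕ), fun a => by simp⟩

theorem PBd.add {f g : α → ℕ} (hf : PBd f) (hg : PBd g) : PBd (fun a => f a + g a) := by
  obtain ⟨P, hP⟩ := hf
  obtain ⟨Q, hQ⟩ := hg
  exact ⟨P + Q, fun a => by simp only [Polynomial.eval_add]; exact Nat.add_le_add (hP a) (hQ a)⟩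

theorem PBd.mul {f g : α → ℕ} (hf : PBd f) (hg : PBd g) : PBd (fun a => f a * g a) := by
  obtain ⟨P, hP⟩ := hf
  obtain ⟨Q, hQ⟩ := hg
  exact ⟨P * Q, fun a => by simp only [Polynomial.eval_mul]; exact Nat.mul_le_mul (hP a) (hQ a)⟩

theorem PBd.eval {g : α → ℕ} (hg : PBd g) (P : Polynomial ℕ) : PBd (fun a => P.eval (g a)) := by
  obtain ⟨Q, hQ⟩ := hg
  exact ⟨P.comp Q, fun a => by
    rw [Polynomial.eval_comp]
    exact poly_mono P (hQ a)⟩

theorem PolyTime.bd {f : α → β} (hf : PolyTime f) : PBd (fun a => CC.sz (f a)) := hf.scomp.size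

theorem PBd.comp {g : β → ℕ} (hg : PBd g) {f : α → β} (hf : PolyTime f) :
    PBd (fun a => g (f a)) := by
  obtain ⟨P, hP⟩ := hg
  exact (hf.bd.eval P).mono fun a => hP (f a)

theorem PBd.nat {f : α → ℕ} (hf : PolyTime f) : PBd f :=
  hf.bd.mono fun a => by rw [sz_nat]; omega

theorem length_le_sz (l : List α) : l.length ≤ sz l := by
  have := length_le_listData_enc (da := (toData : α → Data)) l
  exact this

theorem PBd.length {f : α → List β} (hf : PolyTime f) : PBd (fun a => (f a).length) :=
  hf.bd.mono fun a => length_le_sz _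

theorem sz_le_of_mem {b : β} : ∀ {l : List β}, b ∈ l → sz b ≤ sz l
  | [], h => by simp at h
  | c :: l, h => by
    rcases List.mem_cons.1 h with rfl | h
    · simp; omega
    · have := sz_le_of_mem h
      simp; omega

/-! ### Folds -/

/-- Fold over a list, with an a priori bound on the sizes of the intermediate results. -/
theorem PolyTime.foldl_bd {l : α → List β} {s0 : α → σ} {step : α → σ → β → σ}
    (hl : PolyTime l) (hs : PolyTime s0)
    (hstep : PolyTime (fun z : α × σ × β => step z.1 z.2.1 z.2.2)) {B : α → ℕ} (hB : PBd B)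
    (h : ∀ a l', l' <+: l a → sz (l'.foldl (step a) (s0 a)) ≤ B a) :
    PolyTime (fun a => (l a).foldl (step a) (s0 a)) := by
  have h1 : PolyTime (fun z : β × α × σ => (z.2.1, step z.2.1 z.2.2 z.1)) := by
    refine PolyTime.pair (by fun_prop) ?_
    exact PolyTime.comp (g := fun z : α × σ × β => step z.1 z.2.1 z.2.2)
      (f := fun z : β × α × σ => (z.2.1, z.2.2, z.1)) hstep (by fun_prop)
  have e : ∀ a (l' : List β) (s : σ), l'.foldl (fun (s : α × σ) (b : β) =>
      (fun z : β × α × σ => (z.2.1, step z.2.1 z.2.2 z.1)) (b, s)) (a, s) =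
      (a, l'.foldl (step a) s) := by
    intro a l'
    induction l' with
    | nil => intro s; rfl
    | cons b l' ih => intro s; simp only [List.foldl_cons]; exact ih _
  obtain ⟨P, hP⟩ := hB
  have h2 := SComp.foldl' (da := (toData : β → Data)) (es := encOf (α × σ))
    (step := fun z : β × α × σ => (z.2.1, step z.2.1 z.2.2 z.1)) h1.scomp (ea := encOf α) (l := l)
    (s0 := fun a => (a, s0 a)) hl.scomp (PolyTime.pair PolyTime.id' hs).scomp
    (Polynomial.X + P + 1) (by
      intro a l' hl'
      rw [e]
      have h3 := h a l' hl'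
      have h4 := hP a
      have h5 : (encOf (α × σ) (a, l'.foldl (step a) (s0 a))).length =
        sz a + sz (l'.foldl (step a) (s0 a)) + 1 := sz_pair _ _
      rw [h5]
      simp only [Polynomial.eval_add, Polynomial.eval_X, Polynomial.eval_one]
      unfold sz at *
      omega)
  have h3 : PolyTime (fun a => (l a).foldl (fun (s : α × σ) (b : β) =>
      (fun z : β × α × σ => (z.2.1, step z.2.1 z.2.2 z.1)) (b, s)) (a, s0 a)) := ⟨h2⟩
  exact PolyTime.congr (PolyTime.snd h3) fun a => by rw [e]

/-- Fold over a list: each step adds a bounded amount to the size. -/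
theorem PolyTime.foldl_add {l : α → List β} {s0 : α → σ} {step : α → σ → β → σ}
    (hl : PolyTime l) (hs : PolyTime s0)
    (hstep : PolyTime (fun z : α × σ × β => step z.1 z.2.1 z.2.2)) {C : α → ℕ} (hC : PBd C)
    (h : ∀ a s b, b ∈ l a → sz (step a s b) ≤ sz s + C a) :
    PolyTime (fun a => (l a).foldl (step a) (s0 a)) := by
  refine PolyTime.foldl_bd hl hs hstep (B := fun a => sz (s0 a) + (l a).length * C a)
    (hs.bd.add ((PBd.length hl).mul hC)) ?_
  intro a l' hl'
  have key : ∀ (l' : List β) (s : σ), (∀ b ∈ l', b ∈ l a) →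
      sz (l'.foldl (step a) s) ≤ sz s + l'.length * C a := by
    intro l'
    induction l' with
    | nil => intro s _; simp
    | cons b l' ih =>
      intro s hb
      simp only [List.foldl_cons, List.length_cons]
      have h1 := ih (step a s b) (fun c hc => hb c (by simp [hc]))
      have h2 := h a s b (hb b (by simp))
      have h3 : (l'.length + 1) * C a = l'.length * C a + C a := by ring
      omega
  refine (key l' (s0 a) (fun b hb => hl'.subset hb)).trans ?_
  exact Nat.add_le_add_left (Nat.mul_le_mul_right _ hl'.length_le) _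

/-- Fold over a list with an invariant bounding the sizes of the intermediate results. -/
theorem PolyTime.foldl_inv {l : α → List β} {s0 : α → σ} {step : α → σ → β → σ}
    (hl : PolyTime l) (hs : PolyTime s0)
    (hstep : PolyTime (fun z : α × σ × β => step z.1 z.2.1 z.2.2)) (I : α → σ → Prop)
    {B : α → ℕ} (hB : PBd B) (h0 : ∀ a, I a (s0 a))
    (hI : ∀ a s b, b ∈ l a → I a s → I a (step a s b)) (h : ∀ a s, I a s → sz s ≤ B a) :
    PolyTime (fun a => (l a).foldl (step a) (s0 a)) := by
  refine PolyTime.foldl_bd hl hs hstep hB ?_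
  intro a l' hl'
  have key : ∀ (l' : List β) (s : σ), (∀ b ∈ l', b ∈ l a) → I a s →
      I a (l'.foldl (step a) s) := by
    intro l'
    induction l' with
    | nil => intro s _ hs; exact hs
    | cons b l' ih =>
      intro s hb hs
      exact ih (step a s b) (fun c hc => hb c (by simp [hc])) (hI a s b (hb b (by simp)) hs)
  exact h a _ (key l' (s0 a) (fun b hb => hl'.subset hb) (h0 a))

end Pool.Agent.Helper81.CC
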