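import Pool.Agent.Helper78.Prog
import Pool.Agent.Helper81.Complexity

/-!
# Machine-level combinators for polynomial-time computations

Built on the stack programs of `Pool.Agent.Helper78.Prog`.
-/

namespace Pool.Agent.Helper81.CC

open Turing Pool.Agent.Helper78.PT

/-! ### Renaming of stacks and framing -/

/-- Rename the stacks of a program. -/
def ren (ρ : ℕ → ℕ) : Prog → Prog
  | .skip => .skip
  | .push k b => .push (ρ k) b
  | .pop k => .pop (ρ k)
  | .seq p q => .seq (ren ρ p) (ren ρ q)
  | .ifTop k a b c => .ifTop (ρ k) (ren ρ a) (ren ρ b) (ren ρ c)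
  | .loop k a b => .loop (ρ k) (ren ρ a) (ren ρ b)

theorem extend_update {ρ : ℕ → ℕ} (hρ : Function.Injective ρ) (s u : St) (k : ℕ) (x : List Bool) :
    Function.update (Function.extend ρ s u) (ρ k) x =
      Function.extend ρ (Function.update s k x) u := by
  funext j
  by_cases hj : ∃ i, ρ i = j
  · obtain ⟨i, rfl⟩ := hj
    rw [hρ.extend_apply]
    by_cases hik : i = k
    · subst hik; simp
    · have : ρ i ≠ ρ k := fun h => hik (hρ h)
      rw [Function.update_of_ne this, Function.update_of_ne hik, hρ.extend_apply]
  · have h2 : j ≠ ρ k := fun h => hj ⟨k, h.symm⟩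
    rw [Function.update_of_ne h2, Function.extend_apply' _ _ _ hj, Function.extend_apply' _ _ _ hj]

theorem exec_ren {ρ : ℕ → ℕ} (hρ : Function.Injective ρ) {p : Prog} {s s' : St} {t : ℕ}
    (h : Exec p s t s') (u : St) :
    Exec (ren ρ p) (Function.extend ρ s u) t (Function.extend ρ s' u) := by
  induction h with
  | skip s => exact Exec.skip _
  | push k b s =>
    have := Exec.push (ρ k) b (Function.extend ρ s u)
    rwa [extend_update hρ, hρ.extend_apply] at this
  | pop k s =>
    have := Exec.pop (ρ k) (Function.extend ρ s u)
    rwa [extend_update hρ, hρ.extend_apply] at this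
  | seq _ _ ih1 ih2 => exact Exec.seq ih1 ih2
  | ifNil hs _ ih => exact Exec.ifNil (by rw [hρ.extend_apply, hs]) ih
  | ifFalse hs _ ih => exact Exec.ifFalse (by rw [hρ.extend_apply, hs]) ih
  | ifTrue hs _ ih => exact Exec.ifTrue (by rw [hρ.extend_apply, hs]) ih
  | loopNil hs => exact Exec.loopNil (by rw [hρ.extend_apply, hs])
  | loopFalse hs _ _ ih1 ih2 =>
    refine Exec.loopFalse (by rw [hρ.extend_apply, hs]) ?_ ih2
    rw [extend_update hρ]; exact ih1
  | loopTrue hs _ _ ih1 ih2 =>
    refine Exec.loopTrue (by rw [hρ.extend_apply, hs]) ?_ ih2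
    rw [extend_update hρ]; exact ih1

/-- Each step adds at most one symbol to each stack. -/
theorem exec_length {p : Prog} {s s' : St} {t : ℕ} (h : Exec p s t s') (k : ℕ) :
    (s' k).length ≤ (s k).length + t := by
  induction h with
  | skip s => simp
  | push j b s =>
    by_cases hj : k = j
    · subst hj; simp
    · rw [Function.update_of_ne hj]; simp
  | pop j s =>
    by_cases hj : k = j
    · subst hj; simp; omega
    · rw [Function.update_of_ne hj]; simp
  | seq _ _ ih1 ih2 => omega
  | ifNil hs _ ih => omega
  | ifFalse hs _ ih => omega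
  | ifTrue hs _ ih => omega
  | loopNil hs => omega
  | @loopFalse j _ _ s _ _ _ _ l hs _ _ ih1 ih2 =>
    have : (Function.update s j l k).length ≤ (s k).length := by
      by_cases hj : k = j
      · subst hj; simp [hs]
      · rw [Function.update_of_ne hj]
    omega
  | @loopTrue j _ _ s _ _ _ _ l hs _ _ ih1 ih2 =>
    have : (Function.update s j l k).length ≤ (s k).length := by
      by_cases hj : k = j
      · subst hj; simp [hs]
      · rw [Function.update_of_ne hj]
    omega

/-! ### States given by lists, runs with time bounds -/

/-- The state whose first stacks are given by a list, the other stacks being empty. -/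
def st (L : List (List Bool)) : St := fun k => L.getD k []

theorem st_apply (L : List (List Bool)) (k : ℕ) : st L k = L.getD k [] := rfl

theorem st_update {L : List (List Bool)} {k : ℕ} (hk : k < L.length) (x : List Bool) :
    Function.update (st L) k x = st (L.set k x) := by
  funext j
  by_cases hj : j = k
  · subst hj
    simp [st, hk]
  · rw [Function.update_of_ne hj]
    simp [st, List.getD_eq_getElem?_getD, List.getElem?_set_ne (Ne.symm hj)]

theorem st_append_nil (L : List (List Bool)) : st (L ++ [[]]) = st L := by
  funext k
  simp only [st, List.getD_eq_getElem?_getD]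
  rcases lt_trichotomy k L.length with h | h | h
  · rw [List.getElem?_append_left h]
  · subst h; simp
  · rw [List.getElem?_eq_none (by simp; omega), List.getElem?_eq_none (by omega)]

theorem st_append_replicate (L : List (List Bool)) (n : ℕ) :
    st (L ++ List.replicate n []) = st L := by
  induction n with
  | zero => simp
  | succ n ih =>
    rw [List.replicate_succ', ← List.append_assoc, st_append_nil, ih]

/-- `p` leads from `s` to `s'` in at most `T` steps. -/
def Run (p : Prog) (s : St) (T : ℕ) (s' : St) : Prop := ∃ t, t ≤ T ∧ Exec p s t s'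

theorem Run.mono {p : Prog} {s s' : St} {T T' : ℕ} (h : Run p s T s') (hT : T ≤ T') :
    Run p s T' s' := by
  obtain ⟨t, ht, he⟩ := h
  exact ⟨t, ht.trans hT, he⟩

theorem Run.seq {p q : Prog} {s₁ s₂ s₃ : St} {T₁ T₂ : ℕ} (h₁ : Run p s₁ T₁ s₂)
    (h₂ : Run q s₂ T₂ s₃) : Run (.seq p q) s₁ (T₁ + T₂) s₃ := by
  obtain ⟨t₁, ht₁, he₁⟩ := h₁
  obtain ⟨t₂, ht₂, he₂⟩ := h₂
  exact ⟨t₁ + t₂, by omega, Exec.seq he₁ he₂⟩

theorem Run.length {p : Prog} {s s' : St} {T : ℕ} (h : Run p s T s') (k : ℕ) :
    (s' k).length ≤ (s k).length + T := by
  obtain ⟨t, ht, he⟩ := h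
  have := exec_length he k
  omega

theorem run_skip (s : St) : Run .skip s 1 s := ⟨1, le_rfl, Exec.skip s⟩

theorem run_push {L : List (List Bool)} (k : ℕ) (b : Bool) (hk : k < L.length) :
    Run (.push k b) (st L) 1 (st (L.set k (b :: L.getD k []))) := by
  refine ⟨1, le_rfl, ?_⟩
  have := Exec.push k b (st L)
  rwa [st_update hk, st_apply] at this

theorem run_pop {L : List (List Bool)} (k : ℕ) (hk : k < L.length) :
    Run (.pop k) (st L) 1 (st (L.set k (L.getD k []).tail)) := by
  refine ⟨1, le_rfl, ?_⟩
  have := Exec.pop k (st L)
  rwa [st_update hk, st_apply] at this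

theorem run_ifNil {L : List (List Bool)} {k : ℕ} {pe pf pt : Prog} {T : ℕ} {s' : St}
    (hk : L.getD k [] = []) (h : Run pe (st L) T s') :
    Run (.ifTop k pe pf pt) (st L) (T + 1) s' := by
  obtain ⟨t, ht, he⟩ := h
  exact ⟨t + 1, by omega, Exec.ifNil hk he⟩

theorem run_ifFalse {L : List (List Bool)} {k : ℕ} {pe pf pt : Prog} {T : ℕ} {s' : St}
    (l : List Bool) (hk : L.getD k [] = false :: l) (h : Run pf (st L) T s') :
    Run (.ifTop k pe pf pt) (st L) (T + 1) s' := by
  obtain ⟨t, ht, he⟩ := h
  exact ⟨t + 1, by omega, Exec.ifFalse hk he⟩

theorem run_ifTrue {L : List (List Bool)} {k : ℕ} {pe pf pt : Prog} {T : ℕ} {s' : St}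
    (l : List Bool) (hk : L.getD k [] = true :: l) (h : Run pt (st L) T s') :
    Run (.ifTop k pe pf pt) (st L) (T + 1) s' := by
  obtain ⟨t, ht, he⟩ := h
  exact ⟨t + 1, by omega, Exec.ifTrue hk he⟩

theorem run_loopNil {L : List (List Bool)} {k : ℕ} {pf pt : Prog} (hk : L.getD k [] = []) :
    Run (.loop k pf pt) (st L) 1 (st L) := ⟨1, le_rfl, Exec.loopNil hk⟩

theorem run_loopFalse {L : List (List Bool)} {k : ℕ} {pf pt : Prog} {T₁ T₂ : ℕ} {s₁ s₂ : St}
    (l : List Bool) (hkL : k < L.length) (hk : L.getD k [] = false :: l)
    (h₁ : Run pf (st (L.set k l)) T₁ s₁) (h₂ : Run (.loop k pf pt) s₁ T₂ s₂) :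
    Run (.loop k pf pt) (st L) (T₁ + T₂ + 1) s₂ := by
  obtain ⟨t₁, ht₁, he₁⟩ := h₁
  obtain ⟨t₂, ht₂, he₂⟩ := h₂
  rw [← st_update hkL] at he₁
  exact ⟨t₁ + t₂ + 1, by omega, Exec.loopFalse hk he₁ he₂⟩

theorem run_loopTrue {L : List (List Bool)} {k : ℕ} {pf pt : Prog} {T₁ T₂ : ℕ} {s₁ s₂ : St}
    (l : List Bool) (hkL : k < L.length) (hk : L.getD k [] = true :: l)
    (h₁ : Run pt (st (L.set k l)) T₁ s₁) (h₂ : Run (.loop k pf pt) s₁ T₂ s₂) :
    Run (.loop k pf pt) (st L) (T₁ + T₂ + 1) s₂ := by
  obtain ⟨t₁, ht₁, he₁⟩ := h₁
  obtain ⟨t₂, ht₂, he₂⟩ := h₂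
  rw [← st_update hkL] at he₁
  exact ⟨t₁ + t₂ + 1, by omega, Exec.loopTrue hk he₁ he₂⟩

/-- Run a program (input and output on stack `0`) on the stack `j`, with scratch stacks beyond
the stack `B`. -/
def call (B j : ℕ) (p : Prog) : Prog := ren (fun k => if k = 0 then j else B + k) p

theorem run_call {p : Prog} {x y : List Bool} {T : ℕ} (h : Run p (st [x]) T (st [y]))
    (B j : ℕ) (L : List (List Bool)) (hL : L.length ≤ B + 1) (hj : j < L.length)
    (hx : L.getD j [] = x) : Run (call B j p) (st L) T (st (L.set j y)) := by
  obtain ⟨t, ht, he⟩ := h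
  refine ⟨t, ht, ?_⟩
  have hρ : Function.Injective (fun k => if k = 0 then j else B + k : ℕ → ℕ) := by
    intro a b hab
    simp only at hab
    split_ifs at hab <;> omega
  have key : ∀ z : List Bool, Function.extend (fun k => if k = 0 then j else B + k : ℕ → ℕ)
      (st [z]) (st L) = st (L.set j z) := by
    intro z
    funext i
    by_cases hi : ∃ k, (fun k => if k = 0 then j else B + k : ℕ → ℕ) k = i
    · obtain ⟨k, rfl⟩ := hi
      rw [hρ.extend_apply]
      by_cases hk : k = 0
      · subst hk
        simp [st, hj]
      · have h1 : L.length ≤ B + k := by omega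
        simp only [hk, if_false, st, List.getD_eq_getElem?_getD]
        rw [List.getElem?_eq_none (by simp; omega), List.getElem?_eq_none (by simp; omega)]
    · rw [Function.extend_apply' _ _ _ hi]
      have : i ≠ j := fun h => hi ⟨0, by simp [h]⟩
      simp [st, List.getD_eq_getElem?_getD, List.getElem?_set_ne (Ne.symm this)]
  have h2 := exec_ren hρ he (st L)
  rw [key, key] at h2
  have h3 : L.set j x = L := by
    rw [← hx]
    apply List.ext_getElem?
    intro i
    by_cases hi : i = j
    · subst hi
      simp [hj]
    · rw [List.getElem?_set_ne (Ne.symm hi)]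
  rwa [h3] at h2

/-! ### Elementary programs -/

/-- Move the stack `i` onto the stack `j` (reversing it). -/
def mv (i j : ℕ) : Prog := .loop i (.push j false) (.push j true)

theorem run_mv_aux (i j : ℕ) (hij : i ≠ j) : ∀ (l : List Bool) (s : St), s i = l →
    Run (mv i j) s (2 * l.length + 1)
      (Function.update (Function.update s i []) j (l.reverse ++ s j))
  | [], s, h => by
    refine ⟨1, by simp, ?_⟩
    have h1 : Function.update (Function.update s i []) j ([].reverse ++ s j) = s := by
      funext k
      by_cases hk : k = j
      · subst hk; simp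
      · rw [Function.update_of_ne hk]
        by_cases hk' : k = i
        · subst hk'; simp [h]
        · rw [Function.update_of_ne hk']
    rw [h1]
    exact Exec.loopNil h
  | b :: l, s, h => by
    have key : Run (mv i j) (Function.update (Function.update s i l) j (b :: s j))
        (2 * l.length + 1)
        (Function.update (Function.update s i []) j ((b :: l).reverse ++ s j)) := by
      have := run_mv_aux i j hij l (Function.update (Function.update s i l) j (b :: s j))
        (by rw [Function.update_of_ne hij]; simp)
      have h2 : Function.update (Function.update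
          (Function.update (Function.update s i l) j (b :: s j)) i []) j
          (l.reverse ++ Function.update (Function.update s i l) j (b :: s j) j) =
          Function.update (Function.update s i []) j ((b :: l).reverse ++ s j) := by
        funext k
        by_cases hk : k = j
        · subst hk; simp
        · rw [Function.update_of_ne hk, Function.update_of_ne hk]
          by_cases hk' : k = i
          · subst hk'; simp
          · rw [Function.update_of_ne hk', Function.update_of_ne hk', Function.update_of_ne hk,
              Function.update_of_ne hk']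
      rwa [h2] at this
    obtain ⟨t, ht, he⟩ := key
    refine ⟨1 + t + 1, by simp; omega, ?_⟩
    have h3 : Function.update s i l j = s j := by rw [Function.update_of_ne (Ne.symm hij)]
    cases b with
    | false =>
      refine Exec.loopFalse h ?_ he
      have := Exec.push j false (Function.update s i l)
      rwa [h3] at this
    | true =>
      refine Exec.loopTrue h ?_ he
      have := Exec.push j true (Function.update s i l)
      rwa [h3] at this

theorem run_mv {L : List (List Bool)} (i j : ℕ) (hij : i ≠ j) (hi : i < L.length)
    (hj : j < L.length) :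
    Run (mv i j) (st L) (2 * (L.getD i []).length + 1)
      (st ((L.set i []).set j ((L.getD i []).reverse ++ L.getD j []))) := by
  have := run_mv_aux i j hij (L.getD i []) (st L) rfl
  rwa [st_update hi, st_update (by simpa using hj), st_apply] at this

/-- Move the stack `i` onto the stacks `j` and `k` (reversing it). -/
def mv2 (i j k : ℕ) : Prog :=
  .loop i (.seq (.push j false) (.push k false)) (.seq (.push j true) (.push k true))

theorem run_mv2_aux (i j k : ℕ) (hij : i ≠ j) (hik : i ≠ k) (hjk : j ≠ k) :
    ∀ (l : List Bool) (s : St), s i = l →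
    Run (mv2 i j k) s (3 * l.length + 1)
      (Function.update (Function.update (Function.update s i []) j (l.reverse ++ s j)) k
        (l.reverse ++ s k))
  | [], s, h => by
    refine ⟨1, by simp, ?_⟩
    have h1 : Function.update (Function.update (Function.update s i []) j ([].reverse ++ s j)) k
        ([].reverse ++ s k) = s := by
      funext m
      by_cases hk : m = k
      · subst hk; simp
      · rw [Function.update_of_ne hk]
        by_cases hj : m = j
        · subst hj; simp
        · rw [Function.update_of_ne hj]
          by_cases hk' : m = i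
          · subst hk'; simp [h]
          · rw [Function.update_of_ne hk']
    rw [h1]
    exact Exec.loopNil h
  | b :: l, s, h => by
    have key : Run (mv2 i j k)
        (Function.update (Function.update (Function.update s i l) j (b :: s j)) k (b :: s k))
        (3 * l.length + 1)
        (Function.update (Function.update (Function.update s i []) j ((b :: l).reverse ++ s j)) k
          ((b :: l).reverse ++ s k)) := by
      have := run_mv2_aux i j k hij hik hjk l
        (Function.update (Function.update (Function.update s i l) j (b :: s j)) k (b :: s k))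
        (by rw [Function.update_of_ne hik, Function.update_of_ne hij]; simp)
      convert this using 1
      funext m
      by_cases hk : m = k
      · subst hk; simp
      · rw [Function.update_of_ne hk, Function.update_of_ne hk]
        by_cases hj : m = j
        · subst hj; simp [Function.update_of_ne hjk]
        · rw [Function.update_of_ne hj, Function.update_of_ne hj]
          by_cases hk' : m = i
          · subst hk'; simp
          · rw [Function.update_of_ne hk', Function.update_of_ne hk', Function.update_of_ne hk,
              Function.update_of_ne hj, Function.update_of_ne hk']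
    obtain ⟨t, ht, he⟩ := key
    refine ⟨(1 + 1) + t + 1, by simp; omega, ?_⟩
    have h3 : Function.update s i l j = s j := by rw [Function.update_of_ne (Ne.symm hij)]
    have h4 : Function.update (Function.update s i l) j (b :: s j) k = s k := by
      rw [Function.update_of_ne (Ne.symm hjk), Function.update_of_ne (Ne.symm hik)]
    have hstep : ∀ b' : Bool, b' = b → Exec (.seq (.push j b') (.push k b'))
        (Function.update s i l) (1 + 1)
        (Function.update (Function.update (Function.update s i l) j (b :: s j)) k
          (b :: s k)) := by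
      rintro b' rfl
      have r1 := Exec.push j b' (Function.update s i l)
      rw [h3] at r1
      have r2 := Exec.push k b' (Function.update (Function.update s i l) j (b' :: s j))
      rw [h4] at r2
      exact r1.seq r2
    cases b with
    | false => exact Exec.loopFalse h (hstep false rfl) he
    | true => exact Exec.loopTrue h (hstep true rfl) he

theorem run_mv2 {L : List (List Bool)} (i j k : ℕ) (hij : i ≠ j) (hik : i ≠ k) (hjk : j ≠ k)
    (hi : i < L.length) (hj : j < L.length) (hk : k < L.length) :
    Run (mv2 i j k) (st L) (3 * (L.getD i []).length + 1)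
      (st (((L.set i []).set j ((L.getD i []).reverse ++ L.getD j [])).set k
        ((L.getD i []).reverse ++ L.getD k []))) := by
  have := run_mv2_aux i j k hij hik hjk (L.getD i []) (st L) rfl
  rwa [st_update hi, st_update (by simpa using hj), st_update (by simpa using hk), st_apply,
    st_apply] at this

/-- Empty the stack `i`. -/
def clr (i : ℕ) : Prog := .loop i .skip .skip

theorem run_clr_aux (i : ℕ) : ∀ (l : List Bool) (L : List (List Bool)), i < L.length →
    L.getD i [] = l → Run (clr i) (st L) (2 * l.length + 1) (st (L.set i []))
  | [], L, hi, h => by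
    have h1 : L.set i [] = L := by
      apply List.ext_getElem?
      intro m
      by_cases h3 : i = m
      · subst h3
        rw [List.getD_eq_getElem _ _ hi] at h
        simp [hi, h]
      · rw [List.getElem?_set_ne h3]
    rw [h1]
    exact (run_loopNil h).mono (by simp)
  | b :: l, L, hi, h => by
    have key := run_clr_aux i l (L.set i l) (by simpa using hi)
      (by simp [List.getD_eq_getElem?_getD, hi])
    rw [List.set_set] at key
    cases b with
    | false => exact (run_loopFalse l hi h (run_skip _) key).mono (by simp; omega)
    | true => exact (run_loopTrue l hi h (run_skip _) key).mono (by simp; omega)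

theorem run_clr {L : List (List Bool)} (i : ℕ) (hi : i < L.length) :
    Run (clr i) (st L) (2 * (L.getD i []).length + 1) (st (L.set i [])) :=
  run_clr_aux i _ L hi rfl

/-- Push a list (its last element first). -/
def pushL (i : ℕ) : List Bool → Prog
  | [] => .skip
  | b :: l => .seq (pushL i l) (.push i b)

theorem run_pushL (i : ℕ) : ∀ (l : List Bool) (L : List (List Bool)), i < L.length →
    Run (pushL i l) (st L) (l.length + 1) (st (L.set i (l ++ L.getD i [])))
  | [], L, hi => by
    have h1 : L.set i ([] ++ L.getD i []) = L := by
      apply List.ext_getElem?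
      intro m
      by_cases h3 : i = m
      · subst h3
        simp [hi]
      · rw [List.getElem?_set_ne h3]
    rw [h1]
    exact (run_skip _).mono (by simp)
  | b :: l, L, hi => by
    have h1 := run_pushL i l L hi
    have h2 := run_push (L := L.set i (l ++ L.getD i [])) i b (by simpa using hi)
    rw [List.set_set] at h2
    have h3 : (L.set i (l ++ L.getD i [])).getD i [] = l ++ L.getD i [] := by
      simp [List.getD_eq_getElem?_getD, hi]
    rw [h3] at h2
    exact (h1.seq h2).mono (by simp)

/-- Sequences of programs. -/
def seqs : List Prog → Prog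
  | [] => .skip
  | p :: l => .seq p (seqs l)

/-- Read one tree code from the stack `0` and put it reversed onto the stack `2`, counting on
stack `1`. -/
def scanBody : Prog :=
  .ifTop 0 .skip (.seq (.pop 0) (.push 2 false))
    (.seq (.pop 0) (.seq (.push 2 true) (.seq (.push 1 true) (.push 1 true))))

theorem run_scanLoop : ∀ (d : Data) (x c z : List Bool) (R : List (List Bool)) (T : ℕ) (s' : St),
    Run (.loop 1 scanBody scanBody) (st (x :: c :: (d.enc.reverse ++ z) :: R)) T s' →
    Run (.loop 1 scanBody scanBody) (st ((d.enc ++ x) :: (true :: c) :: z :: R))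
      (T + 6 * d.enc.length) s'
  | .nil, x, c, z, R, T, s', h => by
    have h1 : Run scanBody (st ((false :: x) :: c :: z :: R)) 3
        (st (x :: c :: (false :: z) :: R)) := by
      refine Run.mono (T := 1 + 1 + 1) (run_ifFalse x (by simp) (Run.seq (T₁ := 1) (T₂ := 1)
        (s₂ := st (x :: c :: z :: R)) ?_ ?_)) (by omega)
      · have := run_pop (L := (false :: x) :: c :: z :: R) 0 (by simp)
        simpa using this
      · have := run_push (L := x :: c :: z :: R) 2 false (by simp)
        simpa using this
    have h2 := run_loopTrue (L := (false :: x) :: (true :: c) :: z :: R) (k := 1)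
      (pf := scanBody) (pt := scanBody) (T₁ := 3) (T₂ := T) c (by simp) (by simp)
      (s₁ := st (x :: c :: (false :: z) :: R)) (s₂ := s') (by simpa using h1)
      (by simpa [Data.enc] using h)
    exact (by simpa [Data.enc] using h2 : Run _ _ _ _).mono (by simp [Data.enc]; omega)
  | .cons a b, x, c, z, R, T, s', h => by
    have h1 : Run scanBody (st ((true :: (a.enc ++ (b.enc ++ x))) :: c :: z :: R)) 5
        (st ((a.enc ++ (b.enc ++ x)) :: (true :: true :: c) :: (true :: z) :: R)) := by
      refine Run.mono (T := 1 + (1 + (1 + 1)) + 1) (run_ifTrue (a.enc ++ (b.enc ++ x)) (by simp)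
        (Run.seq
        (s₂ := st ((a.enc ++ (b.enc ++ x)) :: c :: z :: R)) ?_ (Run.seq
        (s₂ := st ((a.enc ++ (b.enc ++ x)) :: c :: (true :: z) :: R)) ?_ (Run.seq
        (s₂ := st ((a.enc ++ (b.enc ++ x)) :: (true :: c) :: (true :: z) :: R)) ?_ ?_))))
        (by omega)
      · have := run_pop (L := (true :: (a.enc ++ (b.enc ++ x))) :: c :: z :: R) 0 (by simp)
        simpa using this
      · have := run_push (L := (a.enc ++ (b.enc ++ x)) :: c :: z :: R) 2 true (by simp)
        simpa using this
      · have := run_push (L := (a.enc ++ (b.enc ++ x)) :: c :: (true :: z) :: R) 1 true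
          (by simp)
        simpa using this
      · have := run_push (L := (a.enc ++ (b.enc ++ x)) :: (true :: c) :: (true :: z) :: R) 1 true
          (by simp)
        simpa using this
    have h3 := run_scanLoop b x c (a.enc.reverse ++ (true :: z)) R T s' (by
      simpa [Data.enc] using h)
    have h4 := run_scanLoop a (b.enc ++ x) (true :: c) (true :: z) R _ s' h3
    have h2 := run_loopTrue (L := (true :: (a.enc ++ (b.enc ++ x))) :: (true :: c) :: z :: R)
      (k := 1) (pf := scanBody) (pt := scanBody) (T₁ := 5) c (by simp) (by simp)
      (s₁ := st ((a.enc ++ (b.enc ++ x)) :: (true :: true :: c) :: (true :: z) :: R))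
      (s₂ := s') (by simpa using h1) h4
    exact (by simpa [Data.enc] using h2 : Run _ _ _ _).mono (by simp [Data.enc]; omega)

/-- Read one tree code from the stack `0` and put it reversed onto the stack `2`. -/
def scan : Prog := .seq (.push 1 true) (.loop 1 scanBody scanBody)

theorem run_scan (d : Data) (x z : List Bool) (R : List (List Bool)) :
    Run scan (st ((d.enc ++ x) :: [] :: z :: R)) (6 * d.enc.length + 2)
      (st (x :: [] :: (d.enc.reverse ++ z) :: R)) := by
  have h1 := run_push (L := (d.enc ++ x) :: [] :: z :: R) 1 true (by simp)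
  have h2 := run_scanLoop d x [] z R 1 _ (run_loopNil (L := x :: [] :: (d.enc.reverse ++ z) :: R)
    (k := 1) (pf := scanBody) (pt := scanBody) (by simp))
  refine Run.mono (Run.seq (s₂ := st ((d.enc ++ x) :: [true] :: z :: R)) ?_ h2)
    (T := 1 + (1 + 6 * d.enc.length)) (by omega)
  simpa using h1

end Pool.Agent.Helper81.CC
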