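import Pool.Agent.Helper81.CompM

/-!
# Polynomial-time functions with respect to string encodings: closure properties
-/

namespace Pool.Agent.Helper81.CC

open Turing Pool.Agent.Helper78.PT

theorem poly_mono (p : Polynomial ℕ) {a b : ℕ} (h : a ≤ b) : p.eval a ≤ p.eval b := by
  induction p using Polynomial.induction_on' with
  | add p q hp hq => simp only [Polynomial.eval_add]; omega
  | monomial n c =>
    rw [Polynomial.eval_monomial, Polynomial.eval_monomial]
    exact Nat.mul_le_mul_left c (Nat.pow_le_pow_left h n)

/-- `f` is computed in polynomial time by a stack program, with input and output on stack `0`. -/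
def SComp {α β : Type} (ea : α → List Bool) (eb : β → List Bool) (f : α → β) : Prop :=
  ∃ (p : Prog) (P : Polynomial ℕ), ∀ a, Run p (st [ea a]) (P.eval (ea a).length) (st [eb (f a)])

variable {α β γ σ : Type} {ea : α → List Bool} {eb : β → List Bool} {ec : γ → List Bool}
  {es : σ → List Bool}

theorem st_pad (L : List (List Bool)) (n : ℕ) : st L = st (L ++ List.replicate n []) :=
  (st_append_replicate L n).symm

/-- To prove `SComp` one may use several stacks. -/
theorem SComp.mk' {f : α → β} (n : ℕ) (p : Prog) (P : Polynomial ℕ)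
    (h : ∀ a, Run p (st (ea a :: List.replicate n [])) (P.eval (ea a).length)
      (st (eb (f a) :: List.replicate n []))) : SComp ea eb f := by
  refine ⟨p, P, fun a => ?_⟩
  rw [st_pad [ea a] n, st_pad [eb (f a)] n]
  exact h a

theorem SComp.size {f : α → β} (h : SComp ea eb f) :
    ∃ P : Polynomial ℕ, ∀ a, (eb (f a)).length ≤ P.eval (ea a).length := by
  obtain ⟨p, P, h⟩ := h
  refine ⟨P + Polynomial.X, fun a => ?_⟩
  have := (h a).length 0
  simp only [st, List.getD_cons_zero] at this
  simp only [Polynomial.eval_add, Polynomial.eval_X]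
  omega

theorem SComp.congr {f g : α → β} (h : SComp ea eb f) (hfg : ∀ a, f a = g a) :
    SComp ea eb g := by
  have : f = g := funext hfg
  rwa [← this]

/-- Change of encodings. -/
theorem SComp.cast {α' β' : Type} {ea' : α' → List Bool} {eb' : β' → List Bool} {f : α → β}
    {f' : α' → β'} (h : SComp ea eb f)
    (k : ∀ a' : α', ∃ a, ea a = ea' a' ∧ eb (f a) = eb' (f' a')) : SComp ea' eb' f' := by
  obtain ⟨p, P, h⟩ := h
  refine ⟨p, P, fun a' => ?_⟩
  obtain ⟨a, h1, h2⟩ := k a'
  rw [← h1, ← h2]
  exact h a

theorem SComp.id' : SComp ea ea (fun a => a) := ⟨.skip, 1, fun a => by simpa using run_skip _⟩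

theorem SComp.comp {g : β → γ} {f : α → β} (hg : SComp eb ec g) (hf : SComp ea eb f) :
    SComp ea ec (fun a => g (f a)) := by
  obtain ⟨S, hS⟩ := hf.size
  obtain ⟨p, P, hf⟩ := hf
  obtain ⟨q, Q, hg⟩ := hg
  refine ⟨.seq p q, P + Q.comp S, fun a => ?_⟩
  refine ((hf a).seq (hg (f a))).mono ?_
  simp only [Polynomial.eval_add, Polynomial.eval_comp]
  exact Nat.add_le_add_left (poly_mono Q (hS a)) _

theorem SComp.const (b : β) : SComp ea eb (fun _ => b) := by
  refine ⟨.seq (clr 0) (pushL 0 (eb b)), 2 * Polynomial.X + (((eb b).length + 2 : ℕ) : Polynomial ℕ),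
    fun a => ?_⟩
  have h1 := run_clr (L := [ea a]) 0 (by simp)
  have h2 := run_pushL 0 (eb b) [[]] (by simp)
  simp only [List.getD_cons_zero, List.set_cons_zero, List.append_nil] at h1 h2
  refine (h1.seq h2).mono ?_
  simp
  omega

/-- Encoding of pairs. -/
def pairE {α β : Type} (ea : α → List Bool) (eb : β → List Bool) (p : α × β) : List Bool :=
  true :: (ea p.1 ++ eb p.2)

theorem SComp.pair {f : α → β} {g : α → γ} (hf : SComp ea eb f) (hg : SComp ea ec g) :
    SComp ea (pairE eb ec) (fun a => (f a, g a)) := by
  obtain ⟨S, hS⟩ := hf.size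
  obtain ⟨p, P, hf⟩ := hf
  obtain ⟨q, Q, hg⟩ := hg
  refine SComp.mk' 2 (.seq (mv 0 2) (.seq (mv2 2 0 1) (.seq (call 5 1 p) (.seq (call 5 0 q)
    (.seq (mv 1 2) (.seq (mv 2 0) (.push 0 true)))))))
    ((2 * Polynomial.X + 1) + ((3 * Polynomial.X + 1) + (P + (Q + ((2 * S + 1) +
      ((2 * S + 1) + 1)))))) (fun a => ?_)
  have h1 := run_mv (L := [ea a, [], []]) 0 2 (by simp) (by simp) (by simp)
  have h2 := run_mv2 (L := [[], [], (ea a).reverse]) 2 0 1 (by simp) (by simp) (by simp) (by simp)
    (by simp) (by simp)
  have h3 := run_call (hf a) 5 1 [ea a, ea a, []] (by simp) (by simp) (by simp)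
  have h4 := run_call (hg a) 5 0 [ea a, eb (f a), []] (by simp) (by simp) (by simp)
  have h5 := run_mv (L := [ec (g a), eb (f a), []]) 1 2 (by simp) (by simp) (by simp)
  have h6 := run_mv (L := [ec (g a), [], (eb (f a)).reverse]) 2 0 (by simp) (by simp) (by simp)
  have h7 := run_push (L := [eb (f a) ++ ec (g a), [], []]) 0 true (by simp)
  simp at h1 h2 h3 h4 h5 h6 h7
  have := h1.seq (h2.seq (h3.seq (h4.seq (h5.seq (h6.seq h7)))))
  simp only [List.replicate, pairE]
  refine this.mono ?_
  have := hS a
  simp only [Polynomial.eval_add, Polynomial.eval_mul, Polynomial.eval_X, Polynomial.eval_one,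
    Polynomial.eval_ofNat]
  omega

theorem scomp_fst {da : α → Data} :
    SComp (pairE (fun a => (da a).enc) eb) (fun a => (da a).enc) Prod.fst := by
  refine SComp.mk' 2 (.seq (.pop 0) (.seq scan (.seq (clr 0) (mv 2 0))))
    (1 + ((6 * Polynomial.X + 2) + ((2 * Polynomial.X + 1) + (2 * Polynomial.X + 1))))
    (fun z => ?_)
  obtain ⟨a, b⟩ := z
  have h1 := run_pop (L := [pairE (fun a => (da a).enc) eb (a, b), [], []]) 0 (by simp)
  have h2 := run_scan (da a) (eb b) [] []
  have h3 := run_clr (L := [eb b, [], (da a).enc.reverse]) 0 (by simp)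
  have h4 := run_mv (L := [[], [], (da a).enc.reverse]) 2 0 (by simp) (by simp) (by simp)
  simp [pairE] at h1 h2 h3 h4
  have := h1.seq (h2.seq (h3.seq h4))
  simp only [List.replicate, pairE]
  refine this.mono ?_
  simp only [Polynomial.eval_add, Polynomial.eval_mul, Polynomial.eval_X, Polynomial.eval_one,
    Polynomial.eval_ofNat, List.length_cons, List.length_append]
  omega

theorem scomp_snd {da : α → Data} :
    SComp (pairE (fun a => (da a).enc) eb) eb Prod.snd := by
  refine SComp.mk' 2 (.seq (.pop 0) (.seq scan (clr 2)))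
    (1 + ((6 * Polynomial.X + 2) + (2 * Polynomial.X + 1)))
    (fun z => ?_)
  obtain ⟨a, b⟩ := z
  have h1 := run_pop (L := [pairE (fun a => (da a).enc) eb (a, b), [], []]) 0 (by simp)
  have h2 := run_scan (da a) (eb b) [] []
  have h3 := run_clr (L := [eb b, [], (da a).enc.reverse]) 2 (by simp)
  simp [pairE] at h1 h2 h3
  have := h1.seq (h2.seq h3)
  simp only [List.replicate, pairE]
  refine this.mono ?_
  simp only [Polynomial.eval_add, Polynomial.eval_mul, Polynomial.eval_X, Polynomial.eval_one,
    Polynomial.eval_ofNat, List.length_cons, List.length_append]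
  omega

theorem SComp.dite' {c : α → Bool} {f : {a // c a = true} → β} {g : {a // c a = false} → β}
    (hc : SComp ea (encOf Bool) c) (hf : SComp (fun a : {a // c a = true} => ea a.1) eb f)
    (hg : SComp (fun a : {a // c a = false} => ea a.1) eb g) :
    SComp ea eb (fun a => if h : c a = true then f ⟨a, h⟩ else g ⟨a, by simpa using h⟩) := by
  obtain ⟨r, R, hc⟩ := hc
  obtain ⟨p, P, hf⟩ := hf
  obtain ⟨q, Q, hg⟩ := hg
  refine SComp.mk' 2 (.seq (mv 0 2) (.seq (mv2 2 0 1) (.seq (call 5 1 r)
    (.ifTop 1 .skip (.seq (clr 1) (call 5 0 q)) (.seq (clr 1) (call 5 0 p))))))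
    ((2 * Polynomial.X + 1) + ((3 * Polynomial.X + 1) + (R + (7 + P + Q + 1))))
    (fun a => ?_)
  have h1 := run_mv (L := [ea a, [], []]) 0 2 (by simp) (by simp) (by simp)
  have h2 := run_mv2 (L := [[], [], (ea a).reverse]) 2 0 1 (by simp) (by simp) (by simp) (by simp)
    (by simp) (by simp)
  have h3 := run_call (hc a) 5 1 [ea a, ea a, []] (by simp) (by simp) (by simp)
  have h4 := run_clr (L := [ea a, encOf Bool (c a), []]) 1 (by simp)
  have h5 : Run (.ifTop 1 .skip (.seq (clr 1) (call 5 0 q)) (.seq (clr 1) (call 5 0 p)))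
      (st [ea a, encOf Bool (c a), []])
      (7 + P.eval (ea a).length + Q.eval (ea a).length + 1)
      (st [eb (if h : c a = true then f ⟨a, h⟩ else g ⟨a, by simpa using h⟩), [], []]) := by
    by_cases h : c a = true
    · rw [dif_pos h]
      have h6 := run_call (hf ⟨a, h⟩) 5 0 [ea a, [], []] (by simp) (by simp) (by simp)
      have e : encOf Bool (c a) = [true, false, false] := by rw [h]; rfl
      rw [e] at h4 ⊢
      simp at h4 h6
      have := run_ifTrue (L := [ea a, [true, false, false], []]) (k := 1) (pe := .skip)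
        (pf := .seq (clr 1) (call 5 0 q)) [false, false]
        (by simp) (h4.seq h6)
      exact this.mono (by omega)
    · rw [dif_neg h]
      have h' : c a = false := by simpa using h
      have h6 := run_call (hg ⟨a, h'⟩) 5 0 [ea a, [], []] (by simp) (by simp) (by simp)
      have e : encOf Bool (c a) = [false] := by rw [h']; rfl
      rw [e] at h4 ⊢
      simp at h4 h6
      have := run_ifFalse (L := [ea a, [false], []]) (k := 1) (pe := .skip)
        (pt := .seq (clr 1) (call 5 0 p)) []
        (by simp) (h4.seq h6)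
      exact this.mono (by omega)
  simp at h1 h2 h3
  have := h1.seq (h2.seq (h3.seq h5))
  simp only [List.replicate]
  refine this.mono ?_
  simp only [Polynomial.eval_add, Polynomial.eval_mul, Polynomial.eval_X, Polynomial.eval_one,
    Polynomial.eval_ofNat]
  omega

/-! ### Folding over lists -/

/-- The body of the folding loop. -/
def foldBody (p : Prog) : Prog :=
  .seq scan (.seq (mv 2 3) (.seq (.push 3 true) (call 5 3 p)))

theorem run_foldLoop {da : β → Data} {step : β × σ → σ} {p : Prog} {P : Polynomial ℕ}
    (hp : ∀ z, Run p (st [pairE (fun b => (da b).enc) es z])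
      (P.eval (pairE (fun b => (da b).enc) es z).length) (st [es (step z)])) (N M : ℕ) :
    ∀ (l : List β) (s : σ), (listData da l).enc.length ≤ N →
    (∀ l', l' <+: l → (es (l'.foldl (fun s b => step (b, s)) s)).length ≤ M) →
    Run (.loop 0 .skip (foldBody p)) (st [(listData da l).enc, [], [], es s, []])
      (l.length * (8 * N + 6 + P.eval (1 + N + M)) + 3)
      (st [[], [], [], es (l.foldl (fun s b => step (b, s)) s), []])
  | [], s, _, _ => by
    have h := run_loopFalse (L := [(listData da []).enc, [], [], es s, []]) (k := 0)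
      (pf := .skip) (pt := foldBody p) [] (by simp) (by simp [listData, Data.enc])
      (run_skip _) (run_loopNil (by simp))
    simpa using h
  | b :: l, s, hN, hM => by
    have ih := run_foldLoop hp N M l (step (b, s))
      (by simp [listData, Data.enc] at hN; omega)
      (fun l' hl' => by
        have := hM (b :: l') (by simpa using hl')
        simpa using this)
    have h1 := run_scan (da b) (listData da l).enc [] [es s, []]
    have h2 := run_mv (L := [(listData da l).enc, [], (da b).enc.reverse, es s, []]) 2 3
      (by simp) (by simp) (by simp)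
    have h3 := run_push (L := [(listData da l).enc, [], [], (da b).enc ++ es s, []]) 3 true
      (by simp)
    have h4 := run_call (hp (b, s)) 5 3
      [(listData da l).enc, [], [], true :: ((da b).enc ++ es s), []] (by simp) (by simp)
      (by simp [pairE])
    simp at h1 h2 h3 h4
    have h5 := h1.seq (h2.seq (h3.seq h4))
    have h6 := run_loopTrue (L := [(listData da (b :: l)).enc, [], [], es s, []]) (k := 0)
      (pf := .skip) (pt := foldBody p) ((da b).enc ++ (listData da l).enc) (by simp)
      (by simp [listData, Data.enc]) (by simpa [foldBody] using h5) ih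
    refine Run.mono (by simpa using h6) ?_
    have h7 := hM [] (by simp)
    simp only [List.foldl_nil] at h7
    simp only [listData, Data.enc, List.length_cons, List.length_append] at hN
    have h8 : P.eval (pairE (fun b => (da b).enc) es (b, s)).length ≤ P.eval (1 + N + M) := by
      apply poly_mono
      simp only [pairE, List.length_cons, List.length_append]
      omega
    simp only [List.length_cons]
    have h9 : (l.length + 1) * (8 * N + 6 + P.eval (1 + N + M)) =
      l.length * (8 * N + 6 + P.eval (1 + N + M)) + (8 * N + 6 + P.eval (1 + N + M)) := by ring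
    rw [h9]
    omega

theorem length_le_listData_enc {da : β → Data} : ∀ l : List β,
    l.length ≤ (listData da l).enc.length
  | [] => by simp
  | b :: l => by
    have := length_le_listData_enc (da := da) l
    simp only [listData, Data.enc, List.length_cons, List.length_append]
    omega

theorem SComp.foldl' {da : β → Data} {step : β × σ → σ}
    (hstep : SComp (pairE (fun b => (da b).enc) es) es step) {l : α → List β} {s0 : α → σ}
    (hl : SComp ea (fun l => (listData da l).enc) l) (hs : SComp ea es s0) (Q : Polynomial ℕ)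
    (hQ : ∀ a l', l' <+: l a →
      (es (l'.foldl (fun s b => step (b, s)) (s0 a))).length ≤ Q.eval (ea a).length) :
    SComp ea es (fun a => (l a).foldl (fun s b => step (b, s)) (s0 a)) := by
  obtain ⟨S, hS⟩ := hl.size
  obtain ⟨r, R, hr⟩ := SComp.pair hl hs
  obtain ⟨p, P, hp⟩ := hstep
  refine SComp.mk' 4 (.seq r (.seq (.pop 0) (.seq scan (.seq (mv 0 4) (.seq (mv 4 3)
    (.seq (mv 2 0) (.seq (.loop 0 .skip (foldBody p)) (.seq (mv 3 4) (mv 4 0)))))))))
    (R + (1 + ((6 * S + 2) + ((2 * Q + 1) + ((2 * Q + 1) + ((2 * S + 1) +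
      ((S * (8 * S + 6 + P.comp (1 + S + Q)) + 3) + ((2 * Q + 1) + (2 * Q + 1)))))))))
    (fun a => ?_)
  have hr' : Run r (st [ea a, [], [], [], []]) (R.eval (ea a).length)
      (st [pairE (fun l => (listData da l).enc) es (l a, s0 a), [], [], [], []]) := by
    have := hr a
    rw [st_pad [ea a] 4, st_pad [pairE _ es _] 4] at this
    simpa using this
  have h1 := run_pop (L := [pairE (fun l => (listData da l).enc) es (l a, s0 a), [], [], [], []]) 0
    (by simp)
  have h2 := run_scan (listData da (l a)) (es (s0 a)) [] [[], []]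
  have h3 := run_mv (L := [es (s0 a), [], (listData da (l a)).enc.reverse, [], []]) 0 4
    (by simp) (by simp) (by simp)
  have h4 := run_mv (L := [[], [], (listData da (l a)).enc.reverse, [], (es (s0 a)).reverse]) 4 3
    (by simp) (by simp) (by simp)
  have h5 := run_mv (L := [[], [], (listData da (l a)).enc.reverse, es (s0 a), []]) 2 0
    (by simp) (by simp) (by simp)
  have h6 := run_foldLoop hp (S.eval (ea a).length) (Q.eval (ea a).length) (l a) (s0 a)
    (hS a) (hQ a)
  have h7 := run_mv (L := [[], [], [], es ((l a).foldl (fun s b => step (b, s)) (s0 a)), []]) 3 4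
    (by simp) (by simp) (by simp)
  have h8 := run_mv
    (L := [[], [], [], [], (es ((l a).foldl (fun s b => step (b, s)) (s0 a))).reverse]) 4 0
    (by simp) (by simp) (by simp)
  simp [pairE] at h1 h2 h3 h4 h5 h6 h7 h8 hr'
  have := hr'.seq (h1.seq (h2.seq (h3.seq (h4.seq (h5.seq (h6.seq (h7.seq h8)))))))
  simp only [List.replicate]
  refine this.mono ?_
  have k1 := hS a
  have k2 := hQ a [] (by simp)
  have k3 := hQ a (l a) (by simp)
  simp only [List.foldl_nil] at k2
  have k4 : (l a).length * (8 * S.eval (ea a).length + 6 +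
      P.eval (1 + S.eval (ea a).length + Q.eval (ea a).length)) ≤
      S.eval (ea a).length * (8 * S.eval (ea a).length + 6 +
      P.eval (1 + S.eval (ea a).length + Q.eval (ea a).length)) :=
    Nat.mul_le_mul_right _ ((length_le_listData_enc _).trans k1)
  simp only [Polynomial.eval_add, Polynomial.eval_mul, Polynomial.eval_X, Polynomial.eval_one,
    Polynomial.eval_ofNat, Polynomial.eval_comp]
  omega

end Pool.Agent.Helper81.CC
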