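import Mathlib.NumberTheory.Dioph
import Mathlib.Data.Nat.Choose.Sum
import Mathlib.Data.Nat.Choose.Cast
import Mathlib.Data.Nat.Factorial.BigOperators
import Mathlib.Tactic

/-!
Closure properties of Diophantine functions: binomial coefficients, factorials,
and the products `∏_{k<n} (1 + (k+1) t)`.
-/

namespace Pool.Agent.Helper81

open Dioph Finset

/-! ### Arithmetic facts -/

/-- The base-`(2^n+1)` digit formula for binomial coefficients. -/
theorem choose_eq_digit (n k u : ℕ) (hu : 2 ^ n < u) :
    n.choose k = ((u + 1) ^ n / u ^ k) % u := by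
  have hu0 : 0 < u := lt_of_le_of_lt (Nat.zero_le _) hu
  have hlt : ∀ j, n.choose j < u := fun j => lt_of_le_of_lt (Nat.choose_le_two_pow n j) hu
  by_cases hk : k ≤ n
  · have hexp : (u + 1) ^ n = (∑ i ∈ range k, n.choose i * u ^ i)
        + u ^ k * (n.choose k + u * ∑ i ∈ range (n - k), n.choose (k + 1 + i) * u ^ i) := by
      have h0 : (u + 1) ^ n = ∑ i ∈ range (n + 1), n.choose i * u ^ i := by
        rw [add_pow]
        apply sum_congr rfl
        intro i _
        simp only [one_pow, mul_one, Nat.cast_id]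
        ring
      rw [h0]
      have h1 : n + 1 = k + (1 + (n - k)) := by omega
      rw [h1, sum_range_add, sum_range_add]
      congr 1
      simp only [range_one, sum_singleton, add_zero, mul_add]
      congr 1
      · ring
      · rw [Finset.mul_sum, Finset.mul_sum]
        apply sum_congr rfl; intro i _
        rw [show k + (1 + i) = k + 1 + i by ring]
        ring
    have hsmall : ∀ m, (∑ i ∈ range m, n.choose i * u ^ i) < u ^ m := by
      intro m
      induction m with
      | zero => simp
      | succ m ih =>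
        rw [sum_range_succ, pow_succ]
        have h2 := hlt m
        have h3 : n.choose m + 1 ≤ u := h2
        calc (∑ i ∈ range m, n.choose i * u ^ i) + n.choose m * u ^ m
            < u ^ m + n.choose m * u ^ m := by omega
          _ = (n.choose m + 1) * u ^ m := by ring
          _ ≤ u * u ^ m := Nat.mul_le_mul_right _ h3
          _ = u ^ m * u := by ring
    rw [hexp, Nat.add_mul_div_left _ _ (pow_pos hu0 k), Nat.div_eq_of_lt (hsmall k), zero_add,
      Nat.add_mul_mod_self_left, Nat.mod_eq_of_lt (hlt k)]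
  · have hk' : n < k := not_le.1 hk
    rw [Nat.choose_eq_zero_of_lt hk']
    have : (u + 1) ^ n < u ^ k := by
      have h1 : (u + 1) ^ n ≤ 2 ^ n * u ^ n := by
        rw [← mul_pow]; exact Nat.pow_le_pow_left (by omega) n
      calc (u + 1) ^ n ≤ 2 ^ n * u ^ n := h1
        _ < u * u ^ n := Nat.mul_lt_mul_of_pos_right hu (pow_pos hu0 n)
        _ = u ^ (n + 1) := by ring
        _ ≤ u ^ k := Nat.pow_le_pow_right hu0 hk'
    rw [Nat.div_eq_of_lt this, Nat.zero_mod]

theorem choose_dioph {α : Type} {f g : (α → ℕ) → ℕ} (df : DiophFn f) (dg : DiophFn g) :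
    DiophFn fun v => (f v).choose (g v) := by
  have hu : DiophFn fun v => 2 ^ (f v) + 1 :=
    Dioph.add_dioph (Dioph.pow_dioph (Dioph.const_dioph 2) df) (Dioph.const_dioph 1)
  have h : DiophFn fun v => (((2 ^ (f v) + 1) + 1) ^ (f v) / (2 ^ (f v) + 1) ^ (g v)) %
      (2 ^ (f v) + 1) :=
    Dioph.mod_dioph (Dioph.div_dioph (Dioph.pow_dioph (Dioph.add_dioph hu (Dioph.const_dioph 1)) df)
      (Dioph.pow_dioph hu dg)) hu
  have e : (fun v => (f v).choose (g v)) = fun v =>
      (((2 ^ (f v) + 1) + 1) ^ (f v) / (2 ^ (f v) + 1) ^ (g v)) % (2 ^ (f v) + 1) := by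
    funext v
    exact choose_eq_digit _ _ _ (Nat.lt_succ_self _)
  rw [e]; exact h

theorem pow_le_aux (a s r : ℕ) : (a + s) ^ r ≤ a ^ r + r * s * (a + s) ^ (r - 1) := by
  induction r with
  | zero => simp
  | succ r ih =>
    rcases Nat.eq_zero_or_pos r with rfl | hr
    · simp
    · have h1 : (a + s) ^ r = (a + s) ^ (r - 1) * (a + s) := by
        rw [← pow_succ]; congr 1; omega
      have h2 : a ^ r ≤ (a + s) ^ r := Nat.pow_le_pow_left (Nat.le_add_right _ _) r
      calc (a + s) ^ (r + 1) = (a + s) ^ r * (a + s) := pow_succ _ _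
        _ ≤ (a ^ r + r * s * (a + s) ^ (r - 1)) * (a + s) := Nat.mul_le_mul_right _ ih
        _ = a ^ (r + 1) + s * a ^ r + r * s * ((a + s) ^ (r - 1) * (a + s)) := by ring
        _ = a ^ (r + 1) + s * a ^ r + r * s * (a + s) ^ r := by rw [← h1]
        _ ≤ a ^ (r + 1) + s * (a + s) ^ r + r * s * (a + s) ^ r := by
            have := Nat.mul_le_mul_left s h2; omega
        _ = a ^ (r + 1) + (r + 1) * s * (a + s) ^ (r + 1 - 1) := by
            rw [Nat.add_sub_cancel]; ring

/-- `r! = ⌊t^r / C(t,r)⌋` for `t` large. -/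
theorem factorial_eq_div (r t : ℕ) (ht : (r ^ r + 1) * r ^ 2 + r < t) :
    r.factorial = t ^ r / t.choose r := by
  have hrt : r ≤ t := by
    have : r ≤ (r ^ r + 1) * r ^ 2 + r := Nat.le_add_left _ _
    omega
  have hc : 0 < t.choose r := Nat.choose_pos hrt
  have hfac : 0 < r.factorial := Nat.factorial_pos r
  have hdesc : t.descFactorial r = r.factorial * t.choose r := Nat.descFactorial_eq_factorial_mul_choose t r
  symm
  rw [Nat.div_eq_iff hc]
  rcases Nat.eq_zero_or_pos r with rfl | hr
  · simp
  have hlow : r.factorial * t.choose r ≤ t ^ r := by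
    rw [← hdesc]; exact Nat.descFactorial_le_pow t r
  have hup : t ^ r < (r.factorial + 1) * t.choose r := by
    have h1 : (t + 1 - r) ^ r ≤ t.descFactorial r := Nat.pow_sub_le_descFactorial t r
    have h2 : t ^ r ≤ (t + 1 - r) ^ r + r * (r - 1) * t ^ (r - 1) := by
      have := pow_le_aux (t + 1 - r) (r - 1) r
      have e : t + 1 - r + (r - 1) = t := by omega
      rwa [e] at this
    have h3 : r.factorial ≤ r ^ r := Nat.factorial_le_pow r
    have h4 : (r.factorial + 1) * (r * (r - 1)) < t := by
      have : (r.factorial + 1) * (r * (r - 1)) ≤ (r ^ r + 1) * r ^ 2 := by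
        apply Nat.mul_le_mul (by omega)
        rw [pow_two]; exact Nat.mul_le_mul_left _ (Nat.sub_le _ _)
      omega
    have h5 : t ^ r = t * t ^ (r - 1) := by
      rw [← pow_succ']; congr 1; omega
    have htpos : 0 < t ^ (r - 1) := pow_pos (by omega) _
    have h6 : r.factorial * t ^ r < (r.factorial + 1) * t.descFactorial r := by
      have a1 : (r.factorial + 1) * t ^ r ≤ (r.factorial + 1) * t.descFactorial r
          + (r.factorial + 1) * (r * (r - 1)) * t ^ (r - 1) := by
        calc (r.factorial + 1) * t ^ r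
            ≤ (r.factorial + 1) * ((t + 1 - r) ^ r + r * (r - 1) * t ^ (r - 1)) :=
              Nat.mul_le_mul_left _ h2
          _ = (r.factorial + 1) * (t + 1 - r) ^ r
              + (r.factorial + 1) * (r * (r - 1)) * t ^ (r - 1) := by ring
          _ ≤ _ := by
              have := Nat.mul_le_mul_left (r.factorial + 1) h1
              omega
      have a2 : (r.factorial + 1) * (r * (r - 1)) * t ^ (r - 1) < t ^ r := by
        rw [h5]; exact Nat.mul_lt_mul_of_pos_right h4 htpos
      have a3 : (r.factorial + 1) * t ^ r = r.factorial * t ^ r + t ^ r := by ring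
      omega
    rw [hdesc] at h6
    have h7 : r.factorial * t ^ r < r.factorial * ((r.factorial + 1) * t.choose r) := by
      calc r.factorial * t ^ r < (r.factorial + 1) * (r.factorial * t.choose r) := h6
        _ = _ := by ring
    exact Nat.lt_of_mul_lt_mul_left h7
  constructor
  · exact hlow
  · have : (r.factorial + 1) * t.choose r = r.factorial * t.choose r + t.choose r := by ring
    omega

theorem factorial_dioph {α : Type} {f : (α → ℕ) → ℕ} (df : DiophFn f) :
    DiophFn fun v => (f v).factorial := by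
  have ht : DiophFn fun v => ((f v) ^ (f v) + 1) * (f v) ^ 2 + (f v) + 1 :=
    Dioph.add_dioph (Dioph.add_dioph (Dioph.mul_dioph (Dioph.add_dioph (Dioph.pow_dioph df df)
      (Dioph.const_dioph 1)) (Dioph.pow_dioph df (Dioph.const_dioph 2))) df) (Dioph.const_dioph 1)
  have h := Dioph.div_dioph (Dioph.pow_dioph ht df) (choose_dioph ht df)
  have e : (fun v => (f v).factorial) = fun v =>
      (((f v) ^ (f v) + 1) * (f v) ^ 2 + (f v) + 1) ^ (f v) /
        (((f v) ^ (f v) + 1) * (f v) ^ 2 + (f v) + 1).choose (f v) := by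
    funext v
    exact factorial_eq_div _ _ (Nat.lt_succ_self _)
  rw [e]; exact h

theorem descFactorial_dioph {α : Type} {f g : (α → ℕ) → ℕ} (df : DiophFn f) (dg : DiophFn g) :
    DiophFn fun v => (f v).descFactorial (g v) := by
  have h := Dioph.mul_dioph (factorial_dioph dg) (choose_dioph df dg)
  have e : (fun v => (f v).descFactorial (g v)) = fun v =>
      (g v).factorial * (f v).choose (g v) := by
    funext v
    exact Nat.descFactorial_eq_factorial_mul_choose _ _
  rw [e]; exact h

/-- `∏_{k<n} (1 + (k+1) t)`. -/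
def prodSucc (t n : ℕ) : ℕ := ∏ k ∈ range n, (1 + (k + 1) * t)

theorem prodSucc_eq (t n : ℕ) (ht : 0 < t) :
    prodSucc t n = (t ^ n * (n.factorial *
      (((t - 1) * (1 + n * t) ^ n + 1 + n).choose n))) % (t * (1 + n * t) ^ n + 1) := by
  obtain ⟨s, rfl⟩ : ∃ s, t = s + 1 := ⟨t - 1, by omega⟩
  rw [Nat.add_sub_cancel]
  set X := (1 + n * (s + 1)) ^ n with hX
  set q := s * X + 1 with hq
  set M := (s + 1) * X + 1 with hM
  have hXpos : 0 < X := pow_pos (by omega) _
  have hle : prodSucc (s + 1) n ≤ X := by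
    unfold prodSucc
    calc ∏ k ∈ range n, (1 + (k + 1) * (s + 1)) ≤ ∏ _k ∈ range n, (1 + n * (s + 1)) := by
          apply Finset.prod_le_prod'
          intro k hk
          have : k + 1 ≤ n := Finset.mem_range.1 hk
          have := Nat.mul_le_mul_right (s + 1) this
          omega
      _ = X := by simp [hX]
  have hlt : prodSucc (s + 1) n < M := by
    have : X ≤ (s + 1) * X := Nat.le_mul_of_pos_left _ (Nat.succ_pos _)
    omega
  have hinv : (s + 1) * q = s * M + 1 := by rw [hq, hM]; ring
  have hasc : n.factorial * (q + n).choose n = ∏ k ∈ range n, (q + (k + 1)) := by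
    rw [← Nat.ascFactorial_eq_factorial_mul_choose, Nat.ascFactorial_eq_prod_range]
    apply prod_congr rfl; intro k _; ring
  rw [show s * X + 1 + n = q + n from rfl, hasc]
  have hcong : prodSucc (s + 1) n ≡ (s + 1) ^ n * ∏ k ∈ range n, (q + (k + 1)) [MOD M] := by
    unfold prodSucc
    rw [show (s + 1) ^ n = ∏ _k ∈ range n, (s + 1) by simp, ← Finset.prod_mul_distrib]
    have hterm : ∀ k, (1 + (k + 1) * (s + 1)) ≡ (s + 1) * (q + (k + 1)) [MOD M] := by
      intro k
      have e1 : (s + 1) * (q + (k + 1)) = 1 + (k + 1) * (s + 1) + M * s := by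
        calc (s + 1) * (q + (k + 1)) = (s + 1) * q + (s + 1) * (k + 1) := by ring
          _ = s * M + 1 + (s + 1) * (k + 1) := by rw [hinv]
          _ = _ := by ring
      rw [e1]
      simp [Nat.ModEq]
    have hgen : ∀ m, (∏ k ∈ range m, (1 + (k + 1) * (s + 1))) ≡
        ∏ k ∈ range m, ((s + 1) * (q + (k + 1))) [MOD M] := by
      intro m
      induction m with
      | zero => rfl
      | succ m ih =>
        rw [prod_range_succ, prod_range_succ]
        exact Nat.ModEq.mul ih (hterm m)
    exact hgen n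
  have := hcong
  rw [Nat.ModEq, Nat.mod_eq_of_lt hlt] at this
  exact this

theorem prodSucc_dioph {α : Type} {f g : (α → ℕ) → ℕ} (df : DiophFn f) (dg : DiophFn g)
    (hf : ∀ v, 0 < f v) : DiophFn fun v => prodSucc (f v) (g v) := by
  have hX : DiophFn fun v => (1 + g v * f v) ^ g v :=
    Dioph.pow_dioph (Dioph.add_dioph (Dioph.const_dioph 1) (Dioph.mul_dioph dg df)) dg
  have h := Dioph.mod_dioph (Dioph.mul_dioph (Dioph.pow_dioph df dg)
    (Dioph.mul_dioph (factorial_dioph dg) (choose_dioph (Dioph.add_dioph (Dioph.add_dioph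
      (Dioph.mul_dioph (Dioph.sub_dioph df (Dioph.const_dioph 1)) hX) (Dioph.const_dioph 1)) dg)
      dg))) (Dioph.add_dioph (Dioph.mul_dioph df hX) (Dioph.const_dioph 1))
  have e : (fun v => prodSucc (f v) (g v)) = fun v =>
      ((f v) ^ (g v) * ((g v).factorial *
      (((f v - 1) * (1 + g v * f v) ^ g v + 1 + g v).choose (g v)))) %
        (f v * (1 + g v * f v) ^ g v + 1) := by
    funext v
    exact prodSucc_eq _ _ (hf v)
  rw [e]; exact h

end Pool.Agent.Helper81
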