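import Mathlib.Combinatorics.SimpleGraph.Acyclic
import Pool.Agent.Helper81.CxData

/-!
Definitions for the partial representation extension problem `REPEXT(PATH, BOTH)`
(problem MP_9bd22a_lc).
-/

namespace Pool.Agent.Helper81.PathExt

open Pool.Agent.Helper81.CC

/-- `S` is the vertex set of a path of the graph `T`. -/
def IsSubpath {B : Type} (T : SimpleGraph B) (S : Set B) : Prop :=
  ∃ (a b : B) (p : T.Walk a b), p.IsPath ∧ S = {x | x ∈ p.support}

/-- `R` is a subpath representation of the graph `G` in the tree `T`. -/
structure IsPathRep {V B : Type} (G : SimpleGraph V) (T : SimpleGraph B) (R : V → Set B) :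
    Prop where
  /-- the host graph is a tree -/
  isTree : T.IsTree
  /-- every vertex is represented by the vertex set of a path of the host tree -/
  isSubpath : ∀ v, IsSubpath T (R v)
  /-- distinct vertices are adjacent iff their sets meet -/
  inter_iff : ∀ u v, u ≠ v → ((R u ∩ R v).Nonempty ↔ G.Adj u v)

/-- A subdivision of `T'` contained in `T` as a subgraph: an injection of the nodes together with,
for each edge `xy` of `T'`, a path of `T` joining the images of `x` and `y` (the subdivided edge);
different subdivided edges meet only in images of nodes, and a subdivided edge contains no image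
of a node other than those of its ends. -/
structure SubdivIn {A B : Type} (T' : SimpleGraph A) (T : SimpleGraph B) where
  /-- the images of the nodes -/
  node : A → B
  /-- different nodes have different images -/
  node_inj : Function.Injective node
  /-- the subdivided edges -/
  path : ∀ {x y : A}, T'.Adj x y → T.Walk (node x) (node y)
  /-- the subdivided edges are paths -/
  isPath : ∀ {x y : A} (h : T'.Adj x y), (path h).IsPath
  /-- the subdivided edge does not depend on the direction in which the edge is read -/
  support_symm : ∀ {x y : A} (h : T'.Adj x y), (path h.symm).support = (path h).support.reverse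
  /-- a subdivided edge contains only the images of its two ends -/
  node_mem : ∀ {x y : A} (h : T'.Adj x y) (a : A), node a ∈ (path h).support → a = x ∨ a = y
  /-- different subdivided edges meet only in images of nodes -/
  disj : ∀ {x y x' y' : A} (h : T'.Adj x y) (h' : T'.Adj x' y'), s(x, y) ≠ s(x', y') →
    ∀ z, z ∈ (path h).support → z ∈ (path h').support → ∃ a, node a = z

/-- The image of a pre-drawn set `S` after subdivision: the images of the nodes in `S`, and all
nodes of the subdivided edges both of whose ends are in `S`. -/
def SubdivIn.image {A B : Type} {T' : SimpleGraph A} {T : SimpleGraph B} (m : SubdivIn T' T)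
    (S : Set A) : Set B :=
  m.node '' S ∪ {z | ∃ (x y : A) (h : T'.Adj x y), x ∈ S ∧ y ∈ S ∧ z ∈ (m.path h).support}

/-- The graph with vertices `0, …, n - 1` whose edges are listed in `E`. -/
def graphOf (n : ℕ) (E : List (ℕ × ℕ)) : SimpleGraph (Fin n) :=
  SimpleGraph.fromRel fun i j => ((i : ℕ), (j : ℕ)) ∈ E

/-- Input data: a graph `G` on `0, …, n - 1` with edge list `E`, a graph `T'` on `0, …, k - 1`
with edge list `F`, and the list `L` of the pre-drawn vertices together with (lists of the
elements of) their sets. -/
structure RepInput where
  /-- number of vertices of the graph -/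
  n : ℕ
  /-- edges of the graph -/
  E : List (ℕ × ℕ)
  /-- number of nodes of the tree -/
  k : ℕ
  /-- edges of the tree -/
  F : List (ℕ × ℕ)
  /-- pre-drawn vertices and their sets -/
  L : List (ℕ × List ℕ)

instance : ToData RepInput where
  toData x := toData (x.n, x.E, x.k, x.F, x.L)
  inj x y h := by
    have := ToData.inj h
    cases x
    cases y
    simpa using this

/-- The graph `G`. -/
def RepInput.graph (x : RepInput) : SimpleGraph (Fin x.n) := graphOf x.n x.E

/-- The graph `T'`. -/
def RepInput.tree (x : RepInput) : SimpleGraph (Fin x.k) := graphOf x.k x.F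

/-- The pre-drawn vertices. -/
def RepInput.pre (x : RepInput) : Set (Fin x.n) := {v | ∃ S, ((v : ℕ), S) ∈ x.L}

/-- The pre-drawn sets. -/
def RepInput.rep (x : RepInput) (v : Fin x.n) : Set (Fin x.k) :=
  {a | ∃ S, ((v : ℕ), S) ∈ x.L ∧ (a : ℕ) ∈ S}

/-- `T'` is a tree and the pre-drawn sets form a subpath representation in `T'` of the subgraph
of `G` induced by the pre-drawn vertices. -/
def RepInput.Valid (x : RepInput) : Prop :=
  IsPathRep (x.graph.induce x.pre) x.tree fun v => x.rep v

/-- There are a finite tree `T` containing a subdivision of `T'` and a subpath representation of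
`G` in `T` that extends the pre-drawn one. -/
def RepInput.Extends (x : RepInput) : Prop :=
  ∃ (B : Type) (_ : Finite B) (T : SimpleGraph B) (m : SubdivIn x.tree T)
    (R : Fin x.n → Set B), IsPathRep x.graph T R ∧ ∀ v ∈ x.pre, R v = m.image (x.rep v)

end Pool.Agent.Helper81.PathExt
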