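import Mathlib
import Pool.Agent.Helper81.PathRepInput

/-!
Partial representations with arbitrary node types.
-/

namespace Pool.Agent.Helper81.PathExt

/-- A partial representation of `G`: a finite tree `tree`, a set `pre` of pre-drawn vertices and
a subpath representation in `tree` of the subgraph of `G` induced by `pre`. -/
structure PartialRep {V : Type} (G : SimpleGraph V) where
  /-- the node type of the given tree -/
  A : Type
  /-- the given tree is finite -/
  finite : Finite A
  /-- the given tree -/
  tree : SimpleGraph A
  /-- the pre-drawn vertices -/
  pre : Set V
  /-- the pre-drawn sets (only the values at pre-drawn vertices matter) -/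
  rep : V → Set A
  /-- the pre-drawn sets form a subpath representation of the induced subgraph -/
  isRep : IsPathRep (G.induce pre) tree fun v => rep v

/-- The answer to the instance `(G, P)` of `REPEXT(PATH, BOTH)` is yes: there are a finite tree
`T` containing a subdivision of the given tree and a subpath representation of `G` in `T` that
extends the pre-drawn one. -/
def Extendable {V : Type} (G : SimpleGraph V) (P : PartialRep G) : Prop :=
  ∃ (B : Type) (_ : Finite B) (T : SimpleGraph B) (m : SubdivIn P.tree T) (R : V → Set B),
    IsPathRep G T R ∧ ∀ v ∈ P.pre, R v = m.image (P.rep v)

end Pool.Agent.Helper81.PathExt
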