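import Pool.Agent.Helper81.PathExtHard

/-!
The gadget: a graph and a partial representation built from a graph `H`.
-/

namespace Pool.Agent.Helper81.PathExt

open SimpleGraph Walk

/-- Nodes of a rooted tree described by a parent map and a depth function. -/
structure RootedTree (N : Type) where
  /-- the root -/
  root : N
  /-- the parent map -/
  parent : N → N
  /-- the depth -/
  depth : N → ℕ
  parent_root : parent root = root
  depth_parent : ∀ x, x ≠ root → depth (parent x) < depth x

namespace RootedTree

variable {N : Type} (D : RootedTree N)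

/-- The underlying graph of a rooted tree. -/
def graph : SimpleGraph N where
  Adj x y := x ≠ y ∧ (D.parent x = y ∨ D.parent y = x)
  symm := ⟨fun _ _ h => ⟨h.1.symm, h.2.symm⟩⟩
  loopless := ⟨fun _ h => h.1 rfl⟩

theorem parent_ne {x : N} (hx : x ≠ D.root) : D.parent x ≠ x := fun h => by
  have := D.depth_parent x hx
  rw [h] at this
  exact lt_irrefl _ this

theorem adj_parent {x : N} (hx : x ≠ D.root) : D.graph.Adj x (D.parent x) :=
  ⟨(D.parent_ne hx).symm, Or.inl rfl⟩

theorem depth_parent_le (x : N) : D.depth (D.parent x) ≤ D.depth x := by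
  by_cases h : x = D.root
  · rw [h, D.parent_root]
  · exact (D.depth_parent x h).le

theorem reachable_root (x : N) : D.graph.Reachable x D.root := by
  induction h : D.depth x using Nat.strong_induction_on generalizing x with
  | _ n ih =>
    by_cases hx : x = D.root
    · rw [hx]
    · have h1 := D.depth_parent x hx
      exact (D.adj_parent hx).reachable.trans (ih _ (h ▸ h1) _ rfl)

theorem isTree : D.graph.IsTree := by
  have : Nonempty N := ⟨D.root⟩
  refine ⟨⟨fun x y => (D.reachable_root x).trans (D.reachable_root y).symm⟩, ?_⟩
  rw [isAcyclic_iff_forall_adj_isBridge]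
  -- it is enough to treat edges from `x` to its parent
  have key : ∀ x, x ≠ D.root → D.graph.IsBridge s(x, D.parent x) := by
    intro x hx
    rw [isBridge_iff]
    intro hreach
    have hstay : ∀ {y z : N}, (D.graph \ fromEdgeSet {s(x, D.parent x)}).Adj y z →
        (∃ n, D.parent^[n] y = x) → ∃ n, D.parent^[n] z = x := by
      rintro y z hyz ⟨n, hn⟩
      rw [sdiff_adj] at hyz
      obtain ⟨⟨hne, hp | hp⟩, hnot⟩ := hyz
      · cases n with
        | zero =>
          exfalso
          apply hnot
          rw [fromEdgeSet_adj]
          have : y = x := hn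
          refine ⟨?_, hne⟩
          rw [← hp, this]
          rfl
        | succ n =>
          refine ⟨n, ?_⟩
          rw [Function.iterate_succ_apply, hp] at hn
          exact hn
      · exact ⟨n + 1, by rw [Function.iterate_succ_apply, hp]; exact hn⟩
    have hall : ∀ {y z : N}, (D.graph \ fromEdgeSet {s(x, D.parent x)}).Reachable y z →
        (∃ n, D.parent^[n] y = x) → ∃ n, D.parent^[n] z = x := by
      rintro y z ⟨w⟩
      induction w with
      | nil => exact id
      | cons h _ ih => exact fun hh => ih (hstay h hh)
    obtain ⟨n, hn⟩ := hall hreach ⟨0, rfl⟩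
    have hdepth : ∀ m y, D.depth (D.parent^[m] y) ≤ D.depth y := by
      intro m
      induction m with
      | zero => intro y; exact le_rfl
      | succ m ih =>
        intro y
        rw [Function.iterate_succ_apply]
        exact (ih _).trans (D.depth_parent_le y)
    have h1 := hdepth n (D.parent x)
    rw [hn] at h1
    exact absurd (D.depth_parent x hx) (not_lt.2 h1)
  intro x y hxy
  obtain ⟨hne, hp | hp⟩ := hxy
  · have hx : x ≠ D.root := by
      rintro rfl
      rw [D.parent_root] at hp
      exact hne hp
    rw [← hp]; exact key x hx
  · have hy : y ≠ D.root := by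
      rintro rfl
      rw [D.parent_root] at hp
      exact hne hp.symm
    rw [← hp, Sym2.eq_swap]; exact key y hy

/-- If `anc` is the ancestor-set function, then `anc x` is the support of a path to the root. -/
theorem exists_path_root (anc : N → Set N) (h0 : anc D.root = {D.root})
    (h1 : ∀ x, x ≠ D.root → anc x = insert x (anc (D.parent x))) (x : N) :
    ∃ p : D.graph.Walk x D.root, p.IsPath ∧ {y | y ∈ p.support} = anc x ∧
      ∀ y ∈ p.support, D.depth y ≤ D.depth x := by
  induction h : D.depth x using Nat.strong_induction_on generalizing x with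
  | _ n ih =>
    by_cases hx : x = D.root
    · subst hx
      exact ⟨nil, IsPath.nil, by rw [h0]; ext y; simp, by simp [h]⟩
    · have hd := D.depth_parent x hx
      obtain ⟨p, hp, hs, hdep⟩ := ih _ (h ▸ hd) _ rfl
      refine ⟨cons (D.adj_parent hx) p, ?_, ?_, ?_⟩
      · rw [cons_isPath_iff]
        refine ⟨hp, fun hmem => ?_⟩
        exact absurd (hdep _ hmem) (not_le.2 hd)
      · rw [h1 x hx, ← hs]
        ext y
        simp
      · intro y hy
        rw [support_cons, List.mem_cons] at hy
        rcases hy with rfl | hy
        · exact h.le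
        · exact (hdep y hy).trans (h ▸ hd.le)

theorem isSubpath_union (anc : N → Set N) (h0 : anc D.root = {D.root})
    (h1 : ∀ x, x ≠ D.root → anc x = insert x (anc (D.parent x))) (x y : N)
    (hxy : ∀ z, z ∈ anc x → z ∈ anc y → z = D.root) :
    IsSubpath D.graph (anc x ∪ anc y) := by
  obtain ⟨p, hp, hps, _⟩ := D.exists_path_root anc h0 h1 x
  obtain ⟨q, hq, hqs, _⟩ := D.exists_path_root anc h0 h1 y
  refine ⟨x, y, p.append q.reverse, ?_, ?_⟩
  · rw [isPath_def, support_append]
    have hqr : q.reverse.IsPath := hq.reverse
    have hqn : q.reverse.support.Nodup := (isPath_def _).1 hqr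
    have hcons : q.reverse.support = D.root :: q.reverse.support.tail := by
      rw [← cons_tail_support q.reverse]; rfl
    rw [List.nodup_append']
    refine ⟨(isPath_def _).1 hp, ?_, ?_⟩
    · rw [hcons] at hqn
      exact (List.nodup_cons.1 hqn).2
    · intro z hz hz'
      have hzx : z ∈ anc x := by rw [← hps]; exact hz
      have hz2 : z ∈ q.reverse.support := List.mem_of_mem_tail hz'
      have hzy : z ∈ anc y := by rw [← hqs]; simpa using hz2
      have hroot := hxy z hzx hzy
      rw [hcons] at hqn
      exact (List.nodup_cons.1 hqn).1 (hroot ▸ hz')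
  · ext z
    rw [← hps, ← hqs]
    simp only [Set.mem_union, Set.mem_ofPred_eq, mem_support_append_iff, support_reverse,
      List.mem_reverse]

theorem isSubpath_singleton (x : N) : IsSubpath D.graph {x} :=
  ⟨x, x, nil, IsPath.nil, by ext y; simp⟩

end RootedTree

end Pool.Agent.Helper81.PathExt
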