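import Pool.Agent.Helper81.PathExtDefs

/-!
From an extension to a 3-colouring: separation arguments in the host tree.
-/

namespace Pool.Agent.Helper81.PathExt

open SimpleGraph Walk

variable {B : Type} {T : SimpleGraph B}

/-- `x` and `y` are in the same branch at `c`. -/
def SB (T : SimpleGraph B) (c x y : B) : Prop := ∃ w : T.Walk x y, c ∉ w.support

theorem SB.symm {c x y : B} (h : SB T c x y) : SB T c y x := by
  obtain ⟨w, hw⟩ := h
  exact ⟨w.reverse, by simpa using hw⟩

theorem SB.trans {c x y z : B} (h : SB T c x y) (h' : SB T c y z) : SB T c x z := by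
  obtain ⟨w, hw⟩ := h
  obtain ⟨w', hw'⟩ := h'
  refine ⟨w.append w', fun hc => ?_⟩
  rcases (mem_support_append_iff _ _).1 hc with h | h
  · exact hw h
  · exact hw' h

/-- `z` lies on every walk from `x` to `y`. -/
def Sep (T : SimpleGraph B) (z x y : B) : Prop := ∀ w : T.Walk x y, z ∈ w.support

theorem sep_of_path (hT : T.IsAcyclic) {x y z : B} (p : T.Walk x y) (hp : p.IsPath)
    (hz : z ∈ p.support) : Sep T z x y := by
  classical
  intro w
  have h1 : w.bypass.IsPath := w.bypass_isPath
  have h2 := (hT.subsingleton_path x y).elim ⟨p, hp⟩ ⟨w.bypass, h1⟩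
  have h3 : p = w.bypass := congrArg Subtype.val h2
  rw [h3] at hz
  exact w.support_bypass_subset_support hz

theorem not_SB_of_sep {c x y : B} (h : Sep T c x y) : ¬ SB T c x y :=
  fun ⟨w, hw⟩ => hw (h w)

/-- Within a subpath, any two nodes are joined by a walk inside it. -/
theorem IsSubpath.walk {S : Set B} (hS : IsSubpath T S) {x y : B} (hx : x ∈ S) (hy : y ∈ S) :
    ∃ w : T.Walk x y, ∀ z ∈ w.support, z ∈ S := by
  classical
  obtain ⟨a, b, p, _, rfl⟩ := hS
  refine ⟨(p.takeUntil x hx).reverse.append (p.takeUntil y hy), fun z hz => ?_⟩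
  rcases (mem_support_append_iff _ _).1 hz with h | h
  · rw [support_reverse, List.mem_reverse] at h
    exact p.support_takeUntil_subset_support _ h
  · exact p.support_takeUntil_subset_support _ h

theorem IsSubpath.sameBranch {S : Set B} (hS : IsSubpath T S) {c x y : B} (hc : c ∉ S) (hx : x ∈ S)
    (hy : y ∈ S) : SB T c x y := by
  obtain ⟨w, hw⟩ := hS.walk hx hy
  exact ⟨w, fun h => hc (hw _ h)⟩

/-- The two halves of a path at one of its nodes. -/
theorem IsSubpath.halves {S : Set B} (hS : IsSubpath T S) {c : B} (hc : c ∈ S) :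
    ∃ (a b : B) (q : T.Walk c a) (r : T.Walk c b), (q.reverse.append r).IsPath ∧
      ∀ x, x ∈ S ↔ x ∈ q.support ∨ x ∈ r.support := by
  classical
  obtain ⟨a, b, p, hp, rfl⟩ := hS
  have hc' : c ∈ p.support := hc
  refine ⟨a, b, (p.takeUntil c hc').reverse, p.dropUntil c hc', ?_, fun x => ?_⟩
  · rw [reverse_reverse, take_spec]; exact hp
  · have : x ∈ p.support ↔ x ∈ ((p.takeUntil c hc').append (p.dropUntil c hc')).support := by
      rw [take_spec]
    rw [Set.mem_ofPred_eq, this, mem_support_append_iff, support_reverse, List.mem_reverse]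

theorem SB_end_of_half {c a : B} (q : T.Walk c a) (hq : q.IsPath) {x : B} (hx : x ∈ q.support)
    (hxc : x ≠ c) : SB T c a x := by
  classical
  have h1 : q.reverse.IsPath := hq.reverse
  have hx' : x ∈ q.reverse.support := by simpa using hx
  exact ⟨q.reverse.takeUntil x hx', Walk.endpoint_notMem_support_takeUntil h1 hx' hxc.symm⟩

/-- Among three nodes of a subpath through `c`, two are in the same branch at `c`. -/
theorem IsSubpath.three {S : Set B} (hS : IsSubpath T S) {c : B} (hc : c ∈ S) {x y z : B}
    (hx : x ∈ S) (hy : y ∈ S) (hz : z ∈ S) (hxc : x ≠ c) (hyc : y ≠ c) (hzc : z ≠ c) :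
    SB T c x y ∨ SB T c x z ∨ SB T c y z := by
  obtain ⟨a, b, q, r, hp, hmem⟩ := hS.halves hc
  have hq : q.IsPath := by
    have := hp.of_append_left
    rwa [isPath_reverse_iff] at this
  have hr : r.IsPath := hp.of_append_right
  have key : ∀ u, u ∈ S → u ≠ c → SB T c a u ∨ SB T c b u := by
    intro u hu huc
    rcases (hmem u).1 hu with h | h
    · exact Or.inl (SB_end_of_half q hq h huc)
    · exact Or.inr (SB_end_of_half r hr h huc)
  rcases key x hx hxc with h1 | h1 <;> rcases key y hy hyc with h2 | h2 <;>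
    rcases key z hz hzc with h3 | h3
  · exact Or.inl (h1.symm.trans h2)
  · exact Or.inl (h1.symm.trans h2)
  · exact Or.inr (Or.inl (h1.symm.trans h3))
  · exact Or.inr (Or.inr (h2.symm.trans h3))
  · exact Or.inr (Or.inr (h2.symm.trans h3))
  · exact Or.inr (Or.inl (h1.symm.trans h3))
  · exact Or.inl (h1.symm.trans h2)
  · exact Or.inl (h1.symm.trans h2)

/-- On a path starting in `c`, of two nodes one separates the other one from `c`. -/
theorem sep_or_sep (hT : T.IsAcyclic) {c a : B} (q : T.Walk c a) (hq : q.IsPath) {x y : B}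
    (hx : x ∈ q.support) (hy : y ∈ q.support) : Sep T x c y ∨ Sep T y c x := by
  classical
  have hx' : x ∈ ((q.takeUntil y hy).append (q.dropUntil y hy)).support := by
    rw [take_spec]; exact hx
  rcases (mem_support_append_iff _ _).1 hx' with h | h
  · exact Or.inl (sep_of_path hT _ (hq.takeUntil hy) h)
  · right
    have h1 : (((q.takeUntil y hy).append ((q.dropUntil y hy).takeUntil x h)).append
        ((q.dropUntil y hy).dropUntil x h)).IsPath := by
      rw [← append_assoc, take_spec, take_spec]; exact hq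
    have h2 := h1.of_append_left
    exact sep_of_path hT _ h2 ((mem_support_append_iff _ _).2 (Or.inl (end_mem_support _)))

/-- If two nodes of a subpath through `c` are in the same branch at `c`, then one of them
separates the other one from `c`. -/
theorem IsSubpath.sep {S : Set B} (hT : T.IsAcyclic) (hS : IsSubpath T S) {c : B} (hc : c ∈ S)
    {x y : B} (hx : x ∈ S) (hy : y ∈ S) (h : SB T c x y) : Sep T x c y ∨ Sep T y c x := by
  classical
  obtain ⟨a, b, q, r, hp, hmem⟩ := hS.halves hc
  have hq : q.IsPath := by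
    have := hp.of_append_left
    rwa [isPath_reverse_iff] at this
  have hr : r.IsPath := hp.of_append_right
  -- a node of the first half and a node of the second half are separated by `c`
  have cross : ∀ u v, u ∈ q.support → v ∈ r.support → Sep T c u v := by
    intro u v hu hv
    have hu' : u ∈ q.reverse.support := by simpa using hu
    have h1 : ((q.reverse.takeUntil u hu').append (((q.reverse.dropUntil u hu').append
        (r.takeUntil v hv)).append (r.dropUntil v hv))).IsPath := by
      rw [← append_assoc, take_spec, append_assoc, take_spec]; exact hp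
    have h2 := h1.of_append_right.of_append_left
    exact sep_of_path hT _ h2 ((mem_support_append_iff _ _).2 (Or.inl (end_mem_support _)))
  rcases (hmem x).1 hx with h1 | h1 <;> rcases (hmem y).1 hy with h2 | h2
  · exact sep_or_sep hT q hq h1 h2
  · exact absurd h (not_SB_of_sep (cross x y h1 h2))
  · exact absurd h.symm (not_SB_of_sep (cross y x h2 h1))
  · exact sep_or_sep hT r hr h1 h2

section

variable {V : Type} {G : SimpleGraph V} {R : V → Set B} (hR : IsPathRep G T R)

include hR

/-- The nestedness lemma: if `u`, `u'` are not adjacent, avoid `c`, have a common neighbour `v`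
through `c`, and are in the same branch at `c`, then one of the neighbourhoods within the set of
vertices through `c` contains the other one. -/
theorem IsPathRep.nested {c : B} {u u' v : V} (huu' : u ≠ u') (hadj : ¬ G.Adj u u')
    (hcu : c ∉ R u) (hcu' : c ∉ R u') (hvc : c ∈ R v) (hvu : G.Adj v u) (hvu' : G.Adj v u')
    {x x' : B} (hx : x ∈ R u) (hx' : x' ∈ R u') (h : SB T c x x') :
    (∀ v', c ∈ R v' → G.Adj v' u' → G.Adj v' u) ∨ (∀ v', c ∈ R v' → G.Adj v' u → G.Adj v' u') := by
  have hT := hR.isTree.isAcyclic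
  obtain ⟨y, hyv, hyu⟩ := (hR.inter_iff v u hvu.ne).2 hvu
  obtain ⟨y', hyv', hyu'⟩ := (hR.inter_iff v u' hvu'.ne).2 hvu'
  have hyy : SB T c y y' :=
    ((hR.isSubpath u).sameBranch hcu hyu hx).trans (h.trans ((hR.isSubpath u').sameBranch hcu' hx' hyu'))
  have key : ∀ (u u' : V) (y y' : B), u ≠ u' → ¬ G.Adj u u' → c ∉ R u → y ∈ R u → y' ∈ R u' →
      Sep T y c y' → ∀ v', c ∈ R v' → G.Adj v' u' → G.Adj v' u := by
    intro u u' y y' hne hnadj hcu hyu hyu' hsep v' hv' hadj'
    obtain ⟨z, hzv, hzu'⟩ := (hR.inter_iff v' u' hadj'.ne).2 hadj'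
    obtain ⟨w1, hw1⟩ := (hR.isSubpath v').walk hv' hzv
    obtain ⟨w2, hw2⟩ := (hR.isSubpath u').walk hzu' hyu'
    have hyy := hsep (w1.append w2)
    have hdisj : ¬ (R u ∩ R u').Nonempty := fun hh => hnadj ((hR.inter_iff u u' hne).1 hh)
    rcases (mem_support_append_iff _ _).1 hyy with h1 | h1
    · have hyv' := hw1 _ h1
      have hne' : v' ≠ u := by
        rintro rfl
        exact hcu hv'
      exact (hR.inter_iff v' u hne').1 ⟨y, hyv', hyu⟩
    · exact absurd ⟨y, hyu, hw2 _ h1⟩ hdisj
  rcases (hR.isSubpath v).sep hT hvc hyv hyv' hyy with hs | hs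
  · exact Or.inl (key u u' y y' huu' hadj hcu hyu hyu' hs)
  · exact Or.inr (key u' u y' y huu'.symm (fun h => hadj h.symm) hcu' hyu' hyu hs)

end

end Pool.Agent.Helper81.PathExt
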