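import Pool.Agent.Helper81.PathExtGadget

/-!
The reduction from 3-colourability to `REPEXT(PATH, BOTH)`.
-/

namespace Pool.Agent.Helper81.PathExt

open SimpleGraph Walk

/-- Vertices of the gadget graph. -/
inductive GV (V : Type) : Type
  | w : GV V
  | e (i j : V) : GV V
  | p (i : V) (k : Fin 3) : GV V
  | M (i : V) : GV V
  | a (i : V) : GV V
  | b (i : V) : GV V
  | t (i : V) (k : Fin 3) : GV V

/-- Half of the adjacency relation of the gadget graph. -/
def GV.rel {V : Type} (H : SimpleGraph V) : GV V → GV V → Prop
  | .e _ _, .e _ _ => True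
  | .e _ _, .p _ _ => True
  | .p _ _, .p _ _ => True
  | .w, .e _ _ => True
  | .w, .p _ _ => True
  | .M i, .e i' j' => H.Adj i' j' ∧ (i = i' ∨ i = j')
  | .M i, .p i' _ => i = i'
  | .a i, .p i' k => i = i' ∧ k ≠ 2
  | .b i, .p i' k => i = i' ∧ k ≠ 0
  | .t i k, .p i' k' => i = i' ∧ k = k'
  | _, _ => False

/-- The gadget graph. -/
def gadget {V : Type} (H : SimpleGraph V) : SimpleGraph (GV V) := SimpleGraph.fromRel (GV.rel H)

/-- Nodes of the given tree. -/
inductive TN (V : Type) : Type
  | c : TN V
  | d (k : Fin 3) : TN V
  | l (k : Fin 3) (i : V) : TN V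

/-- The given tree as a rooted tree. -/
def givenTree (V : Type) : RootedTree (TN V) where
  root := .c
  parent
    | .c => .c
    | .d _ => .c
    | .l k _ => .d k
  depth
    | .c => 0
    | .d _ => 1
    | .l _ _ => 2
  parent_root := rfl
  depth_parent := by
    intro x hx
    cases x with
    | c => exact absurd rfl hx
    | d k => exact Nat.zero_lt_one
    | l k i => exact Nat.one_lt_two

/-- The pre-drawn vertices. -/
def preV (V : Type) : Set (GV V) := {v | v = .w ∨ ∃ i k, v = .t i k}

/-- The pre-drawn sets. -/
def repV {V : Type} : GV V → Set (TN V)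
  | .w => {.c}
  | .t i k => {.l k i}
  | _ => ∅

/-- The partial representation of the gadget graph. -/
def gadgetRep {V : Type} [Finite V] (H : SimpleGraph V) : PartialRep (gadget H) where
  A := TN V
  finite := by
    let f : TN V → Option (Fin 3 ⊕ Fin 3 × V) := fun
      | .c => none
      | .d k => some (Sum.inl k)
      | .l k i => some (Sum.inr (k, i))
    apply Finite.of_injective f
    intro x y h
    cases x <;> cases y <;> simp_all [f]
  tree := (givenTree V).graph
  pre := preV V
  rep := repV
  isRep := by
    refine ⟨(givenTree V).isTree, ?_, ?_⟩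
    · rintro ⟨v, hv⟩
      rcases hv with rfl | ⟨i, k, rfl⟩
      · exact (givenTree V).isSubpath_singleton _
      · exact (givenTree V).isSubpath_singleton _
    · rintro ⟨u, hu⟩ ⟨v, hv⟩ huv
      have huv' : u ≠ v := fun h => huv (Subtype.ext h)
      rcases hu with rfl | ⟨i, k, rfl⟩ <;> rcases hv with rfl | ⟨i', k', rfl⟩
      · exact absurd rfl huv'
      · simp [repV, gadget, GV.rel]
      · simp [repV, gadget, GV.rel]
      · simp only [repV, gadget, GV.rel, comap_adj, Function.Embedding.subtype_apply,
          fromRel_adj, or_self, and_false, iff_false, Set.not_nonempty_iff_eq_empty]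
        ext z
        simp only [Set.mem_inter_iff, Set.mem_singleton_iff, Set.mem_empty_iff_false, iff_false,
          not_and]
        rintro rfl h
        injection h with h1 h2
        exact huv' (by rw [h1, h2])

/-! ### From an extension to a colouring -/

theorem isPath_append {B : Type} {T : SimpleGraph B} {x c y : B} {p : T.Walk x c}
    {q : T.Walk c y} (hp : p.IsPath) (hq : q.IsPath)
    (h : ∀ z, z ∈ p.support → z ∈ q.support → z = c) : (p.append q).IsPath := by
  rw [isPath_def, support_append]
  have hqn : q.support.Nodup := (isPath_def _).1 hq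
  have hcons : q.support = c :: q.support.tail := by
    rw [← cons_tail_support q]; rfl
  rw [List.nodup_append']
  refine ⟨(isPath_def _).1 hp, ?_, ?_⟩
  · rw [hcons] at hqn
    exact (List.nodup_cons.1 hqn).2
  · intro z hz hz'
    have hroot := h z hz (List.mem_of_mem_tail hz')
    rw [hcons] at hqn
    exact (List.nodup_cons.1 hqn).1 (hroot ▸ hz')

theorem SubdivIn.image_singleton {A B : Type} {T' : SimpleGraph A} {T : SimpleGraph B}
    (m : SubdivIn T' T) (x : A) : m.image {x} = {m.node x} := by
  ext z
  simp only [SubdivIn.image, Set.image_singleton, Set.mem_union, Set.mem_singleton_iff,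
    Set.mem_ofPred_eq]
  constructor
  · rintro (h | ⟨y, y', h, rfl, rfl, _⟩)
    · exact h
    · exact absurd rfl h.ne
  · intro h; exact Or.inl h

theorem IsSubpath.nonempty {B : Type} {T : SimpleGraph B} {S : Set B} (hS : IsSubpath T S) :
    S.Nonempty := by
  obtain ⟨a, b, p, _, rfl⟩ := hS
  exact ⟨a, p.start_mem_support⟩

theorem colorable_of_extendable {V : Type} [Finite V] (H : SimpleGraph V)
    (h : Extendable (gadget H) (gadgetRep H)) : H.Colorable 3 := by
  classical
  obtain ⟨B, _, T, m, R, hR, hpre⟩ := h
  have hT := hR.isTree.isAcyclic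
  let c : B := m.node (.c : TN V)
  let dn : Fin 3 → B := fun k => m.node (.d k : TN V)
  have hRw : R .w = {c} := by
    rw [hpre .w (Or.inl rfl)]; exact m.image_singleton _
  have hRt : ∀ i k, R (.t i k) = {m.node (.l k i : TN V)} := by
    intro i k
    rw [hpre (.t i k) (Or.inr ⟨i, k, rfl⟩)]; exact m.image_singleton _
  -- vertices adjacent to `w` pass through `c`, the others avoid it
  have hin : ∀ v, (gadget H).Adj .w v → c ∈ R v := by
    intro v hv
    obtain ⟨z, hz, hz'⟩ := (hR.inter_iff _ _ hv.ne).2 hv
    rw [hRw] at hz
    rwa [Set.mem_singleton_iff.1 hz] at hz'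
  have hout : ∀ v, v ≠ .w → ¬ (gadget H).Adj .w v → c ∉ R v := by
    intro v hvw hv hc
    exact hv ((hR.inter_iff _ _ hvw.symm).1 ⟨c, by rw [hRw]; rfl, hc⟩)
  choose pt hpt using fun v => (hR.isSubpath v).nonempty
  have three : ∀ v u1 u2 u3, c ∈ R v → c ∉ R u1 → c ∉ R u2 → c ∉ R u3 →
      (gadget H).Adj v u1 → (gadget H).Adj v u2 → (gadget H).Adj v u3 →
      SB T c (pt u1) (pt u2) ∨ SB T c (pt u1) (pt u3) ∨ SB T c (pt u2) (pt u3) := by
    intro v u1 u2 u3 hv h1 h2 h3 a1 a2 a3
    obtain ⟨x1, y1, z1⟩ := (hR.inter_iff _ _ a1.ne).2 a1
    obtain ⟨x2, y2, z2⟩ := (hR.inter_iff _ _ a2.ne).2 a2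
    obtain ⟨x3, y3, z3⟩ := (hR.inter_iff _ _ a3.ne).2 a3
    have s1 := (hR.isSubpath u1).sameBranch h1 z1 (hpt u1)
    have s2 := (hR.isSubpath u2).sameBranch h2 z2 (hpt u2)
    have s3 := (hR.isSubpath u3).sameBranch h3 z3 (hpt u3)
    rcases (hR.isSubpath v).three hv y1 y2 y3 (fun h => h1 (h ▸ z1)) (fun h => h2 (h ▸ z2))
      (fun h => h3 (h ▸ z3)) with h | h | h
    · exact Or.inl (s1.symm.trans (h.trans s2))
    · exact Or.inr (Or.inl (s1.symm.trans (h.trans s3)))
    · exact Or.inr (Or.inr (s2.symm.trans (h.trans s3)))
  -- the branch of `t i k`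
  have hcd : ∀ k : Fin 3, (givenTree V).graph.Adj (.d k) .c := fun k => ⟨by simp, Or.inl rfl⟩
  have hld : ∀ (k : Fin 3) (i : V), (givenTree V).graph.Adj (.l k i) (.d k) :=
    fun k i => ⟨by simp, Or.inl rfl⟩
  have ht : ∀ i k, SB T c (pt (.t i k)) (dn k) := by
    intro i k
    have h1 : pt (.t i k) = m.node (.l k i : TN V) := by
      have := hpt (.t i k)
      rwa [hRt i k] at this
    rw [h1]
    refine ⟨m.path (hld k i), fun hc => ?_⟩
    rcases m.node_mem (hld k i) .c hc with h | h <;> cases h
  have hdd : ∀ k k', k ≠ k' → ¬ SB T c (dn k) (dn k') := by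
    intro k k' hkk
    apply not_SB_of_sep
    refine sep_of_path hT ((m.path (hcd k)).append (m.path (hcd k').symm))
      (isPath_append (m.isPath _) (m.isPath _) fun z hz hz' => ?_)
      ((mem_support_append_iff _ _).2 (Or.inl (end_mem_support _)))
    have hne : s((.d k : TN V), .c) ≠ s(.c, .d k') := by
      simp [hkk]
    obtain ⟨x, rfl⟩ := m.disj _ _ hne z hz hz'
    rcases m.node_mem _ x hz with rfl | rfl
    · rcases m.node_mem _ _ hz' with h | h
      · cases h
      · injection h with h; exact absurd h hkk
    · rfl
  have htt : ∀ i k i' k', k ≠ k' → ¬ SB T c (pt (.t i k)) (pt (.t i' k')) := by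
    intro i k i' k' hkk hs
    exact hdd k k' hkk ((ht i k).symm.trans (hs.trans (ht i' k')))
  have hp : ∀ i k, c ∈ R (.p i k) := fun i k => hin _ (by simp [gadget, GV.rel])
  have hM : ∀ i, c ∉ R (.M i) := fun i => hout _ (by simp) (by simp [gadget, GV.rel])
  have ha : ∀ i, c ∉ R (.a i) := fun i => hout _ (by simp) (by simp [gadget, GV.rel])
  have hb : ∀ i, c ∉ R (.b i) := fun i => hout _ (by simp) (by simp [gadget, GV.rel])
  have htc : ∀ i k, c ∉ R (.t i k) := fun i k => hout _ (by simp) (by simp [gadget, GV.rel])
  -- `M i` is in one of the three branches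
  have hcol : ∀ i, ∃ k, SB T c (pt (.M i)) (dn k) := by
    intro i
    by_contra hno
    push Not at hno
    have hno' : ∀ k, ¬ SB T c (pt (.t i k)) (pt (.M i)) :=
      fun k hs => hno k (hs.symm.trans (ht i k))
    have p0 := three (.p i 0) (.t i 0) (.M i) (.a i) (hp i 0) (htc i 0) (hM i) (ha i)
      (by simp [gadget, GV.rel]) (by simp [gadget, GV.rel]) (by simp [gadget, GV.rel])
    have p1 := three (.p i 1) (.t i 1) (.M i) (.a i) (hp i 1) (htc i 1) (hM i) (ha i)
      (by simp [gadget, GV.rel]) (by simp [gadget, GV.rel]) (by simp [gadget, GV.rel])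
    have p1' := three (.p i 1) (.t i 1) (.M i) (.b i) (hp i 1) (htc i 1) (hM i) (hb i)
      (by simp [gadget, GV.rel]) (by simp [gadget, GV.rel]) (by simp [gadget, GV.rel])
    have p2 := three (.p i 2) (.t i 2) (.M i) (.b i) (hp i 2) (htc i 2) (hM i) (hb i)
      (by simp [gadget, GV.rel]) (by simp [gadget, GV.rel]) (by simp [gadget, GV.rel])
    have hMa : SB T c (pt (.M i)) (pt (.a i)) := by
      rcases p0 with h | h | h
      · exact absurd h (hno' 0)
      · rcases p1 with h' | h' | h'
        · exact absurd h' (hno' 1)
        · exact absurd (h.trans h'.symm) (htt i 0 i 1 (by decide))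
        · exact h'
      · exact h
    have hMb : SB T c (pt (.M i)) (pt (.b i)) := by
      rcases p1' with h | h | h
      · exact absurd h (hno' 1)
      · rcases p2 with h' | h' | h'
        · exact absurd h' (hno' 2)
        · exact absurd (h.trans h'.symm) (htt i 1 i 2 (by decide))
        · exact h'
      · exact h
    have hab := hMa.symm.trans hMb
    rcases hR.nested (u := .a i) (u' := .b i) (v := .p i 1) (by simp) (by simp [gadget, GV.rel])
      (ha i) (hb i) (hp i 1) (by simp [gadget, GV.rel]) (by simp [gadget, GV.rel])
      (hpt _) (hpt _) hab with h | h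
    · have := h (.p i 2) (hp i 2) (by simp [gadget, GV.rel])
      simp [gadget, GV.rel] at this
    · have := h (.p i 0) (hp i 0) (by simp [gadget, GV.rel])
      simp [gadget, GV.rel] at this
  choose col hcol using hcol
  refine ⟨SimpleGraph.Coloring.mk col fun {i j} hij heq => ?_⟩
  have hs : SB T c (pt (.M i)) (pt (.M j)) := by
    have := hcol i
    rw [heq] at this
    exact this.trans (hcol j).symm
  have hce : c ∈ R (.e i j) := hin _ (by simp [gadget, GV.rel])
  rcases hR.nested (u := .M i) (u' := .M j) (v := .e i j) (by simp [hij.ne])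
    (by simp [gadget, GV.rel]) (hM i) (hM j) hce (by simp [gadget, GV.rel, hij])
    (by simp [gadget, GV.rel, hij]) (hpt _) (hpt _) hs with h | h
  · have := h (.p j 0) (hp j 0) (by simp [gadget, GV.rel])
    simp [gadget, GV.rel] at this
    exact hij.ne this
  · have := h (.p i 0) (hp i 0) (by simp [gadget, GV.rel])
    simp [gadget, GV.rel] at this
    exact hij.ne this.symm

/-! ### From a colouring to an extension -/

/-- Nodes of the final tree. -/
inductive FN (V : Type) : Type
  | c : FN V
  | d (k : Fin 3) : FN V
  | x (k : Fin 3) (i : V) : FN V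
  | y (k : Fin 3) (i : V) : FN V
  | z (k : Fin 3) (i : V) : FN V
  | l (k : Fin 3) (i : V) : FN V

/-- The final tree as a rooted tree. -/
def finalTree (V : Type) : RootedTree (FN V) where
  root := .c
  parent
    | .c => .c
    | .d _ => .c
    | .x k _ => .d k
    | .y k i => .x k i
    | .z k i => .x k i
    | .l k i => .y k i
  depth
    | .c => 0
    | .d _ => 1
    | .x _ _ => 2
    | .y _ _ => 3
    | .z _ _ => 3
    | .l _ _ => 4
  parent_root := rfl
  depth_parent := by
    intro x hx
    cases x with
    | c => exact absurd rfl hx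
    | d k => exact Nat.lt_succ_self _
    | x k i => exact Nat.lt_succ_self _
    | y k i => exact Nat.lt_succ_self _
    | z k i => exact Nat.lt_succ_self _
    | l k i => exact Nat.lt_succ_self _

/-- The ancestors of a node. -/
def FN.anc {V : Type} : FN V → Set (FN V)
  | .c => {.c}
  | .d k => {.d k, .c}
  | .x k i => {.x k i, .d k, .c}
  | .y k i => {.y k i, .x k i, .d k, .c}
  | .z k i => {.z k i, .x k i, .d k, .c}
  | .l k i => {.l k i, .y k i, .x k i, .d k, .c}

theorem FN.anc_root {V : Type} : FN.anc (finalTree V).root = {(finalTree V).root} := rfl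

theorem FN.anc_succ {V : Type} (x : FN V) (hx : x ≠ (finalTree V).root) :
    FN.anc x = insert x (FN.anc ((finalTree V).parent x)) := by
  cases x with
  | c => exact absurd rfl hx
  | d k => rfl
  | x k i => rfl
  | y k i => rfl
  | z k i => rfl
  | l k i => rfl

/-- The branch (colour) of a node, `none` for the centre. -/
def FN.br {V : Type} : FN V → Option (Fin 3)
  | .c => none
  | .d k => some k
  | .x k _ => some k
  | .y k _ => some k
  | .z k _ => some k
  | .l k _ => some k

theorem FN.br_of_mem_anc {V : Type} {x z : FN V} (h : z ∈ FN.anc x) : z = .c ∨ z.br = x.br := by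
  cases x <;> simp only [FN.anc, Set.mem_insert_iff, Set.mem_singleton_iff] at h
  · exact Or.inl h
  · rcases h with rfl | rfl <;> simp [FN.br]
  · rcases h with rfl | rfl | rfl <;> simp [FN.br]
  · rcases h with rfl | rfl | rfl | rfl <;> simp [FN.br]
  · rcases h with rfl | rfl | rfl | rfl <;> simp [FN.br]
  · rcases h with rfl | rfl | rfl | rfl | rfl <;> simp [FN.br]

theorem FN.isSubpath {V : Type} (x y : FN V) (hxy : x.br ≠ y.br) :
    IsSubpath (finalTree V).graph (FN.anc x ∪ FN.anc y) := by
  refine (finalTree V).isSubpath_union FN.anc FN.anc_root FN.anc_succ x y fun z hz hz' => ?_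
  rcases FN.br_of_mem_anc hz with h | h
  · exact h
  · rcases FN.br_of_mem_anc hz' with h' | h'
    · exact h'
    · exact absurd (h.symm.trans h') hxy

/-- The two ends of the path of `p i k` when `i` has colour `α`. -/
def endsP {V : Type} (α : Fin 3) (i : V) (k : Fin 3) : FN V × FN V :=
  match α, k with
  | 0, 0 => (.l 0 i, .y 1 i)
  | 0, 1 => (.l 1 i, .z 0 i)
  | 0, 2 => (.l 2 i, .z 0 i)
  | 1, 0 => (.l 0 i, .x 1 i)
  | 1, 1 => (.l 1 i, .y 0 i)
  | 1, 2 => (.l 2 i, .y 1 i)
  | 2, 0 => (.l 0 i, .z 2 i)
  | 2, 1 => (.l 1 i, .z 2 i)
  | 2, 2 => (.l 2 i, .y 1 i)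

/-- The node hosting `a i` when `i` has colour `α`. -/
def hostA {V : Type} (α : Fin 3) (i : V) : FN V :=
  match α with
  | 0 => .y 1 i
  | 1 => .y 0 i
  | 2 => .z 2 i

/-- The node hosting `b i` when `i` has colour `α`. -/
def hostB {V : Type} (α : Fin 3) (i : V) : FN V :=
  match α with
  | 0 => .z 0 i
  | 1 => .y 1 i
  | 2 => .y 1 i

open Classical in
/-- The representation of the gadget graph given by a colouring `col` of `H`. -/
noncomputable def repF {V : Type} (H : SimpleGraph V) (col : V → Fin 3) : GV V → Set (FN V)
  | .w => {.c}
  | .e i j => if H.Adj i j then FN.anc (.x (col i) i) ∪ FN.anc (.x (col j) j) else {.c}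
  | .p i k => FN.anc (endsP (col i) i k).1 ∪ FN.anc (endsP (col i) i k).2
  | .M i => {.x (col i) i}
  | .a i => {hostA (col i) i}
  | .b i => {hostB (col i) i}
  | .t i k => {.l k i}

theorem endsP_br {V : Type} (α : Fin 3) (i : V) (k : Fin 3) :
    (endsP α i k).1.br ≠ (endsP α i k).2.br := by
  fin_cases α <;> fin_cases k <;> simp [endsP, FN.br]

theorem repF_isSubpath {V : Type} (H : SimpleGraph V) (col : V → Fin 3)
    (hcol : ∀ i j, H.Adj i j → col i ≠ col j) (v : GV V) :
    IsSubpath (finalTree V).graph (repF H col v) := by
  cases v with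
  | w => exact (finalTree V).isSubpath_singleton _
  | e i j =>
    simp only [repF]
    split_ifs with h
    · exact FN.isSubpath _ _ (by simp [FN.br, hcol i j h])
    · exact (finalTree V).isSubpath_singleton _
  | p i k => exact FN.isSubpath _ _ (endsP_br _ _ _)
  | M i => exact (finalTree V).isSubpath_singleton _
  | a i => exact (finalTree V).isSubpath_singleton _
  | b i => exact (finalTree V).isSubpath_singleton _
  | t i k => exact (finalTree V).isSubpath_singleton _

/-- the clique vertices. -/
def GV.isC {V : Type} : GV V → Prop
  | .e _ _ => True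
  | .p _ _ => True
  | _ => False

/-- the host node of a non-clique vertex. -/
def GV.host {V : Type} (col : V → Fin 3) : GV V → FN V
  | .w => .c
  | .M i => .x (col i) i
  | .a i => hostA (col i) i
  | .b i => hostB (col i) i
  | .t i k => .l k i
  | _ => .c

theorem c_mem_anc {V : Type} (x : FN V) : (.c : FN V) ∈ FN.anc x := by
  cases x <;> simp [FN.anc]

theorem repF_clique {V : Type} (H : SimpleGraph V) (col : V → Fin 3) {v : GV V} (hv : v.isC) :
    (.c : FN V) ∈ repF H col v := by
  cases v with
  | e i j =>
    simp only [repF]
    split_ifs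
    · exact Or.inl (c_mem_anc _)
    · rfl
  | p i k => exact Or.inl (c_mem_anc _)
  | _ => exact absurd hv id

theorem repF_host {V : Type} (H : SimpleGraph V) (col : V → Fin 3) {v : GV V} (hv : ¬ v.isC) :
    repF H col v = {v.host col} := by
  cases v with
  | e i j => exact absurd trivial hv
  | p i k => exact absurd trivial hv
  | _ => rfl

theorem host_inj {V : Type} (col : V → Fin 3) {u v : GV V} (hu : ¬ u.isC) (hv : ¬ v.isC)
    (h : u.host col = v.host col) : u = v := by
  cases u with
  | e i j => exact absurd trivial hu
  | p i k => exact absurd trivial hu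
  | w =>
    cases v with
    | e i j => exact absurd trivial hv
    | p i k => exact absurd trivial hv
    | w => rfl
    | M i => simp [GV.host] at h
    | t i k => simp [GV.host] at h
    | a i =>
      exfalso; revert h; simp only [GV.host]; generalize col i = α
      fin_cases α <;> simp [hostA]
    | b i =>
      exfalso; revert h; simp only [GV.host]; generalize col i = α
      fin_cases α <;> simp [hostB]
  | M j =>
    cases v with
    | e i j => exact absurd trivial hv
    | p i k => exact absurd trivial hv
    | w => simp [GV.host] at h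
    | M i =>
      simp only [GV.host, FN.x.injEq] at h
      rw [h.2]
    | t i k => simp [GV.host] at h
    | a i =>
      exfalso; revert h; simp only [GV.host]; generalize col i = α
      fin_cases α <;> simp [hostA]
    | b i =>
      exfalso; revert h; simp only [GV.host]; generalize col i = α
      fin_cases α <;> simp [hostB]
  | t j k' =>
    cases v with
    | e i j => exact absurd trivial hv
    | p i k => exact absurd trivial hv
    | w => simp [GV.host] at h
    | M i => simp [GV.host] at h
    | t i k =>
      simp only [GV.host, FN.l.injEq] at h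
      rw [h.1, h.2]
    | a i =>
      exfalso; revert h; simp only [GV.host]; generalize col i = α
      fin_cases α <;> simp [hostA]
    | b i =>
      exfalso; revert h; simp only [GV.host]; generalize col i = α
      fin_cases α <;> simp [hostB]
  | a j =>
    cases v with
    | e i j => exact absurd trivial hv
    | p i k => exact absurd trivial hv
    | w =>
      exfalso; revert h; simp only [GV.host]; generalize col j = α
      fin_cases α <;> simp [hostA]
    | M i =>
      exfalso; revert h; simp only [GV.host]; generalize col j = α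
      fin_cases α <;> simp [hostA]
    | t i k =>
      exfalso; revert h; simp only [GV.host]; generalize col j = α
      fin_cases α <;> simp [hostA]
    | a i =>
      revert h; simp only [GV.host]
      generalize col j = α; generalize col i = β
      fin_cases α <;> fin_cases β <;> simp [hostA]
    | b i =>
      exfalso; revert h; simp only [GV.host]
      by_cases hij : j = i
      · subst hij
        generalize col j = α
        fin_cases α <;> simp [hostA, hostB]
      · generalize col j = α; generalize col i = β
        fin_cases α <;> fin_cases β <;> simp [hostA, hostB, hij]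
  | b j =>
    cases v with
    | e i j => exact absurd trivial hv
    | p i k => exact absurd trivial hv
    | w =>
      exfalso; revert h; simp only [GV.host]; generalize col j = α
      fin_cases α <;> simp [hostB]
    | M i =>
      exfalso; revert h; simp only [GV.host]; generalize col j = α
      fin_cases α <;> simp [hostB]
    | t i k =>
      exfalso; revert h; simp only [GV.host]; generalize col j = α
      fin_cases α <;> simp [hostB]
    | b i =>
      revert h; simp only [GV.host]
      generalize col j = α; generalize col i = β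
      fin_cases α <;> fin_cases β <;> simp [hostB]
    | a i =>
      exfalso; revert h; simp only [GV.host]
      by_cases hij : j = i
      · subst hij
        generalize col j = α
        fin_cases α <;> simp [hostA, hostB]
      · generalize col j = α; generalize col i = β
        fin_cases α <;> fin_cases β <;> simp [hostA, hostB, hij]

/-- The incidence between clique vertices and the hosts of the other vertices. -/
theorem host_mem_iff {V : Type} (H : SimpleGraph V) (col : V → Fin 3) {u v : GV V}
    (hu : ¬ u.isC) (hv : v.isC) :
    u.host col ∈ repF H col v ↔ (gadget H).Adj u v := by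
  cases v with
  | e i j =>
    by_cases hij : H.Adj i j
    · cases u with
      | e _ _ => exact absurd trivial hu
      | p _ _ => exact absurd trivial hu
      | w => simp [GV.host, repF, hij, FN.anc, gadget, GV.rel]
      | M i' =>
        simp only [GV.host, repF, hij, if_true, FN.anc, gadget, GV.rel, fromRel_adj, true_and,
          Set.mem_union, Set.mem_insert_iff, Set.mem_singleton_iff, FN.x.injEq, reduceCtorEq,
          or_false, ne_eq, not_false_eq_true]
        constructor
        · rintro (h | h)
          · exact Or.inl h.2
          · exact Or.inr h.2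
        · rintro (rfl | rfl)
          · exact Or.inl ⟨rfl, rfl⟩
          · exact Or.inr ⟨rfl, rfl⟩
      | a i' =>
        simp only [GV.host, repF, hij, if_true]
        generalize col i' = α
        fin_cases α <;> simp [hostA, FN.anc, gadget, GV.rel]
      | b i' =>
        simp only [GV.host, repF, hij, if_true]
        generalize col i' = α
        fin_cases α <;> simp [hostB, FN.anc, gadget, GV.rel]
      | t i' k => simp [GV.host, repF, hij, FN.anc, gadget, GV.rel]
    · cases u with
      | e _ _ => exact absurd trivial hu
      | p _ _ => exact absurd trivial hu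
      | w => simp [GV.host, repF, hij, gadget, GV.rel]
      | M i' => simp [GV.host, repF, hij, gadget, GV.rel]
      | a i' =>
        simp only [GV.host, repF, hij, if_false]
        generalize col i' = α
        fin_cases α <;> simp [hostA, gadget, GV.rel]
      | b i' =>
        simp only [GV.host, repF, hij, if_false]
        generalize col i' = α
        fin_cases α <;> simp [hostB, gadget, GV.rel]
      | t i' k => simp [GV.host, repF, hij, gadget, GV.rel]
  | p i k =>
    by_cases hne : ∃ i', (u = .M i' ∨ u = .a i' ∨ u = .b i' ∨ ∃ k', u = .t i' k') ∧ i' ≠ i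
    · obtain ⟨i', hu', hii⟩ := hne
      have h1 : ¬ (gadget H).Adj u (.p i k) := by
        rcases hu' with rfl | rfl | rfl | ⟨k', rfl⟩ <;> simp [gadget, GV.rel, hii]
      refine iff_of_false ?_ h1
      simp only [repF]
      rcases hu' with rfl | rfl | rfl | ⟨k', rfl⟩
      · simp only [GV.host]
        generalize col i' = β; generalize col i = α
        fin_cases α <;> fin_cases k <;> simp [endsP, FN.anc, hii]
      · simp only [GV.host]
        generalize col i' = β; generalize col i = α
        fin_cases α <;> fin_cases k <;> fin_cases β <;> simp [endsP, FN.anc, hostA, hii]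
      · simp only [GV.host]
        generalize col i' = β; generalize col i = α
        fin_cases α <;> fin_cases k <;> fin_cases β <;> simp [endsP, FN.anc, hostB, hii]
      · simp only [GV.host]
        generalize col i = α
        fin_cases α <;> fin_cases k <;> simp [endsP, FN.anc, hii]
    · push Not at hne
      cases u with
      | e _ _ => exact absurd trivial hu
      | p _ _ => exact absurd trivial hu
      | w =>
        simp only [GV.host, repF]
        exact iff_of_true (Or.inl (c_mem_anc _)) (by simp [gadget, GV.rel])
      | M i' =>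
        have := hne i' (Or.inl rfl); subst this
        simp only [GV.host, repF]
        generalize col i' = α
        fin_cases α <;> fin_cases k <;> simp [endsP, FN.anc, gadget, GV.rel]
      | a i' =>
        have := hne i' (Or.inr (Or.inl rfl)); subst this
        simp only [GV.host, repF]
        generalize col i' = α
        fin_cases α <;> fin_cases k <;> simp [endsP, FN.anc, hostA, gadget, GV.rel]
      | b i' =>
        have := hne i' (Or.inr (Or.inr (Or.inl rfl))); subst this
        simp only [GV.host, repF]
        generalize col i' = α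
        fin_cases α <;> fin_cases k <;> simp [endsP, FN.anc, hostB, gadget, GV.rel]
      | t i' k' =>
        have := hne i' (Or.inr (Or.inr (Or.inr ⟨k', rfl⟩))); subst this
        simp only [GV.host, repF]
        generalize col i' = α
        fin_cases α <;> fin_cases k <;> fin_cases k' <;>
          simp [endsP, FN.anc, gadget, GV.rel]
  | _ => exact absurd hv id

/-- The embedding of (a subdivision of) the given tree in the final tree. -/
def nodeMap {V : Type} : TN V → FN V
  | .c => .c
  | .d k => .d k
  | .l k i => .l k i

theorem fadj {V : Type} {x y : FN V} (h : x ≠ y) (hp : (finalTree V).parent x = y) :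
    (finalTree V).graph.Adj x y := ⟨h, Or.inl hp⟩

/-- The path `l k i – y k i – x k i – d k`. -/
def longPath {V : Type} (k : Fin 3) (i : V) :
    (finalTree V).graph.Walk (.l k i) (.d k) :=
  .cons (fadj (y := .y k i) (by simp) rfl) (.cons (fadj (y := .x k i) (by simp) rfl)
    (.cons (fadj (y := .d k) (by simp) rfl) .nil))

/-- The path `d k – c`. -/
def shortPath {V : Type} (k : Fin 3) : (finalTree V).graph.Walk (.d k) .c :=
  .cons (fadj (y := .c) (by simp) rfl) .nil

/-- The subdivided edges. -/
def segPath {V : Type} : (x y : TN V) → (givenTree V).graph.Adj x y →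
    (finalTree V).graph.Walk (nodeMap x) (nodeMap y)
  | .c, .c, h => absurd rfl h.1
  | .c, .d k, _ => (shortPath k).reverse
  | .c, .l k i, h => absurd h (by rintro ⟨_, h | h⟩ <;> cases h)
  | .d k, .c, _ => shortPath k
  | .d k, .d k', h => absurd h (by rintro ⟨_, h | h⟩ <;> cases h)
  | .d k, .l k' i, h => by
      have hk : k' = k := by
        obtain ⟨_, h | h⟩ := h
        · cases h
        · injection h
      subst hk
      exact (longPath k' i).reverse
  | .l k i, .c, h => absurd h (by rintro ⟨_, h | h⟩ <;> cases h)
  | .l k i, .d k', h => by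
      have hk : k = k' := by
        obtain ⟨_, h | h⟩ := h
        · injection h
        · cases h
      subst hk
      exact longPath k i
  | .l k i, .l k' i', h => absurd h (by rintro ⟨_, h | h⟩ <;> cases h)

theorem longPath_isPath {V : Type} (k : Fin 3) (i : V) : (longPath k i).IsPath := by
  rw [isPath_def]
  simp [longPath]

theorem shortPath_isPath {V : Type} (k : Fin 3) : (shortPath (V := V) k).IsPath := by
  rw [isPath_def]
  simp [shortPath]

theorem given_adj_cases {V : Type} {x y : TN V} (h : (givenTree V).graph.Adj x y) :
    (∃ k, x = .d k ∧ y = .c) ∨ (∃ k, x = .c ∧ y = .d k) ∨ (∃ k i, x = .l k i ∧ y = .d k) ∨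
      (∃ k i, x = .d k ∧ y = .l k i) := by
  cases x with
  | c =>
    cases y with
    | c => exact absurd rfl h.1
    | d k => exact Or.inr (Or.inl ⟨k, rfl, rfl⟩)
    | l k i => obtain ⟨_, h | h⟩ := h <;> cases h
  | d k =>
    cases y with
    | c => exact Or.inl ⟨k, rfl, rfl⟩
    | d k' => obtain ⟨_, h | h⟩ := h <;> cases h
    | l k' i =>
      obtain ⟨_, h | h⟩ := h
      · cases h
      · injection h with h; subst h; exact Or.inr (Or.inr (Or.inr ⟨_, i, rfl, rfl⟩))
  | l k i =>
    cases y with
    | c => obtain ⟨_, h | h⟩ := h <;> cases h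
    | d k' =>
      obtain ⟨_, h | h⟩ := h
      · injection h with h; subst h; exact Or.inr (Or.inr (Or.inl ⟨_, i, rfl, rfl⟩))
      · cases h
    | l k' i' => obtain ⟨_, h | h⟩ := h <;> cases h

/-- The subdivision of the given tree in the final tree. -/
def subdiv (V : Type) : SubdivIn (givenTree V).graph (finalTree V).graph where
  node := nodeMap
  node_inj := by
    intro x y h
    cases x <;> cases y <;> simp_all [nodeMap]
  path := fun {x y} h => segPath x y h
  isPath := by
    intro x y h
    rcases given_adj_cases h with ⟨k, rfl, rfl⟩ | ⟨k, rfl, rfl⟩ | ⟨k, i, rfl, rfl⟩ |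
      ⟨k, i, rfl, rfl⟩
    · exact shortPath_isPath k
    · exact (shortPath_isPath k).reverse
    · exact longPath_isPath k i
    · exact (longPath_isPath k i).reverse
  support_symm := by
    intro x y h
    rcases given_adj_cases h with ⟨k, rfl, rfl⟩ | ⟨k, rfl, rfl⟩ | ⟨k, i, rfl, rfl⟩ |
      ⟨k, i, rfl, rfl⟩
    · exact support_reverse (shortPath k)
    · exact ((congrArg List.reverse (support_reverse (shortPath k))).trans
        (List.reverse_reverse _)).symm
    · exact support_reverse (longPath k i)
    · exact ((congrArg List.reverse (support_reverse (longPath k i))).trans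
        (List.reverse_reverse _)).symm
  node_mem := by
    intro x y h a ha
    have h1 : ∀ k, nodeMap a ∈ (shortPath (V := V) k).support → a = .d k ∨ a = .c := by
      intro k hk
      cases a <;> simp_all [shortPath, nodeMap]
    have h2 : ∀ k i, nodeMap a ∈ (longPath (V := V) k i).support → a = .l k i ∨ a = .d k := by
      intro k i hk
      cases a <;> simp_all [longPath, nodeMap]
    rcases given_adj_cases h with ⟨k, rfl, rfl⟩ | ⟨k, rfl, rfl⟩ | ⟨k, i, rfl, rfl⟩ |
      ⟨k, i, rfl, rfl⟩
    · exact h1 k ha
    · have ha' : nodeMap a ∈ (shortPath (V := V) k).reverse.support := ha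
      rw [support_reverse, List.mem_reverse] at ha'
      exact (h1 k ha').symm
    · exact h2 k i ha
    · have ha' : nodeMap a ∈ (longPath (V := V) k i).reverse.support := ha
      rw [support_reverse, List.mem_reverse] at ha'
      exact (h2 k i ha').symm
  disj := by
    intro x y x' y' h h' hne z hz hz'
    have key : ∀ {x y : TN V} (h : (givenTree V).graph.Adj x y), z ∈ (segPath x y h).support →
        (∃ a, nodeMap a = z) ∨
          ∃ k i, (z = .x k i ∨ z = .y k i) ∧ s(x, y) = s(.l k i, .d k) := by
      intro x y h hz
      have h1 : ∀ k, z ∈ (shortPath (V := V) k).support → ∃ a, nodeMap a = z := by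
        intro k hk
        simp only [shortPath, support_cons, support_nil, List.mem_cons, List.not_mem_nil,
          or_false] at hk
        rcases hk with rfl | rfl
        · exact ⟨.d k, rfl⟩
        · exact ⟨.c, rfl⟩
      have h2 : ∀ k i, z ∈ (longPath (V := V) k i).support →
          (∃ a, nodeMap a = z) ∨ (z = .x k i ∨ z = .y k i) := by
        intro k i hk
        simp only [longPath, support_cons, support_nil, List.mem_cons, List.not_mem_nil,
          or_false] at hk
        rcases hk with rfl | rfl | rfl | rfl
        · exact Or.inl ⟨.l k i, rfl⟩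
        · exact Or.inr (Or.inr rfl)
        · exact Or.inr (Or.inl rfl)
        · exact Or.inl ⟨.d k, rfl⟩
      rcases given_adj_cases h with ⟨k, rfl, rfl⟩ | ⟨k, rfl, rfl⟩ | ⟨k, i, rfl, rfl⟩ |
        ⟨k, i, rfl, rfl⟩
      · exact Or.inl (h1 k hz)
      · have hz' : z ∈ (shortPath (V := V) k).reverse.support := hz
        rw [support_reverse, List.mem_reverse] at hz'
        exact Or.inl (h1 k hz')
      · rcases h2 k i hz with h3 | h3
        · exact Or.inl h3
        · exact Or.inr ⟨k, i, h3, rfl⟩
      · have hz' : z ∈ (longPath (V := V) k i).reverse.support := hz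
        rw [support_reverse, List.mem_reverse] at hz'
        rcases h2 k i hz' with h3 | h3
        · exact Or.inl h3
        · exact Or.inr ⟨k, i, h3, Sym2.eq_swap⟩
    rcases key h hz with h3 | ⟨k, i, h3, h4⟩
    · exact h3
    · rcases key h' hz' with h5 | ⟨k', i', h5, h6⟩
      · exact h5
      · exfalso
        apply hne
        have : k = k' ∧ i = i' := by
          rcases h3 with rfl | rfl <;> rcases h5 with h5 | h5 <;> simp_all
        rw [h4, h6, this.1, this.2]

theorem finite_FN (V : Type) [Finite V] : Finite (FN V) := by
  let f : FN V → Option (Fin 3 ⊕ (Fin 4 × Fin 3 × V)) := fun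
    | .c => none
    | .d k => some (Sum.inl k)
    | .x k i => some (Sum.inr (0, k, i))
    | .y k i => some (Sum.inr (1, k, i))
    | .z k i => some (Sum.inr (2, k, i))
    | .l k i => some (Sum.inr (3, k, i))
  apply Finite.of_injective f
  intro x y h
  cases x <;> cases y <;> simp_all [f]

theorem extendable_of_colorable {V : Type} [Finite V] (H : SimpleGraph V)
    (h : H.Colorable 3) : Extendable (gadget H) (gadgetRep H) := by
  classical
  obtain ⟨C⟩ := h
  let col : V → Fin 3 := fun i => C i
  have hcol : ∀ i j, H.Adj i j → col i ≠ col j := fun i j hij => C.valid hij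
  refine ⟨FN V, finite_FN V, (finalTree V).graph, subdiv V, repF H col,
    ⟨(finalTree V).isTree, repF_isSubpath H col hcol, ?_⟩, ?_⟩
  · intro u v huv
    by_cases hu : u.isC <;> by_cases hv : v.isC
    · refine iff_of_true ⟨.c, repF_clique H col hu, repF_clique H col hv⟩ ?_
      cases u <;> cases v <;> simp_all [GV.isC, gadget, GV.rel]
    · rw [repF_host H col hv, Set.inter_singleton_nonempty, host_mem_iff H col hv hu]
      exact ⟨fun h => h.symm, fun h => h.symm⟩
    · rw [repF_host H col hu, Set.singleton_inter_nonempty, host_mem_iff H col hu hv]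
    · refine iff_of_false ?_ ?_
      · rw [repF_host H col hu, repF_host H col hv, Set.singleton_inter_nonempty,
          Set.mem_singleton_iff]
        exact fun h => huv (host_inj col hu hv h)
      · cases u <;> cases v <;> simp_all [GV.isC, gadget, GV.rel]
  · rintro v (rfl | ⟨i, k, rfl⟩)
    · exact ((subdiv V).image_singleton (.c : TN V)).symm
    · exact ((subdiv V).image_singleton (.l k i : TN V)).symm

/-- **The reduction.** `H` is 3-colourable iff the instance `(gadget H, gadgetRep H)` of
`REPEXT(PATH, BOTH)` is a yes-instance. -/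
theorem reduction {V : Type} [Finite V] (H : SimpleGraph V) :
    H.Colorable 3 ↔ Extendable (gadget H) (gadgetRep H) :=
  ⟨extendable_of_colorable H, colorable_of_extendable H⟩

end Pool.Agent.Helper81.PathExt
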