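import Pool.Agent.Helper81.PathSol3

/-!
`REPEXT(PATH, BOTH)` is in NP.
-/

namespace Pool.Agent.Helper81.PathExt

open SimpleGraph Pool.Agent.Helper81.CC

/-- Parent. -/
def cPar (c : Cert) (i : ℕ) : ℕ := c.2.2.1.getD i 0
/-- Depth. -/
def cDep (c : Cert) (i : ℕ) : ℕ := c.2.2.2.1.getD i 0
/-- Image of a node. -/
def cNode (c : Cert) (a : ℕ) : ℕ := c.2.2.2.2.1.getD a 0
/-- Subdivided edge. -/
def cP (c : Cert) (a b : ℕ) : List ℕ := (c.2.2.2.2.2.1.getD a []).getD b []
/-- Path. -/
def cPl (c : Cert) (v : ℕ) : List ℕ := c.2.2.2.2.2.2.getD v []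

/-- Adjacency test. -/
def padjB (c : Cert) (a b : ℕ) : Bool := a != b && (cPar c a == b || cPar c b == a)
/-- Adjacency test in the given tree. -/
def tadjB (x : Raw) (a b : ℕ) : Bool :=
  a != b && (x.2.1.2.contains (a, b) || x.2.1.2.contains (b, a))
/-- Adjacency test in the graph. -/
def gadjB (x : Raw) (u v : ℕ) : Bool := x.1.2.contains (u, v) || x.1.2.contains (v, u)
/-- Membership test for the pre-drawn sets. -/
def inRepB (x : Raw) (v a : ℕ) : Bool := x.2.2.any fun q => q.1 == v && q.2.contains a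
/-- Test for pre-drawn vertices. -/
def isPreB (x : Raw) (v : ℕ) : Bool := x.2.2.any fun q => q.1 == v
/-- Test for walks. -/
def chainB (c : Cert) (l : List ℕ) : Bool := (l.zip l.tail).all fun p => padjB c p.1 p.2

theorem padjB_iff (c : Cert) (a b : ℕ) :
    padjB c a b = true ↔ PAdj (fun i => c.2.2.1.getD i 0) a b := by
  simp [padjB, PAdj, cPar]

theorem tadjB_iff (x : Raw) (a b : ℕ) : tadjB x a b = true ↔ tadj x a b := by
  simp [tadjB, tadj]

theorem gadjB_iff (x : Raw) (a b : ℕ) : gadjB x a b = true ↔ gadj x a b := by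
  simp [gadjB, gadj]

theorem inRepB_iff (x : Raw) (v a : ℕ) : inRepB x v a = true ↔ inRep x v a := by
  simp only [inRepB, inRep, List.any_eq_true, Bool.and_eq_true, beq_iff_eq,
    List.contains_iff_mem, Prod.exists]
  constructor
  · rintro ⟨v', S, h, rfl, ha⟩; exact ⟨S, h, ha⟩
  · rintro ⟨S, h, ha⟩; exact ⟨v, S, h, rfl, ha⟩

theorem isPreB_iff (x : Raw) (v : ℕ) : isPreB x v = true ↔ isPre x v := by
  simp only [isPreB, isPre, List.any_eq_true, beq_iff_eq, Prod.exists]
  constructor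
  · rintro ⟨v', S, h, rfl⟩; exact ⟨S, h⟩
  · rintro ⟨S, h⟩; exact ⟨v, S, h, rfl⟩

theorem chainB_iff (c : Cert) (l : List ℕ) :
    chainB c l = true ↔ l.IsChain (PAdj (fun i => c.2.2.1.getD i 0)) := by
  rw [isChain_iff_zip, chainB, List.all_eq_true]
  simp only [padjB_iff]

section poly

variable {α : Type} [ToData α]

@[fun_prop]
theorem poly_cPar {c : α → Cert} {i : α → ℕ} (hc : PolyTime c) (hi : PolyTime i) :
    PolyTime (fun a => cPar (c a) (i a)) := by
  unfold cPar; fun_prop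
@[fun_prop]
theorem poly_cDep {c : α → Cert} {i : α → ℕ} (hc : PolyTime c) (hi : PolyTime i) :
    PolyTime (fun a => cDep (c a) (i a)) := by
  unfold cDep; fun_prop
@[fun_prop]
theorem poly_cNode {c : α → Cert} {i : α → ℕ} (hc : PolyTime c) (hi : PolyTime i) :
    PolyTime (fun a => cNode (c a) (i a)) := by
  unfold cNode; fun_prop
@[fun_prop]
theorem poly_cP {c : α → Cert} {i j : α → ℕ} (hc : PolyTime c) (hi : PolyTime i)
    (hj : PolyTime j) : PolyTime (fun a => cP (c a) (i a) (j a)) := by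
  unfold cP; fun_prop
@[fun_prop]
theorem poly_cPl {c : α → Cert} {i : α → ℕ} (hc : PolyTime c) (hi : PolyTime i) :
    PolyTime (fun a => cPl (c a) (i a)) := by
  unfold cPl; fun_prop
@[fun_prop]
theorem poly_padjB {c : α → Cert} {i j : α → ℕ} (hc : PolyTime c) (hi : PolyTime i)
    (hj : PolyTime j) : PolyTime (fun a => padjB (c a) (i a) (j a)) := by
  unfold padjB; fun_prop
@[fun_prop]
theorem poly_tadjB {x : α → Raw} {i j : α → ℕ} (hc : PolyTime x) (hi : PolyTime i)
    (hj : PolyTime j) : PolyTime (fun a => tadjB (x a) (i a) (j a)) := by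
  unfold tadjB; fun_prop
@[fun_prop]
theorem poly_gadjB {x : α → Raw} {i j : α → ℕ} (hc : PolyTime x) (hi : PolyTime i)
    (hj : PolyTime j) : PolyTime (fun a => gadjB (x a) (i a) (j a)) := by
  unfold gadjB; fun_prop
@[fun_prop]
theorem poly_inRepB {x : α → Raw} {i j : α → ℕ} (hc : PolyTime x) (hi : PolyTime i)
    (hj : PolyTime j) : PolyTime (fun a => inRepB (x a) (i a) (j a)) := by
  have h : PolyTime (fun z : Raw × ℕ × ℕ => inRepB z.1 z.2.1 z.2.2) := by
    unfold inRepB; fun_prop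
  exact PolyTime.comp h (f := fun a => (x a, i a, j a)) (by fun_prop)
@[fun_prop]
theorem poly_isPreB {x : α → Raw} {i : α → ℕ} (hc : PolyTime x) (hi : PolyTime i) :
    PolyTime (fun a => isPreB (x a) (i a)) := by
  have h : PolyTime (fun z : Raw × ℕ => isPreB z.1 z.2) := by
    unfold isPreB; fun_prop
  exact PolyTime.comp h (f := fun a => (x a, i a)) (by fun_prop)
@[fun_prop]
theorem poly_chainB {c : α → Cert} {l : α → List ℕ} (hc : PolyTime c) (hl : PolyTime l) :
    PolyTime (fun a => chainB (c a) (l a)) := by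
  have h : PolyTime (fun z : Cert × List ℕ => chainB z.1 z.2) := by
    unfold chainB; fun_prop
  exact PolyTime.comp h (f := fun a => (c a, l a)) (by fun_prop)

end poly

/-- Conditions on the tree. -/
def chkA (z : Raw × Cert) : Bool :=
  decide (z.2.2.1 < z.2.1) && (cPar z.2 z.2.2.1 == z.2.2.1) &&
  ((List.range z.2.1).all fun b => decide (cPar z.2 b < z.2.1)) &&
  ((List.range z.2.1).all fun b => b == z.2.2.1 || decide (cDep z.2 (cPar z.2 b) < cDep z.2 b)) &&
  ((List.range z.1.2.1.1).all fun a => decide (cNode z.2 a < z.2.1)) &&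
  ((List.range z.1.2.1.1).all fun a => (List.range z.1.2.1.1).all fun b =>
    cNode z.2 a != cNode z.2 b || a == b)

/-- Conditions on the paths. -/
def chkB (z : Raw × Cert) : Bool :=
  ((List.range z.1.1.1).all fun v => cPl z.2 v != [] && decide (cPl z.2 v).Nodup &&
    (cPl z.2 v).all (fun w => decide (w < z.2.1)) && chainB z.2 (cPl z.2 v)) &&
  ((List.range z.1.1.1).all fun u => (List.range z.1.1.1).all fun v =>
    u == v || ((cPl z.2 u).any (fun w => (cPl z.2 v).contains w) == gadjB z.1 u v))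

/-- Conditions on a subdivided edge. -/
def chkE (z : (Raw × Cert) × ℕ × ℕ) : Bool :=
  decide (cP z.1.2 z.2.1 z.2.2).Nodup &&
    (cP z.1.2 z.2.1 z.2.2).all (fun w => decide (w < z.1.2.1)) &&
    chainB z.1.2 (cP z.1.2 z.2.1 z.2.2) &&
    ((cP z.1.2 z.2.1 z.2.2).head? == some (cNode z.1.2 z.2.1)) &&
    ((cP z.1.2 z.2.1 z.2.2).getLast? == some (cNode z.1.2 z.2.2)) &&
    (cP z.1.2 z.2.2 z.2.1 == (cP z.1.2 z.2.1 z.2.2).reverse) &&
    ((List.range z.1.1.2.1.1).all fun c => !(cP z.1.2 z.2.1 z.2.2).contains (cNode z.1.2 c) ||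
      (c == z.2.1 || c == z.2.2))

/-- Conditions on all subdivided edges. -/
def chkC (z : Raw × Cert) : Bool :=
  (List.range z.1.2.1.1).all fun a => (List.range z.1.2.1.1).all fun b =>
    !tadjB z.1 a b || chkE (z, a, b)

/-- Conditions on a pair of subdivided edges. -/
def chkF (z : (Raw × Cert) × (ℕ × ℕ) × ℕ × ℕ) : Bool :=
  !tadjB z.1.1 z.2.1.1 z.2.1.2 || !tadjB z.1.1 z.2.2.1 z.2.2.2 ||
  (z.2.1.1 == z.2.2.1 && z.2.1.2 == z.2.2.2) || (z.2.1.1 == z.2.2.2 && z.2.1.2 == z.2.2.1) ||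
  ((cP z.1.2 z.2.1.1 z.2.1.2).all fun w => !(cP z.1.2 z.2.2.1 z.2.2.2).contains w ||
    (List.range z.1.1.2.1.1).any (fun c => cNode z.1.2 c == w))

/-- Disjointness conditions. -/
def chkD (z : Raw × Cert) : Bool :=
  (List.range z.1.2.1.1 ×ˢ List.range z.1.2.1.1).all fun e =>
    (List.range z.1.2.1.1 ×ˢ List.range z.1.2.1.1).all fun e' => chkF (z, e, e')

/-- Membership of `w` in the image of the pre-drawn set of `v`. -/
def imgB (z : (Raw × Cert) × ℕ × ℕ) : Bool :=
  (List.range z.1.1.2.1.1).any (fun a => inRepB z.1.1 z.2.1 a && cNode z.1.2 a == z.2.2) ||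
  (List.range z.1.1.2.1.1 ×ˢ List.range z.1.1.2.1.1).any fun e => tadjB z.1.1 e.1 e.2 &&
    inRepB z.1.1 z.2.1 e.1 && inRepB z.1.1 z.2.1 e.2 && (cP z.1.2 e.1 e.2).contains z.2.2

/-- Conditions on the pre-drawn sets. -/
def chkG (z : Raw × Cert) : Bool :=
  (List.range z.1.1.1).all fun v => !isPreB z.1 v ||
    (List.range z.2.1).all fun w => (cPl z.2 v).contains w == imgB (z, v, w)

/-- The verifier. -/
def chk (z : Raw × Cert) : Bool := chkA z && chkB z && chkC z && chkD z && chkG z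

theorem polyTime_chkA : PolyTime chkA := by unfold chkA; fun_prop
theorem polyTime_chkB : PolyTime chkB := by unfold chkB; fun_prop
theorem polyTime_chkE : PolyTime chkE := by unfold chkE; fun_prop
theorem polyTime_chkC : PolyTime chkC := by
  have := polyTime_chkE
  unfold chkC; fun_prop
theorem polyTime_chkF : PolyTime chkF := by unfold chkF; fun_prop
theorem polyTime_chkD : PolyTime chkD := by
  have := polyTime_chkF
  unfold chkD; fun_prop
theorem polyTime_imgB : PolyTime imgB := by unfold imgB; fun_prop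
theorem polyTime_chkG : PolyTime chkG := by
  have := polyTime_imgB
  unfold chkG; fun_prop

theorem polyTime_chk : PolyTime chk := by
  have h1 := polyTime_chkA
  have h2 := polyTime_chkB
  have h3 := polyTime_chkC
  have h4 := polyTime_chkD
  have h5 := polyTime_chkG
  unfold chk
  fun_prop

theorem chkE_iff (x : Raw) (c : Cert) (a b : ℕ) : chkE ((x, c), a, b) = true ↔
    ((cP c a b).Nodup ∧ (∀ w ∈ cP c a b, w < c.1) ∧
      (cP c a b).IsChain (PAdj (fun i => c.2.2.1.getD i 0)) ∧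
      (cP c a b).head? = some (cNode c a) ∧ (cP c a b).getLast? = some (cNode c b) ∧
      cP c b a = (cP c a b).reverse ∧
      ∀ d, d < x.2.1.1 → cNode c d ∈ cP c a b → d = a ∨ d = b) := by
  simp only [chkE, Bool.and_eq_true, decide_eq_true_eq, List.all_eq_true, beq_iff_eq,
    List.mem_range, chainB_iff, Bool.or_eq_true, Bool.not_eq_true', and_assoc]
  have key : ∀ d, ((cP c a b).contains (cNode c d) = false ∨ d = a ∨ d = b) ↔
      (cNode c d ∈ cP c a b → d = a ∨ d = b) := by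
    intro d
    by_cases h : cNode c d ∈ cP c a b <;> simp [h]
  simp only [key]

theorem prop_aux (A B C D Q : Prop) :
    ((((¬A ∨ ¬B) ∨ C) ∨ D) ∨ Q) ↔ (A → B → ¬C → ¬D → Q) := by tauto

theorem chkF_iff (x : Raw) (c : Cert) (a b a' b' : ℕ) :
    chkF ((x, c), (a, b), a', b') = true ↔
    (tadj x a b → tadj x a' b' → ¬ (a = a' ∧ b = b') → ¬ (a = b' ∧ b = a') →
      ∀ w ∈ cP c a b, w ∈ cP c a' b' → ∃ d, d < x.2.1.1 ∧ cNode c d = w) := by
  simp only [chkF, Bool.or_eq_true, Bool.not_eq_true', Bool.and_eq_true, beq_iff_eq,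
    List.all_eq_true, List.any_eq_true, List.mem_range]
  have e1 : tadjB x a b = false ↔ ¬ tadj x a b := by
    rw [← tadjB_iff]; simp
  have e2 : tadjB x a' b' = false ↔ ¬ tadj x a' b' := by
    rw [← tadjB_iff]; simp
  have key : (∀ w ∈ cP c a b, (cP c a' b').contains w = false ∨
      ∃ d, d < x.2.1.1 ∧ cNode c d = w) ↔
      (∀ w ∈ cP c a b, w ∈ cP c a' b' → ∃ d, d < x.2.1.1 ∧ cNode c d = w) := by
    refine forall₂_congr fun w _ => ?_
    by_cases h : w ∈ cP c a' b' <;> simp [h]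
  rw [e1, e2, key]
  exact prop_aux _ _ _ _ _

theorem imgB_iff (x : Raw) (c : Cert) (v w : ℕ) : imgB ((x, c), v, w) = true ↔
    ((∃ a, a < x.2.1.1 ∧ inRep x v a ∧ cNode c a = w) ∨
      ∃ a b, a < x.2.1.1 ∧ b < x.2.1.1 ∧ tadj x a b ∧ inRep x v a ∧ inRep x v b ∧
        w ∈ cP c a b) := by
  simp only [imgB, Bool.or_eq_true, List.any_eq_true, Bool.and_eq_true, List.mem_range,
    inRepB_iff, tadjB_iff, beq_iff_eq, List.contains_iff_mem, List.mem_product, Prod.exists]
  constructor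
  · rintro (h | ⟨a, b, ⟨ha, hb⟩, ⟨⟨h1, h2⟩, h3⟩, h4⟩)
    · exact Or.inl h
    · exact Or.inr ⟨a, b, ha, hb, h1, h2, h3, h4⟩
  · rintro (h | ⟨a, b, ha, hb, h1, h2, h3, h4⟩)
    · exact Or.inl h
    · exact Or.inr ⟨a, b, ⟨ha, hb⟩, ⟨⟨h1, h2⟩, h3⟩, h4⟩

theorem chk_iff (x : Raw) (c : Cert) : chk (x, c) = true ↔ CertSol x c := by
  have eB : ∀ (p q : Bool), ((p == q) = true) ↔ (p = true ↔ q = true) := by decide
  simp only [chk, chkA, chkB, chkC, chkD, chkG, Bool.and_eq_true, decide_eq_true_eq,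
    List.all_eq_true, beq_iff_eq, List.mem_range, Bool.or_eq_true, chainB_iff, bne_iff_ne,
    List.mem_product, chkE_iff, eB, List.any_eq_true, gadjB_iff, imgB_iff, List.contains_iff_mem,
    Bool.not_eq_true', Prod.forall, chkF_iff]
  have e1 : ∀ a b, tadjB x a b = false ↔ ¬ tadj x a b := by
    intro a b
    rw [← tadjB_iff]; simp
  have e2 : ∀ v, isPreB x v = false ↔ ¬ isPre x v := by
    intro v
    rw [← isPreB_iff]; simp
  simp only [e1, e2]
  constructor
  · rintro ⟨⟨⟨⟨⟨⟨⟨⟨⟨a1, a2⟩, a3⟩, a4⟩, a5⟩, a6⟩, b1, b2⟩, c1⟩, d1⟩, g1⟩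
    refine ⟨Finset.mem_range.2 a1, a2, fun b hb => Finset.mem_range.2 (a3 b (Finset.mem_range.1 hb)),
      ?_, fun a ha => Finset.mem_range.2 (a5 a ha), ?_, fun v hv => (b1 v hv).1.1.1,
      fun v hv => (b1 v hv).1.1.2, fun v hv z hz => Finset.mem_range.2 ((b1 v hv).1.2 z hz),
      fun v hv => (b1 v hv).2, ?_, ?_, ?_, ?_, ?_, ?_, ?_, ?_, ?_, ?_⟩
    · intro b hb hne
      rcases a4 b (Finset.mem_range.1 hb) with h | h
      · exact absurd h hne
      · exact h
    · intro a b ha hb hab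
      rcases a6 a ha b hb with h | h
      · exact absurd hab h
      · exact h
    · intro u v hu hv huv
      rcases b2 u hu v hv with h | h
      · exact absurd h huv
      · exact h
    all_goals try
      intro a b ha hb hab
      rcases c1 a ha b hb with h | h
      · exact absurd hab h
    · exact h.1
    · intro z hz; exact Finset.mem_range.2 (h.2.1 z hz)
    · exact h.2.2.1
    · exact h.2.2.2.1
    · exact h.2.2.2.2.1
    · exact h.2.2.2.2.2.1
    · exact h.2.2.2.2.2.2
    · intro a b a' b' ha hb ha' hb' hab hab' h1 h2 z hz hz'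
      exact d1 a b ⟨ha, hb⟩ a' b' ⟨ha', hb'⟩ hab hab' h1 h2 z hz hz'
    · intro v hv hpre z hz
      rcases g1 v hv with h | h
      · exact absurd hpre h
      · exact h z (Finset.mem_range.1 hz)
  · intro h
    refine ⟨⟨⟨⟨⟨⟨⟨⟨⟨?_, ?_⟩, ?_⟩, ?_⟩, ?_⟩, ?_⟩, ?_, ?_⟩, ?_⟩, ?_⟩, ?_⟩
    · exact Finset.mem_range.1 h.root_mem
    · exact h.par_root
    · intro b hb; exact Finset.mem_range.1 (h.par_mem b (Finset.mem_range.2 hb))
    · intro b hb
      by_cases hr : b = c.2.1
      · exact Or.inl hr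
      · exact Or.inr (h.dep_lt b (Finset.mem_range.2 hb) hr)
    · intro a ha; exact Finset.mem_range.1 (h.node_mem a ha)
    · intro a ha b hb
      by_cases hab : a = b
      · exact Or.inr hab
      · exact Or.inl fun e => hab (h.node_inj a b ha hb e)
    · intro v hv
      exact ⟨⟨⟨h.pl_ne v hv, h.pl_nodup v hv⟩,
        fun z hz => Finset.mem_range.1 (h.pl_mem v hv z hz)⟩, h.pl_chain v hv⟩
    · intro u hu v hv
      by_cases huv : u = v
      · exact Or.inl huv
      · exact Or.inr (h.pl_inter u v hu hv huv)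
    · intro a ha b hb
      by_cases hab : tadj x a b
      · exact Or.inr ⟨h.P_nodup a b ha hb hab,
          fun z hz => Finset.mem_range.1 (h.P_mem a b ha hb hab z hz),
          h.P_chain a b ha hb hab, h.P_head a b ha hb hab, h.P_last a b ha hb hab,
          h.P_symm a b ha hb hab, h.P_node a b ha hb hab⟩
      · exact Or.inl hab
    · intro a b hab a' b' hab' h1 h2 h3 h4 z hz hz'
      exact h.P_disj a b a' b' hab.1 hab.2 hab'.1 hab'.2 h1 h2 h3 h4 z hz hz'
    · intro v hv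
      by_cases hpre : isPre x v
      · exact Or.inr fun z hz => h.image v hv hpre z (Finset.mem_range.2 hz)
      · exact Or.inl hpre

/-- `REPEXT(PATH, BOTH)` is in NP. -/
theorem inNP : (Problem.of Inst fun x => Extendable x.1.graph (partialRep x)).InNP := by
  refine Problem.inNP_of_cert (γ := Cert) (V := fun z => chk (z.1.1, z.2))
    (B := fun x => certBound (sz x)) ?_ certBound_pbd ?_ ?_
  · exact PolyTime.comp polyTime_chk (f := fun z : Inst × Cert => (z.1.1, z.2)) (by fun_prop)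
  · rintro ⟨x, hx⟩ h
    obtain ⟨c, hc, hs⟩ := exists_cert hx h
    exact ⟨c, hc, (chk_iff x c).2 hs⟩
  · rintro ⟨x, hx⟩ c hc
    exact IsSol.sound ((chk_iff x c).1 hc) hx

end Pool.Agent.Helper81.PathExt
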