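import Pool.Agent.Helper81.PathExtDefs
import Pool.Agent.Helper81.Complexity

/-!
The decision problem `REPEXT(PATH, BOTH)` with explicitly coded instances.
-/

namespace Pool.Agent.Helper81.PathExt

open Pool.Agent.Helper81.CC

/-- Raw data of an instance `((n, E), (k, F), L)`: the graph `G` on `0, …, n - 1` with edge
list `E`, the graph `T'` on `0, …, k - 1` with edge list `F`, and the list `L` of the
pre-drawn vertices together with (lists of the elements of) their sets. -/
abbrev Raw := (ℕ × List (ℕ × ℕ)) × (ℕ × List (ℕ × ℕ)) × List (ℕ × List ℕ)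

/-- The graph `G` of an instance. -/
def Raw.graph (x : Raw) : SimpleGraph (Fin x.1.1) := graphOf x.1.1 x.1.2

/-- The graph `T'` of an instance. -/
def Raw.tree (x : Raw) : SimpleGraph (Fin x.2.1.1) := graphOf x.2.1.1 x.2.1.2

/-- The pre-drawn vertices of an instance. -/
def Raw.pre (x : Raw) : Set (Fin x.1.1) := {v | ∃ S, ((v : ℕ), S) ∈ x.2.2}

/-- The pre-drawn sets of an instance. -/
def Raw.rep (x : Raw) (v : Fin x.1.1) : Set (Fin x.2.1.1) :=
  {a | ∃ S, ((v : ℕ), S) ∈ x.2.2 ∧ (a : ℕ) ∈ S}

/-- The instances of `REPEXT(PATH, BOTH)`: the raw data for which `T'` is a tree and the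
pre-drawn sets form a subpath representation in `T'` of the subgraph of `G` induced by the
pre-drawn vertices. -/
abbrev Inst := {x : Raw // IsPathRep (x.graph.induce x.pre) x.tree fun v => x.rep v}

/-- The partial representation given by an instance. -/
def partialRep (x : Inst) : PartialRep x.1.graph where
  A := Fin x.1.2.1.1
  finite := inferInstance
  tree := x.1.tree
  pre := x.1.pre
  rep := x.1.rep
  isRep := x.2

end Pool.Agent.Helper81.PathExt
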