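import Pool.Agent.Helper81.PathNPHard
import Pool.Agent.Helper81.PathNP
import Pool.Agent.Helper83.CookLevin

/-!
`REPEXT(PATH, BOTH)` is NP-complete.
-/

namespace Pool.Agent.Helper81.PathExt

open Pool.Agent.Helper81.CC

/-- Repackaging of input data. -/
def toRaw (x : RepInput) : Raw := ((x.n, x.E), (x.k, x.F), x.L)

/-- Repackaging of input data. -/
def ofRaw (x : Raw) : RepInput := ⟨x.1.1, x.1.2, x.2.1.1, x.2.1.2, x.2.2⟩

theorem polyTime_toRaw : PolyTime toRaw := by
  have h : PolyTime (fun p : ℕ × List (ℕ × ℕ) × ℕ × List (ℕ × ℕ) × List (ℕ × List ℕ) =>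
      (((p.1, p.2.1), (p.2.2.1, p.2.2.2.1), p.2.2.2.2) : Raw)) := by fun_prop
  exact PolyTime.castD h fun x => ⟨(x.n, x.E, x.k, x.F, x.L), rfl, rfl⟩

theorem polyTime_ofRaw : PolyTime ofRaw := by
  have h : PolyTime (fun x : Raw => (x.1.1, x.1.2, x.2.1.1, x.2.1.2, x.2.2)) := by fun_prop
  exact PolyTime.castD h fun x => ⟨x, rfl, rfl⟩

theorem final_inNP : (Problem.of {x : RepInput // x.Valid} fun x => x.1.Extends).InNP := by
  have h1 : PolyTime (fun x : {x : RepInput // x.Valid} => toRaw x.1) :=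
    PolyTime.comp polyTime_toRaw PolyTime.val_aux
  refine Problem.inNP_of_cert (γ := Cert) (V := fun z => chk (toRaw z.1.1, z.2))
    (B := fun x => certBound (sz (toRaw x.1))) ?_ (PBd.comp certBound_pbd h1) ?_ ?_
  · exact PolyTime.comp polyTime_chk
      (f := fun z : {x : RepInput // x.Valid} × Cert => (toRaw z.1.1, z.2))
      (PolyTime.pair (PolyTime.comp (g := fun x : {x : RepInput // x.Valid} => toRaw x.1)
        (f := fun z : {x : RepInput // x.Valid} × Cert => z.1) h1 PolyTime.fst_aux)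
        (by fun_prop))
  · rintro ⟨x, hx⟩ h
    obtain ⟨c, hc, hs⟩ := exists_cert (x := toRaw x) hx h
    exact ⟨c, hc, (chk_iff _ c).2 hs⟩
  · rintro ⟨x, hx⟩ c hc
    exact IsSol.sound ((chk_iff (toRaw x) c).1 hc) hx

theorem final_reduces :
    COL3.ReducesS (Problem.of {x : RepInput // x.Valid} fun x => x.1.Extends) := by
  refine col3_reducesS.trans ⟨fun x => ⟨ofRaw x.1, x.2⟩, ?_, fun x => Iff.rfl⟩
  exact (PolyTime.mk (PolyTime.comp polyTime_ofRaw PolyTime.val_aux)
    (p := fun x : RepInput => x.Valid) fun x : Inst => x.2).scomp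

theorem final_npComplete :
    (Problem.of {x : RepInput // x.Valid} fun x => x.1.Extends).NPComplete :=
  ⟨final_inNP, ((Pool.Agent.Helper83.CL.SAT_hardS.trans sat_reducesS_col3).trans
    final_reduces).npHard⟩

end Pool.Agent.Helper81.PathExt
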