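import Pool.Agent.Helper81.PathNPDefs
import Pool.Agent.Helper81.PathExtRed
import Pool.Agent.Helper81.Col3

/-!
NP-hardness of `REPEXT(PATH, BOTH)`.
-/

namespace Pool.Agent.Helper81.PathExt

open SimpleGraph Pool.Agent.Helper81.CC

/-! ### Transfer along isomorphisms -/

theorem Extendable.transfer {V V' : Type} {G : SimpleGraph V} {G' : SimpleGraph V'}
    (P : PartialRep G) (P' : PartialRep G') (φ : G ≃g G') (ψ : P.tree ≃g P'.tree)
    (hpre : ∀ v, v ∈ P.pre ↔ φ v ∈ P'.pre) (hrep : ∀ v ∈ P.pre, P'.rep (φ v) = ψ '' P.rep v)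
    (h : Extendable G P) : Extendable G' P' := by
  obtain ⟨B, hB, T, m, R, hR, hm⟩ := h
  have hadj : ∀ {x y : P'.A}, P'.tree.Adj x y → P.tree.Adj (ψ.symm x) (ψ.symm y) :=
    fun h => ψ.symm.map_adj_iff.2 h
  let m' : SubdivIn P'.tree T :=
    { node := fun a => m.node (ψ.symm a)
      node_inj := m.node_inj.comp ψ.symm.injective
      path := fun h => m.path (hadj h)
      isPath := fun h => m.isPath (hadj h)
      support_symm := fun h => m.support_symm (hadj h)
      node_mem := fun {x y} h a ha => by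
        rcases m.node_mem (hadj h) _ ha with h1 | h1
        · exact Or.inl (ψ.symm.injective h1)
        · exact Or.inr (ψ.symm.injective h1)
      disj := fun {x y x' y'} h h' hne z hz hz' => by
        have hne' : s(ψ.symm x, ψ.symm y) ≠ s(ψ.symm x', ψ.symm y') := by
          intro he
          apply hne
          rw [Sym2.eq_iff] at he ⊢
          rcases he with ⟨h1, h2⟩ | ⟨h1, h2⟩
          · exact Or.inl ⟨ψ.symm.injective h1, ψ.symm.injective h2⟩
          · exact Or.inr ⟨ψ.symm.injective h1, ψ.symm.injective h2⟩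
        obtain ⟨a, ha⟩ := m.disj (hadj h) (hadj h') hne' z hz hz'
        exact ⟨ψ a, by simpa using ha⟩ }
  have himg : ∀ S : Set P.A, m'.image (ψ '' S) = m.image S := by
    intro S
    ext z
    simp only [SubdivIn.image, Set.mem_union, Set.mem_image, Set.mem_ofPred_eq]
    constructor
    · rintro (⟨a, ⟨b, hb, rfl⟩, rfl⟩ | ⟨x, y, hxy, ⟨a, ha, rfl⟩, ⟨b, hb, rfl⟩, hz⟩)
      · exact Or.inl ⟨b, hb, by simp [m']⟩
      · refine Or.inr ⟨_, _, hadj hxy, ?_, ?_, hz⟩
        · simpa using ha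
        · simpa using hb
    · rintro (⟨b, hb, rfl⟩ | ⟨x, y, hxy, hx, hy, hz⟩)
      · exact Or.inl ⟨ψ b, ⟨b, hb, rfl⟩, by simp [m']⟩
      · refine Or.inr ⟨ψ x, ψ y, ψ.map_adj_iff.2 hxy, ⟨x, hx, rfl⟩, ⟨y, hy, rfl⟩, ?_⟩
        have key : ∀ (x' y' : P.A) (h' : P.tree.Adj x' y'), x' = x → y' = y →
            z ∈ (m.path h').support := by
          rintro _ _ h' rfl rfl
          exact hz
        exact key _ _ _ (by simp) (by simp)
  refine ⟨B, hB, T, m', fun v => R (φ.symm v), ⟨hR.isTree, fun v => hR.isSubpath _, ?_⟩, ?_⟩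
  · intro u v huv
    rw [hR.inter_iff _ _ (fun h => huv (φ.symm.injective h))]
    exact φ.symm.map_adj_iff
  · intro v hv
    have hv' : φ.symm v ∈ P.pre := by rw [hpre]; simpa using hv
    show R (φ.symm v) = _
    rw [hm _ hv', ← himg, ← hrep _ hv']
    simp

theorem extendable_iff_of_iso {V V' : Type} {G : SimpleGraph V} {G' : SimpleGraph V'}
    (P : PartialRep G) (P' : PartialRep G') (φ : G ≃g G') (ψ : P.tree ≃g P'.tree)
    (hpre : ∀ v, v ∈ P.pre ↔ φ v ∈ P'.pre) (hrep : ∀ v ∈ P.pre, P'.rep (φ v) = ψ '' P.rep v) :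
    Extendable G P ↔ Extendable G' P' := by
  refine ⟨Extendable.transfer P P' φ ψ hpre hrep,
    Extendable.transfer P' P φ.symm ψ.symm ?_ ?_⟩
  · intro v
    rw [hpre]
    simp
  · intro v hv
    have hv' : φ.symm v ∈ P.pre := by rw [hpre]; simpa using hv
    have := hrep _ hv'
    simp only [RelIso.apply_symm_apply] at this
    rw [this, ← Set.image_comp]
    simp

/-! ### Graphs given by lists of labels -/

/-- Labels. -/
abbrev Lb := ℕ × ℕ × ℕ

/-- The edge list (in terms of positions in `vl`) of a relation on labels. -/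
def edgeList (vl : List Lb) (r : Lb → Lb → Bool) : List (ℕ × ℕ) :=
  (List.range vl.length ×ˢ List.range vl.length).filter
    fun p => r (vl.getD p.1 (0, 0, 0)) (vl.getD p.2 (0, 0, 0))

theorem polyTime_edgeList {α : Type} [ToData α] {vl : α → List Lb} {r : α → Lb → Lb → Bool}
    (hvl : PolyTime vl) (hr : PolyTime (fun z : α × Lb × Lb => r z.1 z.2.1 z.2.2)) :
    PolyTime (fun a => edgeList (vl a) (r a)) := by
  unfold edgeList
  have h1 : PolyTime (fun z : α × ℕ × ℕ => vl z.1) := PolyTime.comp hvl (by fun_prop)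
  exact PolyTime.filter (f := fun a (p : ℕ × ℕ) => r a ((vl a).getD p.1 (0, 0, 0))
    ((vl a).getD p.2 (0, 0, 0))) (by fun_prop)
    (PolyTime.comp (g := fun z : α × Lb × Lb => r z.1 z.2.1 z.2.2)
      (f := fun z : α × ℕ × ℕ => (z.1, (vl z.1).getD z.2.1 (0, 0, 0),
        (vl z.1).getD z.2.2 (0, 0, 0))) hr (by fun_prop))

/-- The graph given by an edge list of labels. -/
def isoOf {W : Type} (vl : List Lb) (r : Lb → Lb → Bool) (rel : W → W → Prop) (code : W → Lb)
    (e : Fin vl.length ≃ W) (he : ∀ i : Fin vl.length, code (e i) = vl[i])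
    (hr : ∀ x y, r (code x) (code y) = true ↔ rel x y) :
    graphOf vl.length (edgeList vl r) ≃g SimpleGraph.fromRel rel where
  toEquiv := e
  map_rel_iff' := by
    intro i j
    have key : ∀ i j : Fin vl.length, ((i : ℕ), (j : ℕ)) ∈ edgeList vl r ↔ rel (e i) (e j) := by
      intro i j
      rw [← hr, he, he, edgeList, List.mem_filter]
      simp [List.getD_eq_getElem?_getD]
    show e i ≠ e j ∧ (rel (e i) (e j) ∨ rel (e j) (e i)) ↔
      i ≠ j ∧ (((i : ℕ), (j : ℕ)) ∈ edgeList vl r ∨ ((j : ℕ), (i : ℕ)) ∈ edgeList vl r)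
    rw [key, key]
    simp

/-! ### The instance -/

/-- The number of vertices of the graph to be coloured. -/
def size (E : List (ℕ × ℕ)) : ℕ := (E.map fun e => e.1 + e.2).sum + 1

theorem lt_size {E : List (ℕ × ℕ)} {e : ℕ × ℕ} (he : e ∈ E) : e.1 + e.2 < size E := by
  have := List.le_sum_of_mem (List.mem_map_of_mem (f := fun e : ℕ × ℕ => e.1 + e.2) he)
  unfold size
  omega

/-- Valid labels of vertices. -/
def validV (N : ℕ) (x : Lb) : Bool :=
  decide ((x.1 = 0 ∧ x.2.1 = 0 ∧ x.2.2 = 0) ∨ (x.1 = 1 ∧ x.2.1 < N ∧ x.2.2 < N) ∨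
    (x.1 = 2 ∧ x.2.1 < N ∧ x.2.2 < 3) ∨ ((x.1 = 3 ∨ x.1 = 4 ∨ x.1 = 5) ∧ x.2.1 < N ∧ x.2.2 = 0) ∨
    (x.1 = 6 ∧ x.2.1 < N ∧ x.2.2 < 3))

/-- All labels of vertices. -/
def vlist (N : ℕ) : List Lb :=
  (List.range 7 ×ˢ (List.range (N + 3) ×ˢ List.range (N + 3))).filter (validV N)

/-- The relation on labels of vertices. -/
def relL (E : List (ℕ × ℕ)) (x y : Lb) : Bool :=
  decide ((x.1 = 1 ∧ y.1 = 1) ∨ (x.1 = 1 ∧ y.1 = 2) ∨ (x.1 = 2 ∧ y.1 = 2) ∨
    (x.1 = 0 ∧ y.1 = 1) ∨ (x.1 = 0 ∧ y.1 = 2) ∨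
    (x.1 = 3 ∧ y.1 = 1 ∧ (y.2.1 ≠ y.2.2 ∧ ((y.2.1, y.2.2) ∈ E ∨ (y.2.2, y.2.1) ∈ E)) ∧
      (x.2.1 = y.2.1 ∨ x.2.1 = y.2.2)) ∨
    (x.1 = 3 ∧ y.1 = 2 ∧ x.2.1 = y.2.1) ∨
    (x.1 = 4 ∧ y.1 = 2 ∧ x.2.1 = y.2.1 ∧ y.2.2 ≠ 2) ∨
    (x.1 = 5 ∧ y.1 = 2 ∧ x.2.1 = y.2.1 ∧ y.2.2 ≠ 0) ∨
    (x.1 = 6 ∧ y.1 = 2 ∧ x.2.1 = y.2.1 ∧ x.2.2 = y.2.2))

/-- Valid labels of nodes of the given tree. -/
def validT (N : ℕ) (x : Lb) : Bool :=
  decide ((x.1 = 0 ∧ x.2.1 = 0 ∧ x.2.2 = 0) ∨ (x.1 = 1 ∧ x.2.1 < 3 ∧ x.2.2 = 0) ∨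
    (x.1 = 2 ∧ x.2.1 < 3 ∧ x.2.2 < N))

/-- All labels of nodes of the given tree. -/
def tlist (N : ℕ) : List Lb :=
  (List.range 3 ×ˢ (List.range (N + 3) ×ˢ List.range (N + 3))).filter (validT N)

/-- The relation on labels of nodes of the given tree. -/
def relT (x y : Lb) : Bool :=
  decide ((x.1 = 0 ∧ y.1 = 0) ∨ (x.1 = 1 ∧ y.1 = 0) ∨ (x.1 = 2 ∧ y.1 = 1 ∧ x.2.1 = y.2.1))

/-- The list of pre-drawn sets. -/
def preL (N : ℕ) : List (ℕ × List ℕ) :=
  (List.range (vlist N).length).filterMap fun v =>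
    if ((vlist N).getD v (0, 0, 0)).1 = 0 then some (v, [(tlist N).idxOf (0, 0, 0)])
    else if ((vlist N).getD v (0, 0, 0)).1 = 6 then
      some (v, [(tlist N).idxOf (2, ((vlist N).getD v (0, 0, 0)).2.2,
        ((vlist N).getD v (0, 0, 0)).2.1)])
    else none

/-- The instance. -/
def raw (E : List (ℕ × ℕ)) : Raw :=
  (((vlist (size E)).length, edgeList (vlist (size E)) (relL E)),
    ((tlist (size E)).length, edgeList (tlist (size E)) relT), preL (size E))

theorem polyTime_size : PolyTime size := by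
  unfold size
  fun_prop

theorem polyTime_vlist : PolyTime vlist := by
  unfold vlist validV
  fun_prop

theorem polyTime_tlist : PolyTime tlist := by
  unfold tlist validT
  fun_prop

theorem polyTime_preL : PolyTime preL := by
  unfold preL
  have h1 : PolyTime (fun z : ℕ × ℕ => vlist z.1) := PolyTime.comp polyTime_vlist (by fun_prop)
  have h2 : PolyTime (fun z : ℕ × ℕ => tlist z.1) := PolyTime.comp polyTime_tlist (by fun_prop)
  refine PolyTime.filterMap (f := fun N v =>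
    if ((vlist N).getD v (0, 0, 0)).1 = 0 then some (v, [(tlist N).idxOf (0, 0, 0)])
    else if ((vlist N).getD v (0, 0, 0)).1 = 6 then
      some (v, [(tlist N).idxOf (2, ((vlist N).getD v (0, 0, 0)).2.2,
        ((vlist N).getD v (0, 0, 0)).2.1)])
    else none) ?_ ?_
  · exact PolyTime.range (PolyTime.length polyTime_vlist)
  · have h3 : PolyTime (fun z : ℕ × ℕ => (vlist z.1).getD z.2 (0, 0, 0)) := by fun_prop
    fun_prop

theorem polyTime_raw : PolyTime raw := by
  unfold raw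
  have h0 := polyTime_size
  have h1 : PolyTime (fun E : List (ℕ × ℕ) => vlist (size E)) := PolyTime.comp polyTime_vlist h0
  have h2 : PolyTime (fun E : List (ℕ × ℕ) => tlist (size E)) := PolyTime.comp polyTime_tlist h0
  have h3 : PolyTime (fun E : List (ℕ × ℕ) => preL (size E)) := PolyTime.comp polyTime_preL h0
  have h4 : PolyTime (fun z : List (ℕ × ℕ) × Lb × Lb => relL z.1 z.2.1 z.2.2) := by
    unfold relL
    fun_prop
  have h5 : PolyTime (fun z : List (ℕ × ℕ) × Lb × Lb => relT z.2.1 z.2.2) := by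
    unfold relT
    fun_prop
  exact PolyTime.pair (PolyTime.pair (PolyTime.length h1) (polyTime_edgeList h1 h4))
    (PolyTime.pair (PolyTime.pair (PolyTime.length h2)
      (polyTime_edgeList (r := fun _ => relT) h2 h5)) h3)

/-! ### Correctness of the instance -/

/-- The label of a vertex of the gadget. -/
def codeV {N : ℕ} : GV (Fin N) → Lb
  | .w => (0, 0, 0)
  | .e i j => (1, i, j)
  | .p i k => (2, i, k)
  | .M i => (3, i, 0)
  | .a i => (4, i, 0)
  | .b i => (5, i, 0)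
  | .t i k => (6, i, k)

theorem codeV_inj {N : ℕ} : Function.Injective (codeV (N := N)) := by
  intro x y h
  cases x <;> cases y <;> simp [codeV, Fin.val_inj] at h <;> simp [h]

theorem mem_vlist {N : ℕ} (x : Lb) : x ∈ vlist N ↔ ∃ g : GV (Fin N), codeV g = x := by
  obtain ⟨t, i, j⟩ := x
  simp only [vlist, validV, List.mem_filter, List.mem_product, List.mem_range, decide_eq_true_eq]
  constructor
  · rintro ⟨_, ⟨rfl, rfl, rfl⟩ | ⟨rfl, hi, hj⟩ | ⟨rfl, hi, hj⟩ | ⟨rfl | rfl | rfl, hi, rfl⟩ |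
      ⟨rfl, hi, hj⟩⟩
    · exact ⟨.w, rfl⟩
    · exact ⟨.e ⟨i, hi⟩ ⟨j, hj⟩, rfl⟩
    · exact ⟨.p ⟨i, hi⟩ ⟨j, hj⟩, rfl⟩
    · exact ⟨.M ⟨i, hi⟩, rfl⟩
    · exact ⟨.a ⟨i, hi⟩, rfl⟩
    · exact ⟨.b ⟨i, hi⟩, rfl⟩
    · exact ⟨.t ⟨i, hi⟩ ⟨j, hj⟩, rfl⟩
  · rintro ⟨g, hg⟩
    cases g with
    | w => simp only [codeV, Prod.mk.injEq] at hg; omega
    | e i j => simp only [codeV, Prod.mk.injEq] at hg; omega
    | p i j => simp only [codeV, Prod.mk.injEq] at hg; omega
    | M i => simp only [codeV, Prod.mk.injEq] at hg; omega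
    | a i => simp only [codeV, Prod.mk.injEq] at hg; omega
    | b i => simp only [codeV, Prod.mk.injEq] at hg; omega
    | t i j => simp only [codeV, Prod.mk.injEq] at hg; omega

theorem nodup_vlist (N : ℕ) : (vlist N).Nodup :=
  List.Nodup.filter _ (List.nodup_range.product (List.nodup_range.product List.nodup_range))

/-- The label of a node of the given tree. -/
def codeT {N : ℕ} : TN (Fin N) → Lb
  | .c => (0, 0, 0)
  | .d k => (1, k, 0)
  | .l k i => (2, k, i)

theorem codeT_inj {N : ℕ} : Function.Injective (codeT (N := N)) := by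
  intro x y h
  cases x <;> cases y <;> simp [codeT, Fin.val_inj] at h <;> simp [h]

theorem mem_tlist {N : ℕ} (x : Lb) : x ∈ tlist N ↔ ∃ g : TN (Fin N), codeT g = x := by
  obtain ⟨t, i, j⟩ := x
  simp only [tlist, validT, List.mem_filter, List.mem_product, List.mem_range, decide_eq_true_eq]
  constructor
  · rintro ⟨_, ⟨rfl, rfl, rfl⟩ | ⟨rfl, hi, rfl⟩ | ⟨rfl, hi, hj⟩⟩
    · exact ⟨.c, rfl⟩
    · exact ⟨.d ⟨i, hi⟩, rfl⟩
    · exact ⟨.l ⟨i, hi⟩ ⟨j, hj⟩, rfl⟩
  · rintro ⟨g, hg⟩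
    cases g with
    | c => simp only [codeT, Prod.mk.injEq] at hg; omega
    | d i => simp only [codeT, Prod.mk.injEq] at hg; omega
    | l i j => simp only [codeT, Prod.mk.injEq] at hg; omega

theorem nodup_tlist (N : ℕ) : (tlist N).Nodup :=
  List.Nodup.filter _ (List.nodup_range.product (List.nodup_range.product List.nodup_range))

/-- Positions in a list of labels and labelled objects. -/
noncomputable def posEquiv {W : Type} (vl : List Lb) (hn : vl.Nodup) (code : W → Lb)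
    (hi : Function.Injective code) (hm : ∀ x, x ∈ vl ↔ ∃ g, code g = x) :
    Fin vl.length ≃ W :=
  (List.Nodup.getEquiv vl hn).trans
    (Equiv.ofBijective (fun g : W => (⟨code g, (hm _).2 ⟨g, rfl⟩⟩ : {x // x ∈ vl}))
      ⟨fun x y h => hi (by simpa using h), fun ⟨x, hx⟩ => by
        obtain ⟨g, hg⟩ := (hm x).1 hx
        exact ⟨g, Subtype.ext hg⟩⟩).symm

theorem code_posEquiv {W : Type} (vl : List Lb) (hn : vl.Nodup) (code : W → Lb)
    (hi : Function.Injective code) (hm : ∀ x, x ∈ vl ↔ ∃ g, code g = x) (i : Fin vl.length) :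
    code (posEquiv vl hn code hi hm i) = vl[i] := by
  have h := Equiv.apply_symm_apply
    (Equiv.ofBijective (fun g : W => (⟨code g, (hm _).2 ⟨g, rfl⟩⟩ : {x // x ∈ vl}))
      ⟨fun x y h => hi (by simpa using h), fun ⟨x, hx⟩ => by
        obtain ⟨g, hg⟩ := (hm x).1 hx
        exact ⟨g, Subtype.ext hg⟩⟩) (List.Nodup.getEquiv vl hn i)
  have h2 := congrArg Subtype.val h
  exact h2

/-- The graph to be coloured. -/
def colGraph (E : List (ℕ × ℕ)) : SimpleGraph (Fin (size E)) := graphOf (size E) E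

theorem colorable_iff (E : Col3Inst) : Col3Yes E ↔ (colGraph E.1).Colorable 3 := by
  constructor
  · rintro ⟨c, hc⟩
    refine ⟨SimpleGraph.Coloring.mk (fun i => c i) ?_⟩
    rintro i j ⟨_, h | h⟩
    · exact hc _ h
    · exact (hc _ h).symm
  · rintro ⟨C⟩
    refine ⟨fun v => if h : v < size E.1 then C ⟨v, h⟩ else 0, fun e he => ?_⟩
    have h := lt_size he
    have h1 : e.1 < size E.1 := by omega
    have h2 : e.2 < size E.1 := by omega
    simp only [h1, h2, dif_pos]
    refine C.valid ⟨?_, Or.inl he⟩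
    intro h3
    exact E.2 e he (congrArg Fin.val h3)

theorem relL_iff (E : List (ℕ × ℕ)) (x y : GV (Fin (size E))) :
    relL E (codeV x) (codeV y) = true ↔ GV.rel (colGraph E) x y := by
  have h2 : ∀ k : Fin 3, (k : ℕ) = 2 ↔ k = 2 := by decide
  have h0 : ∀ k : Fin 3, (k : ℕ) = 0 ↔ k = 0 := by decide
  cases x <;> cases y <;>
    simp [relL, codeV, GV.rel, colGraph, graphOf, Fin.val_inj, h0, h2]

theorem relT_iff {N : ℕ} (x y : TN (Fin N)) :
    relT (codeT x) (codeT y) = true ↔ (givenTree (Fin N)).parent x = y := by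
  cases x <;> cases y <;>
    simp [relT, codeT, givenTree, Fin.val_inj]

theorem isSubpath_image {B B' : Type} {T : SimpleGraph B} {T' : SimpleGraph B'} (ψ : T ≃g T')
    {S : Set B} (h : IsSubpath T' (ψ '' S)) : IsSubpath T S := by
  obtain ⟨a, b, p, hp, hs⟩ := h
  refine ⟨ψ.symm a, ψ.symm b, p.map ψ.symm.toHom, hp.map ψ.symm.injective,
    ?_⟩
  ext z
  have h1 : z ∈ S ↔ ψ z ∈ ψ '' S := by simp
  rw [h1, hs]
  simp only [Set.mem_ofPred_eq, Walk.support_map, List.mem_map]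
  constructor
  · intro hz
    exact ⟨_, hz, by simp⟩
  · rintro ⟨w, hw, rfl⟩
    simpa using hw

theorem isPathRep_of_iso {V V' B B' : Type} {G : SimpleGraph V} {G' : SimpleGraph V'}
    {T : SimpleGraph B} {T' : SimpleGraph B'} (φ : G ≃g G') (ψ : T ≃g T') (R : V → Set B)
    (R' : V' → Set B') (h : ∀ v, R' (φ v) = ψ '' R v) (hR : IsPathRep G' T' R') :
    IsPathRep G T R := by
  refine ⟨?_, fun v => isSubpath_image ψ (by rw [← h]; exact hR.isSubpath _), ?_⟩
  · have h1 := hR.isTree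
    exact (ψ.isTree_iff).2 h1
  · intro u v huv
    rw [← φ.map_adj_iff, ← hR.inter_iff _ _ (fun h => huv (φ.injective h)), h, h,
      ← Set.image_inter ψ.injective, Set.image_nonempty]

/-- The positions of the vertices. -/
noncomputable def eV (N : ℕ) : Fin (vlist N).length ≃ GV (Fin N) :=
  posEquiv (vlist N) (nodup_vlist N) codeV codeV_inj mem_vlist

/-- The positions of the nodes. -/
noncomputable def eT (N : ℕ) : Fin (tlist N).length ≃ TN (Fin N) :=
  posEquiv (tlist N) (nodup_tlist N) codeT codeT_inj mem_tlist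

theorem code_eV {N : ℕ} (i : Fin (vlist N).length) : codeV (eV N i) = (vlist N)[i] :=
  code_posEquiv _ _ _ _ _ _

theorem code_eT {N : ℕ} (i : Fin (tlist N).length) : codeT (eT N i) = (tlist N)[i] :=
  code_posEquiv _ _ _ _ _ _

theorem idxOf_iff {N : ℕ} (a : Fin (tlist N).length) (g : TN (Fin N)) :
    (a : ℕ) = (tlist N).idxOf (codeT g) ↔ eT N a = g := by
  constructor
  · intro h
    apply codeT_inj
    rw [code_eT]
    have hlt : (tlist N).idxOf (codeT g) < (tlist N).length := h ▸ a.isLt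
    have := List.getElem_idxOf hlt
    rw [← this]
    simp [← h]
  · rintro rfl
    rw [code_eT]
    exact ((nodup_tlist N).idxOf_getElem a a.isLt).symm

theorem mem_preL {N : ℕ} (v : Fin (vlist N).length) (S : List ℕ) :
    ((v : ℕ), S) ∈ preL N ↔ (eV N v = .w ∧ S = [(tlist N).idxOf (codeT (N := N) .c)]) ∨
      ∃ i k, eV N v = .t i k ∧ S = [(tlist N).idxOf (codeT (N := N) (.l k i))] := by
  have h1 : (vlist N).getD v (0, 0, 0) = codeV (eV N v) := by
    rw [code_eV]
    simp [List.getD_eq_getElem?_getD]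
  simp only [preL, List.mem_filterMap, List.mem_range]
  constructor
  · rintro ⟨w, _, hw⟩
    have hwv : w = v := by
      split_ifs at hw <;> simp at hw <;> exact hw.1
    subst hwv
    rw [h1] at hw
    cases hg : eV N v <;> rw [hg] at hw <;> simp [codeV] at hw
    · exact Or.inl ⟨rfl, hw.symm⟩
    · exact Or.inr ⟨_, _, rfl, hw.symm⟩
  · rintro (⟨hg, rfl⟩ | ⟨i, k, hg, rfl⟩)
    · refine ⟨v, v.isLt, ?_⟩
      rw [h1, hg]
      simp [codeV, codeT]
    · refine ⟨v, v.isLt, ?_⟩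
      rw [h1, hg]
      simp [codeV, codeT]

theorem mem_pre (E : List (ℕ × ℕ)) (v : Fin (vlist (size E)).length) :
    v ∈ (raw E).pre ↔ eV _ v ∈ preV (Fin (size E)) := by
  show (∃ S, ((v : ℕ), S) ∈ preL (size E)) ↔ _
  simp only [mem_preL, preV, Set.mem_ofPred_eq]
  constructor
  · rintro ⟨S, ⟨h, _⟩ | ⟨i, k, h, _⟩⟩
    · exact Or.inl h
    · exact Or.inr ⟨i, k, h⟩
  · rintro (h | ⟨i, k, h⟩)
    · exact ⟨_, Or.inl ⟨h, rfl⟩⟩
    · exact ⟨_, Or.inr ⟨i, k, h, rfl⟩⟩

theorem mem_rep (E : List (ℕ × ℕ)) (v : Fin (vlist (size E)).length)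
    (a : Fin (tlist (size E)).length) :
    a ∈ (raw E).rep v ↔ eT _ a ∈ repV (eV _ v) := by
  show (∃ S, ((v : ℕ), S) ∈ preL (size E) ∧ (a : ℕ) ∈ S) ↔ _
  simp only [mem_preL]
  constructor
  · rintro ⟨S, ⟨h, rfl⟩ | ⟨i, k, h, rfl⟩, ha⟩
    · rw [h]
      exact (idxOf_iff a _).1 (List.mem_singleton.1 ha)
    · rw [h]
      exact (idxOf_iff a _).1 (List.mem_singleton.1 ha)
  · intro h
    cases hg : eV (size E) v <;> rw [hg] at h <;> simp only [repV, Set.mem_singleton_iff,
      Set.mem_empty_iff_false] at h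
    · exact ⟨_, Or.inl ⟨rfl, rfl⟩, List.mem_singleton.2 ((idxOf_iff a _).2 h)⟩
    · exact ⟨_, Or.inr ⟨_, _, rfl, rfl⟩, List.mem_singleton.2 ((idxOf_iff a _).2 h)⟩

/-- The graph of the instance is the gadget graph. -/
noncomputable def isoG (E : List (ℕ × ℕ)) : (raw E).graph ≃g gadget (colGraph E) :=
  isoOf (vlist (size E)) (relL E) (GV.rel (colGraph E)) codeV (eV _) code_eV (relL_iff E)

/-- The tree of the instance is the given tree of the gadget. -/
noncomputable def isoT (E : List (ℕ × ℕ)) : (raw E).tree ≃g (givenTree (Fin (size E))).graph :=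
  isoOf (tlist (size E)) relT (fun x y => (givenTree (Fin (size E))).parent x = y) codeT (eT _)
    code_eT relT_iff

theorem isoG_apply (E : List (ℕ × ℕ)) (v : Fin (vlist (size E)).length) :
    isoG E v = eV _ v := rfl

theorem isoT_apply (E : List (ℕ × ℕ)) (v : Fin (tlist (size E)).length) :
    isoT E v = eT _ v := rfl

theorem rep_eq (E : List (ℕ × ℕ)) (v : Fin (vlist (size E)).length) :
    repV (isoG E v) = isoT E '' (raw E).rep v := by
  ext y
  constructor
  · intro hy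
    refine ⟨(isoT E).symm y, (mem_rep E v _).2 ?_, by simp⟩
    have : eT (size E) ((isoT E).symm y) = y := (isoT E).apply_symm_apply y
    rw [this]
    exact hy
  · rintro ⟨a, ha, rfl⟩
    exact (mem_rep E v a).1 ha

theorem raw_valid (E : List (ℕ × ℕ)) :
    IsPathRep ((raw E).graph.induce (raw E).pre) (raw E).tree fun v => (raw E).rep v := by
  have h := (gadgetRep (colGraph E)).isRep
  let φ : (raw E).graph.induce (raw E).pre ≃g (gadget (colGraph E)).induce (preV _) :=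
    { toEquiv := (isoG E).toEquiv.subtypeEquiv (fun v => mem_pre E v)
      map_rel_iff' := (isoG E).map_rel_iff' }
  exact isPathRep_of_iso φ (isoT E) _ _ (fun v => rep_eq E v.1) h

/-- The instance of `REPEXT(PATH, BOTH)` built from an instance of 3-colourability. -/
def inst (E : Col3Inst) : Inst := ⟨raw E.1, raw_valid E.1⟩

theorem inst_iff (E : Col3Inst) : Col3Yes E ↔ Extendable (inst E).1.graph (partialRep (inst E)) := by
  rw [colorable_iff, reduction]
  refine (extendable_iff_of_iso (partialRep (inst E)) (gadgetRep (colGraph E.1)) (isoG E.1)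
    (isoT E.1) (mem_pre E.1) (fun v _ => rep_eq E.1 v)).symm

theorem polyTime_inst : PolyTime inst :=
  PolyTime.mk (PolyTime.comp polyTime_raw PolyTime.val_aux) fun E => raw_valid E.1

/-- 3-colourability reduces to `REPEXT(PATH, BOTH)`. -/
theorem col3_reducesS : COL3.ReducesS
    (Problem.of Inst fun x => Extendable x.1.graph (partialRep x)) :=
  ⟨inst, polyTime_inst.scomp, inst_iff⟩

end Pool.Agent.Helper81.PathExt
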