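import Pool.Agent.Helper81.PathNPDefs

/-!
Solutions of instances of `REPEXT(PATH, BOTH)` given by rooted trees and lists, and a
polynomial bound on their size.
-/

namespace Pool.Agent.Helper81.PathExt

/-- Adjacency in the rooted tree with parent map `par`. -/
def PAdj {B : Type} (par : B → B) (a b : B) : Prop := a ≠ b ∧ (par a = b ∨ par b = a)

theorem PAdj.symm {B : Type} {par : B → B} {a b : B} (h : PAdj par a b) : PAdj par b a :=
  ⟨h.1.symm, h.2.symm⟩

/-- Adjacency in the tree of the instance. -/
def tadj (x : Raw) (a b : ℕ) : Prop := a ≠ b ∧ ((a, b) ∈ x.2.1.2 ∨ (b, a) ∈ x.2.1.2)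

/-- Adjacency in the graph of the instance. -/
def gadj (x : Raw) (u v : ℕ) : Prop := (u, v) ∈ x.1.2 ∨ (v, u) ∈ x.1.2

/-- The number `a` is in the pre-drawn set of `v`. -/
def inRep (x : Raw) (v a : ℕ) : Prop := ∃ S, (v, S) ∈ x.2.2 ∧ a ∈ S

/-- The vertex `v` is pre-drawn. -/
def isPre (x : Raw) (v : ℕ) : Prop := ∃ S, (v, S) ∈ x.2.2

/-- A solution given by a rooted tree on the set `X` with parent map `par`. -/
structure IsSol (x : Raw) {B : Type} (X : Finset B) (root : B) (par : B → B) (dep : B → ℕ)
    (node : ℕ → B) (P : ℕ → ℕ → List B) (pl : ℕ → List B) : Prop where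
  root_mem : root ∈ X
  par_root : par root = root
  par_mem : ∀ b ∈ X, par b ∈ X
  dep_lt : ∀ b ∈ X, b ≠ root → dep (par b) < dep b
  node_mem : ∀ a, a < x.2.1.1 → node a ∈ X
  node_inj : ∀ a b, a < x.2.1.1 → b < x.2.1.1 → node a = node b → a = b
  pl_ne : ∀ v, v < x.1.1 → pl v ≠ []
  pl_nodup : ∀ v, v < x.1.1 → (pl v).Nodup
  pl_mem : ∀ v, v < x.1.1 → ∀ z ∈ pl v, z ∈ X
  pl_chain : ∀ v, v < x.1.1 → (pl v).IsChain (PAdj par)
  pl_inter : ∀ u v, u < x.1.1 → v < x.1.1 → u ≠ v → ((∃ z ∈ pl u, z ∈ pl v) ↔ gadj x u v)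
  P_nodup : ∀ a b, a < x.2.1.1 → b < x.2.1.1 → tadj x a b → (P a b).Nodup
  P_mem : ∀ a b, a < x.2.1.1 → b < x.2.1.1 → tadj x a b → ∀ z ∈ P a b, z ∈ X
  P_chain : ∀ a b, a < x.2.1.1 → b < x.2.1.1 → tadj x a b → (P a b).IsChain (PAdj par)
  P_head : ∀ a b, a < x.2.1.1 → b < x.2.1.1 → tadj x a b → (P a b).head? = some (node a)
  P_last : ∀ a b, a < x.2.1.1 → b < x.2.1.1 → tadj x a b → (P a b).getLast? = some (node b)
  P_symm : ∀ a b, a < x.2.1.1 → b < x.2.1.1 → tadj x a b → P b a = (P a b).reverse
  P_node : ∀ a b, a < x.2.1.1 → b < x.2.1.1 → tadj x a b → ∀ c, c < x.2.1.1 →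
    node c ∈ P a b → c = a ∨ c = b
  P_disj : ∀ a b a' b', a < x.2.1.1 → b < x.2.1.1 → a' < x.2.1.1 → b' < x.2.1.1 →
    tadj x a b → tadj x a' b' → ¬ (a = a' ∧ b = b') → ¬ (a = b' ∧ b = a') →
    ∀ z ∈ P a b, z ∈ P a' b' → ∃ c, c < x.2.1.1 ∧ node c = z
  image : ∀ v, v < x.1.1 → isPre x v → ∀ z ∈ X, (z ∈ pl v ↔
    ((∃ a, a < x.2.1.1 ∧ inRep x v a ∧ node a = z) ∨
      ∃ a b, a < x.2.1.1 ∧ b < x.2.1.1 ∧ tadj x a b ∧ inRep x v a ∧ inRep x v b ∧ z ∈ P a b))

/-! ### Contraction -/

section contract

variable {B : Type} [DecidableEq B]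

/-- The parent map after removing `z`. -/
def cpar (par : B → B) (z b : B) : B := if par b = z then par z else par b

theorem PAdj.cpar {par : B → B} {z a b : B} (ha : a ≠ z) (hb : b ≠ z) (h : PAdj par a b) :
    PAdj (cpar par z) a b := by
  refine ⟨h.1, ?_⟩
  rcases h.2 with h | h
  · left; unfold PathExt.cpar; rw [if_neg (by rw [h]; exact hb), h]
  · right; unfold PathExt.cpar; rw [if_neg (by rw [h]; exact ha), h]

theorem PAdj.cpar_through {par : B → B} {z a b : B} (hab : a ≠ b)
    (hch : ¬ (par a = z ∧ par b = z)) (h1 : PAdj par a z) (h2 : PAdj par z b) :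
    PAdj (PathExt.cpar par z) a b := by
  refine ⟨hab, ?_⟩
  rcases h1.2 with h1 | h1 <;> rcases h2.2 with h2 | h2
  · left; unfold PathExt.cpar; rw [if_pos h1, h2]
  · exact absurd ⟨h1, h2⟩ hch
  · exact absurd (h1.symm.trans h2) hab
  · right; unfold PathExt.cpar; rw [if_pos h2, h1]

theorem isChain_cpar_of_not_mem {par : B → B} {z : B} : ∀ {l : List B}, z ∉ l →
    l.IsChain (PAdj par) → l.IsChain (PAdj (PathExt.cpar par z))
  | [], _, _ => List.IsChain.nil
  | [a], _, _ => List.IsChain.singleton a
  | a :: b :: l, hz, h => by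
    rw [List.isChain_cons_cons] at h ⊢
    simp only [List.mem_cons, not_or] at hz
    exact ⟨h.1.cpar (Ne.symm hz.1) (Ne.symm hz.2.1),
      isChain_cpar_of_not_mem (by simp [hz]) h.2⟩

theorem filter_ne_of_not_mem {z : B} {l : List B} (h : z ∉ l) : l.filter (fun b => b ≠ z) = l := by
  rw [List.filter_eq_self]
  intro a ha
  simp only [ne_eq, decide_not, Bool.not_eq_eq_eq_not, Bool.not_true, decide_eq_false_iff_not]
  rintro rfl
  exact h ha

theorem isChain_filter {par : B → B} {z : B} : ∀ {l : List B}, l.Nodup →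
    (∀ a ∈ l, ∀ b ∈ l, par a = z → par b = z → a = b) → l.IsChain (PAdj par) →
    (l.filter (fun b => b ≠ z)).IsChain (PAdj (PathExt.cpar par z))
  | [], _, _, _ => List.IsChain.nil
  | [a], _, _, _ => by
    by_cases h : a = z
    · simp [h]
    · simp [h]
  | a :: b :: l, hn, hc, h => by
    rw [List.isChain_cons_cons] at h
    by_cases ha : a = z
    · subst ha
      have h1 : a ∉ b :: l := (List.nodup_cons.1 hn).1
      have h2 : (a :: b :: l).filter (fun b => b ≠ a) = b :: l := by
        rw [List.filter_cons_of_neg (by simp), filter_ne_of_not_mem h1]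
      rw [h2]
      exact isChain_cpar_of_not_mem h1 h.2
    · by_cases hb : b = z
      · subst hb
        have hn2 := (List.nodup_cons.1 hn).2
        have h1 : b ∉ l := (List.nodup_cons.1 hn2).1
        have h2 : (a :: b :: l).filter (fun c => c ≠ b) = a :: l := by
          rw [List.filter_cons_of_pos (by simpa using ha), List.filter_cons_of_neg (by simp),
            filter_ne_of_not_mem h1]
        rw [h2]
        rcases l with _ | ⟨c, l⟩
        · simp
        · rw [List.isChain_cons_cons] at h ⊢
          have hac : a ≠ c := by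
            have := (List.nodup_cons.1 hn).1
            intro hac
            apply this
            simp [hac]
          refine ⟨PAdj.cpar_through hac ?_ h.1 h.2.1, isChain_cpar_of_not_mem h1 h.2.2⟩
          rintro ⟨h3, h4⟩
          exact hac (hc a (by simp) c (by simp) h3 h4)
      · have ih := isChain_filter (List.nodup_cons.1 hn).2
          (fun a' ha' b' hb' => hc a' (by simp [ha']) b' (by simp [hb'])) h.2
        have h2 : (a :: b :: l).filter (fun c => c ≠ z) =
            a :: (b :: l).filter (fun c => c ≠ z) := by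
          rw [List.filter_cons_of_pos (by simpa using ha)]
        rw [h2]
        rw [List.filter_cons_of_pos (by simpa using hb)] at ih ⊢
        rw [List.isChain_cons_cons]
        exact ⟨h.1.cpar ha hb, ih⟩

omit [DecidableEq B] in
theorem par_mem_of_interior {par : B → B} {z : B} {l : List B} (hn : l.Nodup)
    (hc : ∀ a ∈ l, ∀ b ∈ l, par a = z → par b = z → a = b) (h : l.IsChain (PAdj par))
    (hz : z ∈ l) (h1 : l.head? ≠ some z) (h2 : l.getLast? ≠ some z) : par z ∈ l := by
  obtain ⟨l1, l2, rfl⟩ := List.append_of_mem hz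
  rcases List.eq_nil_or_concat l1 with rfl | ⟨l1, a, rfl⟩
  · simp at h1
  · rcases l2 with _ | ⟨b, l2⟩
    · simp at h2
    · simp only [List.concat_eq_append, List.append_assoc, List.cons_append,
        List.nil_append] at *
      rw [List.isChain_append] at h
      obtain ⟨_, h, _⟩ := h
      rw [List.isChain_cons_cons, List.isChain_cons_cons] at h
      obtain ⟨h3, h4, _⟩ := h
      have hab : a ≠ b := by
        rw [List.nodup_append] at hn
        obtain ⟨_, hn, _⟩ := hn
        simp only [List.nodup_cons, List.mem_cons, not_or] at hn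
        exact hn.1.2.1
      rcases h3.2 with h3 | h3
      · rcases h4.2 with h4 | h4
        · rw [h4]; simp
        · exact absurd (hc a (by simp) b (by simp) h3 h4) hab
      · rw [h3]; simp

theorem IsSol.contract {x : Raw} {X : Finset B} {root : B} {par : B → B} {dep : B → ℕ}
    {node : ℕ → B} {P : ℕ → ℕ → List B} {pl : ℕ → List B}
    (h : IsSol x X root par dep node P pl) {z : B} (hz : z ∈ X) (hroot : z ≠ root)
    (hnode : ∀ a, a < x.2.1.1 → node a ≠ z)
    (hpl : ∀ v, v < x.1.1 → (pl v).head? ≠ some z ∧ (pl v).getLast? ≠ some z)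
    (hch : ∀ a ∈ X, ∀ b ∈ X, par a = z → par b = z → a = b) :
    IsSol x (X.erase z) root (cpar par z) dep node
      (fun a b => (P a b).filter (fun b => b ≠ z)) (fun v => (pl v).filter (fun b => b ≠ z)) := by
  have hdz := h.dep_lt z hz hroot
  have hpz : par z ≠ z := fun e => by rw [e] at hdz; exact lt_irrefl _ hdz
  have hint : ∀ v, v < x.1.1 → z ∈ pl v → par z ∈ pl v := fun v hv hzv =>
    par_mem_of_interior (h.pl_nodup v hv)
      (fun a ha b hb => hch a (h.pl_mem v hv a ha) b (h.pl_mem v hv b hb)) (h.pl_chain v hv) hzv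
      (hpl v hv).1 (hpl v hv).2
  refine ⟨?_, ?_, ?_, ?_, ?_, h.node_inj, ?_, ?_, ?_, ?_, ?_, ?_, ?_, ?_, ?_, ?_, ?_, ?_, ?_, ?_⟩
  · exact Finset.mem_erase.2 ⟨hroot.symm, h.root_mem⟩
  · unfold PathExt.cpar
    rw [h.par_root, if_neg hroot.symm]
  · intro b hb
    rw [Finset.mem_erase] at hb ⊢
    unfold PathExt.cpar
    split_ifs with hbz
    · exact ⟨hpz, h.par_mem z hz⟩
    · exact ⟨hbz, h.par_mem b hb.2⟩
  · intro b hb hbr
    rw [Finset.mem_erase] at hb
    have h1 := h.dep_lt b hb.2 hbr
    unfold PathExt.cpar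
    split_ifs with hbz
    · rw [hbz] at h1; omega
    · exact h1
  · intro a ha
    exact Finset.mem_erase.2 ⟨hnode a ha, h.node_mem a ha⟩
  · intro v hv
    by_cases hzv : z ∈ pl v
    · exact List.ne_nil_of_mem (List.mem_filter.2 ⟨hint v hv hzv, by simpa using hpz⟩)
    · rw [filter_ne_of_not_mem hzv]
      exact h.pl_ne v hv
  · intro v hv
    exact (h.pl_nodup v hv).filter _
  · intro v hv b hb
    rw [List.mem_filter] at hb
    exact Finset.mem_erase.2 ⟨by simpa using hb.2, h.pl_mem v hv b hb.1⟩
  · intro v hv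
    exact isChain_filter (h.pl_nodup v hv)
      (fun a ha b hb => hch a (h.pl_mem v hv a ha) b (h.pl_mem v hv b hb)) (h.pl_chain v hv)
  · intro u v hu hv huv
    rw [← h.pl_inter u v hu hv huv]
    constructor
    · rintro ⟨b, hb, hb'⟩
      exact ⟨b, (List.mem_filter.1 hb).1, (List.mem_filter.1 hb').1⟩
    · rintro ⟨b, hb, hb'⟩
      by_cases hbz : b = z
      · subst hbz
        exact ⟨par b, List.mem_filter.2 ⟨hint u hu hb, by simpa using hpz⟩,
          List.mem_filter.2 ⟨hint v hv hb', by simpa using hpz⟩⟩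
      · exact ⟨b, List.mem_filter.2 ⟨hb, by simpa using hbz⟩,
          List.mem_filter.2 ⟨hb', by simpa using hbz⟩⟩
  · intro a b ha hb hab
    exact (h.P_nodup a b ha hb hab).filter _
  · intro a b ha hb hab w hw
    rw [List.mem_filter] at hw
    exact Finset.mem_erase.2 ⟨by simpa using hw.2, h.P_mem a b ha hb hab w hw.1⟩
  · intro a b ha hb hab
    exact isChain_filter (h.P_nodup a b ha hb hab)
      (fun c hc d hd => hch c (h.P_mem a b ha hb hab c hc) d (h.P_mem a b ha hb hab d hd))
      (h.P_chain a b ha hb hab)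
  · intro a b ha hb hab
    have h1 := h.P_head a b ha hb hab
    obtain ⟨l, hl⟩ := List.head?_eq_some_iff.1 h1
    rw [hl, List.filter_cons_of_pos (by simpa using hnode a ha)]
    rfl
  · intro a b ha hb hab
    have h1 := h.P_last a b ha hb hab
    obtain ⟨l, hl⟩ := List.getLast?_eq_some_iff.1 h1
    rw [hl, List.filter_append]
    have : [node b].filter (fun c => c ≠ z) = [node b] := by
      rw [List.filter_cons_of_pos (by simpa using hnode b hb)]
      rfl
    rw [this]
    simp
  · intro a b ha hb hab
    show (P b a).filter _ = ((P a b).filter _).reverse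
    rw [h.P_symm a b ha hb hab, List.filter_reverse]
  · intro a b ha hb hab c hc hmem
    exact h.P_node a b ha hb hab c hc (List.mem_filter.1 hmem).1
  · intro a b a' b' ha hb ha' hb' h1 h2 h3 h4 w hw hw'
    exact h.P_disj a b a' b' ha hb ha' hb' h1 h2 h3 h4 w (List.mem_filter.1 hw).1
      (List.mem_filter.1 hw').1
  · intro v hv hpre w hw
    rw [Finset.mem_erase] at hw
    have hwz : (decide (w ≠ z)) = true := by simpa using hw.1
    have h1 := h.image v hv hpre w hw.2
    simp only [List.mem_filter, hwz, and_true]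
    exact h1

/-- The marked elements: images of nodes and ends of paths. -/
def marked (x : Raw) (node : ℕ → B) (pl : ℕ → List B) : Finset B :=
  (Finset.range x.2.1.1).image node ∪ (Finset.range x.1.1).biUnion
    (fun v => ((pl v).head?.toFinset ∪ (pl v).getLast?.toFinset))

theorem card_marked_le (x : Raw) (node : ℕ → B) (pl : ℕ → List B) :
    (marked x node pl).card ≤ x.2.1.1 + 2 * x.1.1 := by
  unfold marked
  refine (Finset.card_union_le _ _).trans (Nat.add_le_add ?_ ?_)
  · exact Finset.card_image_le.trans (by simp)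
  · refine Finset.card_biUnion_le.trans ?_
    have : ∀ v ∈ Finset.range x.1.1,
        ((pl v).head?.toFinset ∪ (pl v).getLast?.toFinset).card ≤ 2 := by
      intro v _
      refine (Finset.card_union_le _ _).trans ?_
      have h : ∀ o : Option B, o.toFinset.card ≤ 1 := by
        intro o
        cases o <;> simp
      have h1 := h (pl v).head?
      have h2 := h (pl v).getLast?
      omega
    refine (Finset.sum_le_card_nsmul _ _ _ this).trans ?_
    simp [mul_comm]

theorem not_mem_marked {x : Raw} {node : ℕ → B} {pl : ℕ → List B} {z : B}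
    (h : z ∉ marked x node pl) : (∀ a, a < x.2.1.1 → node a ≠ z) ∧
      ∀ v, v < x.1.1 → (pl v).head? ≠ some z ∧ (pl v).getLast? ≠ some z := by
  simp only [marked, Finset.mem_union, Finset.mem_image, Finset.mem_range, Finset.mem_biUnion,
    Option.mem_toFinset, Option.mem_def, not_or, not_exists, not_and] at h
  exact ⟨h.1, fun v hv => h.2 v hv⟩

theorem IsSol.exists_small {x : Raw} {root : B} {dep : B → ℕ} {node : ℕ → B}
    (hroot : ∃ a, a < x.2.1.1 ∧ node a = root) : ∀ (N : ℕ) (X : Finset B) (par : B → B)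
    (P : ℕ → ℕ → List B) (pl : ℕ → List B), X.card = N → IsSol x X root par dep node P pl →
    ∃ (X : Finset B) (par : B → B) (P : ℕ → ℕ → List B) (pl : ℕ → List B),
      IsSol x X root par dep node P pl ∧ X.card ≤ 2 * (x.2.1.1 + 2 * x.1.1) := by
  intro N
  induction N using Nat.strong_induction_on with
  | _ N ih =>
    intro X par P pl hN h
    by_cases hsmall : X.card ≤ 2 * (x.2.1.1 + 2 * x.1.1)
    · exact ⟨X, par, P, pl, h, hsmall⟩
    · -- find a removable element
      have key : ∃ z ∈ X, z ∉ marked x node pl ∧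
          ∀ a ∈ X, ∀ b ∈ X, par a = z → par b = z → a = b := by
        by_contra hno
        push Not at hno
        have h1 : (X.erase root).card = ∑ b ∈ X, ((X.erase root).filter (par · = b)).card :=
          Finset.card_eq_sum_card_fiberwise (fun b hb =>
            h.par_mem b (Finset.mem_of_mem_erase hb))
        have h2 : ∀ z ∈ X \ marked x node pl, 2 ≤ ((X.erase root).filter (par · = z)).card := by
          intro z hz
          rw [Finset.mem_sdiff] at hz
          obtain ⟨a, ha, b, hb, h3, h4, h5⟩ := hno z hz.1 hz.2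
          have hzr : z ≠ root := by
            rintro rfl
            obtain ⟨c, hc, hc'⟩ := hroot
            exact (not_mem_marked hz.2).1 c hc hc'
          have har : a ≠ root := by
            rintro rfl
            exact hzr (h3.symm.trans h.par_root)
          have hbr : b ≠ root := by
            rintro rfl
            exact hzr (h4.symm.trans h.par_root)
          have : ({a, b} : Finset B) ⊆ (X.erase root).filter (par · = z) := by
            intro c hc
            simp only [Finset.mem_insert, Finset.mem_singleton] at hc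
            rcases hc with rfl | rfl
            · simp [ha, har, h3]
            · simp [hb, hbr, h4]
          exact (Finset.card_pair h5).symm.le.trans (Finset.card_le_card this)
        have h3 : (X \ marked x node pl).card * 2 ≤ (X.erase root).card := by
          rw [h1]
          refine le_trans ?_ (Finset.sum_le_sum_of_subset
            (Finset.sdiff_subset : X \ marked x node pl ⊆ X))
          have := Finset.card_nsmul_le_sum _ _ _ h2
          simpa using this
        have h4 := Finset.card_erase_lt_of_mem h.root_mem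
        have h5 := Finset.le_card_sdiff (marked x node pl) X
        have h6 := card_marked_le x node pl
        omega
      obtain ⟨z, hz, hzm, hch⟩ := key
      have hzr : z ≠ root := by
        rintro rfl
        obtain ⟨c, hc, hc'⟩ := hroot
        exact (not_mem_marked hzm).1 c hc hc'
      obtain ⟨h1, h2⟩ := not_mem_marked hzm
      exact ih _ (hN ▸ Finset.card_erase_lt_of_mem hz) _ _ _ _ rfl
        (h.contract hz hzr h1 h2 hch)

end contract

end Pool.Agent.Helper81.PathExt
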