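import Pool.Agent.Helper81.PathSol
import Pool.Agent.Helper81.PathExtGadget

/-!
List solutions of instances of `REPEXT(PATH, BOTH)`: soundness and completeness.
-/

namespace Pool.Agent.Helper81.PathExt

open SimpleGraph

theorem tree_adj_iff (x : Raw) (a b : Fin x.2.1.1) : x.tree.Adj a b ↔ tadj x a b := by
  show (a ≠ b ∧ (_ ∨ _)) ↔ _
  simp only [tadj, ne_eq, Fin.val_inj]

theorem graph_adj_iff (x : Raw) (a b : Fin x.1.1) :
    x.graph.Adj a b ↔ a ≠ b ∧ gadj x a b := Iff.rfl

/-! ### Soundness -/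

section sound

variable {B : Type} [DecidableEq B] {x : Raw} {X : Finset B} {root : B} {par : B → B}
  {dep : B → ℕ} {node : ℕ → B} {P : ℕ → ℕ → List B} {pl : ℕ → List B}

/-- The rooted tree of a solution. -/
def IsSol.rooted (h : IsSol x X root par dep node P pl) : RootedTree {b // b ∈ X} where
  root := ⟨root, h.root_mem⟩
  parent b := ⟨par b, h.par_mem b b.2⟩
  depth b := dep b
  parent_root := Subtype.ext h.par_root
  depth_parent b hb := h.dep_lt b b.2 (fun e => hb (Subtype.ext e))

omit [DecidableEq B] in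
theorem IsSol.adj_iff (h : IsSol x X root par dep node P pl) (a b : {b // b ∈ X}) :
    h.rooted.graph.Adj a b ↔ PAdj par a b := by
  show (a ≠ b ∧ ((⟨par a, _⟩ : {b // b ∈ X}) = b ∨ (⟨par b, _⟩ : {b // b ∈ X}) = a)) ↔ _
  simp only [PAdj, ne_eq, Subtype.ext_iff]

/-- A list of elements of `X`. -/
def attachL (X : Finset B) (l : List B) (hl : ∀ z ∈ l, z ∈ X) : List {b // b ∈ X} :=
  l.attachWith _ hl

omit [DecidableEq B] in
theorem map_attachL (X : Finset B) (l : List B) (hl : ∀ z ∈ l, z ∈ X) :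
    (attachL X l hl).map Subtype.val = l := by
  simp [attachL]

omit [DecidableEq B] in
theorem mem_attachL (X : Finset B) (l : List B) (hl : ∀ z ∈ l, z ∈ X) (z : {b // b ∈ X}) :
    z ∈ attachL X l hl ↔ z.1 ∈ l := by
  conv_rhs => rw [← map_attachL X l hl]
  rw [List.mem_map]
  constructor
  · intro hz; exact ⟨z, hz, rfl⟩
  · rintro ⟨w, hw, hwz⟩
    rwa [← Subtype.ext hwz]

theorem IsSol.chain_attachL (h : IsSol x X root par dep node P pl) (l : List B)
    (hl : ∀ z ∈ l, z ∈ X) (hc : l.IsChain (PAdj par)) :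
    (attachL X l hl).IsChain h.rooted.graph.Adj := by
  have : ∀ L : List {b // b ∈ X}, (L.map Subtype.val).IsChain (PAdj par) →
      L.IsChain h.rooted.graph.Adj := by
    intro L hL
    rw [List.isChain_map] at hL
    exact hL.imp fun a b hab => (h.adj_iff a b).2 hab
  exact this _ (by rw [map_attachL]; exact hc)

theorem IsSol.isSubpath (h : IsSol x X root par dep node P pl) (l : List B)
    (hl : ∀ z ∈ l, z ∈ X) (hc : l.IsChain (PAdj par)) (hn : l.Nodup) (hne : l ≠ []) :
    IsSubpath h.rooted.graph {z | z.1 ∈ l} := by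
  have hne' : attachL X l hl ≠ [] := by
    intro h0
    apply hne
    rw [← map_attachL X l hl, h0]
    rfl
  refine ⟨_, _, Walk.ofSupport _ hne' (h.chain_attachL l hl hc), ?_, ?_⟩
  · rw [Walk.isPath_def, Walk.support_ofSupport]
    have : ((attachL X l hl).map Subtype.val).Nodup := by rw [map_attachL]; exact hn
    exact this.of_map _
  · ext z
    rw [Set.mem_ofPred_eq, Set.mem_ofPred_eq, Walk.support_ofSupport, mem_attachL]

theorem IsSol.sound (h : IsSol x X root par dep node P pl)
    (hx : IsPathRep (x.graph.induce x.pre) x.tree fun v => x.rep v) :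
    Extendable x.graph (partialRep ⟨x, hx⟩) := by
  have hadj : ∀ {a b : Fin x.2.1.1}, x.tree.Adj a b → tadj x a b :=
    fun h => (tree_adj_iff x _ _).1 h
  -- the lists of the subdivided edges
  let L : ∀ {a b : Fin x.2.1.1}, x.tree.Adj a b → List {b // b ∈ X} := fun {a b} hab =>
    attachL X (P a b) (h.P_mem a b a.2 b.2 (hadj hab))
  have hLne : ∀ {a b : Fin x.2.1.1} (hab : x.tree.Adj a b), L hab ≠ [] := by
    intro a b hab h0
    have h1 := h.P_head a b a.2 b.2 (hadj hab)
    rw [← map_attachL X (P a b) (h.P_mem a b a.2 b.2 (hadj hab))] at h1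
    change ((L hab).map _).head? = _ at h1
    rw [h0] at h1
    simp at h1
  have hLch : ∀ {a b : Fin x.2.1.1} (hab : x.tree.Adj a b),
      (L hab).IsChain h.rooted.graph.Adj := fun {a b} hab =>
    h.chain_attachL _ _ (h.P_chain a b a.2 b.2 (hadj hab))
  have hLhead : ∀ {a b : Fin x.2.1.1} (hab : x.tree.Adj a b), (L hab).head (hLne hab) =
      ⟨node a, h.node_mem a a.2⟩ := by
    intro a b hab
    have h1 := h.P_head a b a.2 b.2 (hadj hab)
    rw [← map_attachL X (P a b) (h.P_mem a b a.2 b.2 (hadj hab))] at h1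
    change ((L hab).map _).head? = _ at h1
    rw [List.head?_map, List.head?_eq_some_head (hLne hab)] at h1
    simp only [Option.map_some, Option.some.injEq] at h1
    exact Subtype.ext h1
  have hLlast : ∀ {a b : Fin x.2.1.1} (hab : x.tree.Adj a b), (L hab).getLast (hLne hab) =
      ⟨node b, h.node_mem b b.2⟩ := by
    intro a b hab
    have h1 := h.P_last a b a.2 b.2 (hadj hab)
    rw [← map_attachL X (P a b) (h.P_mem a b a.2 b.2 (hadj hab))] at h1
    change ((L hab).map _).getLast? = _ at h1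
    rw [List.getLast?_map, List.getLast?_eq_some_getLast (hLne hab)] at h1
    simp only [Option.map_some, Option.some.injEq] at h1
    exact Subtype.ext h1
  let path : ∀ {a b : Fin x.2.1.1}, x.tree.Adj a b → h.rooted.graph.Walk
      ⟨node a, h.node_mem a a.2⟩ ⟨node b, h.node_mem b b.2⟩ := fun {a b} hab =>
    (Walk.ofSupport (L hab) (hLne hab) (hLch hab)).copy (hLhead hab) (hLlast hab)
  have hsupp : ∀ {a b : Fin x.2.1.1} (hab : x.tree.Adj a b),
      (path hab).support = L hab := by
    intro a b hab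
    rw [Walk.support_copy, Walk.support_ofSupport]
  have hmem : ∀ {a b : Fin x.2.1.1} (hab : x.tree.Adj a b) (z : {b // b ∈ X}),
      z ∈ (path hab).support ↔ z.1 ∈ P a b := by
    intro a b hab z
    rw [hsupp hab]
    exact mem_attachL _ _ _ _
  let m : SubdivIn x.tree h.rooted.graph :=
    { node := fun a => ⟨node a, h.node_mem a a.2⟩
      node_inj := fun a b hab => Fin.ext (h.node_inj a b a.2 b.2 (congrArg Subtype.val hab))
      path := path
      isPath := fun {a b} hab => by
        rw [Walk.isPath_def, hsupp hab]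
        have : ((L hab).map Subtype.val).Nodup := by
          rw [map_attachL]; exact h.P_nodup a b a.2 b.2 (hadj hab)
        exact this.of_map _
      support_symm := fun {a b} hab => by
        rw [hsupp hab.symm, hsupp hab]
        apply List.map_injective_iff.2 Subtype.val_injective
        rw [List.map_reverse, map_attachL, map_attachL]
        exact h.P_symm a b a.2 b.2 (hadj hab)
      node_mem := fun {a b} hab c hc => by
        rw [hmem hab] at hc
        rcases h.P_node a b a.2 b.2 (hadj hab) c c.2 hc with h1 | h1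
        · exact Or.inl (Fin.ext h1)
        · exact Or.inr (Fin.ext h1)
      disj := fun {a b a' b'} hab hab' hne z hz hz' => by
        rw [hmem hab] at hz
        rw [hmem hab'] at hz'
        obtain ⟨c, hc, hc'⟩ := h.P_disj a b a' b' a.2 b.2 a'.2 b'.2 (hadj hab) (hadj hab')
          (fun h1 => hne (by rw [Fin.ext h1.1, Fin.ext h1.2]))
          (fun h1 => hne (by rw [Fin.ext h1.1, Fin.ext h1.2]; exact Sym2.eq_swap)) z hz hz'
        exact ⟨⟨c, hc⟩, Subtype.ext hc'⟩ }
  refine ⟨{b // b ∈ X}, inferInstance, h.rooted.graph, m, fun v => {z | z.1 ∈ pl v},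
    ⟨h.rooted.isTree, fun v => h.isSubpath _ (h.pl_mem v v.2) (h.pl_chain v v.2)
      (h.pl_nodup v v.2) (h.pl_ne v v.2), ?_⟩, ?_⟩
  · intro u v huv
    have huv' : (u : ℕ) ≠ v := fun e => huv (Fin.ext e)
    rw [graph_adj_iff, ← h.pl_inter u v u.2 v.2 huv']
    constructor
    · rintro ⟨z, hz, hz'⟩
      exact ⟨huv, z.1, hz, hz'⟩
    · rintro ⟨_, z, hz, hz'⟩
      exact ⟨⟨z, h.pl_mem u u.2 z hz⟩, hz, hz'⟩
  · intro v hv
    have hv' : isPre x v := hv
    ext z
    have h1 := h.image v v.2 hv' z z.2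
    show z.1 ∈ pl v ↔ z ∈ m.image (x.rep v)
    rw [h1]
    simp only [SubdivIn.image, Set.mem_union, Set.mem_image, Set.mem_ofPred_eq]
    constructor
    · rintro (⟨a, ha, ha', rfl'⟩ | ⟨a, b, ha, hb, hab, ha', hb', hz⟩)
      · exact Or.inl ⟨⟨a, ha⟩, ha', Subtype.ext rfl'⟩
      · have hab' : x.tree.Adj ⟨a, ha⟩ ⟨b, hb⟩ := (tree_adj_iff x _ _).2 hab
        exact Or.inr ⟨⟨a, ha⟩, ⟨b, hb⟩, hab', ha', hb', (hmem hab' z).2 hz⟩
    · rintro (⟨a, ha, rfl⟩ | ⟨a, b, hab, ha, hb, hz⟩)
      · exact Or.inl ⟨a, a.2, ha, rfl⟩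
      · exact Or.inr ⟨a, b, a.2, b.2, hadj hab, ha, hb, (hmem hab z).1 hz⟩

end sound

/-! ### Completeness -/

/-- In a tree, adjacency is given by the parent map towards a root. -/
theorem exists_parent {B : Type} {T : SimpleGraph B} (hT : T.IsTree) (r : B) :
    ∃ (par : B → B) (dep : B → ℕ), par r = r ∧ (∀ b, b ≠ r → dep (par b) < dep b) ∧
      ∀ a b, T.Adj a b ↔ PAdj par a b := by
  classical
  have hex : ∀ b, b ≠ r → ∃ c, T.Adj b c ∧ T.dist c r < T.dist b r := by
    intro b hb
    obtain ⟨p, hp⟩ := hT.connected.exists_walk_length_eq_dist b r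
    cases p with
    | nil => exact absurd rfl hb
    | cons h q =>
      refine ⟨_, h, ?_⟩
      have := T.dist_le q
      rw [Walk.length_cons] at hp
      omega
  choose! f hf using hex
  let par : B → B := fun b => if b = r then r else f b
  let D : RootedTree B :=
    { root := r
      parent := par
      depth := fun b => T.dist b r
      parent_root := by simp [par]
      depth_parent := fun b hb => by simp only [par, hb, if_false]; exact (hf b hb).2 }
  have hle : D.graph ≤ T := by
    intro a b hab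
    rcases hab.2 with h | h
    · by_cases ha : a = r
      · exfalso
        apply hab.1
        rw [← h, ha]
        simp [D, par]
      · have : f a = b := by simpa [D, par, ha] using h
        rw [← this]
        exact (hf a ha).1
    · by_cases hb : b = r
      · exfalso
        apply hab.1
        rw [← h, hb]
        simp [D, par]
      · have : f b = a := by simpa [D, par, hb] using h
        rw [← this]
        exact (hf b hb).1.symm
  have hmin := (isTree_iff_minimal_connected.1 hT).2 D.isTree.connected hle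
  have heq : T = D.graph := le_antisymm hmin hle
  refine ⟨par, fun b => T.dist b r, by simp [par], fun b hb => D.depth_parent b hb, ?_⟩
  intro a b
  conv_lhs => rw [heq]
  exact Iff.rfl

theorem IsSol.complete {x : Raw} (hx : IsPathRep (x.graph.induce x.pre) x.tree fun v => x.rep v)
    (h : Extendable x.graph (partialRep ⟨x, hx⟩)) :
    ∃ (B : Type) (_ : DecidableEq B) (X : Finset B) (root : B) (par : B → B) (dep : B → ℕ)
      (node : ℕ → B) (P : ℕ → ℕ → List B) (pl : ℕ → List B),
      IsSol x X root par dep node P pl ∧ ∃ a, a < x.2.1.1 ∧ node a = root := by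
  classical
  obtain ⟨B, hB, T, m, R, hR, hm⟩ := h
  haveI : Fintype B := Fintype.ofFinite B
  obtain ⟨a0⟩ : Nonempty (Fin x.2.1.1) := hx.isTree.connected.nonempty
  change SubdivIn x.tree T at m
  obtain ⟨par, dep, hpar, hdep, hadj⟩ := exists_parent hR.isTree (m.node a0)
  choose s t p hp hs using hR.isSubpath
  have hchain : ∀ {a b : B} (q : T.Walk a b), q.support.IsChain (PAdj par) := fun q =>
    q.isChain_adj_support.imp fun a b hab => (hadj a b).1 hab
  let P : ℕ → ℕ → List B := fun a b =>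
    if h : ∃ (ha : a < x.2.1.1) (hb : b < x.2.1.1), x.tree.Adj ⟨a, ha⟩ ⟨b, hb⟩ then
      (m.path h.choose_spec.choose_spec).support else []
  have hP : ∀ (a b : Fin x.2.1.1) (h : x.tree.Adj a b), P a b = (m.path h).support := by
    intro a b h
    have h' : ∃ (ha : (a : ℕ) < x.2.1.1) (hb : (b : ℕ) < x.2.1.1),
        x.tree.Adj ⟨a, ha⟩ ⟨b, hb⟩ := ⟨a.2, b.2, h⟩
    simp only [P]
    rw [dif_pos h']
  have hP' : ∀ a b (ha : a < x.2.1.1) (hb : b < x.2.1.1) (h : tadj x a b),
      P a b = (m.path ((tree_adj_iff x ⟨a, ha⟩ ⟨b, hb⟩).2 h)).support :=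
    fun a b ha hb h => hP ⟨a, ha⟩ ⟨b, hb⟩ _
  let pl : ℕ → List B := fun v => if h : v < x.1.1 then (p ⟨v, h⟩).support else []
  have hpl : ∀ v (h : v < x.1.1), pl v = (p ⟨v, h⟩).support := fun v h => by simp [pl, h]
  let node : ℕ → B := fun a => if h : a < x.2.1.1 then m.node ⟨a, h⟩ else m.node a0
  have hnode : ∀ a (h : a < x.2.1.1), node a = m.node ⟨a, h⟩ := fun a h => by simp [node, h]
  have hmem : ∀ v (h : v < x.1.1) z, z ∈ pl v ↔ z ∈ R ⟨v, h⟩ := by
    intro v h z
    rw [hpl v h, hs]
    rfl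
  refine ⟨B, inferInstance, Finset.univ, m.node a0, par, dep, node, P, pl, ⟨?_, hpar, ?_, ?_, ?_,
    ?_, ?_, ?_, ?_, ?_, ?_, ?_, ?_, ?_, ?_, ?_, ?_, ?_, ?_, ?_⟩, a0, a0.2, hnode _ _⟩
  · exact Finset.mem_univ _
  · intro b _; exact Finset.mem_univ _
  · intro b _ hb; exact hdep b hb
  · intro a _; exact Finset.mem_univ _
  · intro a b ha hb hab
    rw [hnode a ha, hnode b hb] at hab
    exact congrArg Fin.val (m.node_inj hab)
  · intro v hv
    rw [hpl v hv]
    exact (p _).support_ne_nil
  · intro v hv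
    rw [hpl v hv]
    exact (hp _).support_nodup
  · intro v hv z _; exact Finset.mem_univ _
  · intro v hv
    rw [hpl v hv]
    exact hchain _
  · intro u v hu hv huv
    have h1 := hR.inter_iff ⟨u, hu⟩ ⟨v, hv⟩ (fun e => huv (congrArg Fin.val e))
    rw [graph_adj_iff] at h1
    constructor
    · rintro ⟨z, hz, hz'⟩
      exact (h1.1 ⟨z, (hmem u hu z).1 hz, (hmem v hv z).1 hz'⟩).2
    · intro hg
      obtain ⟨z, hz, hz'⟩ := h1.2 ⟨fun e => huv (congrArg Fin.val e), hg⟩
      exact ⟨z, (hmem u hu z).2 hz, (hmem v hv z).2 hz'⟩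
  · intro a b ha hb hab
    rw [hP' a b ha hb hab]
    exact (m.isPath _).support_nodup
  · intro a b ha hb hab z _; exact Finset.mem_univ _
  · intro a b ha hb hab
    rw [hP' a b ha hb hab]
    exact hchain _
  · intro a b ha hb hab
    rw [hP' a b ha hb hab, hnode a ha, List.head?_eq_some_head (Walk.support_ne_nil _),
      Walk.head_support]
  · intro a b ha hb hab
    rw [hP' a b ha hb hab, hnode b hb, List.getLast?_eq_some_getLast (Walk.support_ne_nil _),
      Walk.getLast_support]
  · intro a b ha hb hab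
    have hba : tadj x b a := ⟨hab.1.symm, hab.2.symm⟩
    rw [hP' a b ha hb hab, hP' b a hb ha hba]
    exact m.support_symm _
  · intro a b ha hb hab c hc hmem
    rw [hP' a b ha hb hab, hnode c hc] at hmem
    rcases m.node_mem _ _ hmem with h1 | h1
    · exact Or.inl (congrArg Fin.val h1)
    · exact Or.inr (congrArg Fin.val h1)
  · intro a b a' b' ha hb ha' hb' hab hab' h1 h2 z hz hz'
    rw [hP' a b ha hb hab] at hz
    rw [hP' a' b' ha' hb' hab'] at hz'
    obtain ⟨c, hc⟩ := m.disj _ _ (by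
      rw [ne_eq, Sym2.eq_iff, not_or]
      exact ⟨fun e => h1 ⟨congrArg Fin.val e.1, congrArg Fin.val e.2⟩,
        fun e => h2 ⟨congrArg Fin.val e.1, congrArg Fin.val e.2⟩⟩) z hz hz'
    exact ⟨c, c.2, by rw [hnode c c.2]; exact hc⟩
  · intro v hv hpre z _
    rw [hmem v hv, hm ⟨v, hv⟩ hpre]
    show z ∈ m.image (x.rep ⟨v, hv⟩) ↔ _
    simp only [SubdivIn.image, Set.mem_union, Set.mem_image, Set.mem_ofPred_eq]
    constructor
    · rintro (⟨a, ha, rfl⟩ | ⟨a, b, hab, ha, hb, hz⟩)
      · exact Or.inl ⟨a, a.2, ha, hnode a a.2⟩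
      · exact Or.inr ⟨a, b, a.2, b.2, (tree_adj_iff x a b).1 hab, ha, hb, by
          rw [hP a b hab]; exact hz⟩
    · rintro (⟨a, ha, ha', rfl⟩ | ⟨a, b, ha, hb, hab, ha', hb', hz⟩)
      · exact Or.inl ⟨⟨a, ha⟩, ha', (hnode a ha).symm⟩
      · rw [hP' a b ha hb hab] at hz
        exact Or.inr ⟨⟨a, ha⟩, ⟨b, hb⟩, _, ha', hb', hz⟩

end Pool.Agent.Helper81.PathExt
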