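import Pool.Agent.Helper81.PathSol2
import Pool.Agent.Helper81.CompC

/-!
Certificates for instances of `REPEXT(PATH, BOTH)`.
-/

namespace Pool.Agent.Helper81.PathExt

open SimpleGraph Pool.Agent.Helper81.CC

/-- Certificates: number of nodes, root, parents, depths, images of nodes, subdivided edges,
paths. -/
abbrev Cert := ℕ × ℕ × List ℕ × List ℕ × List ℕ × List (List (List ℕ)) × List (List ℕ)

/-- The meaning of a certificate. -/
def CertSol (x : Raw) (c : Cert) : Prop :=
  IsSol x (Finset.range c.1) c.2.1 (fun i => c.2.2.1.getD i 0) (fun i => c.2.2.2.1.getD i 0)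
    (fun a => c.2.2.2.2.1.getD a 0) (fun a b => (c.2.2.2.2.2.1.getD a []).getD b [])
    (fun v => c.2.2.2.2.2.2.getD v [])

/-! ### From a solution to a certificate -/

theorem getD_map_range {α : Type} (N : ℕ) (h : ℕ → α) (d : α) {i : ℕ} (hi : i < N) :
    ((List.range N).map h).getD i d = h i := by
  simp [List.getD_eq_getElem?_getD, hi]

theorem isChain_map_of {B : Type} {par : B → B} {par' : ℕ → ℕ} {f : B → ℕ} {X : Finset B}
    (hf : ∀ a ∈ X, ∀ b ∈ X, PAdj par a b → PAdj par' (f a) (f b)) : ∀ {l : List B},
    (∀ z ∈ l, z ∈ X) → l.IsChain (PAdj par) → (l.map f).IsChain (PAdj par')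
  | [], _, _ => List.IsChain.nil
  | [a], _, _ => List.IsChain.singleton _
  | a :: b :: l, hl, h => by
    rw [List.isChain_cons_cons] at h
    rw [List.map_cons, List.map_cons, List.isChain_cons_cons]
    refine ⟨hf a (hl a (by simp)) b (hl b (by simp)) h.1, ?_⟩
    have := isChain_map_of hf (l := b :: l) (fun z hz => hl z (by simp [hz])) h.2
    simpa using this

open Classical in
/-- The certificate of a solution. -/
noncomputable def certOf (x : Raw) {B : Type} (X : Finset B) (root : B) (par : B → B)
    (dep : B → ℕ) (node : ℕ → B) (P : ℕ → ℕ → List B) (pl : ℕ → List B) (f : B → ℕ)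
    (g : ℕ → B) : Cert :=
  (X.card, f root, (List.range X.card).map (fun i => f (par (g i))),
    (List.range X.card).map (fun i => (X.filter (fun y => dep y < dep (g i))).card),
    (List.range x.2.1.1).map (fun a => f (node a)),
    (List.range x.2.1.1).map (fun a => (List.range x.2.1.1).map (fun b =>
      if tadj x a b then (P a b).map f else [])),
    (List.range x.1.1).map (fun v => (pl v).map f))

theorem IsSol.certSol {x : Raw} {B : Type} {X : Finset B} {root : B} {par : B → B}
    {dep : B → ℕ} {node : ℕ → B} {P : ℕ → ℕ → List B} {pl : ℕ → List B}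
    (h : IsSol x X root par dep node P pl) {f : B → ℕ} {g : ℕ → B}
    (hgf : ∀ b ∈ X, g (f b) = b) (hfg : ∀ i, i < X.card → g i ∈ X ∧ f (g i) = i)
    (hf : ∀ b ∈ X, f b < X.card) : CertSol x (certOf x X root par dep node P pl f g) := by
  classical
  have hinj : ∀ a ∈ X, ∀ b ∈ X, f a = f b → a = b := fun a ha b hb hab => by
    rw [← hgf a ha, hab, hgf b hb]
  have epar : ∀ i, i < X.card →
      ((List.range X.card).map (fun i => f (par (g i)))).getD i 0 = f (par (g i)) :=
    fun i hi => getD_map_range _ _ _ hi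
  have edep : ∀ i, i < X.card →
      ((List.range X.card).map (fun i => (X.filter (fun y => dep y < dep (g i))).card)).getD i 0 =
      (X.filter (fun y => dep y < dep (g i))).card :=
    fun i hi => getD_map_range _ _ _ hi
  have enode : ∀ a, a < x.2.1.1 →
      ((List.range x.2.1.1).map (fun a => f (node a))).getD a 0 = f (node a) :=
    fun i hi => getD_map_range _ _ _ hi
  have eP : ∀ a b, a < x.2.1.1 → b < x.2.1.1 → tadj x a b →
      (((List.range x.2.1.1).map (fun a => (List.range x.2.1.1).map (fun b =>
      if tadj x a b then (P a b).map f else []))).getD a []).getD b [] = (P a b).map f := by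
    intro a b ha hb hab
    rw [getD_map_range _ _ _ ha, getD_map_range _ _ _ hb, if_pos hab]
  have epl : ∀ v, v < x.1.1 →
      ((List.range x.1.1).map (fun v => (pl v).map f)).getD v [] = (pl v).map f :=
    fun i hi => getD_map_range _ _ _ hi
  have hadj : ∀ a ∈ X, ∀ b ∈ X, PAdj par a b →
      PAdj (fun i => ((List.range X.card).map (fun i => f (par (g i)))).getD i 0) (f a) (f b) := by
    intro a ha b hb hab
    refine ⟨fun e => hab.1 (hinj a ha b hb e), ?_⟩
    simp only [epar _ (hf a ha), epar _ (hf b hb), hgf a ha, hgf b hb]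
    rcases hab.2 with h1 | h1
    · left; rw [h1]
    · right; rw [h1]
  have hmap : ∀ (l : List B), (∀ z ∈ l, z ∈ X) → ∀ z ∈ X, (f z ∈ l.map f ↔ z ∈ l) := by
    intro l hl z hz
    rw [List.mem_map]
    constructor
    · rintro ⟨w, hw, hwz⟩
      rwa [← hinj w (hl w hw) z hz hwz]
    · intro hz'; exact ⟨z, hz', rfl⟩
  refine ⟨?_, ?_, ?_, ?_, ?_, ?_, ?_, ?_, ?_, ?_, ?_, ?_, ?_, ?_, ?_, ?_, ?_, ?_, ?_, ?_⟩
  · exact Finset.mem_range.2 (hf _ h.root_mem)
  · show ((List.range X.card).map (fun i => f (par (g i)))).getD (f root) 0 = f root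
    rw [epar _ (hf _ h.root_mem), hgf _ h.root_mem, h.par_root]
  · intro i hi
    have hi' := Finset.mem_range.1 hi
    show ((List.range X.card).map (fun i => f (par (g i)))).getD i 0 ∈ _
    rw [epar i hi']
    exact Finset.mem_range.2 (hf _ (h.par_mem _ (hfg i hi').1))
  · intro i hi hir
    have hi' : i < X.card := Finset.mem_range.1 hi
    have hg := hfg i hi'
    have hp := h.par_mem _ hg.1
    show ((List.range X.card).map (fun i => (X.filter (fun y => dep y < dep (g i))).card)).getD
      (((List.range X.card).map (fun i => f (par (g i)))).getD i 0) 0 <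
      ((List.range X.card).map (fun i => (X.filter (fun y => dep y < dep (g i))).card)).getD i 0
    rw [epar i hi', edep _ (hf _ hp), edep i hi', hgf _ hp]
    have hne : g i ≠ root := by
      intro e
      apply hir
      show i = f root
      rw [← e, hg.2]
    have hlt := h.dep_lt _ hg.1 hne
    apply Finset.card_lt_card
    refine ⟨fun y hy => ?_, fun hsub => ?_⟩
    · rw [Finset.mem_filter] at hy ⊢
      exact ⟨hy.1, by omega⟩
    · have := hsub (Finset.mem_filter.2 ⟨hp, hlt⟩)
      rw [Finset.mem_filter] at this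
      omega
  · intro a ha
    show ((List.range x.2.1.1).map (fun a => f (node a))).getD a 0 ∈ _
    rw [enode a ha]
    exact Finset.mem_range.2 (hf _ (h.node_mem a ha))
  · intro a b ha hb hab
    change ((List.range x.2.1.1).map (fun a => f (node a))).getD a 0 =
      ((List.range x.2.1.1).map (fun a => f (node a))).getD b 0 at hab
    rw [enode a ha, enode b hb] at hab
    exact h.node_inj a b ha hb (hinj _ (h.node_mem a ha) _ (h.node_mem b hb) hab)
  · intro v hv
    show ((List.range x.1.1).map (fun v => (pl v).map f)).getD v [] ≠ []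
    rw [epl v hv]
    simpa using h.pl_ne v hv
  · intro v hv
    show (((List.range x.1.1).map (fun v => (pl v).map f)).getD v []).Nodup
    rw [epl v hv]
    exact (h.pl_nodup v hv).map_on fun a ha b hb hab =>
      hinj a (h.pl_mem v hv a ha) b (h.pl_mem v hv b hb) hab
  · intro v hv z hz
    change z ∈ ((List.range x.1.1).map (fun v => (pl v).map f)).getD v [] at hz
    rw [epl v hv, List.mem_map] at hz
    obtain ⟨w, hw, rfl⟩ := hz
    exact Finset.mem_range.2 (hf _ (h.pl_mem v hv w hw))
  · intro v hv
    show (((List.range x.1.1).map (fun v => (pl v).map f)).getD v []).IsChain _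
    rw [epl v hv]
    exact isChain_map_of hadj (h.pl_mem v hv) (h.pl_chain v hv)
  · intro u v hu hv huv
    rw [← h.pl_inter u v hu hv huv]
    show (∃ z ∈ ((List.range x.1.1).map (fun v => (pl v).map f)).getD u [],
      z ∈ ((List.range x.1.1).map (fun v => (pl v).map f)).getD v []) ↔ _
    rw [epl u hu, epl v hv]
    constructor
    · rintro ⟨z, hz, hz'⟩
      obtain ⟨w, hw, rfl⟩ := List.mem_map.1 hz
      exact ⟨w, hw, (hmap _ (h.pl_mem v hv) w (h.pl_mem u hu w hw)).1 hz'⟩
    · rintro ⟨z, hz, hz'⟩
      exact ⟨f z, List.mem_map_of_mem hz, List.mem_map_of_mem hz'⟩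
  · intro a b ha hb hab
    show ((((List.range x.2.1.1).map (fun a => (List.range x.2.1.1).map (fun b =>
      if tadj x a b then (P a b).map f else []))).getD a []).getD b []).Nodup
    rw [eP a b ha hb hab]
    exact (h.P_nodup a b ha hb hab).map_on fun c hc d hd hcd =>
      hinj c (h.P_mem a b ha hb hab c hc) d (h.P_mem a b ha hb hab d hd) hcd
  · intro a b ha hb hab z hz
    change z ∈ (((List.range x.2.1.1).map (fun a => (List.range x.2.1.1).map (fun b =>
      if tadj x a b then (P a b).map f else []))).getD a []).getD b [] at hz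
    rw [eP a b ha hb hab, List.mem_map] at hz
    obtain ⟨w, hw, rfl⟩ := hz
    exact Finset.mem_range.2 (hf _ (h.P_mem a b ha hb hab w hw))
  · intro a b ha hb hab
    show ((((List.range x.2.1.1).map (fun a => (List.range x.2.1.1).map (fun b =>
      if tadj x a b then (P a b).map f else []))).getD a []).getD b []).IsChain _
    rw [eP a b ha hb hab]
    exact isChain_map_of hadj (h.P_mem a b ha hb hab) (h.P_chain a b ha hb hab)
  · intro a b ha hb hab
    show ((((List.range x.2.1.1).map (fun a => (List.range x.2.1.1).map (fun b =>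
      if tadj x a b then (P a b).map f else []))).getD a []).getD b []).head? =
      some (((List.range x.2.1.1).map (fun a => f (node a))).getD a 0)
    rw [eP a b ha hb hab, enode a ha, List.head?_map, h.P_head a b ha hb hab]
    rfl
  · intro a b ha hb hab
    show ((((List.range x.2.1.1).map (fun a => (List.range x.2.1.1).map (fun b =>
      if tadj x a b then (P a b).map f else []))).getD a []).getD b []).getLast? =
      some (((List.range x.2.1.1).map (fun a => f (node a))).getD b 0)
    rw [eP a b ha hb hab, enode b hb, List.getLast?_map, h.P_last a b ha hb hab]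
    rfl
  · intro a b ha hb hab
    have hba : tadj x b a := ⟨hab.1.symm, hab.2.symm⟩
    show ((((List.range x.2.1.1).map (fun a => (List.range x.2.1.1).map (fun b =>
      if tadj x a b then (P a b).map f else []))).getD b []).getD a []) =
      ((((List.range x.2.1.1).map (fun a => (List.range x.2.1.1).map (fun b =>
      if tadj x a b then (P a b).map f else []))).getD a []).getD b []).reverse
    rw [eP a b ha hb hab, eP b a hb ha hba, h.P_symm a b ha hb hab, List.map_reverse]
  · intro a b ha hb hab c hc hmem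
    change ((List.range x.2.1.1).map (fun a => f (node a))).getD c 0 ∈
      (((List.range x.2.1.1).map (fun a => (List.range x.2.1.1).map (fun b =>
      if tadj x a b then (P a b).map f else []))).getD a []).getD b [] at hmem
    rw [eP a b ha hb hab, enode c hc] at hmem
    exact h.P_node a b ha hb hab c hc
      ((hmap _ (h.P_mem a b ha hb hab) _ (h.node_mem c hc)).1 hmem)
  · intro a b a' b' ha hb ha' hb' hab hab' h1 h2 z hz hz'
    change z ∈ (((List.range x.2.1.1).map (fun a => (List.range x.2.1.1).map (fun b =>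
      if tadj x a b then (P a b).map f else []))).getD a []).getD b [] at hz
    change z ∈ (((List.range x.2.1.1).map (fun a => (List.range x.2.1.1).map (fun b =>
      if tadj x a b then (P a b).map f else []))).getD a' []).getD b' [] at hz'
    rw [eP a b ha hb hab] at hz
    rw [eP a' b' ha' hb' hab'] at hz'
    obtain ⟨w, hw, rfl⟩ := List.mem_map.1 hz
    have hw' := (hmap _ (h.P_mem a' b' ha' hb' hab') w (h.P_mem a b ha hb hab w hw)).1 hz'
    obtain ⟨c, hc, hc'⟩ := h.P_disj a b a' b' ha hb ha' hb' hab hab' h1 h2 w hw hw'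
    refine ⟨c, hc, ?_⟩
    show ((List.range x.2.1.1).map (fun a => f (node a))).getD c 0 = f w
    rw [enode c hc, hc']
  · intro v hv hpre z hz
    have hz' : z < X.card := Finset.mem_range.1 hz
    obtain ⟨hg, hg'⟩ := hfg z hz'
    have h1 := h.image v hv hpre (g z) hg
    show z ∈ ((List.range x.1.1).map (fun v => (pl v).map f)).getD v [] ↔ _
    rw [epl v hv]
    conv_lhs => rw [← hg']
    rw [hmap _ (h.pl_mem v hv) _ hg, h1]
    constructor
    · rintro (⟨a, ha, ha', ha''⟩ | ⟨a, b, ha, hb, hab, ha', hb', hw⟩)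
      · refine Or.inl ⟨a, ha, ha', ?_⟩
        show ((List.range x.2.1.1).map (fun a => f (node a))).getD a 0 = z
        rw [enode a ha, ha'', hg']
      · refine Or.inr ⟨a, b, ha, hb, hab, ha', hb', ?_⟩
        show z ∈ (((List.range x.2.1.1).map (fun a => (List.range x.2.1.1).map (fun b =>
          if tadj x a b then (P a b).map f else []))).getD a []).getD b []
        rw [eP a b ha hb hab, ← hg']
        exact List.mem_map_of_mem hw
    · rintro (⟨a, ha, ha', ha''⟩ | ⟨a, b, ha, hb, hab, ha', hb', hw⟩)
      · refine Or.inl ⟨a, ha, ha', ?_⟩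
        change ((List.range x.2.1.1).map (fun a => f (node a))).getD a 0 = z at ha''
        rw [enode a ha] at ha''
        rw [← ha'', hgf _ (h.node_mem a ha)]
      · refine Or.inr ⟨a, b, ha, hb, hab, ha', hb', ?_⟩
        change z ∈ (((List.range x.2.1.1).map (fun a => (List.range x.2.1.1).map (fun b =>
          if tadj x a b then (P a b).map f else []))).getD a []).getD b [] at hw
        rw [eP a b ha hb hab, ← hg'] at hw
        exact (hmap _ (h.P_mem a b ha hb hab) _ hg).1 hw

theorem sz_list_le {α : Type} [ToData α] {M m : ℕ} : ∀ {l : List α}, (∀ a ∈ l, sz a ≤ M) →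
    l.length ≤ m → sz l ≤ 1 + m * (M + 1)
  | [], _, _ => by simp
  | a :: l, h, hl => by
    have ih := sz_list_le (M := M) (m := l.length) (l := l) (fun b hb => h b (by simp [hb])) le_rfl
    have h1 := h a (by simp)
    rw [sz_cons]
    have h2 : (l.length + 1) * (M + 1) ≤ m * (M + 1) := Nat.mul_le_mul_right _ (by simpa using hl)
    have h3 : (l.length + 1) * (M + 1) = l.length * (M + 1) + (M + 1) := by ring
    omega

theorem length_le_of_nodup {B : Type} {X : Finset B} {l : List B} (hn : l.Nodup)
    (hl : ∀ z ∈ l, z ∈ X) : l.length ≤ X.card := by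
  classical
  rw [← List.toFinset_card_of_nodup hn]
  exact Finset.card_le_card fun z hz => hl z (List.mem_toFinset.1 hz)

/-- The bound for the size of certificates. -/
def certBound (s : ℕ) : ℕ :=
  let m := 6 * s
  let M1 := 1 + m * (2 * m + 2)
  let M2 := 1 + m * (M1 + 1)
  let M3 := 1 + m * (M2 + 1)
  2 * m + 2 * m + M1 + M1 + M1 + M3 + M2 + 10

theorem IsSol.sz_certOf {x : Raw} {B : Type} {X : Finset B} {root : B} {par : B → B}
    {dep : B → ℕ} {node : ℕ → B} {P : ℕ → ℕ → List B} {pl : ℕ → List B}
    (h : IsSol x X root par dep node P pl) {f : B → ℕ} {g : ℕ → B}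
    (hfg : ∀ i, i < X.card → g i ∈ X ∧ f (g i) = i)
    (hf : ∀ b ∈ X, f b < X.card) (hX : X.card ≤ 2 * (x.2.1.1 + 2 * x.1.1)) :
    sz (certOf x X root par dep node P pl f g) ≤ certBound (sz x) := by
  classical
  have hn : 2 * x.1.1 + 1 ≤ sz x := by
    obtain ⟨⟨n, E⟩, ⟨k, F⟩, L⟩ := x
    simp only [sz_pair, sz_nat]
    omega
  have hk : 2 * x.2.1.1 + 1 ≤ sz x := by
    obtain ⟨⟨n, E⟩, ⟨k, F⟩, L⟩ := x
    simp only [sz_pair, sz_nat]
    omega
  set m := 6 * sz x with hm
  have hXm : X.card ≤ m := by omega
  have hnm : x.1.1 ≤ m := by omega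
  have hkm : x.2.1.1 ≤ m := by omega
  have hlist : ∀ l : List B, l.Nodup → (∀ z ∈ l, z ∈ X) →
      sz (l.map f) ≤ 1 + m * (2 * m + 2) := by
    intro l hl hlX
    have := length_le_of_nodup hl hlX
    refine (sz_list_le (M := 2 * m + 1) (m := m) ?_ (by simp; omega))
    intro a ha
    obtain ⟨b, hb, rfl⟩ := List.mem_map.1 ha
    have := hf b (hlX b hb)
    rw [sz_nat]
    omega
  have h1 : sz ((List.range X.card).map (fun i => f (par (g i)))) ≤ 1 + m * (2 * m + 2) := by
    refine (sz_list_le (M := 2 * m + 1) (m := m) ?_ (by simp; omega))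
    intro a ha
    obtain ⟨i, hi, rfl⟩ := List.mem_map.1 ha
    have := hf _ (h.par_mem _ (hfg i (List.mem_range.1 hi)).1)
    rw [sz_nat]
    omega
  have h2 : sz ((List.range X.card).map
      (fun i => (X.filter (fun y => dep y < dep (g i))).card)) ≤ 1 + m * (2 * m + 2) := by
    refine (sz_list_le (M := 2 * m + 1) (m := m) ?_ (by simp; omega))
    intro a ha
    obtain ⟨i, hi, rfl⟩ := List.mem_map.1 ha
    have := Finset.card_filter_le X (fun y => dep y < dep (g i))
    rw [sz_nat]
    omega
  have h3 : sz ((List.range x.2.1.1).map (fun a => f (node a))) ≤ 1 + m * (2 * m + 2) := by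
    refine (sz_list_le (M := 2 * m + 1) (m := m) ?_ (by simp; omega))
    intro a ha
    obtain ⟨i, hi, rfl⟩ := List.mem_map.1 ha
    have := hf _ (h.node_mem i (List.mem_range.1 hi))
    rw [sz_nat]
    omega
  have h4 : sz ((List.range x.1.1).map (fun v => (pl v).map f)) ≤
      1 + m * ((1 + m * (2 * m + 2)) + 1) := by
    refine sz_list_le ?_ (by simp; omega)
    intro a ha
    obtain ⟨v, hv, rfl⟩ := List.mem_map.1 ha
    exact hlist _ (h.pl_nodup v (List.mem_range.1 hv)) (h.pl_mem v (List.mem_range.1 hv))
  have h5 : sz ((List.range x.2.1.1).map (fun a => (List.range x.2.1.1).map (fun b =>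
      if tadj x a b then (P a b).map f else []))) ≤
      1 + m * ((1 + m * ((1 + m * (2 * m + 2)) + 1)) + 1) := by
    refine sz_list_le ?_ (by simp; omega)
    intro a ha
    obtain ⟨u, hu, rfl⟩ := List.mem_map.1 ha
    refine sz_list_le ?_ (by simp; omega)
    intro a ha
    obtain ⟨v, hv, rfl⟩ := List.mem_map.1 ha
    split_ifs with huv
    · exact hlist _ (h.P_nodup u v (List.mem_range.1 hu) (List.mem_range.1 hv) huv)
        (h.P_mem u v (List.mem_range.1 hu) (List.mem_range.1 hv) huv)
    · simp
  have h6 := hf root h.root_mem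
  simp only [certOf, certBound, sz_pair, sz_nat, ← hm]
  omega

theorem certBound_pbd {α : Type} [ToData α] : PBd (fun a : α => certBound (sz a)) := by
  unfold certBound
  have h0 : PBd (fun a : α => 6 * sz a) := (PBd.const 6).mul PBd.sz
  have h1 : PBd (fun a : α => 1 + 6 * sz a * (2 * (6 * sz a) + 2)) :=
    (PBd.const 1).add (h0.mul (((PBd.const 2).mul h0).add (PBd.const 2)))
  have h2 : PBd (fun a : α => 1 + 6 * sz a * ((1 + 6 * sz a * (2 * (6 * sz a) + 2)) + 1)) :=
    (PBd.const 1).add (h0.mul (h1.add (PBd.const 1)))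
  have h3 : PBd (fun a : α => 1 + 6 * sz a *
      ((1 + 6 * sz a * ((1 + 6 * sz a * (2 * (6 * sz a) + 2)) + 1)) + 1)) :=
    (PBd.const 1).add (h0.mul (h2.add (PBd.const 1)))
  exact (((((((((PBd.const 2).mul h0).add ((PBd.const 2).mul h0)).add h1).add h1).add h1).add
    h3).add h2).add (PBd.const 10))

theorem exists_cert {x : Raw} (hx : IsPathRep (x.graph.induce x.pre) x.tree fun v => x.rep v)
    (h : Extendable x.graph (partialRep ⟨x, hx⟩)) :
    ∃ c : Cert, sz c ≤ certBound (sz x) ∧ CertSol x c := by
  classical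
  obtain ⟨B, _, X, root, par, dep, node, P, pl, h, hroot⟩ := IsSol.complete hx h
  obtain ⟨X, par, P, pl, h, hX⟩ := IsSol.exists_small hroot _ X par P pl rfl h
  let e := X.equivFin
  let f : B → ℕ := fun b => if hb : b ∈ X then (e ⟨b, hb⟩ : ℕ) else 0
  let g : ℕ → B := fun i => if hi : i < X.card then (e.symm ⟨i, hi⟩ : B) else root
  have hf : ∀ b ∈ X, f b < X.card := fun b hb => by
    simp only [f, dif_pos hb]; exact (e ⟨b, hb⟩).2
  have hgf : ∀ b ∈ X, g (f b) = b := fun b hb => by
    have h1 := hf b hb
    simp only [g, dif_pos h1]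
    simp only [f, dif_pos hb]
    simp
  have hfg : ∀ i, i < X.card → g i ∈ X ∧ f (g i) = i := fun i hi => by
    simp only [g, dif_pos hi]
    refine ⟨(e.symm ⟨i, hi⟩).2, ?_⟩
    simp only [f, (e.symm ⟨i, hi⟩).2, dif_pos]
    simp
  exact ⟨_, h.sz_certOf hfg hf hX, h.certSol hgf hfg hf⟩

end Pool.Agent.Helper81.PathExt
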