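import Pool.Agent.Helper81.SymDefs

/-!
Computable families of instances.
-/

namespace Pool.Agent.Helper81.Sym

open Finset

theorem primrec_natSub : Primrec fun p : ℕ × ℕ => ((p.1 : ℤ) - (p.2 : ℤ)) := by
  apply Primrec.encode_iff.1
  have h : Primrec fun p : ℕ × ℕ =>
      if p.2 ≤ p.1 then 2 * (p.1 - p.2) else 2 * (p.2 - p.1 - 1) + 1 := by
    apply Primrec.ite
    · exact Primrec.nat_le.comp Primrec.snd Primrec.fst
    · exact Primrec.nat_mul.comp (Primrec.const 2) (Primrec.nat_sub.comp Primrec.fst Primrec.snd)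
    · exact Primrec.succ.comp (Primrec.nat_mul.comp (Primrec.const 2)
        (Primrec.nat_sub.comp (Primrec.nat_sub.comp Primrec.snd Primrec.fst) (Primrec.const 1)))
  refine h.of_eq fun p => ?_
  obtain ⟨a, b⟩ := p
  show _ = Equiv.intEquivNat ((a : ℤ) - b)
  split_ifs with hab
  · have : (a : ℤ) - b = Int.ofNat (a - b) := by simp at hab; simp [hab]
    rw [this]; rfl
  · have : (a : ℤ) - b = Int.negSucc (b - a - 1) := by
      simp at hab
      rw [Int.negSucc_eq]
      omega
    rw [this]; rfl

theorem primrec_pow (j : ℕ) : Primrec fun n : ℕ => n ^ j := by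
  induction j with
  | zero => simpa using Primrec.const 1
  | succ j ih => simpa [pow_succ] using Primrec.nat_mul.comp ih Primrec.id

theorem primrec_intMulPow (a : ℤ) (j : ℕ) : Primrec fun n : ℕ => a * (n : ℤ) ^ j := by
  have h : Primrec fun n : ℕ => (((a.toNat * n ^ j : ℕ) : ℤ) - (((-a).toNat * n ^ j : ℕ) : ℤ)) :=
    primrec_natSub.comp (Primrec.pair (Primrec.nat_mul.comp (Primrec.const _) (primrec_pow j))
      (Primrec.nat_mul.comp (Primrec.const _) (primrec_pow j)))
  refine h.of_eq fun n => ?_
  push_cast
  rw [← sub_mul]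
  congr 1
  have := Int.toNat_sub_toNat_neg a
  exact this

/-- A family of polynomials that is described by a computable family of instances. -/
def Coded (G : ℕ → MvPolynomial ℕ ℚ) : Prop :=
  ∃ F : ℕ → Instance, Computable F ∧ ∀ n, toPoly (F n) = G n

theorem toPoly_append (a b : Instance) : toPoly (a ++ b) = toPoly a + toPoly b := by
  simp [toPoly]

theorem Coded.zero : Coded fun _ => 0 := ⟨fun _ => [], Computable.const _, fun _ => by simp [toPoly]⟩

theorem Coded.add {G H : ℕ → MvPolynomial ℕ ℚ} (hG : Coded G) (hH : Coded H) :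
    Coded fun n => G n + H n := by
  obtain ⟨F1, c1, h1⟩ := hG
  obtain ⟨F2, c2, h2⟩ := hH
  refine ⟨fun n => F1 n ++ F2 n, ?_, fun n => by rw [toPoly_append, h1, h2]⟩
  exact Computable₂.comp (f := fun (a b : Instance) => a ++ b) (Primrec.list_append.to_comp) c1 c2

theorem Coded.sum {ι : Type} (s : Finset ι) (G : ι → ℕ → MvPolynomial ℕ ℚ)
    (h : ∀ i ∈ s, Coded (G i)) : Coded fun n => ∑ i ∈ s, G i n := by
  classical
  induction s using Finset.induction_on with
  | empty => simpa using Coded.zero
  | insert a s ha ih =>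
    have h1 := h a (Finset.mem_insert_self _ _)
    have h2 := ih fun i hi => h i (Finset.mem_insert_of_mem hi)
    have := h1.add h2
    simpa [Finset.sum_insert ha] using this

theorem coded_monomial (j : ℕ) (α : ℕ →₀ ℕ) (c : ℚ) :
    Coded fun n => MvPolynomial.C ((n : ℚ) ^ j) * MvPolynomial.monomial α c := by
  let len := α.support.sup id + 1
  let e : List ℕ := (List.range len).map α
  refine ⟨fun n => [(e, c.num * (n : ℤ) ^ j, c.den - 1)], ?_, fun n => ?_⟩
  · have h1 : Primrec fun n : ℕ => (e, c.num * (n : ℤ) ^ j, c.den - 1) :=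
      Primrec.pair (Primrec.const e) (Primrec.pair (primrec_intMulPow c.num j)
        (Primrec.const (c.den - 1)))
    exact (Primrec.list_cons.comp h1 (Primrec.const [])).to_comp
  · have hprod : (∏ k ∈ range e.length, (MvPolynomial.X k : MvPolynomial ℕ ℚ) ^ (e.getD k 0)) =
        α.prod fun k m => (MvPolynomial.X k : MvPolynomial ℕ ℚ) ^ m := by
      have hlen : e.length = len := by simp [e]
      rw [hlen]
      unfold Finsupp.prod
      symm
      have hsub : α.support ⊆ range len := by
        intro k hk
        have : k ≤ α.support.sup id := Finset.le_sup (f := id) hk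
        exact Finset.mem_range.2 (Nat.lt_succ_of_le this)
      rw [Finset.prod_subset hsub]
      · apply prod_congr rfl
        intro k hk
        have hk' : k < len := Finset.mem_range.1 hk
        congr 1
        simp [e, List.getD, hk']
      · intro k _ hk
        rw [Finsupp.notMem_support_iff.1 hk]
        exact pow_zero _
    have hden : ((c.den - 1 : ℕ) : ℚ) + 1 = c.den := by
      have := c.pos
      rw [Nat.cast_sub (by omega)]; simp
    have hc : (((c.num * (n : ℤ) ^ j : ℤ)) : ℚ) / (((c.den - 1 : ℕ) : ℚ) + 1) =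
        (n : ℚ) ^ j * c := by
      rw [hden]
      push_cast
      conv_rhs => rw [← Rat.num_div_den c]
      ring
    unfold toPoly
    simp only [List.map_cons, List.map_nil, List.sum_cons, List.sum_nil, add_zero]
    rw [hprod, hc, MvPolynomial.monomial_eq, MvPolynomial.C_mul, mul_assoc]

theorem coded_pow_mul (j : ℕ) (b : MvPolynomial ℕ ℚ) :
    Coded fun n => MvPolynomial.C ((n : ℚ) ^ j) * b := by
  have h := Coded.sum b.support
    (fun α n => MvPolynomial.C ((n : ℚ) ^ j) * MvPolynomial.monomial α (b.coeff α))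
    fun α _ => coded_monomial j α _
  obtain ⟨F, hF, hF'⟩ := h
  refine ⟨F, hF, fun n => ?_⟩
  rw [hF']
  beta_reduce
  rw [← Finset.mul_sum]
  congr 1
  exact b.as_sum.symm

end Pool.Agent.Helper81.Sym
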