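import Mathlib




/-!
Definitions for the decision problem is a given symmetric function any-dimensional
non-negative? (problem MP_9c9736_lc).

A symmetric function `f = g(p_1, p_2, …)` is given by a polynomial `g : MvPolynomial ℕ ℚ`
in which the variable `X k` stands for the power sum `p_{k+1} = ∑ X_i^{k+1}`.
-/

namespace Pool.Agent.Helper81.Sym

/-- An instance of the decision problem: a finite list of terms.  The term `(e, a, b)` stands
for `(a / (b + 1)) * p_1 ^ e₀ * p_2 ^ e₁ * ⋯ * p_m ^ e_{m-1}`, where `e = [e₀, …, e_{m-1}]`. -/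
abbrev Instance := List (List ℕ × ℤ × ℕ)

/-- The polynomial `g` in the power sums described by an instance
(variable `X k` stands for the power sum `p_{k+1}`). -/
noncomputable def toPoly (c : Instance) : MvPolynomial ℕ ℚ :=
  (c.map fun t => MvPolynomial.C ((t.2.1 : ℚ) / ((t.2.2 : ℚ) + 1)) *
    ∏ k ∈ Finset.range t.1.length, MvPolynomial.X k ^ (t.1.getD k 0)).sum

/-- The value `f^{(n)}(x)` of the `n`-variable truncation of `f = g(p_1, p_2, …)` at `x ∈ ℝ^n`. -/
noncomputable def truncEval (g : MvPolynomial ℕ ℚ) {n : ℕ} (x : Fin n → ℝ) : ℝ :=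
  MvPolynomial.aeval (fun k => ∑ i, x i ^ (k + 1)) g

/-- `f = g(p_1, p_2, …)` is any-dimensional non-negative. -/
def AnyDimNonneg (g : MvPolynomial ℕ ℚ) : Prop :=
  ∀ (n : ℕ) (x : Fin n → ℝ), 0 ≤ truncEval g x

/-- `f = g(p_1, p_2, …)` is homogeneous (as a symmetric function; `p_{k+1}` has degree `k+1`). -/
def IsHomogeneousSym (g : MvPolynomial ℕ ℚ) : Prop :=
  ∃ d : ℕ, MvPolynomial.IsWeightedHomogeneous (fun k : ℕ => k + 1) g d

/-- `f = g(p_1, p_2, …)` is even: only the power sums `p_2, p_4, p_6, …` occur in `g`. -/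
def IsEvenSym (g : MvPolynomial ℕ ℚ) : Prop :=
  ∀ k ∈ g.vars, Even (k + 1)

/-- `f = g(p_1, p_2, …)` is any-dimensional positive: all truncations are positive at all
points, where for homogeneous `f` the origin is excluded. -/
def AnyDimPos (g : MvPolynomial ℕ ℚ) : Prop :=
  ∀ (n : ℕ) (x : Fin n → ℝ), (IsHomogeneousSym g → x ≠ 0) → 0 < truncEval g x

end Pool.Agent.Helper81.Sym
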