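import Pool.Agent.Helper81.SymReduction
import Pool.Agent.Helper81.SymCode

/-!
The reduction from r.e. sets to any-dimensional non-negativity / positivity.
-/

namespace Pool.Agent.Helper81.Sym

open Finset

/-! ### Interpolation polynomials -/

/-- Lagrange basis polynomial at node `j + 3` for the nodes `0, …, k + 2`. -/
noncomputable def Eb (k j : ℕ) : Polynomial ℚ :=
  Lagrange.basis (range (k + 3)) (fun i => (i : ℚ)) (j + 3)

noncomputable def Lb (k j : ℕ) : Polynomial ℚ := Eb k j ^ 2 * (3 - 2 * Eb k j)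

noncomputable def Wb (k j : ℕ) : Polynomial ℚ :=
  (Eb k j * (1 - Eb k j)) ^ 2 * ((3 - 2 * Eb k j) ^ 2 + (1 + 2 * Eb k j) ^ 2)

theorem Eb_eval (k j l : ℕ) (_hj : j < k) (hl : l < k + 3) :
    (Eb k j).eval (l : ℚ) = if l = j + 3 then 1 else 0 := by
  have hinj : Set.InjOn (fun i : ℕ => (i : ℚ)) (range (k + 3) : Set ℕ) :=
    fun a _ b _ h => by simpa using h
  split_ifs with h
  · subst h
    exact Lagrange.eval_basis_self hinj (Finset.mem_range.2 hl)
  · exact Lagrange.eval_basis_of_ne (v := fun i : ℕ => (i : ℚ)) (Ne.symm h) (Finset.mem_range.2 hl)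

theorem Lb_eval (k j l : ℕ) (hj : j < k) (hl : l < k + 3) :
    (Lb k j).eval (l : ℚ) = if l = j + 3 then 1 else 0 := by
  have h3 : (3 : Polynomial ℚ) = Polynomial.C 3 := rfl
  have h2 : (2 : Polynomial ℚ) = Polynomial.C 2 := rfl
  unfold Lb
  rw [h3, h2]
  simp only [Polynomial.eval_mul, Polynomial.eval_pow, Polynomial.eval_sub, Polynomial.eval_C,
    Eb_eval k j l hj hl]
  split_ifs <;> norm_num

theorem Wb_eval (k j l : ℕ) (hj : j < k) (hl : l < k + 3) :
    (Wb k j).eval (l : ℚ) = 0 := by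
  unfold Wb
  simp only [Polynomial.eval_mul, Polynomial.eval_pow, Polynomial.eval_sub, Polynomial.eval_one,
    Eb_eval k j l hj hl]
  split_ifs <;> norm_num

theorem aeval_Lb (k j : ℕ) (t : ℝ) :
    Polynomial.aeval t (Lb k j) =
      (Polynomial.aeval t (Eb k j)) ^ 2 * (3 - 2 * Polynomial.aeval t (Eb k j)) := by
  unfold Lb
  simp only [map_mul, map_pow, map_sub, map_ofNat]

theorem aeval_Wb (k j : ℕ) (t : ℝ) :
    Polynomial.aeval t (Wb k j) =
      (Polynomial.aeval t (Eb k j) * (1 - Polynomial.aeval t (Eb k j))) ^ 2 *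
        ((3 - 2 * Polynomial.aeval t (Eb k j)) ^ 2 + (1 + 2 * Polynomial.aeval t (Eb k j)) ^ 2) := by
  unfold Wb
  simp only [map_mul, map_pow, map_sub, map_add, map_ofNat, map_one]

/-! ### The master polynomial -/

/-- The images of the variables of the Diophantine equation. -/
noncomputable def vars (k : ℕ) : Option (Fin k) → Polynomial (MvPolynomial ℕ ℚ) :=
  fun o => Option.elim o Polynomial.X fun j => Polynomial.C (PS (Lb k j))

noncomputable def Wtot (k : ℕ) : MvPolynomial ℕ ℚ := ∑ j : Fin k, PS (Wb k j)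

noncomputable def Btot {k : ℕ} (D : MvPolynomial (Option (Fin k)) ℤ) (C M : ℕ) :
    Polynomial (MvPolynomial ℕ ℚ) :=
  (MvPolynomial.aeval (vars k) D) ^ 2 - Polynomial.C (MvPolynomial.C (1 / 2)) +
    (C : Polynomial (MvPolynomial ℕ ℚ)) * (1 + ∑ i, vars k i ^ 2) ^ M *
      (Polynomial.C (Wtot k) * (1 + Polynomial.C (Wtot k)) ^ M)

/-- evaluation at a parameter `n` and at real values `s` of the variables. -/
noncomputable def Phi (n : ℕ) (s : ℕ → ℝ) : Polynomial (MvPolynomial ℕ ℚ) →+* ℝ :=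
  Polynomial.eval₂RingHom (MvPolynomial.aeval s : MvPolynomial ℕ ℚ →ₐ[ℚ] ℝ).toRingHom (n : ℝ)

theorem Phi_C (n : ℕ) (s : ℕ → ℝ) (b : MvPolynomial ℕ ℚ) :
    Phi n s (Polynomial.C b) = MvPolynomial.aeval s b := by
  simp [Phi]

theorem Phi_X (n : ℕ) (s : ℕ → ℝ) : Phi n s Polynomial.X = n := by
  simp [Phi]

theorem Phi_aeval {σ : Type} (n : ℕ) (s : ℕ → ℝ) (f : σ → Polynomial (MvPolynomial ℕ ℚ))
    (D : MvPolynomial σ ℤ) :
    Phi n s (MvPolynomial.aeval f D) = MvPolynomial.aeval (fun i => Phi n s (f i)) D := by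
  rw [MvPolynomial.aeval_def, MvPolynomial.hom_eval₂, MvPolynomial.aeval_def]
  congr 1
  exact Subsingleton.elim _ _

/-- The real values of the variables of the Diophantine equation. -/
noncomputable def zval (k n : ℕ) {N : ℕ} (t : Fin N → ℝ) : Option (Fin k) → ℝ :=
  fun o => Option.elim o (n : ℝ) fun j => ∑ i, Polynomial.aeval (t i) (Lb k j)

noncomputable def Wval (k : ℕ) {N : ℕ} (t : Fin N → ℝ) : ℝ :=
  ∑ j : Fin k, ∑ i, Polynomial.aeval (t i) (Wb k j)

theorem Phi_vars (k n : ℕ) {N : ℕ} (t : Fin N → ℝ) (o : Option (Fin k)) :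
    Phi n (fun r => ∑ i, t i ^ (r + 1)) (vars k o) = zval k n t o := by
  cases o with
  | none => simp [vars, zval, Phi_X]
  | some j =>
    simp only [vars, zval, Option.elim_some]
    rw [Phi_C, aeval_PS]
    have := Lb_eval k j 0 j.2 (by omega)
    simpa using this

theorem Phi_Wtot (k n : ℕ) {N : ℕ} (t : Fin N → ℝ) :
    Phi n (fun r => ∑ i, t i ^ (r + 1)) (Polynomial.C (Wtot k)) = Wval k t := by
  rw [Phi_C]
  unfold Wtot Wval
  rw [map_sum]
  apply sum_congr rfl
  intro j _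
  rw [aeval_PS]
  have := Wb_eval k j 0 j.2 (by omega)
  simpa using this

theorem Phi_Btot {k : ℕ} (D : MvPolynomial (Option (Fin k)) ℤ) (C M n : ℕ) {N : ℕ}
    (t : Fin N → ℝ) :
    Phi n (fun r => ∑ i, t i ^ (r + 1)) (Btot D C M) =
      (MvPolynomial.aeval (zval k n t) D) ^ 2 - 1 / 2 +
        (C : ℝ) * (1 + ∑ i, zval k n t i ^ 2) ^ M * (Wval k t * (1 + Wval k t) ^ M) := by
  unfold Btot
  simp only [map_add, map_sub, map_mul, map_pow, map_one, map_sum, map_natCast, Phi_aeval,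
    Phi_vars, Phi_Wtot]
  congr 2
  rw [Phi_C]
  simp

theorem Wb_nonneg (k j : ℕ) (t : ℝ) : 0 ≤ Polynomial.aeval t (Wb k j) := by
  rw [aeval_Wb]; positivity

/-- If the Diophantine equation has no solution then the bracket is positive. -/
theorem bracket_pos {k : ℕ} (D : MvPolynomial (Option (Fin k)) ℤ) (C M n : ℕ)
    (hCM : ∀ (z z' : Option (Fin k) → ℝ) (δ : ℝ), 0 ≤ δ → (∀ i, |z i - z' i| ≤ δ) →
      |MvPolynomial.aeval z (D ^ 2) - MvPolynomial.aeval z' (D ^ 2)| ≤
        C * δ * (1 + δ) ^ M * (1 + ∑ i, z i ^ 2) ^ M)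
    (hD : ¬ ∃ m : Fin k → ℕ,
      MvPolynomial.eval (fun i => Option.elim i (n : ℤ) fun j => (m j : ℤ)) D = 0)
    {N : ℕ} (t : Fin N → ℝ) :
    0 < (MvPolynomial.aeval (zval k n t) D) ^ 2 - 1 / 2 +
        (C : ℝ) * (1 + ∑ i, zval k n t i ^ 2) ^ M * (Wval k t * (1 + Wval k t) ^ M) := by
  choose b hb using approx_bool
  let m : Fin k → ℕ := fun j => (Finset.univ.filter fun i =>
    b (Polynomial.aeval (t i) (Eb k j)) = true).card
  have hW0 : 0 ≤ Wval k t := Finset.sum_nonneg fun j _ => Finset.sum_nonneg fun i _ =>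
    Wb_nonneg _ _ _
  have hm : ∀ j : Fin k, |(∑ i, Polynomial.aeval (t i) (Lb k j)) - (m j : ℝ)| ≤ Wval k t := by
    intro j
    have h1 : (m j : ℝ) = ∑ i, if b (Polynomial.aeval (t i) (Eb k j)) = true then (1 : ℝ) else 0 := by
      simp [m]
    rw [h1, ← Finset.sum_sub_distrib]
    refine (Finset.abs_sum_le_sum_abs _ _).trans ?_
    have h2 : ∑ i, Polynomial.aeval (t i) (Wb k j) ≤ Wval k t := by
      unfold Wval
      exact Finset.single_le_sum (f := fun j : Fin k => ∑ i, Polynomial.aeval (t i) (Wb k j))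
        (fun j _ => Finset.sum_nonneg fun i _ => Wb_nonneg _ _ _) (Finset.mem_univ j)
    refine le_trans (Finset.sum_le_sum fun i _ => ?_) h2
    rw [aeval_Lb, aeval_Wb]
    exact hb _
  have h := hCM (zval k n t) (fun o => Option.elim o (n : ℝ) fun j => (m j : ℝ)) (Wval k t) hW0
    (by
      intro o
      cases o with
      | none => simpa [zval] using hW0
      | some j => exact hm j)
  have hint : MvPolynomial.aeval (fun o => Option.elim o (n : ℝ) fun j => (m j : ℝ)) D =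
      ((MvPolynomial.eval (fun i => Option.elim i (n : ℤ) fun j => (m j : ℤ)) D : ℤ) : ℝ) := by
    rw [MvPolynomial.aeval_def, ← MvPolynomial.coe_eval₂Hom]
    have := MvPolynomial.hom_eval₂ D (RingHom.id ℤ) (Int.castRingHom ℝ)
      (fun i : Option (Fin k) => Option.elim i (n : ℤ) fun j => (m j : ℤ))
    rw [MvPolynomial.eval, MvPolynomial.coe_eval₂Hom, MvPolynomial.coe_eval₂Hom]
    have e : ((MvPolynomial.eval₂ (RingHom.id ℤ)
        (fun i : Option (Fin k) => Option.elim i (n : ℤ) fun j => (m j : ℤ)) D : ℤ) : ℝ) =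
        (Int.castRingHom ℝ) (MvPolynomial.eval₂ (RingHom.id ℤ)
        (fun i : Option (Fin k) => Option.elim i (n : ℤ) fun j => (m j : ℤ)) D) := rfl
    rw [e, this]
    congr 1
    funext o
    cases o <;> simp
  have hne : MvPolynomial.eval (fun i => Option.elim i (n : ℤ) fun j => (m j : ℤ)) D ≠ 0 :=
    fun h0 => hD ⟨m, h0⟩
  have hsq : (1 : ℝ) ≤
      (MvPolynomial.aeval (fun o => Option.elim o (n : ℝ) fun j => (m j : ℝ)) D) ^ 2 := by
    rw [hint]
    have : (1 : ℤ) ≤
        (MvPolynomial.eval (fun i => Option.elim i (n : ℤ) fun j => (m j : ℤ)) D) ^ 2 := by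
      have h0 : 0 < |MvPolynomial.eval (fun i => Option.elim i (n : ℤ) fun j => (m j : ℤ)) D| :=
        abs_pos.2 hne
      nlinarith [sq_abs (MvPolynomial.eval (fun i => Option.elim i (n : ℤ) fun j => (m j : ℤ)) D)]
    exact_mod_cast this
  rw [map_pow, map_pow] at h
  have h5 := (abs_le.1 h).1
  have h6 : (C : ℝ) * Wval k t * (1 + Wval k t) ^ M * (1 + ∑ i, zval k n t i ^ 2) ^ M =
      (C : ℝ) * (1 + ∑ i, zval k n t i ^ 2) ^ M * (Wval k t * (1 + Wval k t) ^ M) := by ring
  rw [h6] at h5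
  linarith

/-! ### Putting everything together -/

/-- The exponent used for clearing denominators. -/
noncomputable def Eexp (B : Polynomial (MvPolynomial ℕ ℚ)) : ℕ :=
  1 + ∑ j ∈ range (B.natDegree + 1), ∑ α ∈ (B.coeff j).support, wt α

theorem wt_le_Eexp (B : Polynomial (MvPolynomial ℕ ℚ)) {j : ℕ} (hj : j < B.natDegree + 1)
    {α : ℕ →₀ ℕ} (hα : α ∈ (B.coeff j).support) : wt α ≤ Eexp B := by
  unfold Eexp
  have h1 : wt α ≤ ∑ α ∈ (B.coeff j).support, wt α :=
    Finset.single_le_sum (f := fun α => wt α) (fun _ _ => Nat.zero_le _) hα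
  have h2 : ∑ α ∈ (B.coeff j).support, wt α ≤
      ∑ j ∈ range (B.natDegree + 1), ∑ α ∈ (B.coeff j).support, wt α :=
    Finset.single_le_sum (f := fun j => ∑ α ∈ (B.coeff j).support, wt α)
      (fun _ _ => Nat.zero_le _) (Finset.mem_range.2 hj)
  omega

/-- The family of symmetric functions produced by the reduction. -/
noncomputable def Fam (B : Polynomial (MvPolynomial ℕ ℚ)) (n : ℕ) : MvPolynomial ℕ ℚ :=
  ∑ j ∈ range (B.natDegree + 1), MvPolynomial.C ((n : ℚ) ^ j) * homE (Eexp B) (B.coeff j)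

theorem Fam_homog (B : Polynomial (MvPolynomial ℕ ℚ)) (n : ℕ) :
    (Fam B n).IsWeightedHomogeneous (fun k : ℕ => k + 1) (4 * Eexp B) := by
  unfold Fam
  apply MvPolynomial.IsWeightedHomogeneous.sum
  intro j hj
  apply MvPolynomial.IsWeightedHomogeneous.C_mul
  exact homE_homog _ _ fun α hα => wt_le_Eexp B (Finset.mem_range.1 hj) hα

theorem Fam_even (B : Polynomial (MvPolynomial ℕ ℚ)) (n : ℕ) : IsEvenSym (Fam B n) := by
  have h : Fam B n ∈ MvPolynomial.supported ℚ {k : ℕ | Even (k + 1)} := by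
    unfold Fam
    apply Subalgebra.sum_mem
    intro j _
    exact Subalgebra.mul_mem _ (Subalgebra.algebraMap_mem _ _) (homE_supported _ _)
  intro k hk
  exact MvPolynomial.mem_supported.1 h hk

theorem Fam_coded (B : Polynomial (MvPolynomial ℕ ℚ)) : Coded (Fam B) :=
  Coded.sum _ (fun j n => MvPolynomial.C ((n : ℚ) ^ j) * homE (Eexp B) (B.coeff j))
    fun _ _ => coded_pow_mul _ _

theorem truncEval_Fam (B : Polynomial (MvPolynomial ℕ ℚ)) (n : ℕ) {N : ℕ} (x : Fin N → ℝ)
    (hx : (∑ i, x i ^ 4) ≠ 0) :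
    truncEval (Fam B n) x = (∑ i, x i ^ 4) ^ Eexp B *
      Phi n (fun r => ∑ i, (x i ^ 2 * (2 * (∑ i, x i ^ 2) / ∑ i, x i ^ 4)) ^ (r + 1)) B := by
  unfold truncEval Fam
  rw [map_sum]
  have hs : (fun r => ∑ i, (x i ^ 2 * (2 * (∑ i, x i ^ 2) / ∑ i, x i ^ 4)) ^ (r + 1)) =
      fun r : ℕ => (fun k => ∑ i, x i ^ (k + 1)) (2 * r + 1) *
        (2 * (fun k : ℕ => ∑ i, x i ^ (k + 1)) 1 / (fun k : ℕ => ∑ i, x i ^ (k + 1)) 3) ^
          (r + 1) := by
    funext r
    simp only [Finset.sum_mul]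
    apply sum_congr rfl
    intro i _
    rw [mul_pow, ← pow_mul]
    congr 2
  rw [hs]
  unfold Phi
  rw [Polynomial.coe_eval₂RingHom, Polynomial.eval₂_eq_sum_range, mul_sum]
  apply sum_congr rfl
  intro j hj
  rw [map_mul, aeval_homE (Eexp B) _ (fun α hα => wt_le_Eexp B (Finset.mem_range.1 hj) hα)
    (fun k => ∑ i, x i ^ (k + 1)) hx, MvPolynomial.algHom_C]
  simp only [AlgHom.toRingHom_eq_coe, RingHom.coe_coe, map_pow, map_natCast]
  ring

theorem truncEval_zero (B : Polynomial (MvPolynomial ℕ ℚ)) (n : ℕ) {N : ℕ} :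
    truncEval (Fam B n) (0 : Fin N → ℝ) = 0 := by
  unfold truncEval
  have h0 : (fun k : ℕ => ∑ i : Fin N, (0 : Fin N → ℝ) i ^ (k + 1)) = fun _ => 0 := by
    funext k; simp
  rw [h0, MvPolynomial.aeval_def, MvPolynomial.eval₂_eq]
  apply Finset.sum_eq_zero
  intro α hα
  have hne : α ≠ 0 := by
    rintro rfl
    have h := Fam_homog B n (MvPolynomial.mem_support_iff.1 hα)
    simp [Eexp] at h
  obtain ⟨i, hi⟩ := Finsupp.support_nonempty_iff.2 hne
  rw [Finset.prod_eq_zero hi, mul_zero]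
  exact zero_pow (Finsupp.mem_support_iff.1 hi)

/-- The list of squares of coordinates attached to a solution. -/
def witList {k : ℕ} (m : Fin k → ℕ) (σ : ℕ) : List ℕ :=
  (List.ofFn fun j : Fin k => List.replicate (m j) ((j : ℕ) + 3)).flatten ++
    (List.replicate σ 1 ++ [2])

theorem witList_sum {k : ℕ} (m : Fin k → ℕ) (σ : ℕ) (φ : ℕ → ℝ) :
    ((witList m σ).map φ).sum = (∑ j : Fin k, (m j : ℝ) * φ (j + 3)) + (σ * φ 1 + φ 2) := by
  unfold witList
  simp only [List.map_append, List.sum_append, List.map_replicate, List.sum_replicate,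
    List.map_cons, List.map_nil, List.sum_cons, List.sum_nil, add_zero, nsmul_eq_mul]
  congr 1
  rw [List.map_flatten, List.sum_flatten, List.map_map, List.map_ofFn, List.sum_ofFn]
  apply sum_congr rfl
  intro j _
  simp

theorem bracket_neg {k : ℕ} (D : MvPolynomial (Option (Fin k)) ℤ) (C M n : ℕ)
    (m : Fin k → ℕ)
    (hm : MvPolynomial.eval (fun i => Option.elim i (n : ℤ) fun j => (m j : ℤ)) D = 0) :
    ∃ (N : ℕ) (x : Fin N → ℝ), x ≠ 0 ∧ truncEval (Fam (Btot D C M) n) x < 0 := by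
  let σ : ℕ := ∑ j : Fin k, m j * ((j + 3) * (j + 1))
  let l := witList m σ
  let x : Fin l.length → ℝ := fun i => √(l.get i : ℝ)
  have hx2 : ∀ i, x i ^ 2 = (l.get i : ℝ) := fun i => Real.sq_sqrt (Nat.cast_nonneg _)
  have hsum : ∀ φ : ℕ → ℝ, ∑ i, φ (l.get i) =
      (∑ j : Fin k, (m j : ℝ) * φ (j + 3)) + (σ * φ 1 + φ 2) := by
    intro φ
    rw [← witList_sum]
    rw [← List.sum_ofFn]
    congr 1
    have h := List.map_ofFn (f := fun i => l.get i) (g := φ)
    rw [List.ofFn_get] at h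
    exact h.symm
  have hq1 : ∑ i, x i ^ 2 = (∑ j : Fin k, (m j : ℝ) * (j + 3)) + (σ + 2) := by
    simp only [hx2]
    rw [hsum fun a => (a : ℝ)]
    push_cast; ring
  have hq2 : ∑ i, x i ^ 4 = (∑ j : Fin k, (m j : ℝ) * (j + 3) ^ 2) + (σ + 4) := by
    have : ∀ i, x i ^ 4 = (l.get i : ℝ) ^ 2 := fun i => by rw [← hx2]; ring
    simp only [this]
    rw [hsum fun a => (a : ℝ) ^ 2]
    push_cast; ring
  have hσ : (σ : ℝ) = ∑ j : Fin k, (m j : ℝ) * ((j + 3) * (j + 1)) := by
    simp only [σ]; push_cast; rfl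
  have hq12 : ∑ i, x i ^ 4 = 2 * ∑ i, x i ^ 2 := by
    rw [hq1, hq2]
    have : (∑ j : Fin k, (m j : ℝ) * (j + 3) ^ 2) =
        2 * (∑ j : Fin k, (m j : ℝ) * (j + 3)) + σ := by
      rw [hσ, mul_sum, ← sum_add_distrib]
      apply sum_congr rfl; intro j _; ring
    rw [this]; ring
  have hpos : 0 < ∑ i, x i ^ 4 := by
    rw [hq2]
    have h1 : 0 ≤ ∑ j : Fin k, (m j : ℝ) * (j + 3) ^ 2 :=
      Finset.sum_nonneg fun j _ => by positivity
    have h2 : (0 : ℝ) ≤ σ := Nat.cast_nonneg _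
    linarith
  refine ⟨l.length, x, ?_, ?_⟩
  · rintro h0
    rw [h0] at hpos
    simp at hpos
  · rw [truncEval_Fam _ _ _ hpos.ne']
    have ht : ∀ i, x i ^ 2 * (2 * (∑ i, x i ^ 2) / ∑ i, x i ^ 4) = (l.get i : ℝ) := by
      intro i
      rw [← hq12, div_self hpos.ne', mul_one, hx2]
    simp only [ht]
    rw [Phi_Btot D C M n (fun i => (l.get i : ℝ))]
    have hnode : ∀ (φ : Polynomial ℚ) (a : ℕ), Polynomial.aeval (a : ℝ) φ = ((φ.eval (a : ℚ) : ℚ) : ℝ) := by
      intro φ a
      have := Polynomial.aeval_algebraMap_apply ℝ (a : ℚ) φ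
      simpa using this
    have hW : Wval k (fun i => (l.get i : ℝ)) = 0 := by
      unfold Wval
      apply Finset.sum_eq_zero
      intro j _
      rw [hsum fun a => Polynomial.aeval (a : ℝ) (Wb k j)]
      simp only [hnode]
      have e1 : (Wb k j).eval ((1 : ℕ) : ℚ) = 0 := Wb_eval k j 1 j.2 (by omega)
      have e2 : (Wb k j).eval ((2 : ℕ) : ℚ) = 0 := Wb_eval k j 2 j.2 (by omega)
      rw [e1, e2]
      simp only [Rat.cast_zero, mul_zero, add_zero]
      apply Finset.sum_eq_zero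
      intro j' _
      rw [Wb_eval k j (j' + 3) j.2 (by omega)]
      simp
    have hz : zval k n (fun i => (l.get i : ℝ)) =
        fun o => Option.elim o (n : ℝ) fun j => (m j : ℝ) := by
      funext o
      cases o with
      | none => rfl
      | some j =>
        simp only [zval, Option.elim_some]
        rw [hsum fun a => Polynomial.aeval (a : ℝ) (Lb k j)]
        simp only [hnode]
        have e1 : (Lb k j).eval ((1 : ℕ) : ℚ) = 0 := by
          rw [Lb_eval k j 1 j.2 (by omega), if_neg (by omega)]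
        have e2 : (Lb k j).eval ((2 : ℕ) : ℚ) = 0 := by
          rw [Lb_eval k j 2 j.2 (by omega), if_neg (by omega)]
        rw [e1, e2]
        simp only [Rat.cast_zero, mul_zero, add_zero]
        rw [Finset.sum_eq_single j]
        · rw [Lb_eval k j (j + 3) j.2 (by omega), if_pos rfl]; simp
        · intro j' _ hj'
          rw [Lb_eval k j (j' + 3) j.2 (by omega), if_neg (fun h => hj' (Fin.ext (by omega)))]
          simp
        · intro h; exact absurd (Finset.mem_univ _) h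
    have hint : MvPolynomial.aeval (fun o => Option.elim o (n : ℝ) fun j => (m j : ℝ)) D = 0 := by
      have := MvPolynomial.hom_eval₂ D (RingHom.id ℤ) (Int.castRingHom ℝ)
        (fun i : Option (Fin k) => Option.elim i (n : ℤ) fun j => (m j : ℤ))
      have h0 : MvPolynomial.eval₂ (RingHom.id ℤ)
        (fun i : Option (Fin k) => Option.elim i (n : ℤ) fun j => (m j : ℤ)) D = 0 := hm
      rw [h0, map_zero] at this
      rw [MvPolynomial.aeval_def]
      rw [this]
      congr 1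
      funext o
      cases o <;> simp
    rw [hW, hz, hint]
    have : (0 : ℝ) < (∑ i, x i ^ 4) ^ Eexp (Btot D C M) := pow_pos hpos _
    nlinarith

/-- **Main reduction.** For every r.e. predicate `P` there is a computable family of instances,
all homogeneous and even, such that the `n`-th one takes a negative value at some non-zero point
if `P n` holds, and is positive at all non-zero points otherwise. -/
theorem reduction {P : ℕ → Prop} (hP : REPred P) :
    ∃ F : ℕ → Instance, Computable F ∧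
      (∀ n, IsHomogeneousSym (toPoly (F n))) ∧ (∀ n, IsEvenSym (toPoly (F n))) ∧
      (∀ n (N : ℕ), truncEval (toPoly (F n)) (0 : Fin N → ℝ) = 0) ∧
      (∀ n, P n → ∃ (N : ℕ) (x : Fin N → ℝ), x ≠ 0 ∧ truncEval (toPoly (F n)) x < 0) ∧
      (∀ n, ¬ P n → ∀ (N : ℕ) (x : Fin N → ℝ), x ≠ 0 → 0 < truncEval (toPoly (F n)) x) := by
  obtain ⟨k, D, hD⟩ := dprm_mv hP
  obtain ⟨C, M, hCM⟩ := poly_lipschitz (D ^ 2)
  obtain ⟨F, hF, hF'⟩ := Fam_coded (Btot D C M)
  refine ⟨F, hF, fun n => ?_, fun n => ?_, fun n N => ?_, fun n hn => ?_, fun n hn N x hx => ?_⟩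
  · rw [hF']; exact ⟨_, Fam_homog _ _⟩
  · rw [hF']; exact Fam_even _ _
  · rw [hF']; exact truncEval_zero _ _
  · obtain ⟨m, hm⟩ := (hD n).1 hn
    rw [hF']
    exact bracket_neg D C M n m hm
  · rw [hF']
    have hpos : 0 < ∑ i, x i ^ 4 := by
      obtain ⟨i, hi⟩ := Function.ne_iff.1 hx
      refine Finset.sum_pos' (fun i _ => by positivity) ⟨i, Finset.mem_univ i, ?_⟩
      have : x i ≠ 0 := hi
      positivity
    rw [truncEval_Fam _ _ _ hpos.ne']
    apply mul_pos (pow_pos hpos _)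
    rw [Phi_Btot D C M n]
    exact bracket_pos D C M n (fun z z' δ hδ h => (hCM z z' δ hδ h).2)
      (fun h => hn ((hD n).2 h)) _

end Pool.Agent.Helper81.Sym
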