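import Pool.Agent.Helper81.SymDefs
import Pool.Agent.Helper81.DPRM

/-!
Reduction from Diophantine equations to any-dimensional non-negativity.
-/

namespace Pool.Agent.Helper81.Sym

open Finset

/-! ### Approximate integrality -/

theorem approx_bool (e : ℝ) : ∃ b : Bool,
    |e ^ 2 * (3 - 2 * e) - (if b then 1 else 0)| ≤
      (e * (1 - e)) ^ 2 * ((3 - 2 * e) ^ 2 + (1 + 2 * e) ^ 2) := by
  set L := e ^ 2 * (3 - 2 * e) with hL
  set w := (e * (1 - e)) ^ 2 * ((3 - 2 * e) ^ 2 + (1 + 2 * e) ^ 2) with hw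
  have hZ : 2 * |L * (1 - L)| ≤ w := by
    have h1 : L * (1 - L) = (e * (1 - e)) ^ 2 * ((3 - 2 * e) * (1 + 2 * e)) := by
      rw [hL]; ring
    rw [h1, abs_mul, abs_of_nonneg (sq_nonneg (e * (1 - e))), hw]
    have h2 : 2 * |(3 - 2 * e) * (1 + 2 * e)| ≤ (3 - 2 * e) ^ 2 + (1 + 2 * e) ^ 2 := by
      rw [abs_mul]
      nlinarith [sq_nonneg (|3 - 2 * e| - |1 + 2 * e|), sq_abs (3 - 2 * e), sq_abs (1 + 2 * e)]
    nlinarith [sq_nonneg (e * (1 - e))]
  rw [abs_mul] at hZ
  rcases le_total (|L|) (|1 - L|) with h | h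
  · refine ⟨false, ?_⟩
    have h3 : 1 ≤ |L| + |1 - L| := by
      have := abs_add_le L (1 - L)
      rw [show L + (1 - L) = 1 by ring, abs_one] at this
      exact this
    simp only [Bool.false_eq_true, if_false, sub_zero]
    nlinarith [abs_nonneg L, abs_nonneg (1 - L)]
  · refine ⟨true, ?_⟩
    have h3 : 1 ≤ |L| + |1 - L| := by
      have := abs_add_le L (1 - L)
      rw [show L + (1 - L) = 1 by ring, abs_one] at this
      exact this
    simp only [if_true]
    rw [abs_sub_comm]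
    nlinarith [abs_nonneg L, abs_nonneg (1 - L)]

/-! ### Growth and Lipschitz bounds for polynomials -/

theorem poly_lipschitz {σ : Type} [Fintype σ] (g : MvPolynomial σ ℤ) :
    ∃ C M : ℕ, ∀ (z z' : σ → ℝ) (δ : ℝ), 0 ≤ δ → (∀ i, |z i - z' i| ≤ δ) →
      |MvPolynomial.aeval z g| ≤ C * (1 + ∑ i, z i ^ 2) ^ M ∧
      |MvPolynomial.aeval z g - MvPolynomial.aeval z' g| ≤
        C * δ * (1 + δ) ^ M * (1 + ∑ i, z i ^ 2) ^ M := by
  have hN : ∀ z : σ → ℝ, 1 ≤ 1 + ∑ i, z i ^ 2 := fun z => by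
    have : 0 ≤ ∑ i, z i ^ 2 := Finset.sum_nonneg fun i _ => sq_nonneg _
    linarith
  induction g using MvPolynomial.induction_on with
  | C a =>
    refine ⟨a.natAbs, 0, fun z z' δ hδ h => ?_⟩
    simp only [MvPolynomial.algHom_C, pow_zero, mul_one, sub_self, abs_zero]
    constructor
    · simp [Nat.cast_natAbs]
    · positivity
  | add p q hp hq =>
    obtain ⟨C1, M1, h1⟩ := hp
    obtain ⟨C2, M2, h2⟩ := hq
    refine ⟨C1 + C2, M1 + M2, fun z z' δ hδ h => ?_⟩
    obtain ⟨a1, b1⟩ := h1 z z' δ hδ h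
    obtain ⟨a2, b2⟩ := h2 z z' δ hδ h
    have hN1 : (1 + ∑ i, z i ^ 2) ^ M1 ≤ (1 + ∑ i, z i ^ 2) ^ (M1 + M2) :=
      pow_le_pow_right₀ (hN z) (Nat.le_add_right _ _)
    have hN2 : (1 + ∑ i, z i ^ 2) ^ M2 ≤ (1 + ∑ i, z i ^ 2) ^ (M1 + M2) :=
      pow_le_pow_right₀ (hN z) (Nat.le_add_left _ _)
    have hd1 : (1 + δ) ^ M1 ≤ (1 + δ) ^ (M1 + M2) :=
      pow_le_pow_right₀ (by linarith) (Nat.le_add_right _ _)
    have hd2 : (1 + δ) ^ M2 ≤ (1 + δ) ^ (M1 + M2) :=
      pow_le_pow_right₀ (by linarith) (Nat.le_add_left _ _)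
    have hN0 := hN z
    have hpos : 0 ≤ 1 + ∑ i, z i ^ 2 := by linarith
    constructor
    · rw [map_add]
      refine (abs_add_le _ _).trans ?_
      push_cast
      rw [add_mul]
      refine add_le_add (a1.trans ?_) (a2.trans ?_)
      · exact mul_le_mul_of_nonneg_left hN1 (Nat.cast_nonneg _)
      · exact mul_le_mul_of_nonneg_left hN2 (Nat.cast_nonneg _)
    · rw [map_add, map_add]
      rw [show (MvPolynomial.aeval z) p + (MvPolynomial.aeval z) q -
        ((MvPolynomial.aeval z') p + (MvPolynomial.aeval z') q) =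
        ((MvPolynomial.aeval z) p - (MvPolynomial.aeval z') p) +
        ((MvPolynomial.aeval z) q - (MvPolynomial.aeval z') q) by ring]
      refine (abs_add_le _ _).trans ?_
      push_cast
      rw [add_mul, add_mul, add_mul]
      refine add_le_add (b1.trans ?_) (b2.trans ?_)
      · apply mul_le_mul _ hN1 (by positivity) (by positivity)
        exact mul_le_mul_of_nonneg_left hd1 (by positivity)
      · apply mul_le_mul _ hN2 (by positivity) (by positivity)
        exact mul_le_mul_of_nonneg_left hd2 (by positivity)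
  | mul_X p i hp =>
    obtain ⟨C, M, h1⟩ := hp
    refine ⟨2 * C, M + 1, fun z z' δ hδ h => ?_⟩
    obtain ⟨a1, b1⟩ := h1 z z' δ hδ h
    have hN0 := hN z
    set N := 1 + ∑ i, z i ^ 2 with hNdef
    have hNpos : 0 < N := by linarith
    have hzi : |z i| ≤ N := by
      have h2 : z i ^ 2 ≤ ∑ i, z i ^ 2 :=
        Finset.single_le_sum (f := fun i => z i ^ 2) (fun _ _ => sq_nonneg _) (Finset.mem_univ i)
      have h3 : |z i| ≤ 1 + z i ^ 2 := by
        rw [← sq_abs]; nlinarith [sq_nonneg (|z i| - 1), abs_nonneg (z i)]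
      linarith
    have hCN : 0 ≤ (C : ℝ) * N ^ M := by positivity
    constructor
    · rw [map_mul, MvPolynomial.aeval_X, abs_mul]
      push_cast
      calc |(MvPolynomial.aeval z) p| * |z i| ≤ (C * N ^ M) * N :=
            mul_le_mul a1 hzi (abs_nonneg _) hCN
        _ ≤ 2 * C * N ^ (M + 1) := by
            rw [pow_succ]
            nlinarith [mul_nonneg hCN hNpos.le]
    · rw [map_mul, map_mul, MvPolynomial.aeval_X, MvPolynomial.aeval_X]
      set P := (MvPolynomial.aeval z) p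
      set P' := (MvPolynomial.aeval z') p
      have hP' : |P'| ≤ C * N ^ M + C * δ * (1 + δ) ^ M * N ^ M := by
        have : |P'| ≤ |P| + |P - P'| := by
          have := abs_sub_abs_le_abs_sub P' P
          rw [abs_sub_comm P' P] at this
          linarith
        linarith
      have e : P * z i - P' * z' i = (P - P') * z i + P' * (z i - z' i) := by ring
      rw [e]
      refine (abs_add_le _ _).trans ?_
      rw [abs_mul, abs_mul]
      have t1 : |P - P'| * |z i| ≤ C * δ * (1 + δ) ^ M * N ^ M * N :=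
        mul_le_mul b1 hzi (abs_nonneg _) (by positivity)
      have t2 : |P'| * |z i - z' i| ≤ (C * N ^ M + C * δ * (1 + δ) ^ M * N ^ M) * δ :=
        mul_le_mul hP' (h i) (abs_nonneg _) (by positivity)
      have hd1 : (1 : ℝ) ≤ (1 + δ) ^ M := one_le_pow₀ (by linarith)
      have s1 : (C * N ^ M + C * δ * (1 + δ) ^ M * N ^ M) * δ ≤
          C * δ * (1 + δ) ^ (M + 1) * N ^ M := by
        have : 1 + δ * (1 + δ) ^ M ≤ (1 + δ) ^ (M + 1) := by
          rw [pow_succ]; nlinarith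
        have h0 : 0 ≤ (C : ℝ) * δ * N ^ M := by positivity
        nlinarith [mul_le_mul_of_nonneg_left this h0]
      have s2 : (C : ℝ) * δ * (1 + δ) ^ (M + 1) * N ^ M ≤ C * δ * (1 + δ) ^ (M + 1) * N ^ (M + 1) :=
        mul_le_mul_of_nonneg_left (pow_le_pow_right₀ hN0 (Nat.le_succ _)) (by positivity)
      have s3 : (C : ℝ) * δ * (1 + δ) ^ M * N ^ M * N ≤ C * δ * (1 + δ) ^ (M + 1) * N ^ (M + 1) := by
        have hh : (1 + δ) ^ M ≤ (1 + δ) ^ (M + 1) := pow_le_pow_right₀ (by linarith) (Nat.le_succ _)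
        calc (C : ℝ) * δ * (1 + δ) ^ M * N ^ M * N = C * δ * (1 + δ) ^ M * N ^ (M + 1) := by ring
          _ ≤ _ := by
            apply mul_le_mul_of_nonneg_right _ (by positivity)
            exact mul_le_mul_of_nonneg_left hh (by positivity)
      push_cast
      nlinarith

/-! ### Power-sum linearisation -/

/-- For `φ` with `φ(0) = 0`, the linear form `PS φ = ∑ φ_{r+1} X_r` evaluates to `∑_i φ(t_i)`
when `X_r = ∑_i t_i^{r+1}`. -/
noncomputable def PS (φ : Polynomial ℚ) : MvPolynomial ℕ ℚ :=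
  ∑ r ∈ range φ.natDegree, MvPolynomial.C (φ.coeff (r + 1)) * MvPolynomial.X r

theorem aeval_PS (φ : Polynomial ℚ) (h0 : φ.eval 0 = 0) {N : ℕ} (t : Fin N → ℝ) :
    MvPolynomial.aeval (fun r => ∑ i, t i ^ (r + 1)) (PS φ) = ∑ i, Polynomial.aeval (t i) φ := by
  unfold PS
  have hi : ∀ i, Polynomial.aeval (t i) φ =
      ∑ r ∈ range φ.natDegree, (φ.coeff (r + 1) : ℝ) * t i ^ (r + 1) := by
    intro i
    rw [Polynomial.aeval_eq_sum_range, sum_range_succ']
    have : φ.coeff 0 = 0 := by rw [Polynomial.coeff_zero_eq_eval_zero, h0]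
    rw [this]
    simp [Algebra.smul_def]
  simp only [hi]
  rw [Finset.sum_comm, map_sum]
  apply sum_congr rfl
  intro r _
  rw [map_mul, MvPolynomial.aeval_X, MvPolynomial.algHom_C, mul_sum]
  rfl

/-! ### Homogenisation -/

/-- weight of a monomial in the `s_r` (variable `r` stands for `s_{r+1}`). -/
def wt (α : ℕ →₀ ℕ) : ℕ := α.sum fun r e => e * (r + 1)

/-- The homogenised monomial. -/
noncomputable def HM (E : ℕ) (α : ℕ →₀ ℕ) : MvPolynomial ℕ ℚ :=
  (α.prod fun r e => (MvPolynomial.X (2 * r + 1) *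
    (MvPolynomial.C 2 * MvPolynomial.X 1) ^ (r + 1)) ^ e) * MvPolynomial.X 3 ^ (E - wt α)

/-- Homogenisation: substitute `s_{r+1} = p_{2r+2} (2 p_2)^{r+1} / p_4^{r+1}` and multiply by
`p_4^E`. -/
noncomputable def homE (E : ℕ) (b : MvPolynomial ℕ ℚ) : MvPolynomial ℕ ℚ :=
  ∑ α ∈ b.support, MvPolynomial.C (b.coeff α) * HM E α

theorem HM_homog (E : ℕ) (α : ℕ →₀ ℕ) (h : wt α ≤ E) :
    (HM E α).IsWeightedHomogeneous (fun k : ℕ => k + 1) (4 * E) := by
  unfold HM
  have h1 : ∀ r e : ℕ, ((MvPolynomial.X (2 * r + 1) *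
      (MvPolynomial.C 2 * MvPolynomial.X 1) ^ (r + 1)) ^ e :
        MvPolynomial ℕ ℚ).IsWeightedHomogeneous (fun k : ℕ => k + 1) (4 * (e * (r + 1))) := by
    intro r e
    have a1 := (MvPolynomial.isWeightedHomogeneous_X ℚ (fun k : ℕ => k + 1) (2 * r + 1))
    have a2 := ((MvPolynomial.isWeightedHomogeneous_X ℚ (fun k : ℕ => k + 1) 1).C_mul 2).pow
      (r + 1)
    have a3 := (a1.mul a2).pow e
    convert a3 using 1
    simp only [smul_eq_mul]
    ring
  have h2 : (α.prod fun r e => (MvPolynomial.X (2 * r + 1) *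
      (MvPolynomial.C 2 * MvPolynomial.X 1) ^ (r + 1)) ^ e :
        MvPolynomial ℕ ℚ).IsWeightedHomogeneous (fun k : ℕ => k + 1) (4 * wt α) := by
    unfold wt Finsupp.prod Finsupp.sum
    rw [Finset.mul_sum]
    exact MvPolynomial.IsWeightedHomogeneous.prod _ _ _ fun r _ => h1 r (α r)
  have h3 := (MvPolynomial.isWeightedHomogeneous_X ℚ (fun k : ℕ => k + 1) 3).pow (E - wt α)
  have h4 := h2.mul h3
  convert h4 using 1
  simp only [smul_eq_mul]
  omega

theorem homE_homog (E : ℕ) (b : MvPolynomial ℕ ℚ) (h : ∀ α ∈ b.support, wt α ≤ E) :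
    (homE E b).IsWeightedHomogeneous (fun k : ℕ => k + 1) (4 * E) := by
  unfold homE
  apply MvPolynomial.IsWeightedHomogeneous.sum
  intro α hα
  exact (HM_homog E α (h α hα)).C_mul _

theorem HM_supported (E : ℕ) (α : ℕ →₀ ℕ) :
    HM E α ∈ MvPolynomial.supported ℚ {k : ℕ | Even (k + 1)} := by
  unfold HM
  have hX : ∀ k : ℕ, Even (k + 1) →
      (MvPolynomial.X k : MvPolynomial ℕ ℚ) ∈ MvPolynomial.supported ℚ {k : ℕ | Even (k + 1)} :=
    fun k hk => (MvPolynomial.X_mem_supported).2 hk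
  apply Subalgebra.mul_mem
  · unfold Finsupp.prod
    apply Subalgebra.prod_mem
    intro r _
    apply Subalgebra.pow_mem
    apply Subalgebra.mul_mem
    · exact hX _ ⟨r + 1, by ring⟩
    · apply Subalgebra.pow_mem
      apply Subalgebra.mul_mem
      · exact Subalgebra.algebraMap_mem _ _
      · exact hX _ ⟨1, rfl⟩
  · apply Subalgebra.pow_mem
    exact hX _ ⟨2, rfl⟩

theorem homE_supported (E : ℕ) (b : MvPolynomial ℕ ℚ) :
    homE E b ∈ MvPolynomial.supported ℚ {k : ℕ | Even (k + 1)} := by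
  unfold homE
  apply Subalgebra.sum_mem
  intro α _
  exact Subalgebra.mul_mem _ (Subalgebra.algebraMap_mem _ _) (HM_supported E α)

theorem aeval_HM (E : ℕ) (α : ℕ →₀ ℕ) (h : wt α ≤ E) (p : ℕ → ℝ) (h3 : p 3 ≠ 0) :
    MvPolynomial.aeval p (HM E α) =
      p 3 ^ E * α.prod fun r e => (p (2 * r + 1) * (2 * p 1 / p 3) ^ (r + 1)) ^ e := by
  unfold HM
  rw [map_mul, map_pow, MvPolynomial.aeval_X]
  unfold Finsupp.prod
  rw [map_prod]
  simp only [map_pow, map_mul, MvPolynomial.aeval_X, MvPolynomial.algHom_C]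
  have h1 : p 3 ^ E = p 3 ^ (E - wt α) * ∏ r ∈ α.support, (p 3 ^ (r + 1)) ^ (α r) := by
    have : ∏ r ∈ α.support, (p 3 ^ (r + 1)) ^ (α r) = p 3 ^ wt α := by
      unfold wt Finsupp.sum
      rw [← Finset.prod_pow_eq_pow_sum]
      apply prod_congr rfl
      intro r _
      rw [← pow_mul, mul_comm]
    rw [this, ← pow_add, Nat.sub_add_cancel h]
  rw [h1, mul_comm (p 3 ^ (E - wt α)), mul_right_comm, ← Finset.prod_mul_distrib, mul_comm]
  rw [mul_comm (p 3 ^ (E - wt α))]
  congr 1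
  apply prod_congr rfl
  intro r _
  rw [← mul_pow]
  congr 1
  have : (algebraMap ℚ ℝ) 2 = 2 := by simp
  rw [this, div_pow]
  field_simp

theorem aeval_homE (E : ℕ) (b : MvPolynomial ℕ ℚ) (h : ∀ α ∈ b.support, wt α ≤ E)
    (p : ℕ → ℝ) (h3 : p 3 ≠ 0) :
    MvPolynomial.aeval p (homE E b) =
      p 3 ^ E * MvPolynomial.aeval (fun r => p (2 * r + 1) * (2 * p 1 / p 3) ^ (r + 1)) b := by
  unfold homE
  rw [map_sum]
  conv_rhs => rw [MvPolynomial.aeval_def, MvPolynomial.eval₂_eq, mul_sum]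
  apply sum_congr rfl
  intro α hα
  rw [map_mul, MvPolynomial.algHom_C, aeval_HM E α (h α hα) p h3]
  unfold Finsupp.prod
  ring

end Pool.Agent.Helper81.Sym
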